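import Pool.Agent.Y716.Q.Pos

/-!
# The Hasse principle for almost all forms over the rational numbers
-/

namespace Pool.Agent.Y716.Q

section
variable {ι : Type*}

/-- nontrivial rational zero -/
def SolQ (f : MvPolynomial ι ℤ) : Prop :=
  ∃ x : ι → ℚ, x ≠ 0 ∧ MvPolynomial.aeval x f = 0

/-- nontrivial zeros over all completions of `ℚ` -/
def ELS (f : MvPolynomial ι ℤ) : Prop :=
  (∃ x : ι → ℝ, x ≠ 0 ∧ MvPolynomial.aeval x f = 0) ∧
    ∀ (p : ℕ) [Fact p.Prime], ∃ x : ι → Padic p, x ≠ 0 ∧ MvPolynomial.aeval x f = 0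

theorem aeval_cast {K : Type*} [Field K] (f : MvPolynomial ι ℤ) (x : ι → ℤ) :
    MvPolynomial.aeval (fun i => (x i : K)) f = ((MvPolynomial.eval x f : ℤ) : K) := by
  have h := MvPolynomial.aeval_algebraMap_apply K x f
  rw [MvPolynomial.aeval_eq_eval] at h
  exact h

variable [Fintype ι]

theorem aeval_smul' {K : Type*} [Field K] {d : ℕ} {f : MvPolynomial ι ℤ} (hf : f.IsHomogeneous d)
    (c : K) (x : ι → K) : MvPolynomial.aeval (fun i => c * x i) f =
      c ^ d * MvPolynomial.aeval x f := by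
  rw [MvPolynomial.aeval_def, MvPolynomial.aeval_def, MvPolynomial.eval₂_eq',
    MvPolynomial.eval₂_eq', Finset.mul_sum]
  refine Finset.sum_congr rfl (fun m hm => ?_)
  have h1 : ∑ i, m i = d := homog_sum_eq hf (MvPolynomial.mem_support_iff.mp hm)
  have h2 : ∏ i, (c * x i) ^ m i = c ^ d * ∏ i, x i ^ m i := by
    simp only [mul_pow]
    rw [Finset.prod_mul_distrib, Finset.prod_pow_eq_pow_sum, h1]
  rw [h2]; ring

theorem solQ_iff {d : ℕ} {f : MvPolynomial ι ℤ} (hf : f.IsHomogeneous d) : SolQ f ↔ Sol f := by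
  classical
  constructor
  · rintro ⟨x, hx0, hx⟩
    obtain ⟨b, hb⟩ := IsLocalization.exist_integer_multiples_of_finite (nonZeroDivisors ℤ) x
    choose a ha using hb
    have hb0 : (((b : ℤ) : ℚ)) ≠ 0 := by
      intro h
      exact nonZeroDivisors.ne_zero b.2 (by exact_mod_cast h)
    have hax : (fun i => ((a i : ℤ) : ℚ)) = fun i => ((b : ℤ) : ℚ) * x i := by
      funext i
      have := ha i
      rw [Algebra.smul_def] at this
      simpa using this
    refine ⟨a, ?_, ?_⟩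
    · intro h0
      apply hx0
      funext i
      have := congrFun hax i
      simp only [h0, Pi.zero_apply, Int.cast_zero] at this
      exact (mul_eq_zero.mp this.symm).resolve_left hb0
    · have h1 : MvPolynomial.aeval (fun i => ((a i : ℤ) : ℚ)) f = 0 := by
        rw [hax, aeval_smul' hf, hx, mul_zero]
      rw [aeval_cast] at h1
      exact_mod_cast h1
  · rintro ⟨x, hx0, hx⟩
    refine ⟨fun i => (x i : ℚ), ?_, ?_⟩
    · intro h0
      apply hx0
      funext i
      have := congrFun h0 i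
      simp only [Pi.zero_apply] at this
      exact_mod_cast this
    · rw [aeval_cast, hx, Int.cast_zero]

theorem solQ_els {f : MvPolynomial ι ℤ} {d : ℕ} (hf : f.IsHomogeneous d) (h : SolQ f) :
    ELS f := by
  obtain ⟨x, hx0, hx⟩ := (solQ_iff hf).mp h
  constructor
  · refine ⟨fun i => (x i : ℝ), ?_, by rw [aeval_cast, hx, Int.cast_zero]⟩
    intro h0
    apply hx0
    funext i
    have := congrFun h0 i
    simp only [Pi.zero_apply] at this
    exact_mod_cast this
  · intro p _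
    refine ⟨fun i => (x i : Padic p), ?_, by rw [aeval_cast, hx, Int.cast_zero]⟩
    intro h0
    apply hx0
    funext i
    have := congrFun h0 i
    simp only [Pi.zero_apply] at this
    exact_mod_cast this

/-- normalised real zeros -/
theorem exists_real_norm {f : MvPolynomial ι ℤ} {d : ℕ} (hf : f.IsHomogeneous d)
    (h : ∃ x : ι → ℝ, x ≠ 0 ∧ MvPolynomial.aeval x f = 0) :
    ∃ (r : ι) (ξ : ι → ℝ), ξ r = 1 ∧ (∀ i, |ξ i| ≤ 1) ∧ MvPolynomial.aeval ξ f = 0 := by
  obtain ⟨x, hx0, hx⟩ := h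
  have hne : Nonempty ι := by
    by_contra hcon
    rw [not_nonempty_iff] at hcon
    exact hx0 (funext (fun i => hcon.elim i))
  obtain ⟨r, _, hr⟩ := Finset.exists_max_image Finset.univ (fun i => |x i|) Finset.univ_nonempty
  have hr0 : x r ≠ 0 := by
    intro h0
    apply hx0
    funext i
    have := hr i (Finset.mem_univ i)
    rw [h0, abs_zero] at this
    exact abs_eq_zero.mp (le_antisymm this (abs_nonneg _))
  refine ⟨r, fun i => (x r)⁻¹ * x i, inv_mul_cancel₀ hr0, fun i => ?_, ?_⟩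
  · rw [abs_mul, abs_inv, inv_mul_le_iff₀ (abs_pos.mpr hr0), mul_one]
    exact hr i (Finset.mem_univ i)
  · rw [aeval_smul' hf, hx, mul_zero]

theorem els_locSolT {f : MvPolynomial ι ℤ} {d : ℕ} (hf : f.IsHomogeneous d) (h : ELS f) :
    LocSolT 1 0 0 1 f := by
  constructor
  · intro p hp E
    haveI : Fact p.Prime := ⟨hp⟩
    obtain ⟨r, z, hz1, hz2⟩ := exists_approx_of_padic f hf (h.2 p) E
    refine ⟨r, z, hz1, hz2, fun a ha i => ?_⟩
    have h1 : p ^ a = 1 := Nat.dvd_one.mp ha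
    have h2 : (p : ℤ) ^ a = 1 := by exact_mod_cast h1
    rw [h2]; exact one_dvd _
  · obtain ⟨r, ξ, h1, h2, h3⟩ := exists_real_norm hf h.1
    refine ⟨r, ξ, h1, h2, fun i => ?_, h3⟩
    rw [Pi.zero_apply, sub_zero]
    exact h2 i

theorem SolT.sol {N : ℕ} {c : ι → ℤ} {ζ : ι → ℝ} {δ : ℝ} {f : MvPolynomial ι ℤ}
    (h : SolT N c ζ δ f) : Sol f := by
  obtain ⟨x, h1, h2, _⟩ := h
  exact ⟨x, h1.ne_zero', h2⟩

open scoped Classical in
theorem ncard_eq_filter (d : ℕ) (R : ℝ) (p : MvPolynomial ι ℤ → Prop) :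
    ({f : MvPolynomial ι ℤ | IsF d R f ∧ p f} : Set _).ncard =
      ((formsZ ι d R).filter p).card := by
  rw [← Set.ncard_coe_finset]
  congr 1
  ext f
  simp [mem_formsZ]

end

/-- Almost all everywhere locally soluble forms have a zero. -/
theorem main_tendsto (ι : Type*) [Fintype ι] (hk4 : 4 ≤ Fintype.card ι) (e : ℕ)
    (he : e + 3 ≤ Fintype.card ι) :
    Filter.Tendsto (fun H : ℝ =>
      (({f : MvPolynomial ι ℤ | IsF (e + 2) H f ∧ SolQ f} : Set _).ncard : ℝ) /
      (({f : MvPolynomial ι ℤ | IsF (e + 2) H f ∧ ELS f} : Set _).ncard : ℝ))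
      Filter.atTop (nhds 1) := by
  classical
  obtain ⟨c, hc0, H₁, hH₁⟩ := sol_positive ι hk4 e he
  rw [Metric.tendsto_atTop]
  intro δ hδ
  obtain ⟨ε, hε⟩ : ∃ ε : ℝ, ε = δ / 2 * c := ⟨_, rfl⟩
  have hε0 : 0 < ε := by rw [hε]; positivity
  obtain ⟨H₂, hH₂⟩ := exc_count ι hk4 e he (N := 1) le_rfl 0 0 (δ := 1) one_pos hε0
  refine ⟨max (max H₁ H₂) 0, fun H hH => ?_⟩
  have hA1 : H₁ ≤ H := ((le_max_left _ _).trans (le_max_left _ _)).trans hH
  have hA2 : H₂ ≤ H := ((le_max_right _ _).trans (le_max_left _ _)).trans hH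
  have hA0 : 0 ≤ H := (le_max_right _ _).trans hH
  have h1 := hH₁ H hA1
  have h2 := hH₂ H hA2
  rw [ncard_eq_filter, ncard_eq_filter]
  obtain ⟨Fo, hFo⟩ : ∃ Fo, Fo = formsZ ι (e + 2) H := ⟨_, rfl⟩
  have hmem : ∀ f ∈ Fo, f.IsHomogeneous (e + 2) := by
    intro f hf
    rw [hFo] at hf
    exact (mem_formsZ.mp hf).1
  have hFo0 : (0:ℝ) < Fo.card := by
    rw [hFo]; exact_mod_cast card_forms_pos (ι := ι) (e + 2) hA0
  rw [← hFo] at h1 h2 ⊢
  have hsolK : Fo.filter (fun f => SolQ f) = Fo.filter (fun f => Sol f) := by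
    apply Finset.filter_congr
    intro f hf
    exact solQ_iff (hmem f hf)
  have hab : Fo.filter (fun f => SolQ f) ⊆ Fo.filter (fun f => ELS f) := by
    intro f hf
    rw [Finset.mem_filter] at hf ⊢
    exact ⟨hf.1, solQ_els (hmem f hf.1) hf.2⟩
  have hdiff : (Fo.filter (fun f => ELS f)) ⊆ (Fo.filter (fun f => SolQ f)) ∪
      (Fo.filter (fun f => LocSolT 1 0 0 1 f ∧ ¬ SolT 1 0 0 1 f)) := by
    intro f hf
    rw [Finset.mem_filter] at hf
    rw [Finset.mem_union, Finset.mem_filter, Finset.mem_filter]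
    by_cases hs : SolQ f
    · left; exact ⟨hf.1, hs⟩
    · right
      exact ⟨hf.1, els_locSolT (hmem f hf.1) hf.2,
        fun h => hs ((solQ_iff (hmem f hf.1)).mpr h.sol)⟩
  obtain ⟨a, ha⟩ : ∃ a : ℝ, a = ((Fo.filter (fun f => SolQ f)).card : ℝ) := ⟨_, rfl⟩
  obtain ⟨b, hb⟩ : ∃ b : ℝ, b = ((Fo.filter (fun f => ELS f)).card : ℝ) := ⟨_, rfl⟩
  have hab' : a ≤ b := by
    rw [ha, hb]; exact_mod_cast Finset.card_le_card hab
  have hba : b ≤ a + ε * Fo.card := by
    have h3 := (Finset.card_le_card hdiff).trans (Finset.card_union_le _ _)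
    have h4 : b ≤ a + ((Fo.filter (fun f => LocSolT 1 0 0 1 f ∧ ¬ SolT 1 0 0 1 f)).card : ℝ) := by
      rw [ha, hb]; exact_mod_cast h3
    linarith
  have hca : c * Fo.card ≤ a := by rw [ha, hsolK]; exact h1
  have ha0 : 0 < a := lt_of_lt_of_le (by positivity) hca
  have hb0 : 0 < b := lt_of_lt_of_le ha0 hab'
  rw [← ha, ← hb, Real.dist_eq]
  have h5 : a / b - 1 = -((b - a) / b) := by field_simp; ring
  rw [h5, abs_neg, abs_of_nonneg (div_nonneg (by linarith) hb0.le), div_lt_iff₀ hb0]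
  have h6 : ε * Fo.card ≤ δ / 2 * a := by
    calc ε * Fo.card = δ / 2 * (c * Fo.card) := by rw [hε]; ring
      _ ≤ δ / 2 * a := mul_le_mul_of_nonneg_left hca (by positivity)
  have h7 : δ / 2 * a < δ * b := by
    have h8 : δ / 2 * a ≤ δ / 2 * b := mul_le_mul_of_nonneg_left hab' (by positivity)
    have h9 : 0 < δ / 2 * b := by positivity
    linarith
  linarith

/-- The version in which the height runs through the natural numbers. -/
theorem main_tendsto_nat (ι : Type*) [Fintype ι] (hk4 : 4 ≤ Fintype.card ι) (e : ℕ)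
    (he : e + 3 ≤ Fintype.card ι) :
    Filter.Tendsto (fun H : ℕ =>
      (({f : MvPolynomial ι ℤ | f.IsHomogeneous (e + 2) ∧ (∀ m, |f.coeff m| ≤ (H : ℤ)) ∧
        ∃ x : ι → ℚ, x ≠ 0 ∧ MvPolynomial.aeval x f = 0} : Set _).ncard : ℝ) /
      (({f : MvPolynomial ι ℤ | f.IsHomogeneous (e + 2) ∧ (∀ m, |f.coeff m| ≤ (H : ℤ)) ∧
        (∃ x : ι → ℝ, x ≠ 0 ∧ MvPolynomial.aeval x f = 0) ∧
        ∀ (p : ℕ) [Fact p.Prime], ∃ x : ι → Padic p, x ≠ 0 ∧ MvPolynomial.aeval x f = 0} :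
          Set _).ncard : ℝ))
      Filter.atTop (nhds 1) := by
  have h1 := (main_tendsto ι hk4 e he).comp (tendsto_natCast_atTop_atTop (R := ℝ))
  refine h1.congr (fun H => ?_)
  simp only [Function.comp_apply]
  have hco : ∀ f : MvPolynomial ι ℤ, IsF (e + 2) ((H : ℕ) : ℝ) f ↔
      f.IsHomogeneous (e + 2) ∧ ∀ m, |f.coeff m| ≤ (H : ℤ) := by
    intro f
    unfold IsF
    refine and_congr_right (fun _ => forall_congr' (fun m => ?_))
    constructor
    · intro h
      have : ((|f.coeff m| : ℤ) : ℝ) ≤ ((H : ℤ) : ℝ) := by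
        rw [Int.cast_abs]; simpa using h
      exact_mod_cast this
    · intro h
      have : ((|f.coeff m| : ℤ) : ℝ) ≤ ((H : ℤ) : ℝ) := by exact_mod_cast h
      rw [Int.cast_abs] at this
      simpa using this
  congr 2
  · congr 1
    ext f
    simp only [Set.mem_setOf_eq, hco, SolQ, and_assoc]
  · congr 1
    ext f
    simp only [Set.mem_setOf_eq, hco, ELS, and_assoc]

end Pool.Agent.Y716.Q
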