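import Pool.Agent.Y716.Q.Loc

/-!
# The test set: few vectors of the box are imprimitive or unbalanced
-/

namespace Pool.Agent.Y716.Q

variable {ι : Type*} [Fintype ι]

theorem eq_smul_of_minors {x y : ι → ℤ} {w : ι → ℤ} (hw : ∑ i, w i * x i = 1)
    (h : ∀ i j, mn x y i j = 0) (k : ι) : y k = (∑ i, w i * y i) * x k := by
  calc y k = (∑ i, w i * x i) * y k := by rw [hw, one_mul]
    _ = ∑ i, w i * y i * x k := by
      rw [Finset.sum_mul]
      refine Finset.sum_congr rfl (fun i _ => ?_)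
      have := h i k
      unfold mn at this
      linear_combination w i * this
    _ = _ := by rw [Finset.sum_mul]

theorem unbal_bound (ι : Type*) [Fintype ι] (hk : 2 ≤ Fintype.card ι) :
    ∃ C : ℝ, 0 < C ∧ ∀ (B : ℝ) (m r : ℕ) (ε : ℝ), 1 ≤ B → 1 ≤ m → 1 ≤ r → 0 < ε → ε ≤ 1 / 64 →
      ((Fintype.card ι * r * m + 1) * B + 1) * (1 / (2 * m * ε)) ^ (2 * r) < 1 →
      1 ≤ 2 * B * ε → ∀ U : Finset (ι → ℤ), (∀ x ∈ U, Sz B x ∧ Prim x ∧ ¬ Bal B (r * m) x) →
      (U.card : ℝ) ≤ C * B ^ 2 * (2 * B * ε) ^ (Fintype.card ι - 1) *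
        (1 + Real.log (2 * B * ε)) := by
  obtain ⟨C, hC0, hC⟩ := unbal_count_int (ι := ι) hk
  refine ⟨C, hC0, ?_⟩
  intro B m r ε hB hm hr hε hε1 hsmall hBε U hU
  apply hC B (2 * B * ε) hBε (by nlinarith)
  intro x hx
  obtain ⟨hsz, hp, hnb⟩ := hU x hx
  refine ⟨hsz.1, ?_⟩
  obtain ⟨t, ht1, ht2, ht3⟩ : ∃ t : ℝ, 1 / (8 * B) ≤ |t| ∧ |t| ≤ 1 / 2 ∧
      ∀ i, ∃ z : ℤ, |t * x i - z| < ε := by
    by_contra hcon
    push Not at hcon
    apply hnb
    intro u hu
    obtain ⟨l, hl1, hl2⟩ := Pool.Agent.Y350.Z2.repr_of_no_approx x B hB hsz.1 m r hm hr ε hε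
      hsmall hcon u hu
    refine ⟨l, fun i => ?_, hl2⟩
    exact_mod_cast hl1 i
  choose z hz using ht3
  obtain ⟨r₁, hr₁⟩ := hsz.2
  have hB0 : 0 < B := by linarith
  refine ⟨z, ?_, ?_, ?_⟩
  · intro i
    have h1 := abs_lt.mp (hz i)
    have h2 := abs_le.mp (hsz.1 i)
    have h3 : |t * x i| ≤ B / 2 := by
      rw [abs_mul]
      have := hsz.1 i
      have := abs_nonneg (x i : ℝ)
      nlinarith
    have h4 := abs_le.mp h3
    rw [abs_le]
    constructor <;> linarith [h1.1, h1.2, h4.1, h4.2]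
  · by_contra hcon
    push Not at hcon
    obtain ⟨w, hw⟩ := hp.bezout
    have hmn : ∀ i j, mn x z i j = 0 := fun i j => hcon i j
    have h1 := eq_smul_of_minors hw hmn
    set s := ∑ i, w i * z i with hs
    have h2 : |(z r₁ : ℝ)| < |(x r₁ : ℝ)| := by
      have h3 := hz r₁
      have h4 : |(z r₁ : ℝ)| ≤ |t * x r₁| + |t * x r₁ - z r₁| := by
        have : (z r₁ : ℝ) = t * x r₁ - (t * x r₁ - z r₁) := by ring
        conv_lhs => rw [this]
        exact abs_sub _ _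
      rw [abs_mul] at h4
      have h5 : |t| * |(x r₁ : ℝ)| ≤ 1 / 2 * |(x r₁ : ℝ)| :=
        mul_le_mul_of_nonneg_right ht2 (abs_nonneg _)
      linarith
    have hs0 : s = 0 := by
      by_contra hne
      have h3 : 1 ≤ |(s : ℝ)| := by
        have := Int.one_le_abs hne
        exact_mod_cast this
      have h4 : |(z r₁ : ℝ)| = |(s : ℝ)| * |(x r₁ : ℝ)| := by
        rw [h1 r₁]; push_cast; rw [abs_mul]
      have h5 : 0 ≤ |(x r₁ : ℝ)| := abs_nonneg _
      nlinarith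
    have h3 : z r₁ = 0 := by rw [h1 r₁, hs0, zero_mul]
    have h4 := hz r₁
    rw [h3, Int.cast_zero, sub_zero, abs_mul] at h4
    have h5 : 1 / (8 * B) * (B / 4) ≤ |t| * |(x r₁ : ℝ)| :=
      mul_le_mul ht1 hr₁ (by positivity) (abs_nonneg _)
    have h6 : 1 / (8 * B) * (B / 4) = 1 / 32 := by field_simp; norm_num
    linarith
  · intro i j
    have h1 : ((x i * z j - x j * z i : ℤ) : ℝ) =
        (x j : ℝ) * (t * x i - z i) - (x i : ℝ) * (t * x j - z j) := by push_cast; ring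
    rw [h1]
    refine (abs_sub _ _).trans ?_
    rw [abs_mul, abs_mul]
    have h2 : |(x j : ℝ)| * |t * x i - z i| ≤ B * ε :=
      mul_le_mul (hsz.1 j) (hz i).le (abs_nonneg _) hB0.le
    have h3 : |(x i : ℝ)| * |t * x j - z j| ≤ B * ε :=
      mul_le_mul (hsz.1 i) (hz j).le (abs_nonneg _) hB0.le
    linarith

/-- vectors of the box have the right size -/
theorem InBox.sz {P : ℝ} {ξ : ι → ℝ} {i₀ : ι} {ρ ρ' : ℝ} {x : ι → ℤ} (hP : 0 < P)
    (hρ : 0 ≤ ρ) (hρρ' : ρ ≤ ρ') (hρ' : ρ' ≤ 1 / 2) (hξ : ∀ i, |ξ i| ≤ 1) (hξr : ∃ r, ξ r = 1)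
    (hx : InBox P ξ i₀ ρ ρ' (fun i => (x i : ℝ))) : Sz (2 * P) x := by
  have hwd : ∀ i, 0 ≤ wd i₀ ρ ρ' i ∧ wd i₀ ρ ρ' i ≤ 1 / 2 := by
    intro i
    unfold wd
    split_ifs
    · exact ⟨hρ.trans hρρ', hρ'⟩
    · exact ⟨hρ, hρρ'.trans hρ'⟩
  constructor
  · intro i
    have h1 := hx i
    have h2 := hwd i
    have h3 := abs_le.mp (hξ i)
    rw [abs_le]
    constructor <;> nlinarith
  · obtain ⟨r, hr⟩ := hξr
    refine ⟨r, ?_⟩
    have h1 := (hx r).1
    have h2 := hwd r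
    rw [hr] at h1
    refine le_trans ?_ (le_abs_self _)
    nlinarith

theorem sum_inv_sq (w N : ℕ) (hw : 1 ≤ w) :
    ∑ D ∈ Finset.Ioc w N, (1 : ℝ) / (D : ℝ) ^ 2 ≤ 1 / w := by
  have key : ∀ N : ℕ, w ≤ N → ∑ D ∈ Finset.Ioc w N, (1 : ℝ) / (D : ℝ) ^ 2 ≤ 1 / w - 1 / N := by
    intro N hN
    induction N, hN using Nat.le_induction with
    | base => simp
    | succ n hn ih =>
      rw [← Finset.insert_Ioc_right_eq_Ioc_add_one (by omega : w ≤ n)]
      rw [Finset.sum_insert (by simp)]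
      have hn0 : (0:ℝ) < n := by
        have : 0 < n := by omega
        exact_mod_cast this
      have h1 : (1:ℝ) / ((n + 1 : ℕ) : ℝ) ^ 2 ≤ 1 / n - 1 / ((n + 1 : ℕ) : ℝ) := by
        push_cast
        rw [div_sub_div _ _ (by positivity) (by positivity), div_le_div_iff₀ (by positivity)
          (by positivity)]
        nlinarith
      linarith
  by_cases h : w ≤ N
  · have := key N h
    have h2 : (0:ℝ) ≤ 1 / N := by positivity
    linarith
  · rw [Finset.Ioc_eq_empty_of_le (by omega)]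
    simp

open scoped Classical in
theorem div_count {B : ℝ} (hB : 0 ≤ B) (p : ℕ) (hp : 0 < p) (hpB : (p : ℝ) ≤ B)
    (U : Finset (ι → ℤ)) (hU : ∀ x ∈ U, (∀ i, |(x i : ℝ)| ≤ B) ∧ ∀ i, (p : ℤ) ∣ x i) :
    (U.card : ℝ) ≤ (3 * B / p) ^ Fintype.card ι := by
  have hp0 : (0:ℝ) < p := by exact_mod_cast hp
  have h1 : U.card ≤ (Fintype.piFinset (fun _ : ι => ivl (-(B / p)) (B / p))).card := by
    apply Finset.card_le_card_of_injOn (fun x i => x i / (p : ℤ))
    · intro x hx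
      obtain ⟨h1, h2⟩ := hU x hx
      simp only [Finset.mem_coe, Fintype.mem_piFinset]
      intro i
      obtain ⟨c, hc⟩ := h2 i
      have h3 : x i / (p : ℤ) = c := by
        rw [hc]; exact Int.mul_ediv_cancel_left _ (by exact_mod_cast hp.ne')
      rw [h3, mem_ivl, ← abs_le, le_div_iff₀ hp0]
      have h4 := h1 i
      rw [hc] at h4
      push_cast at h4
      rw [abs_mul, abs_of_pos hp0] at h4
      linarith
    · intro x hx y hy heq
      obtain ⟨_, h2⟩ := hU x hx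
      obtain ⟨_, h2'⟩ := hU y hy
      funext i
      have h3 := congrFun heq i
      simp only at h3
      rw [← Int.mul_ediv_cancel' (h2 i), ← Int.mul_ediv_cancel' (h2' i), h3]
  rw [Fintype.card_piFinset] at h1
  simp only [Finset.prod_const, Finset.card_univ] at h1
  have h2 : (U.card : ℝ) ≤ ((ivl (-(B / p)) (B / p)).card : ℝ) ^ Fintype.card ι := by
    exact_mod_cast h1
  refine h2.trans ?_
  apply pow_le_pow_left₀ (Nat.cast_nonneg _)
  have h3 : 0 ≤ B / p := by positivity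
  have h4 := card_ivl_le (a := -(B / p)) (b := B / p) (by linarith)
  have h5 : 1 ≤ B / p := by rw [le_div_iff₀ hp0]; linarith
  have h6 : 3 * B / p = 3 * (B / p) := by ring
  linarith

open scoped Classical in
/-- few imprimitive vectors of the box are such that `f` is small -/
theorem nonprim_count {w : ℕ} (hw : 1 ≤ w) {fc : MvPolynomial ι ℤ} {S J : ℕ} {xc v : ι → ℤ}
    (h : PData w fc S J xc v) {P : ℝ} {ξ : ι → ℝ} {i₀ : ι} {ρ ρ' σ c₁ c₂ Δ Δ₀ : ℝ} (hρ : 0 ≤ ρ)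
    (hρρ' : ρ ≤ ρ') (hρ'2 : ρ' ≤ 1 / 2) (hξ : ∀ i, |ξ i| ≤ 1) (hξr : ∃ r, ξ r = 1) (hP : 0 < P)
    (hσ : |σ| = 1) (hc₁ : 0 < c₁) (hΔ : 0 ≤ Δ) (hΔ₀ : Δ ≤ Δ₀) {g : MvPolynomial ι ℤ}
    (hf : SlopeCond σ c₁ c₂ Δ₀ P ξ i₀ ρ ρ' (mem' fc S J g)) (hk2 : 2 ≤ Fintype.card ι)
    (N : ℕ) (hN : 1 ≤ N) (R₀ : ℝ) (hR₀ : 0 ≤ R₀)
    (hloc : ∀ D : ℕ, 0 < D → D ≤ N →
      (2 * ρ * P / (S * 1 * D : ℕ) + 1) ^ (Fintype.card ι - 1) *
        (2 * Δ / (c₁ * (S * 1 * D : ℕ)) + 1) ≤ R₀ / (D : ℝ) ^ 2) :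
    ((((box P ξ i₀ ρ ρ' S xc).filter (fun x => ¬ Prim x ∧
      |((MvPolynomial.eval x (mem' fc S J g) : ℤ) : ℝ)| ≤ Δ)).card : ℕ) : ℝ) ≤
      R₀ / w + (6 * P) ^ Fintype.card ι / N := by
  set f := mem' fc S J g with hfdef
  have hsz : ∀ x ∈ box P ξ i₀ ρ ρ' S xc, Sz (2 * P) x := fun x hx =>
    InBox.sz hP hρ hρρ' hρ'2 hξ hξr (mem_box.mp hx).1
  set B' := ⌊2 * P⌋₊ with hB'
  have hcov : (box P ξ i₀ ρ ρ' S xc).filter (fun x => ¬ Prim x ∧
      |((MvPolynomial.eval x f : ℤ) : ℝ)| ≤ Δ) ⊆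
      (((Finset.Ioc w N).filter Nat.Prime).biUnion (fun p => locSet P ξ i₀ ρ ρ' S J xc f 1 p 0 Δ)) ∪
      ((Finset.Ioc N B').biUnion (fun p => (box P ξ i₀ ρ ρ' S xc).filter
        (fun x => ∀ i, (p : ℤ) ∣ x i))) := by
    intro x hx
    rw [Finset.mem_filter] at hx
    obtain ⟨hxb, hnp, hxf⟩ := hx
    unfold Prim at hnp
    push Not at hnp
    obtain ⟨D, hD, hDu⟩ := hnp
    have hDn : D.natAbs ≠ 1 := fun h1 => hDu (Int.isUnit_iff_natAbs_eq.mpr h1)
    obtain ⟨p, hp, hpD⟩ := Nat.exists_prime_and_dvd hDn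
    have hpx : ∀ i, (p : ℤ) ∣ x i := fun i =>
      (Int.natCast_dvd.mpr hpD).trans (hD i)
    have hpw : w < p := by
      by_contra hle
      have hle' := not_lt.mp hle
      obtain ⟨i, hi⟩ := h.hprim p hp hle'
      apply hi
      have h1 : (p : ℤ) ∣ S := by
        have := (dvd_mul_right p J).trans (h.hPJ p hp hle')
        exact_mod_cast this
      have h2 := h1.trans ((mem_box.mp hxb).2 i)
      have := dvd_sub (hpx i) h2
      simpa using this
    obtain ⟨hx1, r, hr⟩ := hsz x hxb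
    have hpB : p ≤ B' := by
      rw [hB']
      apply Nat.le_floor
      have hxr0 : x r ≠ 0 := by
        intro h0
        rw [h0] at hr
        simp only [Int.cast_zero, abs_zero] at hr
        linarith
      have h1 : (p : ℤ) ≤ |x r| := by
        have := Int.le_of_dvd (abs_pos.mpr hxr0) ((dvd_abs _ _).mpr (hpx r))
        exact this
      have h2 : (p : ℝ) ≤ |(x r : ℝ)| := by exact_mod_cast h1
      exact h2.trans (hx1 r)
    rw [Finset.mem_union, Finset.mem_biUnion, Finset.mem_biUnion]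
    by_cases hpN : p ≤ N
    · left
      refine ⟨p, ?_, ?_⟩
      · rw [Finset.mem_filter, Finset.mem_Ioc]
        exact ⟨⟨hpw, hpN⟩, hp⟩
      · unfold locSet
        rw [Finset.mem_filter]
        refine ⟨hxb, fun i => by simpa using hpx i, ?_, hxf⟩
        rw [mul_one, hfdef]
        unfold mem'
        rw [map_add, map_mul, MvPolynomial.eval_C]
        exact dvd_add (h.class_dvd (mem_box.mp hxb).2) (dvd_mul_right _ _)
    · right
      refine ⟨p, ?_, ?_⟩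
      · rw [Finset.mem_Ioc]; exact ⟨not_le.mp hpN, hpB⟩
      · rw [Finset.mem_filter]; exact ⟨hxb, hpx⟩
  have h1 := (Finset.card_le_card hcov).trans (Finset.card_union_le _ _)
  have h2 : ((((box P ξ i₀ ρ ρ' S xc).filter (fun x => ¬ Prim x ∧
      |((MvPolynomial.eval x f : ℤ) : ℝ)| ≤ Δ)).card : ℕ) : ℝ) ≤
      ((((Finset.Ioc w N).filter Nat.Prime).biUnion
        (fun p => locSet P ξ i₀ ρ ρ' S J xc f 1 p 0 Δ)).card : ℝ) +
      (((Finset.Ioc N B').biUnion (fun p => (box P ξ i₀ ρ ρ' S xc).filter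
        (fun x => ∀ i, (p : ℤ) ∣ x i))).card : ℝ) := by exact_mod_cast h1
  refine h2.trans (add_le_add ?_ ?_)
  · have h3 : ((((Finset.Ioc w N).filter Nat.Prime).biUnion
        (fun p => locSet P ξ i₀ ρ ρ' S J xc f 1 p 0 Δ)).card : ℝ) ≤
        ∑ p ∈ (Finset.Ioc w N).filter Nat.Prime,
          ((locSet P ξ i₀ ρ ρ' S J xc f 1 p 0 Δ).card : ℝ) := by
      exact_mod_cast Finset.card_biUnion_le
    refine h3.trans ?_
    have h4 : ∀ p ∈ (Finset.Ioc w N).filter Nat.Prime,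
        ((locSet P ξ i₀ ρ ρ' S J xc f 1 p 0 Δ).card : ℝ) ≤ R₀ * (1 / (p : ℝ) ^ 2) := by
      intro p hp
      rw [Finset.mem_filter, Finset.mem_Ioc] at hp
      obtain ⟨⟨hp1, hp2⟩, hp3⟩ := hp
      have hcop : Nat.Coprime (S * ([] : List ℕ).prod) p := by
        rw [List.prod_nil, mul_one]
        rw [Nat.coprime_comm, hp3.coprime_iff_not_dvd]
        intro hd
        exact absurd (h.hSW p hp3 hd) (not_le.mpr hp1)
      have := locSet_card_le h hρ (hρ.trans hρρ') hP.le hσ hc₁ hΔ hΔ₀ hf [] (by simp) hp3.pos hcop 0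
      simp only [List.prod_nil, Nat.cast_one, one_pow, one_mul] at this
      refine this.trans ((hloc p hp3.pos hp2).trans (le_of_eq ?_))
      ring
    refine (Finset.sum_le_sum h4).trans ?_
    rw [← Finset.mul_sum]
    have h5 : ∑ p ∈ (Finset.Ioc w N).filter Nat.Prime, (1 : ℝ) / (p : ℝ) ^ 2 ≤ 1 / w := by
      refine le_trans ?_ (sum_inv_sq w N hw)
      exact Finset.sum_le_sum_of_subset_of_nonneg (Finset.filter_subset _ _)
        (fun _ _ _ => by positivity)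
    have := mul_le_mul_of_nonneg_left h5 hR₀
    refine this.trans (le_of_eq ?_)
    ring
  · have h3 : (((Finset.Ioc N B').biUnion (fun p => (box P ξ i₀ ρ ρ' S xc).filter
        (fun x => ∀ i, (p : ℤ) ∣ x i))).card : ℝ) ≤
        ∑ p ∈ Finset.Ioc N B', (((box P ξ i₀ ρ ρ' S xc).filter
        (fun x => ∀ i, (p : ℤ) ∣ x i)).card : ℝ) := by
      exact_mod_cast Finset.card_biUnion_le
    refine h3.trans ?_
    have h4 : ∀ p ∈ Finset.Ioc N B', (((box P ξ i₀ ρ ρ' S xc).filter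
        (fun x => ∀ i, (p : ℤ) ∣ x i)).card : ℝ) ≤
        (6 * P) ^ Fintype.card ι * (1 / (p : ℝ) ^ 2) := by
      intro p hp
      rw [Finset.mem_Ioc] at hp
      have hp0 : 0 < p := by omega
      have hp1 : (1:ℝ) ≤ p := by exact_mod_cast hp0
      have hpB : (p : ℝ) ≤ 2 * P := by
        have h5 : (p : ℝ) ≤ B' := by exact_mod_cast hp.2
        exact h5.trans (Nat.floor_le (by positivity))
      have := div_count (B := 2 * P) (by positivity) p hp0 hpB ((box P ξ i₀ ρ ρ' S xc).filter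
        (fun x => ∀ i, (p : ℤ) ∣ x i)) (fun x hx => by
          rw [Finset.mem_filter] at hx
          exact ⟨(hsz x hx.1).1, hx.2⟩)
      refine this.trans ?_
      rw [show 3 * (2 * P) / (p:ℝ) = (6 * P) * (1 / p) by ring, mul_pow]
      apply mul_le_mul_of_nonneg_left _ (by positivity)
      rw [div_pow, one_pow]
      apply one_div_le_one_div_of_le (by positivity)
      exact pow_le_pow_right₀ hp1 hk2
    refine (Finset.sum_le_sum h4).trans ?_
    rw [← Finset.mul_sum]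
    have := mul_le_mul_of_nonneg_left (sum_inv_sq N B' hN)
      (by positivity : 0 ≤ (6 * P) ^ Fintype.card ι)
    refine this.trans (le_of_eq ?_)
    ring

end Pool.Agent.Y716.Q
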