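import Pool.Agent.Y716.Q.WA

/-!
# Weak approximation for almost all forms, conclusion
-/

namespace Pool.Agent.Y716.Q

open Filter

open scoped Classical in
theorem wa_exc (ι : Type*) [Fintype ι] (hk4 : 4 ≤ Fintype.card ι) (e : ℕ)
    (he : e + 3 ≤ Fintype.card ι) {m : ℕ} (hm : 1 ≤ m) {ε : ℝ} (hε : 0 < ε) :
    ∃ H₀ : ℝ, ∀ H : ℝ, H₀ ≤ H →
    (((formsZ ι (e + 2) H).filter (fun f => ¬ WeakApprox m f)).card : ℝ) ≤
        ε * (formsZ ι (e + 2) H).card := by
  have hmr : (1:ℝ) ≤ m := by exact_mod_cast hm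
  have hδ : (0:ℝ) < 1 / (3 * m) := by positivity
  have hT0 : (0:ℝ) ≤ (targets ι m).card := Nat.cast_nonneg _
  have h1 := fun t : (ι → ℤ) × (ι → ℤ) => exc_count ι hk4 e he (N := modN m) (modN_pos m) t.1
    (fun i => (t.2 i : ℝ) / (3 * m)) hδ (ε := ε / ((targets ι m).card + 1)) (by positivity)
  choose Hf hHf using h1
  obtain ⟨H₀, hH₀⟩ := Finset.exists_le ((targets ι m).image Hf)
  refine ⟨H₀, fun H hH => ?_⟩
  have hsub : (formsZ ι (e + 2) H).filter (fun f => ¬ WeakApprox m f) ⊆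
      (targets ι m).biUnion (fun t => (formsZ ι (e + 2) H).filter (fun f =>
        LocSolT (modN m) t.1 (fun i => (t.2 i : ℝ) / (3 * m)) (1 / (3 * m)) f ∧
        ¬ SolT (modN m) t.1 (fun i => (t.2 i : ℝ) / (3 * m)) (1 / (3 * m)) f)) := by
    intro f hf
    rw [Finset.mem_filter] at hf
    rw [Finset.mem_biUnion]
    by_contra hcon
    push Not at hcon
    apply hf.2
    apply wa_of_targets hm (mem_formsZ.mp hf.1).1
    intro t ht hL
    by_contra hS
    exact hcon t ht (Finset.mem_filter.mpr ⟨hf.1, hL, hS⟩)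
  have h2 := (Finset.card_le_card hsub).trans Finset.card_biUnion_le
  have h3 := (Nat.cast_le (α := ℝ)).mpr h2
  push_cast at h3
  refine h3.trans ?_
  calc _ ≤ (targets ι m).card • (ε / ((targets ι m).card + 1) *
        ((formsZ ι (e + 2) H).card : ℝ)) := by
        apply Finset.sum_le_card_nsmul
        intro t ht
        exact hHf t H ((hH₀ _ (Finset.mem_image_of_mem Hf ht)).trans hH)
    _ = ((targets ι m).card / ((targets ι m).card + 1)) * (ε * ((formsZ ι (e + 2) H).card : ℝ)) := by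
        rw [nsmul_eq_mul]; ring
    _ ≤ 1 * (ε * ((formsZ ι (e + 2) H).card : ℝ)) := by
        apply mul_le_mul_of_nonneg_right _ (by positivity)
        rw [div_le_one (by positivity)]
        linarith
    _ = _ := one_mul _

theorem isF_iff {ι : Type*} {d H : ℕ} (f : MvPolynomial ι ℤ) : IsF d ((H : ℕ) : ℝ) f ↔
    f.IsHomogeneous d ∧ ∀ m, |f.coeff m| ≤ (H : ℤ) := by
  unfold IsF
  refine and_congr_right (fun _ => forall_congr' (fun m => ?_))
  constructor
  · intro h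
    have : ((|f.coeff m| : ℤ) : ℝ) ≤ ((H : ℤ) : ℝ) := by
      rw [Int.cast_abs]; simpa using h
    exact_mod_cast this
  · intro h
    have : ((|f.coeff m| : ℤ) : ℝ) ≤ ((H : ℤ) : ℝ) := by exact_mod_cast h
    rw [Int.cast_abs] at this
    simpa using this

theorem ncard_eq_filter' {ι : Type*} [Fintype ι] (d : ℕ) (R : ℝ) (p : MvPolynomial ι ℤ → Prop)
    {_hp : DecidablePred p} :
    ({f : MvPolynomial ι ℤ | IsF d R f ∧ p f} : Set _).ncard =
      ((formsZ ι d R).filter p).card := by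
  rw [← Set.ncard_coe_finset]
  congr 1
  ext f
  simp [mem_formsZ]

/-- Weak approximation, with precision tending to infinity, for almost all everywhere locally
soluble forms. -/
theorem main_wa (ι : Type*) [Fintype ι] (hk4 : 4 ≤ Fintype.card ι) (e : ℕ)
    (he : e + 3 ≤ Fintype.card ι) :
    ∃ m : ℕ → ℕ, Tendsto m atTop atTop ∧ Tendsto (fun H : ℕ =>
      (({f : MvPolynomial ι ℤ | (f.IsHomogeneous (e + 2) ∧ ∀ s, |f.coeff s| ≤ (H : ℤ)) ∧ ELS f ∧
        WeakApprox (m H) f} : Set _).ncard : ℝ) /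
      (({f : MvPolynomial ι ℤ | (f.IsHomogeneous (e + 2) ∧ ∀ s, |f.coeff s| ≤ (H : ℤ)) ∧
        ELS f} : Set _).ncard : ℝ)) atTop (nhds 1) := by
  classical
  obtain ⟨c, hc0, H₁, hH₁⟩ := sol_positive ι hk4 e he
  have h1 := fun m : ℕ => wa_exc ι hk4 e he (m := m + 1) (by omega) (ε := c / (m + 1))
    (by positivity)
  choose Hf hHf using h1
  obtain ⟨M, hM⟩ : ∃ M : ℕ → ℕ, M = fun H : ℕ => Nat.findGreatest
      (fun j => ∀ i, i < j → Hf i ≤ (H : ℝ)) H := ⟨_, rfl⟩
  have hMtop : Tendsto M atTop atTop := by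
    rw [tendsto_atTop]
    intro b
    obtain ⟨B, hB⟩ := Finset.exists_le ((Finset.range b).image Hf)
    filter_upwards [eventually_ge_atTop b, eventually_ge_atTop ⌈B⌉₊] with H hH1 hH2
    rw [hM]
    apply Nat.le_findGreatest hH1
    intro i hi
    refine (hB _ (Finset.mem_image_of_mem Hf (Finset.mem_range.mpr hi))).trans ?_
    exact (Nat.le_ceil B).trans (by exact_mod_cast hH2)
  have hMspec : ∀ H : ℕ, 1 ≤ M H → Hf (M H - 1) ≤ (H : ℝ) := by
    intro H hH
    have h2 : ∀ i, i < M H → Hf i ≤ (H : ℝ) := by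
      have := Nat.findGreatest_spec (P := fun j => ∀ i, i < j → Hf i ≤ (H : ℝ)) (m := 0) (n := H)
        (Nat.zero_le _) (fun i hi => absurd hi (Nat.not_lt_zero i))
      rw [hM]
      exact this
    exact h2 _ (by omega)
  refine ⟨M, hMtop, ?_⟩
  rw [Metric.tendsto_atTop]
  intro δ hδ
  obtain ⟨j, hj⟩ := exists_nat_gt (1 / δ)
  have h3 := (tendsto_atTop.mp hMtop (j + 1)).and (eventually_ge_atTop ⌈H₁⌉₊)
  obtain ⟨H₂, hH₂⟩ := eventually_atTop.mp h3
  refine ⟨H₂, fun H hH => ?_⟩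
  obtain ⟨h4, h5⟩ := hH₂ H hH
  have hH1 : H₁ ≤ (H : ℝ) := (Nat.le_ceil H₁).trans (by exact_mod_cast h5)
  have h6 := hH₁ H hH1
  have h7 := hHf (M H - 1) H (hMspec H (by omega))
  have h8 : M H - 1 + 1 = M H := by omega
  rw [h8] at h7
  have h9 : (((M H - 1 : ℕ) : ℝ) + 1) = (M H : ℝ) := by exact_mod_cast h8
  rw [h9] at h7
  have hset1 : ({f : MvPolynomial ι ℤ | (f.IsHomogeneous (e + 2) ∧ ∀ s, |f.coeff s| ≤ (H : ℤ)) ∧
      ELS f ∧ WeakApprox (M H) f} : Set _).ncard =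
      ((formsZ ι (e + 2) (H : ℝ)).filter (fun f => ELS f ∧ WeakApprox (M H) f)).card := by
    rw [← ncard_eq_filter']
    congr 1
    ext f
    simp only [Set.mem_setOf_eq, isF_iff]
  have hset2 : ({f : MvPolynomial ι ℤ | (f.IsHomogeneous (e + 2) ∧ ∀ s, |f.coeff s| ≤ (H : ℤ)) ∧
      ELS f} : Set _).ncard = ((formsZ ι (e + 2) (H : ℝ)).filter (fun f => ELS f)).card := by
    rw [← ncard_eq_filter']
    congr 1
    ext f
    simp only [Set.mem_setOf_eq, isF_iff]
  rw [hset1, hset2]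
  obtain ⟨Fo, hFo⟩ : ∃ Fo, Fo = formsZ ι (e + 2) (H : ℝ) := ⟨_, rfl⟩
  have hmem : ∀ f ∈ Fo, f.IsHomogeneous (e + 2) := by
    intro f hf
    rw [hFo] at hf
    exact (mem_formsZ.mp hf).1
  have hFo0 : (0:ℝ) < Fo.card := by
    rw [hFo]; exact_mod_cast card_forms_pos (ι := ι) (e + 2) (Nat.cast_nonneg H)
  rw [← hFo] at h6 h7 ⊢
  obtain ⟨a, ha⟩ : ∃ a : ℝ, a = ((Fo.filter (fun f => ELS f ∧ WeakApprox (M H) f)).card : ℝ) :=
    ⟨_, rfl⟩
  obtain ⟨b, hb⟩ : ∃ b : ℝ, b = ((Fo.filter (fun f => ELS f)).card : ℝ) := ⟨_, rfl⟩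
  have hab' : a ≤ b := by
    rw [ha, hb]
    exact card_filter_le' _ _ _ (fun f _ h => h.1)
  have hcb : c * Fo.card ≤ b := by
    refine h6.trans ?_
    rw [hb]
    exact card_filter_le' _ _ _ (fun f hf h => solQ_els (hmem f hf) ((solQ_iff (hmem f hf)).mpr h))
  have hM0 : (0:ℝ) < M H := by
    have : 0 < M H := by omega
    exact_mod_cast this
  have hba : b ≤ a + c / (M H) * Fo.card := by
    have h10 : (Fo.filter (fun f => ELS f)) ⊆ (Fo.filter (fun f => ELS f ∧ WeakApprox (M H) f)) ∪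
        (Fo.filter (fun f => ¬ WeakApprox (M H) f)) := by
      intro f hf
      rw [Finset.mem_filter] at hf
      rw [Finset.mem_union, Finset.mem_filter, Finset.mem_filter]
      by_cases hw : WeakApprox (M H) f
      · left; exact ⟨hf.1, hf.2, hw⟩
      · right; exact ⟨hf.1, hw⟩
    have h11 := (Finset.card_le_card h10).trans (Finset.card_union_le _ _)
    have h12 : b ≤ a + ((Fo.filter (fun f => ¬ WeakApprox (M H) f)).card : ℝ) := by
      rw [ha, hb]; exact_mod_cast h11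
    linarith
  have hb0 : 0 < b := lt_of_lt_of_le (by positivity) hcb
  rw [← ha, ← hb, Real.dist_eq]
  have h13 : a / b - 1 = -((b - a) / b) := by field_simp; ring
  rw [h13, abs_neg, abs_of_nonneg (div_nonneg (by linarith) hb0.le), div_lt_iff₀ hb0]
  have h14 : c / (M H) * Fo.card ≤ 1 / (M H) * b := by
    have := mul_le_mul_of_nonneg_left hcb (by positivity : 0 ≤ 1 / (M H : ℝ))
    refine le_trans (le_of_eq ?_) this
    ring
  have h15 : 1 / (M H : ℝ) < δ := by
    rw [div_lt_iff₀ hM0]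
    rw [div_lt_iff₀ hδ] at hj
    have h16 : (j : ℝ) + 1 ≤ M H := by exact_mod_cast h4
    have h17 := mul_le_mul_of_nonneg_left h16 hδ.le
    linarith
  have h18 := mul_lt_mul_of_pos_right h15 hb0
  linarith

end Pool.Agent.Y716.Q
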