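import Pool.Agent.Y716.Q.Defs

/-!
# Numerical lemmas for the class theorem
-/

namespace Pool.Agent.Y716.Q

open Filter Topology

/-- main term of the lower bound for the number of test vectors -/
noncomputable def bfun (k : ℕ) (τ : ℝ) : ℝ :=
  (1 - τ) ^ k / (1 + τ) - (1 + τ) ^ k / (1 - τ) * τ - 2 * τ

theorem exists_tau (k : ℕ) {ε : ℝ} (hε : 0 < ε) : ∃ τ : ℝ, 0 < τ ∧ τ ≤ 1 / 2 ∧
    1 / 2 ≤ (1 - τ) / (1 + τ) * bfun k τ ∧ 0 < bfun k τ ∧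
    (1 + τ) ^ (2 * k + 1) / (1 - τ) ^ 4 * (1 + τ) ≤ (1 + ε) * ((1 - τ) / (1 + τ) * bfun k τ) ^ 2 := by
  have hb : ContinuousAt (bfun k) 0 := by
    unfold bfun
    have h1 : ContinuousAt (fun τ : ℝ => (1 - τ) ^ k / (1 + τ)) 0 :=
      ContinuousAt.div (by fun_prop) (by fun_prop) (by norm_num)
    have h2 : ContinuousAt (fun τ : ℝ => (1 + τ) ^ k / (1 - τ) * τ) 0 :=
      (ContinuousAt.div (by fun_prop) (by fun_prop) (by norm_num)).mul continuousAt_id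
    exact (h1.sub h2).sub (by fun_prop)
  have hb0 : bfun k 0 = 1 := by unfold bfun; simp
  have hf1 : ContinuousAt (fun τ : ℝ => (1 - τ) / (1 + τ) * bfun k τ) 0 :=
    (ContinuousAt.div (by fun_prop) (by fun_prop) (by norm_num)).mul hb
  have hf2 : ContinuousAt (fun τ : ℝ => (1 + ε) * ((1 - τ) / (1 + τ) * bfun k τ) ^ 2 -
      (1 + τ) ^ (2 * k + 1) / (1 - τ) ^ 4 * (1 + τ)) 0 := by
    refine (continuousAt_const.mul (hf1.pow 2)).sub ?_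
    exact (ContinuousAt.div (by fun_prop) (by fun_prop) (by norm_num)).mul (by fun_prop)
  have e1 : ∀ᶠ τ in 𝓝 (0:ℝ), 1 / 2 < (1 - τ) / (1 + τ) * bfun k τ :=
    hf1.eventually (lt_mem_nhds (by simp [hb0]; norm_num))
  have e2 : ∀ᶠ τ in 𝓝 (0:ℝ), 0 < bfun k τ := hb.eventually (lt_mem_nhds (by rw [hb0]; norm_num))
  have e3 : ∀ᶠ τ in 𝓝 (0:ℝ), 0 < (1 + ε) * ((1 - τ) / (1 + τ) * bfun k τ) ^ 2 -
      (1 + τ) ^ (2 * k + 1) / (1 - τ) ^ 4 * (1 + τ) :=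
    hf2.eventually (lt_mem_nhds (by simp [hb0]; exact hε))
  have e4 : ∀ᶠ τ in 𝓝 (0:ℝ), τ < 1 / 2 := gt_mem_nhds (by norm_num)
  have e5 := e1.and (e2.and (e3.and e4))
  obtain ⟨d, hd, hd2⟩ := Metric.eventually_nhds_iff.mp e5
  have h6 := hd2 (y := d / 2) (by rw [Real.dist_eq, sub_zero, abs_of_pos (by linarith)]; linarith)
  obtain ⟨h7, h8, h9, h10⟩ := h6
  exact ⟨d / 2, by linarith, h10.le, h7.le, h8, by linarith⟩

theorem exists_ratio (M : ℕ) {τ : ℝ} (hτ : 0 < τ) : ∃ τ₂ : ℝ, 0 < τ₂ ∧ τ₂ ≤ 1 / 4 ∧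
    (1 + 2 * τ₂) ^ M ≤ 1 + τ ∧ 1 - τ ≤ (1 - 2 * τ₂) ^ M := by
  have hf1 : ContinuousAt (fun t : ℝ => (1 + 2 * t) ^ M) 0 := by fun_prop
  have hf2 : ContinuousAt (fun t : ℝ => (1 - 2 * t) ^ M) 0 := by fun_prop
  have e1 : ∀ᶠ t in 𝓝 (0:ℝ), (1 + 2 * t) ^ M < 1 + τ :=
    hf1.eventually (gt_mem_nhds (by simp; exact hτ))
  have e2 : ∀ᶠ t in 𝓝 (0:ℝ), 1 - τ < (1 - 2 * t) ^ M :=
    hf2.eventually (lt_mem_nhds (by simp; exact hτ))
  have e4 : ∀ᶠ t in 𝓝 (0:ℝ), t < 1 / 4 := gt_mem_nhds (by norm_num)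
  obtain ⟨d, hd, hd2⟩ := Metric.eventually_nhds_iff.mp (e1.and (e2.and e4))
  have h6 := hd2 (y := d / 2) (by rw [Real.dist_eq, sub_zero, abs_of_pos (by linarith)]; linarith)
  exact ⟨d / 2, by linarith, h6.2.2.le, h6.1.le, h6.2.1.le⟩

theorem card_forms_upper {ι : Type*} [Fintype ι] (d : ℕ) {A R c : ℝ} (hA : 1 ≤ A) (hR : 0 ≤ R)
    (hc : 0 ≤ c) (h : 2 * R + 1 ≤ c * (2 * A - 1)) :
    ((formsZ ι d R).card : ℝ) ≤ c ^ (mons ι d).card * (formsZ ι d A).card := by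
  rw [card_formsZ d hR, card_formsZ d (by linarith)]
  push_cast
  rw [← mul_pow]
  apply pow_le_pow_left₀ (by positivity)
  have h1 := Nat.floor_le hR
  have h2 := Nat.sub_one_lt_floor A
  nlinarith

theorem card_forms_lower {ι : Type*} [Fintype ι] (d : ℕ) {A R c : ℝ} (hA : 0 ≤ A) (hR : 0 ≤ R)
    (hc : 0 ≤ c) (h : c * (2 * A + 1) ≤ 2 * R - 1) :
    c ^ (mons ι d).card * ((formsZ ι d A).card : ℝ) ≤ (formsZ ι d R).card := by
  rw [card_formsZ d hR, card_formsZ d hA]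
  push_cast
  rw [← mul_pow]
  apply pow_le_pow_left₀ (by positivity)
  have h1 := Nat.floor_le hA
  have h2 := Nat.sub_one_lt_floor R
  nlinarith

theorem card_forms_pos {ι : Type*} [Fintype ι] (d : ℕ) {A : ℝ} (hA : 0 ≤ A) :
    0 < (formsZ ι d A).card := by
  rw [card_formsZ d hA]; positivity

theorem log_bound {C Y : ℝ} (hY : 0 ≤ Y) (h : C < Real.exp Y) (s : ℕ) (hs : (s : ℝ) ≤ C) :
    (Nat.log 2 s : ℝ) ≤ 2 * Y := by
  by_cases hs0 : s = 0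
  · subst hs0; simp; exact hY
  have h1 : 2 ^ (Nat.log 2 s) ≤ s := Nat.pow_log_le_self 2 hs0
  have h2 : ((2:ℝ) ^ (Nat.log 2 s)) ≤ C := by
    have : ((2 ^ (Nat.log 2 s) : ℕ) : ℝ) ≤ (s : ℝ) := by exact_mod_cast h1
    push_cast at this
    linarith
  by_contra hcon
  push Not at hcon
  have h3 : Real.exp Y ≤ 2 ^ (Nat.log 2 s) := by
    have h4 : Real.exp Y ≤ Real.exp ((Nat.log 2 s : ℝ) * (1 / 2)) := by
      apply Real.exp_le_exp.mpr; linarith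
    have h5 : Real.exp ((Nat.log 2 s : ℝ) * (1 / 2)) = (Real.exp (1 / 2)) ^ (Nat.log 2 s) := by
      rw [← Real.exp_nat_mul]
    have h6 : Real.exp (1 / 2) ≤ 2 := by
      have h7 : Real.exp (1 / 2) ^ 2 = Real.exp 1 := by
        rw [← Real.exp_nat_mul]; norm_num
      have h8 := Real.exp_one_lt_d9
      nlinarith [Real.exp_pos (1 / 2 : ℝ)]
    rw [h5] at h4
    exact h4.trans (pow_le_pow_left₀ (Real.exp_pos _).le h6 _)
  linarith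

theorem eventually_exp (C : ℝ) (n : ℕ) : ∀ᶠ Y : ℝ in atTop, C * Y ^ n < Real.exp Y := by
  have h1 := Real.tendsto_pow_mul_exp_neg_atTop_nhds_zero n
  have h2 : Tendsto (fun Y : ℝ => C * (Y ^ n * Real.exp (-Y))) atTop (𝓝 (C * 0)) :=
    h1.const_mul C
  rw [mul_zero] at h2
  have h3 : ∀ᶠ Y : ℝ in atTop, C * (Y ^ n * Real.exp (-Y)) < 1 := h2.eventually (gt_mem_nhds one_pos)
  filter_upwards [h3] with Y hY
  have h4 : Real.exp (-Y) * Real.exp Y = 1 := by rw [← Real.exp_add]; simp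
  have h5 := mul_lt_mul_of_pos_right hY (Real.exp_pos Y)
  calc C * Y ^ n = C * (Y ^ n * (Real.exp (-Y) * Real.exp Y)) := by rw [h4, mul_one]
    _ = C * (Y ^ n * Real.exp (-Y)) * Real.exp Y := by ring
    _ < _ := by linarith

theorem log_le_lin {Y : ℝ} (hY : 1 ≤ Y) : 1 + Real.log (4 * Y ^ 22) ≤ 25 * Y := by
  have h1 : Real.log (4 * Y ^ 22) = Real.log 4 + 22 * Real.log Y := by
    rw [Real.log_mul (by norm_num) (by positivity), Real.log_pow]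
    push_cast; ring
  have h2 : Real.log Y ≤ Y - 1 := Real.log_le_sub_one_of_pos (by linarith)
  have h3 : Real.log 4 ≤ 2 := by
    have : Real.log 4 = 2 * Real.log 2 := by
      rw [show (4:ℝ) = 2 ^ 2 by norm_num, Real.log_pow]; push_cast; ring
    rw [this]
    have := Real.log_two_lt_d9
    linarith
  rw [h1]
  linarith

/-- numerical upper bound -/
theorem num_upper {k M : ℕ} {X₁ X₂ τ θ : ℝ} (hk : 1 ≤ k) (hM : 1 ≤ M) (hθ1 : θ < 1)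
    (hθ : 0 ≤ θ) (hτ : 0 < τ) (hX₁ : M ≤ τ * X₁) (hX₂ : M ≤ τ * X₂) :
    (X₁ / M + 1) ^ (k - 1) * (X₂ / ((1 - θ) * M) + 1) ≤
      (1 + τ) ^ k / (1 - θ) * (X₁ ^ (k - 1) * X₂) / (M : ℝ) ^ k := by
  have hM0 : (0:ℝ) < M := by exact_mod_cast hM
  have h1 : 0 < 1 - θ := by linarith
  have hX₁0 : 0 < X₁ := by
    by_contra hcon
    have : τ * X₁ ≤ 0 := mul_nonpos_of_nonneg_of_nonpos hτ.le (not_lt.mp hcon)
    linarith
  have hX₂0 : 0 < X₂ := by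
    by_contra hcon
    have : τ * X₂ ≤ 0 := mul_nonpos_of_nonneg_of_nonpos hτ.le (not_lt.mp hcon)
    linarith
  have e1 : X₁ / M + 1 ≤ (1 + τ) * (X₁ / M) := by
    have : 1 ≤ τ * (X₁ / M) := by
      rw [← mul_div_assoc, le_div_iff₀ hM0]; linarith
    linarith
  have e2 : X₂ / ((1 - θ) * M) + 1 ≤ (1 + τ) * (X₂ / ((1 - θ) * M)) := by
    have : 1 ≤ τ * (X₂ / ((1 - θ) * M)) := by
      rw [← mul_div_assoc, le_div_iff₀ (by positivity)]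
      nlinarith
    linarith
  have e3 : (X₁ / M + 1) ^ (k - 1) ≤ ((1 + τ) * (X₁ / M)) ^ (k - 1) :=
    pow_le_pow_left₀ (by positivity) e1 _
  refine (mul_le_mul e3 e2 (by positivity) (by positivity)).trans (le_of_eq ?_)
  obtain ⟨n, rfl⟩ : ∃ n, k = n + 1 := ⟨k - 1, by omega⟩
  rw [Nat.add_sub_cancel, mul_pow, div_pow, pow_succ (1 + τ), pow_succ (M : ℝ)]
  field_simp

/-- numerical lower bound -/
theorem num_lower {k M : ℕ} {X₁ X₂ τ θ : ℝ} (hk : 1 ≤ k) (hM : 1 ≤ M) (hθ1 : θ ≤ 1)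
    (hθ : 0 ≤ θ) (hτ : 0 < τ) (hτ1 : τ ≤ 1) (hX₁ : M ≤ τ * X₁) (hX₂ : 2 * M ≤ τ * X₂) :
    (1 - τ) ^ k / (1 + θ) * (X₁ ^ (k - 1) * X₂) / (M : ℝ) ^ k ≤
    (X₁ / M - 1) ^ (k - 1) * (X₂ / ((1 + θ) * M) - 1) := by
  have hM0 : (0:ℝ) < M := by exact_mod_cast hM
  have h1 : 0 < 1 + θ := by linarith
  have hX₁0 : 0 < X₁ := by
    by_contra hcon
    have : τ * X₁ ≤ 0 := mul_nonpos_of_nonneg_of_nonpos hτ.le (not_lt.mp hcon)
    linarith
  have hX₂0 : 0 < X₂ := by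
    by_contra hcon
    have : τ * X₂ ≤ 0 := mul_nonpos_of_nonneg_of_nonpos hτ.le (not_lt.mp hcon)
    linarith
  have e1 : (1 - τ) * (X₁ / M) ≤ X₁ / M - 1 := by
    have : 1 ≤ τ * (X₁ / M) := by
      rw [← mul_div_assoc, le_div_iff₀ hM0]; linarith
    linarith
  have e2 : (1 - τ) * (X₂ / ((1 + θ) * M)) ≤ X₂ / ((1 + θ) * M) - 1 := by
    have : 1 ≤ τ * (X₂ / ((1 + θ) * M)) := by
      rw [← mul_div_assoc, le_div_iff₀ (by positivity)]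
      nlinarith
    linarith
  have h1τ : 0 ≤ 1 - τ := by linarith
  have e3 : ((1 - τ) * (X₁ / M)) ^ (k - 1) ≤ (X₁ / M - 1) ^ (k - 1) :=
    pow_le_pow_left₀ (by positivity) e1 _
  refine le_trans (le_of_eq ?_) (mul_le_mul e3 e2 (by positivity)
    (pow_nonneg (le_trans (by positivity) e1) _))
  obtain ⟨n, rfl⟩ : ∃ n, k = n + 1 := ⟨k - 1, by omega⟩
  rw [Nat.add_sub_cancel, mul_pow, div_pow, pow_succ (1 - τ), pow_succ (M : ℝ)]
  field_simp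

end Pool.Agent.Y716.Q
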