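import Pool.Agent.Y716.Q.Good
import Pool.Agent.Y716.Q.Num

/-!
# The statement of the core of the class theorem
-/

namespace Pool.Agent.Y716.Q

section
variable {ι : Type*} [Fintype ι]

/-- `f` has a primitive zero in `X` -/
def ZeroIn (X : Finset (ι → ℤ)) (f : MvPolynomial ι ℤ) : Prop :=
  ∃ x ∈ X, Prim x ∧ MvPolynomial.eval x f = 0

end

/-- the conclusion of the second moment computation -/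
def SM (ι : Type*) [Fintype ι] (e : ℕ) (Ct : ℝ) : Prop :=
  ∀ (w : ℕ) (_ : 1 ≤ w) (fc : MvPolynomial ι ℤ) (S J : ℕ) (xc : ι → ℤ)
    (P : ℝ) (ξ : ι → ℝ) (i₀ : ι) (ρ ρ' B a A A₂ Δ T : ℝ) (_ : 1 ≤ a) (_ : a ≤ B) (_ : 1 ≤ T)
    (Lg : ℝ)
    (_ : ∀ s : ℕ, (s : ℝ) ≤ 15 * (Fintype.card ι) ^ 2 * a * B → (Nat.log 2 s : ℝ) ≤ Lg)
    (u : (ι → ℤ) → ℤ)
    (_ : ∀ x ∈ box P ξ i₀ ρ ρ' S xc, MvPolynomial.eval x fc = -(((S * J : ℕ) : ℤ) * u x))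
    (N : ℕ) (_ : 2 * T ≤ N) (K : ℕ)
    (_ : K = (∏ p ∈ (Finset.range (w + 1)).filter Nat.Prime, p) ^ N)
    (_ : 0 ≤ Δ) (_ : K * N ≤ Δ)
    (_ : A + (c1pt (Fintype.card ι) (e + 1) + cker (Fintype.card ι) e *
      (1 + (mons ι (e + 2)).card * c1pt (Fintype.card ι) (e + 1)) / (1 / T)) *
      (Δ / B ^ (e + 2) + K * a) + cker (Fintype.card ι) e * ((1 + Lg) * a ^ 2) ≤ A₂)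
    (_ : 2 * c1pt (Fintype.card ι) (e + 1) * a ≤ A)
    (_ : 2 * cker (Fintype.card ι) e * ((1 + Lg) * a ^ 2) ≤ A)
    (R₁ E : ℝ) (R₂ : ℕ → ℝ) (_ : ∀ D, 0 ≤ R₂ D) (_ : 0 ≤ E)
    (_ : ∀ g ∈ formsZ ι (e + 2) A₂,
      ((locSet P ξ i₀ ρ ρ' S J xc (mem' fc S J g) K 1 0 ((S * J : ℕ) * Δ)).card : ℝ) ≤ R₁)
    (_ : ∀ D : ℕ, 0 < D → D ≤ N → (∀ q : ℕ, q.Prime → q ≤ w → ¬ q ∣ D) →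
      ∀ g ∈ formsZ ι (e + 2) A₂, ∀ ζ,
      ((locSet P ξ i₀ ρ ρ' S J xc (mem' fc S J g) K D ζ ((S * J : ℕ) * Δ)).card : ℝ) ≤ R₂ D)
    (_ : ∀ D : ℕ, 0 < D → D ≤ N → (formsZ ι (e + 2) A₂).card * (R₁ * (D * R₂ D)) ≤
      (formsZ ι (e + 2) A).card * (E * (1 / (D : ℝ) ^ 2)) *
        ((2 * Δ / K - 1) * (2 * Δ / (K * D) - 1))),
    ∑ p ∈ (testSet B a P ξ i₀ ρ ρ' S xc) ×ˢ (testSet B a P ξ i₀ ρ ρ' S xc), (c2 e A u p : ℝ) ≤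
      (formsZ ι (e + 2) A).card * E * (1 + 1 / w) +
      Ct * (formsZ ι (e + 2) (3 * A)).card * B ^ (2 * Fintype.card ι) /
        (A ^ 2 * B ^ (2 * e + 4) * Real.sqrt T) +
      Ct * (formsZ ι (e + 2) (2 * A)).card * (testSet B a P ξ i₀ ρ ρ' S xc).card /
        (A * B ^ (e + 2))

/-- the conclusion of the count of unbalanced vectors -/
def UB (ι : Type*) [Fintype ι] (C : ℝ) : Prop :=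
  ∀ (B : ℝ) (m r : ℕ) (ε : ℝ), 1 ≤ B → 1 ≤ m → 1 ≤ r → 0 < ε → ε ≤ 1 / 64 →
      ((Fintype.card ι * r * m + 1) * B + 1) * (1 / (2 * m * ε)) ^ (2 * r) < 1 →
      1 ≤ 2 * B * ε → ∀ U : Finset (ι → ℤ), (∀ x ∈ U, Sz B x ∧ Prim x ∧ ¬ Bal B (r * m) x) →
      (U.card : ℝ) ≤ C * B ^ 2 * (2 * B * ε) ^ (Fintype.card ι - 1) *
        (1 + Real.log (2 * B * ε))

open scoped Classical in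
/-- The statement of the core of the class theorem. -/
def CoreStmt (ι : Type*) [Fintype ι] : Prop := ∀ {k : ℕ} (hk : Fintype.card ι = k) (hk4 : 4 ≤ k) {e : ℕ}
    (he : e + 3 ≤ k) {M : ℕ} (hM : (mons ι (e + 2)).card = M) {c c' Ct Cu : ℝ}
    (hc : c1pt k (e + 1) = c) (hc' : cker k e = c') (hc0 : 0 < c) (hc'0 : 0 < c')
    (hCt0 : 0 < Ct) (hCu0 : 0 < Cu)
    (hCt : SM ι e Ct) (hCu : UB ι Cu) {ε τ τ₂ T c₅ δ cR c₀ : ℝ} (hε : 0 < ε)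
    (hτ0 : 0 < τ) (hτ1 : τ ≤ 1 / 2) (hb1 : 1 / 2 ≤ (1 - τ) / (1 + τ) * bfun k τ)
    (hb0 : 0 < bfun k τ) (hτF : (1 + τ) ^ (2 * k + 1) / (1 - τ) ^ 4 * (1 + τ) ≤
      (1 + ε / 2) * ((1 - τ) / (1 + τ) * bfun k τ) ^ 2)
    {w : ℕ} (hw1 : 1 ≤ w) (hwτ : 1 / (w : ℝ) ≤ τ)
    (hT1 : 1 ≤ T) (hc₀0 : 0 < c₀) (hTs : 16 * Ct * 4 ^ M * 4 ^ k / (ε * c₀ ^ 2) ≤ Real.sqrt T)
    {N : ℕ} (hNT : 2 * T ≤ N) {K : ℕ}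
    (hK : K = (∏ p ∈ (Finset.range (w + 1)).filter Nat.Prime, p) ^ N) (hK0 : 0 < K)
    (hτ₂0 : 0 < τ₂) (hτ₂1 : τ₂ ≤ 1 / 4) (hτ₂2 : (1 + 2 * τ₂) ^ M ≤ 1 + τ)
    (hτ₂3 : 1 - τ ≤ (1 - 2 * τ₂) ^ M)
    (hc₅ : c₅ = c + c' * (1 + M * c) / (1 / T)) (hc₅c : c ≤ c₅) (hδ0 : 0 < δ) (hδ1 : δ ≤ 1)
    (hδc : c₅ * δ = τ₂ / 4) (hcR0 : 0 < cR)
    {N' : ℕ} (hN'1 : 1 ≤ N') (hN'r : 6 ^ k / (τ * cR) ≤ N') {Y A P : ℝ}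
    (y1 : 2 ≤ Y) (y2 : 64 * (k:ℝ) + 3 ≤ Y) (y3 : 960 * (k:ℝ) ^ 2 * Y ^ 51 < Real.exp Y)
    (y4 : 2 * (32 * c₅ * K + 3072 * c') / τ₂ ≤ Y) (y5 : (K * N : ℝ) / (τ * δ) ≤ Y)
    (y8 : 100 * Cu * 4 ^ (k - 1) / (τ * cR) ≤ Y)
    (y9 : 16 * Ct * 3 ^ M * 6 ^ k / (ε * c₀ ^ 2) ≤ Y) (y10 : 1 + 1 / τ₂ ≤ Y)
    (y11 : 1 / (τ * δ) ≤ Y) (hYA : Y ^ 32 = A) (hPdef : P = Y ^ 36)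
    {fc : MvPolynomial ι ℤ} {S J : ℕ} {xc v : ι → ℤ} {ξ : ι → ℝ} {i₀ : ι} {ρ ρ' σ D₀ Δ₀ : ℝ}
    (hP : PData w fc S J xc v) (hρ0 : 0 < ρ) (hρρ' : ρ ≤ ρ') (hρ'2 : ρ' ≤ 1 / 2)
    (hξ : ∀ i, |ξ i| ≤ 1) (hξr : ∃ r, ξ r = 1) (hσ : |σ| = 1) (hD₀0 : 0 < D₀)
    (hmemS : ∀ A₃ : ℝ, A₃ ≤ 2 * A → ∀ g ∈ formsZ ι (e + 2) A₃,
      SlopeCond σ ((1 - τ) * D₀) ((1 + τ) * D₀) Δ₀ P ξ i₀ ρ ρ' (mem' fc S J g))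
    {Δ Δ₁ X₁ X₂ R : ℝ} (hΔ : Δ = δ * A * P ^ (e + 2)) (hΔ₁ : ((S * J : ℕ) : ℝ) * Δ = Δ₁)
    (hΔ₁ρ : Δ₁ ≤ Δ₀) (hX₁ : X₁ = 2 * ρ * P / S) (hX₂ : X₂ = 2 * Δ₁ / (D₀ * S))
    (hX₁K : (K * N + N' : ℝ) ≤ τ * X₁) (hX₂K : 2 * (K * N + N' : ℝ) ≤ τ * X₂)
    (hRdef : X₁ ^ (k - 1) * X₂ = R) (hRlow : cR * P ^ k ≤ R)
    (hϱlow : c₀ * P ^ (k - 1) / (A * P ^ (e + 1)) ≤ R / (2 * Δ)),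
    (((formsZ ι (e + 2) A).filter (fun g =>
      ¬ ZeroIn (box P ξ i₀ ρ ρ' S xc) (mem' fc S J g))).card : ℝ) ≤
      ε * (formsZ ι (e + 2) A).card

open scoped Classical in
/-- The statement of the final assembly. -/
def CoreStmt2 (ι : Type*) [Fintype ι] : Prop := ∀ {k : ℕ} (hk : Fintype.card ι = k) (hk4 : 4 ≤ k) {e : ℕ}
    (he : e + 3 ≤ k) {M : ℕ} (hM : (mons ι (e + 2)).card = M) {c c' Ct Cu : ℝ}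
    (hc : c1pt k (e + 1) = c) (hc' : cker k e = c')
    (hCt0 : 0 < Ct) (hCu0 : 0 < Cu)
    (hCt : SM ι e Ct) (hCu : UB ι Cu) {ε τ τ₂ T cR c₀ : ℝ} (hε : 0 < ε)
    (hτ0 : 0 < τ) (hτ1 : τ ≤ 1 / 2) (hb1 : 1 / 2 ≤ (1 - τ) / (1 + τ) * bfun k τ)
    (hb0 : 0 < bfun k τ) (hτF : (1 + τ) ^ (2 * k + 1) / (1 - τ) ^ 4 * (1 + τ) ≤
      (1 + ε / 2) * ((1 - τ) / (1 + τ) * bfun k τ) ^ 2)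
    {w : ℕ} (hw1 : 1 ≤ w) (hwτ : 1 / (w : ℝ) ≤ τ)
    (hT1 : 1 ≤ T) (hc₀0 : 0 < c₀) (hTs : 16 * Ct * 4 ^ M * 4 ^ k / (ε * c₀ ^ 2) ≤ Real.sqrt T)
    {N : ℕ} (hNT : 2 * T ≤ N) {K : ℕ}
    (hK : K = (∏ p ∈ (Finset.range (w + 1)).filter Nat.Prime, p) ^ N) (hK0 : 0 < K)
    (hcR0 : 0 < cR)
    {N' : ℕ} (hN'1 : 1 ≤ N') (hN'r : 6 ^ k / (τ * cR) ≤ N') {Y A P : ℝ}
    (y1 : 2 ≤ Y) (y2 : 64 * (k:ℝ) + 3 ≤ Y)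
    (y8 : 100 * Cu * 4 ^ (k - 1) / (τ * cR) ≤ Y)
    (y9 : 16 * Ct * 3 ^ M * 6 ^ k / (ε * c₀ ^ 2) ≤ Y) (hPdef : P = Y ^ 36)
    {fc : MvPolynomial ι ℤ} {S J : ℕ} {xc v : ι → ℤ} {ξ : ι → ℝ} {i₀ : ι} {ρ ρ' σ D₀ Δ₀ : ℝ}
    (hP : PData w fc S J xc v) (hρ0 : 0 < ρ) (hρρ' : ρ ≤ ρ') (hρ'2 : ρ' ≤ 1 / 2)
    (hξ : ∀ i, |ξ i| ≤ 1) (hξr : ∃ r, ξ r = 1) (hσ : |σ| = 1) (hD₀0 : 0 < D₀)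
    (hmemS : ∀ A₃ : ℝ, A₃ ≤ 2 * A → ∀ g ∈ formsZ ι (e + 2) A₃,
      SlopeCond σ ((1 - τ) * D₀) ((1 + τ) * D₀) Δ₀ P ξ i₀ ρ ρ' (mem' fc S J g))
    {Δ Δ₁ X₁ X₂ R : ℝ} (hΔ₁ : ((S * J : ℕ) : ℝ) * Δ = Δ₁)
    (hΔ₁ρ : Δ₁ ≤ Δ₀) (hX₁ : X₁ = 2 * ρ * P / S) (hX₂ : X₂ = 2 * Δ₁ / (D₀ * S))
    (hX₁K : (K * N + N' : ℝ) ≤ τ * X₁) (hX₂K : 2 * (K * N + N' : ℝ) ≤ τ * X₂)
    (hRdef : X₁ ^ (k - 1) * X₂ = R) (hR0 : 0 < R) (hRlow : cR * P ^ k ≤ R)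
    (hϱlow : c₀ * P ^ (k - 1) / (A * P ^ (e + 1)) ≤ R / (2 * Δ))
    (hA0 : 0 < A) (hP0 : 0 < P) (hP1 : 1 ≤ P) (hAP : A * Y ≤ P) {m : ℕ} {a : ℝ}
    (hm1 : (m : ℝ) ≤ Y ^ 15) (hm2 : Y ^ 15 / 2 ≤ (m : ℝ)) (hm3 : 1 ≤ m)
    (ha : ((32 : ℕ) : ℝ) * (m : ℝ) = a) (ha1 : 1 ≤ a) (haB : a ≤ 2 * P)
    {u : (ι → ℤ) → ℤ}
    (hu : ∀ x ∈ box P ξ i₀ ρ ρ' S xc, MvPolynomial.eval x fc = -(((S * J : ℕ) : ℤ) * u x))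
    (hΔ0 : 0 < Δ) (hΔ₁0 : 0 < Δ₁) (hKNΔτ : (K * N : ℝ) ≤ τ * Δ) (hKNΔ : (K * N : ℝ) ≤ Δ)
    (h1Δτ : 1 ≤ τ * Δ)
    (hA₂ : A + (c + c' * (1 + M * c) / (1 / T)) * (Δ / (2 * P) ^ (e + 2) + K * a) +
      c' * ((1 + 2 * Y) * a ^ 2) ≤ (1 + τ₂) * A)
    (hA' : (1 - τ₂) * A + c * (Δ / (2 * P) ^ (e + 2) + a) ≤ A)
    (haA : 2 * c * a ≤ A) (haA2 : 2 * c' * ((1 + 2 * Y) * a ^ 2) ≤ A)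
    (hLg : ∀ s : ℕ, (s : ℝ) ≤ 15 * (k:ℝ) ^ 2 * a * (2 * P) → (Nat.log 2 s : ℝ) ≤ 2 * Y)
    (hτ₂0 : 0 < τ₂) (hτ₂1 : τ₂ ≤ 1 / 4)
    {G : ℝ} (hG : ((formsZ ι (e + 2) A).card : ℝ) = G) (hG0 : 0 < G)
    (hG₂ : ((formsZ ι (e + 2) ((1 + τ₂) * A)).card : ℝ) ≤ (1 + τ) * G)
    (hG' : (1 - τ) * G ≤ ((formsZ ι (e + 2) ((1 - τ₂) * A)).card : ℝ))
    (hG3A : ((formsZ ι (e + 2) (3 * A)).card : ℝ) ≤ 4 ^ M * G)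
    (hG2A : ((formsZ ι (e + 2) (2 * A)).card : ℝ) ≤ 3 ^ M * G),
    (((formsZ ι (e + 2) A).filter (fun g =>
      ¬ ZeroIn (box P ξ i₀ ρ ρ' S xc) (mem' fc S J g))).card : ℝ) ≤
      ε * (formsZ ι (e + 2) A).card

end Pool.Agent.Y716.Q
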