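import Pool.Agent.Y716.Q.Test

/-!
# The contribution of pairs of test vectors in general position
-/

namespace Pool.Agent.Y716.Q

variable {ι : Type*} [Fintype ι]

open scoped Classical in
/-- number of `g` with prescribed values at both vectors -/
noncomputable def c2 (e : ℕ) (A : ℝ) (u : (ι → ℤ) → ℤ) (p : (ι → ℤ) × (ι → ℤ)) : ℕ :=
  ((formsZ ι (e + 2) A).filter
    (fun g => MvPolynomial.eval p.1 g = u p.1 ∧ MvPolynomial.eval p.2 g = u p.2)).card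

/-- gcd data of a pair -/
def GoodPair (w K N : ℕ) (B κ : ℝ) (p : (ι → ℤ) × (ι → ℤ)) (D : ℕ) : Prop :=
  ∃ g : ℤ, g ≠ 0 ∧ (∀ i j, g ∣ mn p.1 p.2 i j) ∧
      (∀ D, (∀ i j, D ∣ mn p.1 p.2 i j) → D ∣ g) ∧ (∃ i j, κ * B ^ 2 ≤ |(mn p.1 p.2 i j : ℝ)|) ∧
      0 < D ∧ D ≤ N ∧ (D : ℤ) ∣ g ∧ g ∣ (K * D : ℤ) ∧ (∀ q : ℕ, q.Prime → q ≤ w → ¬ q ∣ D)

/-- test set -/
noncomputable def testSet (B a P : ℝ) (ξ : ι → ℝ) (i₀ : ι) (ρ ρ' : ℝ) (S : ℕ) (xc : ι → ℤ) :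
    Finset (ι → ℤ) := by
  classical exact (box P ξ i₀ ρ ρ' S xc).filter (fun x => Sz B x ∧ Prim x ∧ Bal B a x)

theorem mem_testSet {B a P : ℝ} {ξ : ι → ℝ} {i₀ : ι} {ρ ρ' : ℝ} {S : ℕ} {xc x : ι → ℤ} :
    x ∈ testSet B a P ξ i₀ ρ ρ' S xc ↔ x ∈ box P ξ i₀ ρ ρ' S xc ∧ Sz B x ∧ Prim x ∧ Bal B a x := by
  classical
  unfold testSet
  rw [Finset.mem_filter]

theorem exists_gcd_data {x y : ι → ℤ} (h : ∃ i j, mn x y i j ≠ 0) :
    ∃ (g : ℤ) (μ : ℝ), g ≠ 0 ∧ (∀ i j, g ∣ mn x y i j) ∧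
      (∀ D, (∀ i j, D ∣ mn x y i j) → D ∣ g) ∧ 0 < μ ∧ (∃ i j, μ ≤ |(mn x y i j : ℝ)|) ∧
      (∀ i j, |(mn x y i j : ℝ)| ≤ μ) ∧ |(g : ℝ)| ≤ μ := by
  classical
  obtain ⟨i₀, j₀, h0⟩ := h
  set M : ι × ι → ℤ := fun p => mn x y p.1 p.2 with hM
  obtain ⟨g, hg⟩ := (IsPrincipalIdealRing.principal (Ideal.span (Set.range M))).principal
  have hgd : ∀ p, g ∣ M p := by
    intro p
    have : M p ∈ Ideal.span (Set.range M) := Ideal.subset_span ⟨p, rfl⟩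
    rw [hg] at this
    exact Ideal.mem_span_singleton.mp this
  have hgmax : ∀ D, (∀ i j, D ∣ mn x y i j) → D ∣ g := by
    intro D hD
    have h1 : g ∈ Ideal.span (Set.range M) := by
      rw [hg]; exact Ideal.mem_span_singleton_self g
    have h2 : Ideal.span (Set.range M) ≤ Ideal.span {D} := by
      rw [Ideal.span_le]
      rintro _ ⟨p, rfl⟩
      exact Ideal.mem_span_singleton.mpr (hD p.1 p.2)
    exact Ideal.mem_span_singleton.mp (h2 h1)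
  have hne : (Finset.univ : Finset (ι × ι)).Nonempty := ⟨(i₀, j₀), Finset.mem_univ _⟩
  obtain ⟨p, _, hp⟩ := Finset.exists_max_image Finset.univ (fun p => |(M p : ℝ)|) hne
  have hp0 : 0 < |(M p : ℝ)| := by
    have h1 := hp (i₀, j₀) (Finset.mem_univ _)
    have h2 : 0 < |(M (i₀, j₀) : ℝ)| := by
      have : M (i₀, j₀) ≠ 0 := h0
      positivity
    linarith
  have hp0' : M p ≠ 0 := by
    intro h; rw [h] at hp0; simp at hp0
  refine ⟨g, |(M p : ℝ)|, ?_, fun i j => hgd (i, j), hgmax, hp0, ⟨p.1, p.2, le_rfl⟩, ?_, ?_⟩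
  · intro h
    have := hgd (i₀, j₀)
    rw [h, zero_dvd_iff] at this
    exact h0 this
  · intro i j
    exact hp (i, j) (Finset.mem_univ _)
  · have := Int.le_of_dvd (abs_pos.mpr hp0') ((dvd_abs _ _).mpr ((abs_dvd _ _).mpr (hgd p)))
    exact_mod_cast this

theorem exists_coprime_part (w T : ℕ) {n : ℕ} (hn0 : n ≠ 0) (hnT : n ≤ 2 ^ T) :
    ∃ D : ℕ, 0 < D ∧ D ∣ n ∧ n ∣ (∏ p ∈ (Finset.range (w + 1)).filter Nat.Prime, p) ^ T * D ∧
      ∀ p : ℕ, p.Prime → p ≤ w → ¬ p ∣ D := by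
  classical
  induction T generalizing n with
  | zero =>
    have h1 : n = 1 := by
      rw [pow_zero] at hnT; omega
    subst h1
    refine ⟨1, one_pos, dvd_rfl, one_dvd _, ?_⟩
    intro p hp _ h
    exact hp.one_lt.ne' (Nat.dvd_one.mp h)
  | succ T ih =>
    by_cases hex : ∃ p : ℕ, p.Prime ∧ p ≤ w ∧ p ∣ n
    · obtain ⟨p, hp, hpw, n', hn'⟩ := hex
      have hn'0 : n' ≠ 0 := by
        rintro rfl; apply hn0; rw [hn', mul_zero]
      have hle : n' ≤ 2 ^ T := by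
        have h1 : 2 * n' ≤ n := by
          rw [hn']; exact Nat.mul_le_mul_right _ hp.two_le
        rw [pow_succ] at hnT
        omega
      obtain ⟨D, h1, h2, h3, h4⟩ := ih hn'0 hle
      refine ⟨D, h1, ?_, ?_, h4⟩
      · rw [hn']; exact Dvd.dvd.mul_left h2 p
      · rw [hn', pow_succ']
        have h5 : p ∣ ∏ p ∈ (Finset.range (w + 1)).filter Nat.Prime, p :=
          Finset.dvd_prod_of_mem _ (by
            rw [Finset.mem_filter, Finset.mem_range]; exact ⟨by omega, hp⟩)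
        have := mul_dvd_mul h5 h3
        rw [mul_assoc]
        exact this
    · push Not at hex
      refine ⟨n, Nat.pos_of_ne_zero hn0, dvd_rfl, Dvd.dvd.mul_left dvd_rfl _, ?_⟩
      intro p hp hpw h
      exact hex p hp hpw h

theorem exists_lambda {x y : ι → ℤ} (hpx : Prim x) {D : ℕ} (hD : 0 < D)
    (hg : ∀ i j, (D : ℤ) ∣ mn x y i j) :
    ∃ c : ℕ, c < D ∧ ∀ i, (D : ℤ) ∣ y i - c * x i := by
  obtain ⟨z, hz⟩ := hpx.bezout
  have hD' : (D : ℤ) ≠ 0 := by exact_mod_cast hD.ne'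
  have hnn := Int.emod_nonneg (∑ i, z i * y i) hD'
  have hlt := Int.emod_lt_of_pos (∑ i, z i * y i) (by exact_mod_cast hD : (0:ℤ) < D)
  refine ⟨((∑ i, z i * y i) % (D : ℤ)).toNat, ?_, ?_⟩
  · have := Int.toNat_of_nonneg hnn
    omega
  · intro k
    rw [Int.toNat_of_nonneg hnn]
    have hy : y k = ∑ i, z i * mn x y i k + (∑ i, z i * y i) * x k := by
      rw [Finset.sum_mul, ← Finset.sum_add_distrib]
      calc y k = (∑ i, z i * x i) * y k := by rw [hz, one_mul]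
        _ = ∑ i, (z i * mn x y i k + z i * y i * x k) := by
          rw [Finset.sum_mul]
          refine Finset.sum_congr rfl (fun i _ => ?_)
          unfold mn; ring
    have h1 : (D : ℤ) ∣ ∑ i, z i * mn x y i k :=
      Finset.dvd_sum (fun i _ => Dvd.dvd.mul_left (hg i k) _)
    have h2 := Int.mul_ediv_add_emod (∑ i, z i * y i) (D : ℤ)
    have h3 : y k - (∑ i, z i * y i) % (D : ℤ) * x k = ∑ i, z i * mn x y i k +
        D * ((∑ i, z i * y i) / D * x k) := by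
      linear_combination hy - x k * h2
    rw [h3]
    exact dvd_add h1 (dvd_mul_right _ _)

theorem mem_locSet_of {fc : MvPolynomial ι ℤ} {S J : ℕ} {xc : ι → ℤ}
    {P : ℝ} {ξ : ι → ℝ} {i₀ : ι} {ρ ρ' Δ : ℝ} {x : ι → ℤ} (hx : x ∈ box P ξ i₀ ρ ρ' S xc)
    {g : MvPolynomial ι ℤ} {u : ℤ} (hu : MvPolynomial.eval x fc = -(((S * J : ℕ) : ℤ) * u))
    {K D : ℕ} {ζ : ι → ℤ} (hK : (K : ℤ) ∣ MvPolynomial.eval x g - u)
    (hd : |((MvPolynomial.eval x g - u : ℤ) : ℝ)| ≤ Δ) (hD : ∀ i, (D : ℤ) ∣ x i - ζ i) :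
    x ∈ locSet P ξ i₀ ρ ρ' S J xc (mem' fc S J g) K D ζ ((S * J : ℕ) * Δ) := by
  classical
  unfold locSet
  rw [Finset.mem_filter]
  have hev : MvPolynomial.eval x (mem' fc S J g) = ((S * J : ℕ) : ℤ) * (MvPolynomial.eval x g - u) := by
    unfold mem'
    rw [map_add, map_mul, MvPolynomial.eval_C, hu]; ring
  refine ⟨hx, hD, ?_, ?_⟩
  · rw [hev, Nat.cast_mul (S * J) K]
    exact mul_dvd_mul_left _ hK
  · rw [hev, Int.cast_mul, abs_mul]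
    have h1 : |(((S * J : ℕ) : ℤ) : ℝ)| = ((S * J : ℕ) : ℝ) := by
      rw [Int.cast_natCast, abs_of_nonneg (Nat.cast_nonneg _)]
    rw [h1]
    exact mul_le_mul_of_nonneg_left hd (Nat.cast_nonneg _)

open scoped Classical in
theorem good_sum_D (e : ℕ) {w : ℕ} {fc : MvPolynomial ι ℤ} {S J : ℕ} {xc : ι → ℤ}
    {P : ℝ} {ξ : ι → ℝ} {i₀ : ι} {ρ ρ' B a A A₂ Δ κ : ℝ} (ha : 1 ≤ a) (haB : a ≤ B) (hκ : 0 < κ)
    {Lg : ℝ}
    (hLg : ∀ s : ℕ, (s : ℝ) ≤ 15 * (Fintype.card ι) ^ 2 * a * B → (Nat.log 2 s : ℝ) ≤ Lg)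
    (u : (ι → ℤ) → ℤ)
    (hu : ∀ x ∈ box P ξ i₀ ρ ρ' S xc, MvPolynomial.eval x fc = -(((S * J : ℕ) : ℤ) * u x))
    {K N D : ℕ} (hK : 0 < K) (hD : 0 < D) (hΔ : 0 ≤ Δ) (hΔK : K * D ≤ Δ)
    (hA : A + (c1pt (Fintype.card ι) (e + 1) + cker (Fintype.card ι) e *
      (1 + (mons ι (e + 2)).card * c1pt (Fintype.card ι) (e + 1)) / κ) *
      (Δ / B ^ (e + 2) + K * a) + cker (Fintype.card ι) e * ((1 + Lg) * a ^ 2) ≤ A₂)
    {R₁ R₂ : ℝ} (hR₂ : 0 ≤ R₂)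
    (hL1 : ∀ g ∈ formsZ ι (e + 2) A₂,
      ((locSet P ξ i₀ ρ ρ' S J xc (mem' fc S J g) K 1 0 ((S * J : ℕ) * Δ)).card : ℝ) ≤ R₁)
    (hL2 : ∀ g ∈ formsZ ι (e + 2) A₂, ∀ ζ,
      ((locSet P ξ i₀ ρ ρ' S J xc (mem' fc S J g) K D ζ ((S * J : ℕ) * Δ)).card : ℝ) ≤ R₂)
    (Gd : Finset ((ι → ℤ) × (ι → ℤ)))
    (hGd : ∀ p ∈ Gd, p.1 ∈ testSet B a P ξ i₀ ρ ρ' S xc ∧ p.2 ∈ testSet B a P ξ i₀ ρ ρ' S xc ∧
      GoodPair w K N B κ p D) :
    (∑ p ∈ Gd, (c2 e A u p : ℝ)) * ((2 * Δ / K - 1) * (2 * Δ / (K * D) - 1)) ≤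
      (formsZ ι (e + 2) A₂).card * (R₁ * (D * R₂)) := by
  -- the residue multipliers
  have hlam : ∀ p ∈ Gd, ∃ c : ℕ, c < D ∧ ∀ i, (D : ℤ) ∣ p.2 i - c * p.1 i := by
    intro p hp
    obtain ⟨h1, h2, g, hg0, hg1, hg2, hg3, hg4, hg5, hg6, hg7, hg8⟩ := hGd p hp
    exact exists_lambda (mem_testSet.mp h1).2.2.1 hD (fun i j => hg6.trans (hg1 i j))
  choose! lam hlam1 hlam2 using hlam
  set Δ₁ : ℝ := ((S * J : ℕ) : ℝ) * Δ with hΔ₁
  set Loc : MvPolynomial ι ℤ → Finset (ι → ℤ) := fun g =>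
    locSet P ξ i₀ ρ ρ' S J xc (mem' fc S J g) K 1 0 Δ₁ with hLoc
  set LocD : MvPolynomial ι ℤ → (ι → ℤ) → Finset (ι → ℤ) := fun g ζ =>
    locSet P ξ i₀ ρ ρ' S J xc (mem' fc S J g) K D ζ Δ₁ with hLocD
  have hA1 : ∀ p ∈ Gd, (c2 e A u p : ℝ) * ((2 * Δ / K - 1) * (2 * Δ / (K * D) - 1)) ≤
      (((formsZ ι (e + 2) A₂).filter
        (fun g => p.1 ∈ Loc g ∧ p.2 ∈ LocD g (fun i => (lam p : ℤ) * p.1 i))).card : ℝ) := by
    intro p hp
    obtain ⟨h1, h2, g, hg0, hg1, hg2, hg3, hg4, hg5, hg6, hg7, hg8⟩ := hGd p hp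
    obtain ⟨hx1, hx2, hx3, hx4⟩ := mem_testSet.mp h1
    obtain ⟨hy1, hy2, hy3, hy4⟩ := mem_testSet.mp h2
    have key := cnt2_cond e hx4 hx2 hx3 hy4 hy2 ha haB hg0 hg1 hg2 hκ hg3 hLg (u p.1) (u p.2)
      hK hD hg7 hΔ hΔK hA
    refine key.trans ?_
    have : ((formsZ ι (e + 2) A₂).filter
      (fun f => ((K : ℤ) ∣ MvPolynomial.eval p.1 f - u p.1 ∧
        |((MvPolynomial.eval p.1 f - u p.1 : ℤ) : ℝ)| ≤ Δ) ∧
        ((K : ℤ) ∣ MvPolynomial.eval p.2 f - u p.2 ∧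
        |((MvPolynomial.eval p.2 f - u p.2 : ℤ) : ℝ)| ≤ Δ))).card ≤ ((formsZ ι (e + 2) A₂).filter
        (fun g => p.1 ∈ Loc g ∧ p.2 ∈ LocD g (fun i => (lam p : ℤ) * p.1 i))).card := by
      apply Finset.card_le_card
      intro f hf
      rw [Finset.mem_filter] at hf ⊢
      obtain ⟨hf1, ⟨hf2, hf3⟩, hf4, hf5⟩ := hf
      refine ⟨hf1, ?_, ?_⟩
      · exact mem_locSet_of hx1 (hu _ hx1) hf2 hf3 (fun i => by simp)
      · exact mem_locSet_of hy1 (hu _ hy1) hf4 hf5 (hlam2 p hp)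
    exact_mod_cast this
  have hB1 : ∑ p ∈ Gd, (((formsZ ι (e + 2) A₂).filter
      (fun g => p.1 ∈ Loc g ∧ p.2 ∈ LocD g (fun i => (lam p : ℤ) * p.1 i))).card : ℝ) =
      ∑ g ∈ formsZ ι (e + 2) A₂, ((Gd.filter
        (fun p => p.1 ∈ Loc g ∧ p.2 ∈ LocD g (fun i => (lam p : ℤ) * p.1 i))).card : ℝ) := by
    simp only [Finset.card_filter, Nat.cast_sum]
    exact Finset.sum_comm
  have hB2 : ∀ g ∈ formsZ ι (e + 2) A₂, ((Gd.filter
        (fun p => p.1 ∈ Loc g ∧ p.2 ∈ LocD g (fun i => (lam p : ℤ) * p.1 i))).card : ℝ) ≤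
        R₁ * (D * R₂) := by
    intro g hg
    have hsub : (Gd.filter (fun p => p.1 ∈ Loc g ∧ p.2 ∈ LocD g (fun i => (lam p : ℤ) * p.1 i))) ⊆
        ((Loc g) ×ˢ (Finset.range D)).biUnion
          (fun r => (LocD g (fun i => ((r.2 : ℕ) : ℤ) * r.1 i)).image (fun y => (r.1, y))) := by
      intro p hp
      rw [Finset.mem_filter] at hp
      rw [Finset.mem_biUnion]
      refine ⟨(p.1, lam p), ?_, ?_⟩
      · rw [Finset.mem_product]
        exact ⟨hp.2.1, Finset.mem_range.mpr (hlam1 p hp.1)⟩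
      · rw [Finset.mem_image]
        exact ⟨p.2, hp.2.2, rfl⟩
    have h1 := (Finset.card_le_card hsub).trans Finset.card_biUnion_le
    have h1' := (Nat.cast_le (α := ℝ)).mpr h1
    rw [Nat.cast_sum] at h1'
    refine h1'.trans ?_
    have h2 : ∀ r ∈ (Loc g) ×ˢ (Finset.range D),
        (((LocD g (fun i => ((r.2 : ℕ) : ℤ) * r.1 i)).image (fun y => (r.1, y))).card : ℝ) ≤ R₂ := by
      intro r _
      refine le_trans ?_ (hL2 g hg (fun i => ((r.2 : ℕ) : ℤ) * r.1 i))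
      exact_mod_cast Finset.card_image_le
    refine (Finset.sum_le_sum h2).trans ?_
    rw [Finset.sum_const, nsmul_eq_mul, Finset.card_product, Finset.card_range]
    push_cast
    rw [mul_assoc]
    apply mul_le_mul_of_nonneg_right (hL1 g hg) (by positivity)
  rw [Finset.sum_mul]
  refine (Finset.sum_le_sum hA1).trans ?_
  rw [hB1]
  refine (Finset.sum_le_sum hB2).trans ?_
  rw [Finset.sum_const, nsmul_eq_mul]

end Pool.Agent.Y716.Q
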