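import Pool.Agent.Y716.Q.Num
import Pool.Agent.Y716.Q.Good

/-!
# Normalised bounds for the local counts of a class
-/

namespace Pool.Agent.Y716.Q

variable {ι : Type*} [Fintype ι]

/-- upper bound for the number of locally small vectors, normalised -/
theorem loc_norm_le {w : ℕ} {fc : MvPolynomial ι ℤ} {S J : ℕ} {xc v : ι → ℤ}
    (h : PData w fc S J xc v) {P : ℝ} {ξ : ι → ℝ} {i₀ : ι} {ρ ρ' σ D₀ c₂ Δ Δ₀ τ X₁ X₂ : ℝ}
    (hρ : 0 ≤ ρ) (hρ' : 0 ≤ ρ') (hP : 0 ≤ P) (hτ : 0 < τ) (hτ1 : τ ≤ 1 / 2) (hD₀ : 0 < D₀)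
    (hσ : |σ| = 1) (hΔ : 0 ≤ Δ) (hΔ₀ : Δ ≤ Δ₀) {g : MvPolynomial ι ℤ}
    (hf : SlopeCond σ ((1 - τ) * D₀) c₂ Δ₀ P ξ i₀ ρ ρ' (mem' fc S J g))
    (hX₁ : X₁ = 2 * ρ * P / S) (hX₂ : X₂ = 2 * Δ / (D₀ * S))
    {N K : ℕ} (hK : K = (∏ p ∈ (Finset.range (w + 1)).filter Nat.Prime, p) ^ N)
    {D : ℕ} (hD : 0 < D) (hDw : ∀ q : ℕ, q.Prime → q ≤ w → ¬ q ∣ D)
    (h1 : (K * D : ℕ) ≤ τ * X₁) (h2 : (K * D : ℕ) ≤ τ * X₂) (hk : 1 ≤ Fintype.card ι)
    (ζ : ι → ℤ) :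
    ((locSet P ξ i₀ ρ ρ' S J xc (mem' fc S J g) K D ζ Δ).card : ℝ) ≤
      (1 + τ) ^ Fintype.card ι / (1 - τ) * (X₁ ^ (Fintype.card ι - 1) * X₂) /
        (K * (D : ℝ) ^ Fintype.card ι) := by
  classical
  obtain ⟨L, hL1, hL2⟩ : ∃ L : List ℕ, (∀ p ∈ L, p.Prime ∧ p ≤ w) ∧ L.prod = K := by
    refine ⟨(List.replicate N ((Finset.range (w + 1)).filter Nat.Prime).toList).flatten, ?_, ?_⟩
    · intro p hp
      rw [List.mem_flatten] at hp
      obtain ⟨l, hl, hpl⟩ := hp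
      have := List.eq_of_mem_replicate hl
      subst this
      have h3 := Finset.mem_toList.mp hpl
      rw [Finset.mem_filter, Finset.mem_range] at h3
      exact ⟨h3.2, by omega⟩
    · rw [List.prod_flatten, List.map_replicate, List.prod_replicate, Finset.prod_toList, hK]
  have hK0 : 0 < K := by
    rw [← hL2]
    apply List.prod_pos
    intro p hp
    exact (hL1 p hp).1.pos
  have hcop : Nat.Coprime (S * L.prod) D := by
    rw [Nat.coprime_comm]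
    apply Nat.Coprime.symm
    apply Nat.Coprime.mul_left
    · apply Nat.Coprime.symm
      apply Nat.coprime_of_dvd
      intro q hq hqD hqS
      exact hDw q hq (h.hSW q hq hqS) hqD
    · apply Nat.coprime_list_prod_left_iff.mpr
      intro p hp
      rw [(hL1 p hp).1.coprime_iff_not_dvd]
      exact hDw p (hL1 p hp).1 (hL1 p hp).2
  have hc₁ : 0 < (1 - τ) * D₀ := by apply mul_pos _ hD₀; linarith
  have key := locSet_card_le h hρ hρ' hP hσ hc₁ hΔ hΔ₀ hf L hL1 hD hcop ζ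
  rw [hL2] at key
  refine key.trans ?_
  have hS0 : (0:ℝ) < S := by exact_mod_cast h.hS
  have hKr : (0:ℝ) < K := by exact_mod_cast hK0
  have hDr : (0:ℝ) < D := by exact_mod_cast hD
  have e1 : 2 * ρ * P / (S * K * D : ℕ) = X₁ / (K * D : ℕ) := by
    rw [hX₁]; push_cast; field_simp
  have e2 : 2 * Δ / ((1 - τ) * D₀ * (S * K * D : ℕ)) = X₂ / ((1 - τ) * (K * D : ℕ)) := by
    have : 1 - τ ≠ 0 := by linarith
    rw [hX₂]; push_cast; field_simp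
  rw [e1, e2]
  have key2 := num_upper (k := Fintype.card ι) (M := K * D) (X₁ := X₁) (X₂ := X₂) (τ := τ)
    (θ := τ) hk (Nat.mul_pos hK0 hD) (by linarith) hτ.le hτ h1 h2
  have h3 := mul_le_mul_of_nonneg_left key2 (by positivity : (0:ℝ) ≤ (K:ℝ) ^ (Fintype.card ι - 1))
  refine h3.trans (le_of_eq ?_)
  obtain ⟨n, hn⟩ : ∃ n, Fintype.card ι = n + 1 := ⟨Fintype.card ι - 1, by omega⟩
  rw [hn, Nat.add_sub_cancel]
  push_cast
  rw [mul_pow, pow_succ (K:ℝ)]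
  field_simp

open scoped Classical in
/-- lower bound for the number of test vectors at which `f` is small, normalised -/
theorem test_lower {w : ℕ} (hw : 1 ≤ w) {fc : MvPolynomial ι ℤ} {S J : ℕ} {xc v : ι → ℤ}
    (h : PData w fc S J xc v) {P : ℝ} {ξ : ι → ℝ} {i₀ : ι} {ρ ρ' σ D₀ Δ Δ₀ τ X₁ X₂ a : ℝ}
    (hρ : 0 ≤ ρ) (hρρ' : ρ ≤ ρ') (hρ'2 : ρ' ≤ 1 / 2) (hP : 0 < P) (hτ : 0 < τ) (hτ1 : τ ≤ 1 / 2)
    (hD₀ : 0 < D₀) (hwτ : 1 / (w : ℝ) ≤ τ) (hξ : ∀ i, |ξ i| ≤ 1) (hξr : ∃ r, ξ r = 1)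
    (hσ : |σ| = 1) (hΔ : 0 ≤ Δ) (hΔ₀ : Δ ≤ Δ₀) {g : MvPolynomial ι ℤ}
    (hf : SlopeCond σ ((1 - τ) * D₀) ((1 + τ) * D₀) Δ₀ P ξ i₀ ρ ρ' (mem' fc S J g))
    (hX₁ : X₁ = 2 * ρ * P / S) (hX₂ : X₂ = 2 * Δ / (D₀ * S))
    {N : ℕ} (hN : 1 ≤ N) (h1 : N ≤ τ * X₁) (h2 : 2 * N ≤ τ * X₂) (hk : 2 ≤ Fintype.card ι)
    (h3 : (6 * P) ^ Fintype.card ι / N ≤ τ * (X₁ ^ (Fintype.card ι - 1) * X₂))
    (h4 : ∀ U : Finset (ι → ℤ), (∀ x ∈ U, Sz (2 * P) x ∧ Prim x ∧ ¬ Bal (2 * P) a x) →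
      (U.card : ℝ) ≤ τ * (X₁ ^ (Fintype.card ι - 1) * X₂)) :
    bfun (Fintype.card ι) τ * (X₁ ^ (Fintype.card ι - 1) * X₂) ≤
      (((testSet (2 * P) a P ξ i₀ ρ ρ' S xc).filter (fun x =>
        |((MvPolynomial.eval x (mem' fc S J g) : ℤ) : ℝ)| ≤ Δ)).card : ℝ) := by
  set f := mem' fc S J g with hfdef
  have hS0 : (0:ℝ) < S := by exact_mod_cast h.hS
  have hNr : (1:ℝ) ≤ N := by exact_mod_cast hN
  have hc₁ : 0 < (1 - τ) * D₀ := by apply mul_pos _ hD₀; linarith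
  have hX₁0 : 0 < X₁ := by
    by_contra hcon
    have : τ * X₁ ≤ 0 := mul_nonpos_of_nonneg_of_nonpos hτ.le (not_lt.mp hcon)
    linarith
  have hX₂0 : 0 < X₂ := by
    by_contra hcon
    have : τ * X₂ ≤ 0 := mul_nonpos_of_nonneg_of_nonpos hτ.le (not_lt.mp hcon)
    linarith
  set R := X₁ ^ (Fintype.card ι - 1) * X₂ with hR
  have hR0 : 0 < R := by rw [hR]; positivity
  have h1τ : 0 < 1 - τ := by linarith
  -- slab
  have hslab : (1 - τ) ^ Fintype.card ι / (1 + τ) * R ≤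
      (((box P ξ i₀ ρ ρ' S xc).filter (fun x =>
        |((MvPolynomial.eval x f : ℤ) : ℝ)| ≤ Δ)).card : ℝ) := by
    have hSρ : (S : ℝ) ≤ 2 * ρ * P := by
      have h5 : 1 ≤ X₁ := by
        have h6 : (1:ℝ) ≤ τ * X₁ := hNr.trans h1
        nlinarith
      rw [hX₁, le_div_iff₀ hS0] at h5
      linarith
    have key := slab_class_ge (f := f) hρ hρρ' hP.le hσ hc₁ hΔ hΔ₀ hf (M := S) h.hS hSρ xc
      ((box P ξ i₀ ρ ρ' S xc).filter (fun x => |((MvPolynomial.eval x f : ℤ) : ℝ)| ≤ Δ))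
      (fun x hx1 hx2 hx3 => by
        rw [Finset.mem_filter, mem_box]
        exact ⟨⟨hx2, hx1⟩, hx3⟩)
    refine le_trans ?_ key
    have e1 : 2 * ρ * P / S = X₁ / (1 : ℕ) := by rw [hX₁]; push_cast; ring
    have e2 : 2 * Δ / ((1 + τ) * D₀ * S) = X₂ / ((1 + τ) * (1 : ℕ)) := by
      rw [hX₂]; push_cast; field_simp
    rw [e1, e2]
    have key2 := num_lower (k := Fintype.card ι) (M := 1) (X₁ := X₁) (X₂ := X₂) (τ := τ)
      (θ := τ) (by omega) le_rfl (by linarith) hτ.le hτ (by linarith)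
      (by push_cast; linarith) (by push_cast; linarith)
    simp only [Nat.cast_one, one_pow, div_one] at key2 ⊢
    exact key2
  -- imprimitive
  have hnp := nonprim_count hw h (Δ := Δ) (c₁ := (1 - τ) * D₀) hρ hρρ' hρ'2 hξ hξr hP hσ hc₁ hΔ
    hΔ₀ hf hk N hN
    ((1 + τ) ^ Fintype.card ι / (1 - τ) * R) (by positivity) (by
      intro D hD hDN
      have hDr : (1:ℝ) ≤ D := by exact_mod_cast hD
      have hDNr : (D:ℝ) ≤ N := by exact_mod_cast hDN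
      have e1 : 2 * ρ * P / (S * 1 * D : ℕ) = X₁ / D := by
        rw [hX₁]; push_cast; field_simp
      have e2 : 2 * Δ / ((1 - τ) * D₀ * (S * 1 * D : ℕ)) = X₂ / ((1 - τ) * D) := by
        have : 1 - τ ≠ 0 := by linarith
        rw [hX₂]; push_cast; field_simp
      rw [e1, e2]
      have key2 := num_upper (k := Fintype.card ι) (M := D) (X₁ := X₁) (X₂ := X₂) (τ := τ)
        (θ := τ) (by omega) hD (by linarith) hτ.le hτ (by linarith) (by linarith)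
      refine key2.trans ?_
      rw [← hR]
      apply div_le_div_of_nonneg_left (by positivity) (by positivity)
      exact pow_le_pow_right₀ hDr hk)
  -- unbalanced
  have hub := h4 ((box P ξ i₀ ρ ρ' S xc).filter (fun x => Prim x ∧ ¬ Bal (2 * P) a x)) (by
    intro x hx
    rw [Finset.mem_filter] at hx
    exact ⟨InBox.sz hP hρ hρρ' hρ'2 hξ hξr (mem_box.mp hx.1).1, hx.2.1, hx.2.2⟩)
  have hcov : (box P ξ i₀ ρ ρ' S xc).filter (fun x => |((MvPolynomial.eval x f : ℤ) : ℝ)| ≤ Δ) ⊆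
      ((testSet (2 * P) a P ξ i₀ ρ ρ' S xc).filter (fun x =>
        |((MvPolynomial.eval x f : ℤ) : ℝ)| ≤ Δ)) ∪
      ((box P ξ i₀ ρ ρ' S xc).filter (fun x => ¬ Prim x ∧
        |((MvPolynomial.eval x f : ℤ) : ℝ)| ≤ Δ)) ∪
      ((box P ξ i₀ ρ ρ' S xc).filter (fun x => Prim x ∧ ¬ Bal (2 * P) a x)) := by
    intro x hx
    rw [Finset.mem_filter] at hx
    rw [Finset.mem_union, Finset.mem_union, Finset.mem_filter, Finset.mem_filter,
      Finset.mem_filter, mem_testSet]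
    have hsz := InBox.sz hP hρ hρρ' hρ'2 hξ hξr (mem_box.mp hx.1).1
    by_cases hp : Prim x
    · by_cases hb : Bal (2 * P) a x
      · left; left; exact ⟨⟨hx.1, hsz, hp, hb⟩, hx.2⟩
      · right; exact ⟨hx.1, hp, hb⟩
    · left; right; exact ⟨hx.1, hp, hx.2⟩
  have hc := (Finset.card_le_card hcov).trans ((Finset.card_union_le _ _).trans
    (Nat.add_le_add_right (Finset.card_union_le _ _) _))
  have hc' : (((box P ξ i₀ ρ ρ' S xc).filter (fun x =>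
        |((MvPolynomial.eval x f : ℤ) : ℝ)| ≤ Δ)).card : ℝ) ≤
      (((testSet (2 * P) a P ξ i₀ ρ ρ' S xc).filter (fun x =>
        |((MvPolynomial.eval x f : ℤ) : ℝ)| ≤ Δ)).card : ℝ) +
      (((box P ξ i₀ ρ ρ' S xc).filter (fun x => ¬ Prim x ∧
        |((MvPolynomial.eval x f : ℤ) : ℝ)| ≤ Δ)).card : ℝ) +
      (((box P ξ i₀ ρ ρ' S xc).filter (fun x => Prim x ∧ ¬ Bal (2 * P) a x)).card : ℝ) := by
    exact_mod_cast hc
  have h6 : (1 + τ) ^ Fintype.card ι / (1 - τ) * R / w ≤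
      (1 + τ) ^ Fintype.card ι / (1 - τ) * R * τ := by
    rw [div_eq_mul_one_div _ (w : ℝ)]
    exact mul_le_mul_of_nonneg_left hwτ (by positivity)
  have h7 : bfun (Fintype.card ι) τ * R = (1 - τ) ^ Fintype.card ι / (1 + τ) * R -
      (1 + τ) ^ Fintype.card ι / (1 - τ) * R * τ - 2 * (τ * R) := by
    unfold bfun; ring
  rw [h7]
  linarith

end Pool.Agent.Y716.Q
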