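import Pool.Agent.Y716.Q.Kernel

/-!
# Counting integral forms with prescribed values at one or two points
-/

namespace Pool.Agent.Y716.Q

variable {ι : Type*}

/-- the integers in a real interval -/
noncomputable def ivl (a b : ℝ) : Finset ℤ := Finset.Icc ⌈a⌉ ⌊b⌋

theorem mem_ivl {a b : ℝ} {n : ℤ} : n ∈ ivl a b ↔ a ≤ n ∧ (n : ℝ) ≤ b := by
  unfold ivl
  rw [Finset.mem_Icc, Int.ceil_le, Int.le_floor]

theorem card_ivl_ge (a b : ℝ) : b - a - 1 ≤ ((ivl a b).card : ℝ) := by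
  unfold ivl
  rw [Int.card_Icc]
  have h1 := Int.ceil_lt_add_one a
  have h2 := Int.sub_one_lt_floor b
  have h3 : ((⌊b⌋ + 1 - ⌈a⌉ : ℤ) : ℝ) ≤ (((⌊b⌋ + 1 - ⌈a⌉).toNat : ℕ) : ℝ) := by
    exact_mod_cast Int.self_le_toNat _
  push_cast at h3
  linarith

theorem card_ivl_le {a b : ℝ} (hab : a ≤ b) : ((ivl a b).card : ℝ) ≤ b - a + 1 := by
  unfold ivl
  rw [Int.card_Icc]
  have h1 := Int.le_ceil a
  have h2 := Int.floor_le b
  by_cases h : 0 ≤ ⌊b⌋ + 1 - ⌈a⌉
  · have h3 : (((⌊b⌋ + 1 - ⌈a⌉).toNat : ℕ) : ℝ) = ((⌊b⌋ + 1 - ⌈a⌉ : ℤ) : ℝ) := by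
      have := Int.toNat_of_nonneg h
      exact_mod_cast this
    rw [h3]
    push_cast
    linarith
  · have h3 : (⌊b⌋ + 1 - ⌈a⌉).toNat = 0 := Int.toNat_eq_zero.mpr (by omega)
    rw [h3]
    push_cast
    linarith

theorem card_ivl_sym_ge {N : ℝ} (hN : 0 ≤ N) : N ≤ ((ivl (-N) N).card : ℝ) := by
  by_cases h : 1 ≤ N
  · have := card_ivl_ge (-N) N
    linarith
  · have h1 : (0 : ℤ) ∈ ivl (-N) N := by
      rw [mem_ivl]
      constructor
      · push_cast; linarith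
      · push_cast; exact hN
    have h2 : 1 ≤ (ivl (-N) N).card := Finset.card_pos.mpr ⟨0, h1⟩
    have h3 : (1:ℝ) ≤ ((ivl (-N) N).card : ℝ) := by exact_mod_cast h2
    linarith

section
variable [Fintype ι]

theorem IsF.eval_le {d : ℕ} {R B : ℝ} {f : MvPolynomial ι ℤ} (hf : IsF d R f)
    {x : ι → ℤ} (hx : ∀ i, |(x i : ℝ)| ≤ B) :
    |((MvPolynomial.eval x f : ℤ) : ℝ)| ≤ (mons ι d).card * R * B ^ d := by
  classical
  have h1 : MvPolynomial.eval x f = ∑ m ∈ mons ι d, f.coeff m * ∏ i, x i ^ m i := by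
    rw [MvPolynomial.eval_eq']
    apply Finset.sum_subset
    · intro m hm
      rw [mem_mons]
      exact homog_sum_eq hf.1 (MvPolynomial.mem_support_iff.mp hm)
    · intro m _ hm
      rw [MvPolynomial.notMem_support_iff.mp hm, zero_mul]
  rw [h1]
  push_cast
  refine (Finset.abs_sum_le_sum_abs _ _).trans ?_
  have h2 : ∀ m ∈ mons ι d, |((f.coeff m : ℤ) : ℝ) * ∏ i, (x i : ℝ) ^ m i| ≤ R * B ^ d := by
    intro m hm
    rw [abs_mul]
    apply mul_le_mul (hf.2 m) _ (abs_nonneg _) hf.nonneg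
    rw [Finset.abs_prod, ← mem_mons.mp hm, ← Finset.prod_pow_eq_pow_sum]
    apply Finset.prod_le_prod
    · intro i _; exact abs_nonneg _
    · intro i _
      rw [abs_pow]
      exact pow_le_pow_left₀ (abs_nonneg _) (hx i) _
  refine (Finset.sum_le_sum h2).trans ?_
  rw [Finset.sum_const, nsmul_eq_mul, mul_assoc]

/-- Abstract counting lemma. -/
theorem count_abs (S T : Finset (MvPolynomial ι ℤ)) (x y : ι → ℤ) (I : Finset ℤ)
    (W : ℤ → Finset ℤ) {K L : ℤ} (hK : K ≠ 0) (hL : L ≠ 0) (G H : ℤ → MvPolynomial ι ℤ)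
    (hG : ∀ s ∈ I, MvPolynomial.eval x (G s) = K * s)
    (hH : ∀ s ∈ I, ∀ w ∈ W s, MvPolynomial.eval x (H w) = 0 ∧ MvPolynomial.eval y (H w) = L * w)
    (u v : ℤ) (hS : ∀ f ∈ S, MvPolynomial.eval x f = u ∧ MvPolynomial.eval y f = v)
    (hT : ∀ f ∈ S, ∀ s ∈ I, ∀ w ∈ W s, f + G s + H w ∈ T) :
    S.card * ∑ s ∈ I, (W s).card ≤ T.card := by
  classical
  have h1 : (S ×ˢ (I.sigma W)).card ≤ T.card := by
    apply Finset.card_le_card_of_injOn (fun p => p.1 + G p.2.1 + H p.2.2)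
    · rintro ⟨f, s, w⟩ hp
      simp only [Finset.coe_product, Set.mem_prod, Finset.mem_coe, Finset.mem_sigma] at hp
      exact hT f hp.1 s hp.2.1 w hp.2.2
    · rintro ⟨f, s, w⟩ hp ⟨f', s', w'⟩ hp' heq
      simp only [Finset.coe_product, Set.mem_prod, Finset.mem_coe, Finset.mem_sigma] at hp hp'
      simp only at heq
      have e1 := congrArg (MvPolynomial.eval x) heq
      rw [map_add, map_add, map_add, map_add, (hS f hp.1).1, (hS f' hp'.1).1,
        hG s hp.2.1, hG s' hp'.2.1, (hH s hp.2.1 w hp.2.2).1, (hH s' hp'.2.1 w' hp'.2.2).1,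
        add_zero, add_zero] at e1
      have hs : s = s' := mul_left_cancel₀ hK (add_left_cancel e1)
      subst hs
      have e2 := congrArg (MvPolynomial.eval y) heq
      rw [map_add, map_add, map_add, map_add, (hS f hp.1).2, (hS f' hp'.1).2,
        (hH s hp.2.1 w hp.2.2).2, (hH s hp'.2.1 w' hp'.2.2).2] at e2
      have hw : w = w' := mul_left_cancel₀ hL (add_left_cancel e2)
      subst hw
      have : f = f' := by
        have := add_right_cancel heq
        exact add_right_cancel this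
      subst this
      rfl
  rwa [Finset.card_product, Finset.card_sigma] at h1

open scoped Classical in
/-- One-point upper bound. -/
theorem cnt1_le {B a A : ℝ} (e : ℕ) {x : ι → ℤ} (hbx : Bal B a x) (hx : Sz B x) (hB : 1 ≤ B)
    (ha : 1 ≤ a) (haA : 2 * c1pt (Fintype.card ι) e * a ≤ A)
    (u : ℤ) :
    (((formsZ ι (e + 1) A).filter (fun f => MvPolynomial.eval x f = u)).card : ℝ) *
      (A * B ^ (e + 1)) ≤ 2 * c1pt (Fintype.card ι) e * (formsZ ι (e + 1) (2 * A)).card := by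
  obtain ⟨r₀, hr₀⟩ := hx.2
  have hk0 : 0 < Fintype.card ι := Fintype.card_pos_iff.mpr ⟨r₀⟩
  set c := c1pt (Fintype.card ι) e with hc
  have hc0 : 0 < c := by rw [hc]; unfold c1pt; positivity
  have hA : 0 ≤ A := by nlinarith
  set N := A * B ^ (e + 1) / (2 * c) with hN
  have hN0 : 0 ≤ N := by positivity
  have hBp : 0 < B ^ (e + 1) := by positivity
  have hone : ∀ s : ℤ, s ∈ ivl (-N) N → ∃ h : MvPolynomial ι ℤ, IsF (e + 1) A h ∧
      MvPolynomial.eval x h = s := by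
    intro s hs
    rw [mem_ivl, ← abs_le] at hs
    have hq : 0 ≤ |(s : ℝ)| / B ^ (e + 1) := by positivity
    obtain ⟨h, h1, h2⟩ := hbx.onepoint hx hB e (|(s : ℝ)| / B ^ (e + 1) + a) (by linarith)
      (by linarith) s (by
        rw [add_mul, div_mul_cancel₀ _ hBp.ne']
        have : 0 ≤ a * B ^ (e + 1) := by positivity
        linarith)
    refine ⟨h, h1.mono ?_, h2⟩
    rw [← hc]
    have h3 : |(s : ℝ)| / B ^ (e + 1) ≤ A / (2 * c) := by
      rw [div_le_iff₀ hBp]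
      refine hs.trans (le_of_eq ?_)
      rw [hN]; ring
    have h4 : c * (|(s : ℝ)| / B ^ (e + 1)) ≤ A / 2 := by
      have := mul_le_mul_of_nonneg_left h3 hc0.le
      refine this.trans (le_of_eq ?_)
      field_simp
    linarith
  choose! G hG1 hG2 using hone
  have key := count_abs ((formsZ ι (e + 1) A).filter (fun f => MvPolynomial.eval x f = u))
    (formsZ ι (e + 1) (2 * A)) x x (ivl (-N) N) (fun _ => {0}) (K := 1) (L := 1)
    one_ne_zero one_ne_zero G (fun _ => 0) (fun s hs => by rw [hG2 s hs, one_mul])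
    (fun s _ w hw => by
      rw [Finset.mem_singleton] at hw
      subst hw; simp) u u
    (fun f hf => ⟨(Finset.mem_filter.mp hf).2, (Finset.mem_filter.mp hf).2⟩)
    (fun f hf s hs w _ => by
      rw [mem_formsZ, add_zero]
      have := (mem_formsZ.mp (Finset.mem_filter.mp hf).1).add (hG1 s hs)
      exact this.mono (by linarith))
  simp only [Finset.card_singleton, Finset.sum_const, smul_eq_mul, mul_one] at key
  have key' := (Nat.cast_le (α := ℝ)).mpr key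
  push_cast at key'
  have h5 := card_ivl_sym_ge hN0
  have h6 := mul_le_mul_of_nonneg_left h5
    (Nat.cast_nonneg (α := ℝ) ((formsZ ι (e + 1) A).filter (fun f => MvPolynomial.eval x f = u)).card)
  have h7 := h6.trans key'
  have h8 : A * B ^ (e + 1) = 2 * c * N := by
    rw [hN]; field_simp
  rw [h8]
  nlinarith

open scoped Classical in
/-- One-point lower bound. -/
theorem cnt1_ge {B a A A' Δ : ℝ} (e : ℕ) {x : ι → ℤ} (hbx : Bal B a x) (hx : Sz B x) (hB : 1 ≤ B)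
    (ha : 1 ≤ a) (hΔ : 0 ≤ Δ) (hA : A' + c1pt (Fintype.card ι) e * (Δ / B ^ (e + 1) + a) ≤ A)
    (u : ℤ) :
    (((formsZ ι (e + 1) A').filter (fun f => |((MvPolynomial.eval x f - u : ℤ) : ℝ)| ≤ Δ)).card : ℝ)
    ≤ ((formsZ ι (e + 1) A).filter (fun f => MvPolynomial.eval x f = u)).card * (2 * Δ + 1) := by
  set c := c1pt (Fintype.card ι) e with hc
  have hc0 : 0 ≤ c := c1pt_nonneg _ _
  have hBp : 0 < B ^ (e + 1) := by positivity
  have hone : ∀ s : ℤ, s ∈ ivl (-Δ) Δ → ∃ h : MvPolynomial ι ℤ,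
      IsF (e + 1) (c * (Δ / B ^ (e + 1) + a)) h ∧ MvPolynomial.eval x h = s := by
    intro s hs
    rw [mem_ivl, ← abs_le] at hs
    have hq : 0 ≤ Δ / B ^ (e + 1) := by positivity
    exact hbx.onepoint hx hB e (Δ / B ^ (e + 1) + a) (by linarith)
      (by linarith) s (by
        rw [add_mul, div_mul_cancel₀ _ hBp.ne']
        have : 0 ≤ a * B ^ (e + 1) := by positivity
        linarith)
  choose! G hG1 hG2 using hone
  have hmem : ∀ f : MvPolynomial ι ℤ, |((MvPolynomial.eval x f - u : ℤ) : ℝ)| ≤ Δ →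
      u - MvPolynomial.eval x f ∈ ivl (-Δ) Δ := by
    intro f hf
    rw [mem_ivl, ← abs_le]
    have : ((u - MvPolynomial.eval x f : ℤ) : ℝ) = -((MvPolynomial.eval x f - u : ℤ) : ℝ) := by
      push_cast; ring
    rw [this, abs_neg]
    exact hf
  have h1 : ((formsZ ι (e + 1) A').filter
      (fun f => |((MvPolynomial.eval x f - u : ℤ) : ℝ)| ≤ Δ)).card ≤
      (((formsZ ι (e + 1) A).filter (fun f => MvPolynomial.eval x f = u)) ×ˢ ivl (-Δ) Δ).card := by
    apply Finset.card_le_card_of_injOn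
      (fun f => (f + G (u - MvPolynomial.eval x f), u - MvPolynomial.eval x f))
    · intro f hf
      obtain ⟨hf1, hf2⟩ := Finset.mem_filter.mp (Finset.mem_coe.mp hf)
      have h2 := hmem f hf2
      simp only [Finset.coe_product, Set.mem_prod, Finset.mem_coe, Finset.mem_filter]
      refine ⟨⟨?_, ?_⟩, h2⟩
      · rw [mem_formsZ]
        exact ((mem_formsZ.mp hf1).add (hG1 _ h2)).mono hA
      · rw [map_add, hG2 _ h2]; ring
    · intro f hf f' hf' heq
      simp only [Prod.mk.injEq] at heq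
      rw [heq.2] at heq
      exact add_right_cancel heq.1
  rw [Finset.card_product] at h1
  have h1' := (Nat.cast_le (α := ℝ)).mpr h1
  rw [Nat.cast_mul] at h1'
  refine h1'.trans ?_
  apply mul_le_mul_of_nonneg_left _ (Nat.cast_nonneg _)
  have := card_ivl_le (a := -Δ) (b := Δ) (by linarith)
  linarith

open scoped Classical in
/-- Two-point upper bound. -/
theorem cnt2_le {B a A : ℝ} (e : ℕ) {x y : ι → ℤ} (hbx : Bal B a x) (hx : Sz B x)
    (hpx : Prim x) (hby : Bal B a y) (hy : Sz B y) (ha : 1 ≤ a) (haB : a ≤ B)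
    {g : ℤ} (hg0 : g ≠ 0) (hg : ∀ i j, g ∣ mn x y i j)
    (hgmax : ∀ D, (∀ i j, D ∣ mn x y i j) → D ∣ g) {μ : ℝ} (hμ0 : 0 < μ)
    (hμ : ∃ i j, μ ≤ |(mn x y i j : ℝ)|) {Lg : ℝ}
    (hLg : ∀ s : ℕ, (s : ℝ) ≤ 15 * (Fintype.card ι) ^ 2 * a * B → (Nat.log 2 s : ℝ) ≤ Lg)
    (haA : 2 * c1pt (Fintype.card ι) (e + 1) * a ≤ A)
    (haA2 : 2 * cker (Fintype.card ι) e * ((1 + Lg) * a ^ 2) ≤ A) (u v : ℤ) :
    (((formsZ ι (e + 2) A).filter
      (fun f => MvPolynomial.eval x f = u ∧ MvPolynomial.eval y f = v)).card : ℝ) *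
      ((A * B ^ (e + 2)) * (A * B ^ e * μ)) ≤
      4 * c1pt (Fintype.card ι) (e + 1) * cker (Fintype.card ι) e * |(g : ℝ)| *
        (formsZ ι (e + 2) (3 * A)).card := by
  obtain ⟨r₀, hr₀⟩ := hx.2
  have hk0 : 0 < Fintype.card ι := Fintype.card_pos_iff.mpr ⟨r₀⟩
  have hB : 1 ≤ B := ha.trans haB
  obtain ⟨c, hc⟩ : ∃ c, c1pt (Fintype.card ι) (e + 1) = c := ⟨_, rfl⟩
  have hc0 : 0 < c := by rw [← hc]; unfold c1pt; positivity
  obtain ⟨c', hc'⟩ : ∃ c', cker (Fintype.card ι) e = c' := ⟨_, rfl⟩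
  have hc'0 : 0 < c' := by rw [← hc']; unfold cker c1pt; positivity
  rw [hc] at haA
  rw [hc'] at haA2
  rw [hc, hc']
  have hA : 0 ≤ A := by nlinarith
  have hg1' : 0 < |(g : ℝ)| := by positivity
  obtain ⟨N₁, hN₁⟩ : ∃ N₁, N₁ = A * B ^ (e + 2) / (2 * c) := ⟨_, rfl⟩
  obtain ⟨N₂, hN₂⟩ : ∃ N₂, N₂ = A * B ^ e * μ / (2 * c' * |(g : ℝ)|) := ⟨_, rfl⟩
  have hN₁0 : 0 ≤ N₁ := by rw [hN₁]; positivity
  have hN₂0 : 0 ≤ N₂ := by rw [hN₂]; positivity
  have hBp : 0 < B ^ (e + 2) := by positivity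
  have hBe : 0 < B ^ e := by positivity
  have hone : ∀ s : ℤ, s ∈ ivl (-N₁) N₁ → ∃ h : MvPolynomial ι ℤ, IsF (e + 2) A h ∧
      MvPolynomial.eval x h = s := by
    intro s hs
    rw [mem_ivl, ← abs_le] at hs
    have hq : 0 ≤ |(s : ℝ)| / B ^ (e + 2) := by positivity
    obtain ⟨h, h1, h2⟩ := hbx.onepoint hx hB (e + 1) (|(s : ℝ)| / B ^ (e + 2) + a) (by linarith)
      (by linarith) s (by
        rw [add_mul, div_mul_cancel₀ _ hBp.ne']
        have : 0 ≤ a * B ^ (e + 1 + 1) := by positivity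
        linarith)
    refine ⟨h, h1.mono ?_, h2⟩
    rw [hc]
    have h3 : |(s : ℝ)| / B ^ (e + 2) ≤ A / (2 * c) := by
      rw [div_le_iff₀ hBp]
      refine hs.trans (le_of_eq ?_)
      rw [hN₁]; ring
    have h4 : c * (|(s : ℝ)| / B ^ (e + 2)) ≤ A / 2 := by
      have := mul_le_mul_of_nonneg_left h3 hc0.le
      refine this.trans (le_of_eq ?_)
      field_simp
    linarith
  choose! G hG1 hG2 using hone
  have htwo : ∀ w : ℤ, w ∈ ivl (-N₂) N₂ → ∃ h : MvPolynomial ι ℤ, IsF (e + 2) A h ∧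
      MvPolynomial.eval x h = 0 ∧ MvPolynomial.eval y h = g * w := by
    intro w hw
    rw [mem_ivl, ← abs_le] at hw
    obtain ⟨h, h1, h2, h3⟩ := kernel_lemma e hbx hx hpx hby hy ha haB hg0 hg hgmax hμ0 hμ hLg
      (v := g * w) ⟨w, rfl⟩
    refine ⟨h, h1.mono ?_, h2, h3⟩
    rw [hc']
    push_cast
    rw [abs_mul]
    have h4 : |(g : ℝ)| * |(w : ℝ)| / (μ * B ^ e) ≤ A / (2 * c') := by
      rw [div_le_iff₀ (by positivity)]
      have h5 := mul_le_mul_of_nonneg_left hw hg1'.le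
      refine h5.trans (le_of_eq ?_)
      rw [hN₂]
      field_simp
    have h5 : c' * (|(g : ℝ)| * |(w : ℝ)| / (μ * B ^ e)) ≤ A / 2 := by
      have := mul_le_mul_of_nonneg_left h4 hc'0.le
      refine this.trans (le_of_eq ?_)
      field_simp
    linarith
  choose! H hH1 hH2 hH3 using htwo
  have key := count_abs ((formsZ ι (e + 2) A).filter
      (fun f => MvPolynomial.eval x f = u ∧ MvPolynomial.eval y f = v))
    (formsZ ι (e + 2) (3 * A)) x y (ivl (-N₁) N₁) (fun _ => ivl (-N₂) N₂) (K := 1) (L := g)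
    one_ne_zero hg0 G H (fun s hs => by rw [hG2 s hs, one_mul])
    (fun s _ w hw => ⟨hH2 w hw, hH3 w hw⟩) u v
    (fun f hf => (Finset.mem_filter.mp hf).2)
    (fun f hf s hs w hw => by
      rw [mem_formsZ]
      have := ((mem_formsZ.mp (Finset.mem_filter.mp hf).1).add (hG1 s hs)).add (hH1 w hw)
      exact this.mono (by linarith))
  simp only [Finset.sum_const, smul_eq_mul] at key
  have key' := (Nat.cast_le (α := ℝ)).mpr key
  push_cast at key'
  obtain ⟨S₀, hS₀⟩ : ∃ S₀ : ℝ, (((formsZ ι (e + 2) A).filter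
      (fun f => MvPolynomial.eval x f = u ∧ MvPolynomial.eval y f = v)).card : ℝ) = S₀ := ⟨_, rfl⟩
  rw [hS₀] at key' ⊢
  have hS₀0 : 0 ≤ S₀ := by rw [← hS₀]; exact Nat.cast_nonneg _
  have h5 : N₁ * N₂ ≤ ((ivl (-N₁) N₁).card : ℝ) * ((ivl (-N₂) N₂).card : ℝ) :=
    mul_le_mul (card_ivl_sym_ge hN₁0) (card_ivl_sym_ge hN₂0) hN₂0 (Nat.cast_nonneg _)
  have h6 := (mul_le_mul_of_nonneg_left h5 hS₀0).trans key'
  have h7 : A * B ^ (e + 2) * (A * B ^ e * μ) = 4 * c * c' * |(g : ℝ)| * (N₁ * N₂) := by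
    rw [hN₁, hN₂]; field_simp; ring
  rw [h7]
  have h8 : 0 ≤ 4 * c * c' * |(g : ℝ)| := by positivity
  nlinarith [mul_le_mul_of_nonneg_left h6 h8]

open scoped Classical in
/-- Conditional two-point upper bound. -/
theorem cnt2_cond {B a A A₂ Δ κ : ℝ} (e : ℕ) {x y : ι → ℤ} (hbx : Bal B a x) (hx : Sz B x)
    (hpx : Prim x) (hby : Bal B a y) (hy : Sz B y) (ha : 1 ≤ a) (haB : a ≤ B)
    {g : ℤ} (hg0 : g ≠ 0) (hg : ∀ i j, g ∣ mn x y i j)
    (hgmax : ∀ D, (∀ i j, D ∣ mn x y i j) → D ∣ g) (hκ : 0 < κ)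
    (hμ : ∃ i j, κ * B ^ 2 ≤ |(mn x y i j : ℝ)|) {Lg : ℝ}
    (hLg : ∀ s : ℕ, (s : ℝ) ≤ 15 * (Fintype.card ι) ^ 2 * a * B → (Nat.log 2 s : ℝ) ≤ Lg)
    (u v : ℤ) {K D : ℕ} (hK : 0 < K) (hD : 0 < D) (hgKD : g ∣ (K * D : ℤ)) (hΔ : 0 ≤ Δ)
    (hΔK : K * D ≤ Δ)
    (hA : A + (c1pt (Fintype.card ι) (e + 1) + cker (Fintype.card ι) e *
      (1 + (mons ι (e + 2)).card * c1pt (Fintype.card ι) (e + 1)) / κ) *
      (Δ / B ^ (e + 2) + K * a) + cker (Fintype.card ι) e * ((1 + Lg) * a ^ 2) ≤ A₂) :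
    (((formsZ ι (e + 2) A).filter
      (fun f => MvPolynomial.eval x f = u ∧ MvPolynomial.eval y f = v)).card : ℝ) *
      ((2 * Δ / K - 1) * (2 * Δ / (K * D) - 1))
      ≤ ((formsZ ι (e + 2) A₂).filter
      (fun f => ((K : ℤ) ∣ MvPolynomial.eval x f - u ∧
        |((MvPolynomial.eval x f - u : ℤ) : ℝ)| ≤ Δ) ∧
        ((K : ℤ) ∣ MvPolynomial.eval y f - v ∧
        |((MvPolynomial.eval y f - v : ℤ) : ℝ)| ≤ Δ))).card := by
  obtain ⟨r₀, hr₀⟩ := hx.2
  have hk0 : 0 < Fintype.card ι := Fintype.card_pos_iff.mpr ⟨r₀⟩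
  have hB : 1 ≤ B := ha.trans haB
  obtain ⟨c, hc⟩ : ∃ c, c1pt (Fintype.card ι) (e + 1) = c := ⟨_, rfl⟩
  have hc0 : 0 < c := by rw [← hc]; unfold c1pt; positivity
  obtain ⟨c', hc'⟩ : ∃ c', cker (Fintype.card ι) e = c' := ⟨_, rfl⟩
  have hc'0 : 0 < c' := by rw [← hc']; unfold cker c1pt; positivity
  obtain ⟨M, hM⟩ : ∃ M : ℝ, ((mons ι (e + 2)).card : ℝ) = M := ⟨_, rfl⟩
  have hM0 : 0 ≤ M := by rw [← hM]; positivity
  rw [hc, hc', hM] at hA
  have hBp : 0 < B ^ (e + 2) := by positivity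
  have hBe : 0 < B ^ e := by positivity
  have hKr : (1:ℝ) ≤ K := by exact_mod_cast hK
  have hKr0 : (0:ℝ) < K := by linarith
  have hDr : (1:ℝ) ≤ D := by exact_mod_cast hD
  have hDr0 : (0:ℝ) < D := by linarith
  -- first shifts
  have hone : ∀ s : ℤ, s ∈ ivl (-(Δ / K)) (Δ / K) → ∃ h : MvPolynomial ι ℤ,
      IsF (e + 2) (c * (Δ / K / B ^ (e + 2) + a)) h ∧ MvPolynomial.eval x h = s := by
    intro s hs
    rw [mem_ivl, ← abs_le] at hs
    have hq : 0 ≤ Δ / K / B ^ (e + 2) := by positivity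
    have := hbx.onepoint hx hB (e + 1) (Δ / K / B ^ (e + 2) + a) (by linarith)
      (by linarith) s (by
        rw [add_mul, div_mul_cancel₀ _ hBp.ne']
        have : 0 ≤ a * B ^ (e + 1 + 1) := by positivity
        linarith)
    rwa [hc] at this
  choose! G hG1 hG2 using hone
  have hKG : ∀ s ∈ ivl (-(Δ / K)) (Δ / K),
      IsF (e + 2) (c * (Δ / B ^ (e + 2) + K * a)) (MvPolynomial.C (K : ℤ) * G s) := by
    intro s hs
    refine ((hG1 s hs).C_mul (K : ℤ)).mono (le_of_eq ?_)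
    have : |((K : ℤ) : ℝ)| = K := by
      rw [Int.cast_natCast, abs_of_pos hKr0]
    rw [this]
    field_simp
  have hKGy : ∀ s ∈ ivl (-(Δ / K)) (Δ / K),
      |((MvPolynomial.eval y (MvPolynomial.C (K : ℤ) * G s) : ℤ) : ℝ)| ≤
        M * c * (Δ / B ^ (e + 2) + K * a) * B ^ (e + 2) := by
    intro s hs
    have := (hKG s hs).eval_le hy.1
    rw [hM] at this
    refine this.trans (le_of_eq ?_)
    ring
  -- second shifts
  set W : ℤ → Finset ℤ := fun s => ivl ((-Δ - (MvPolynomial.eval y (G s) : ℤ) * K) / (K * D))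
    ((Δ - (MvPolynomial.eval y (G s) : ℤ) * K) / (K * D)) with hW
  have hWmem : ∀ s w, w ∈ W s → |(((K : ℤ) * MvPolynomial.eval y (G s) + K * D * w : ℤ) : ℝ)| ≤ Δ := by
    intro s w hw
    rw [hW] at hw
    simp only at hw
    rw [mem_ivl, div_le_iff₀ (by positivity), le_div_iff₀ (by positivity)] at hw
    rw [abs_le]
    push_cast
    constructor
    · linarith [hw.1]
    · linarith [hw.2]
  have hvb : ∀ s ∈ ivl (-(Δ / K)) (Δ / K), ∀ w ∈ W s, |(((K * D : ℤ) * w : ℤ) : ℝ)| ≤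
      (1 + M * c) * (Δ / B ^ (e + 2) + K * a) * B ^ (e + 2) := by
    intro s hs w hw
    have h1 := hWmem s w hw
    have h2 := hKGy s hs
    rw [map_mul, MvPolynomial.eval_C] at h2
    have h3 : (((K * D : ℤ) * w : ℤ) : ℝ) =
        (((K : ℤ) * MvPolynomial.eval y (G s) + K * D * w : ℤ) : ℝ) -
        (((K : ℤ) * MvPolynomial.eval y (G s) : ℤ) : ℝ) := by
      push_cast; ring
    rw [h3]
    refine (abs_sub _ _).trans ((add_le_add h1 h2).trans ?_)
    have h4 : Δ ≤ (Δ / B ^ (e + 2) + K * a) * B ^ (e + 2) := by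
      rw [add_mul, div_mul_cancel₀ _ hBp.ne']
      have : 0 ≤ K * a * B ^ (e + 2) := by positivity
      linarith
    nlinarith
  have htwo : ∀ w : ℤ, |(((K * D : ℤ) * w : ℤ) : ℝ)| ≤
      (1 + M * c) * (Δ / B ^ (e + 2) + K * a) * B ^ (e + 2) → ∃ h : MvPolynomial ι ℤ,
      IsF (e + 2) (c' * ((1 + M * c) * (Δ / B ^ (e + 2) + K * a) / κ + (1 + Lg) * a ^ 2)) h ∧
      MvPolynomial.eval x h = 0 ∧ MvPolynomial.eval y h = (K * D : ℤ) * w := by
    intro w hw
    obtain ⟨h, h1, h2, h3⟩ := kernel_lemma e hbx hx hpx hby hy ha haB hg0 hg hgmax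
      (by positivity : 0 < κ * B ^ 2) hμ hLg (v := (K * D : ℤ) * w) (Dvd.dvd.mul_right hgKD w)
    refine ⟨h, h1.mono ?_, h2, h3⟩
    rw [hc']
    apply mul_le_mul_of_nonneg_left _ hc'0.le
    apply add_le_add_left
    rw [div_le_div_iff₀ (by positivity) hκ]
    have h5 := mul_le_mul_of_nonneg_right hw hκ.le
    refine h5.trans (le_of_eq ?_)
    rw [pow_add]; ring
  choose! H hH1 hH2 hH3 using htwo
  have key := count_abs ((formsZ ι (e + 2) A).filter
      (fun f => MvPolynomial.eval x f = u ∧ MvPolynomial.eval y f = v))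
    ((formsZ ι (e + 2) A₂).filter
      (fun f => ((K : ℤ) ∣ MvPolynomial.eval x f - u ∧
        |((MvPolynomial.eval x f - u : ℤ) : ℝ)| ≤ Δ) ∧
        ((K : ℤ) ∣ MvPolynomial.eval y f - v ∧
        |((MvPolynomial.eval y f - v : ℤ) : ℝ)| ≤ Δ)))
    x y (ivl (-(Δ / K)) (Δ / K)) W (K := (K : ℤ)) (L := (K * D : ℤ))
    (by exact_mod_cast hK.ne') (by positivity) (fun s => MvPolynomial.C (K : ℤ) * G s) H
    (fun s hs => by rw [map_mul, MvPolynomial.eval_C, hG2 s hs])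
    (fun s hs w hw => ⟨hH2 w (hvb s hs w hw), hH3 w (hvb s hs w hw)⟩) u v
    (fun f hf => (Finset.mem_filter.mp hf).2)
    (fun f hf s hs w hw => by
      obtain ⟨hf1, hf2, hf3⟩ := Finset.mem_filter.mp hf
      have hwb := hvb s hs w hw
      rw [Finset.mem_filter]
      refine ⟨?_, ⟨?_, ?_⟩, ?_, ?_⟩
      · rw [mem_formsZ]
        have := ((mem_formsZ.mp hf1).add (hKG s hs)).add (hH1 w hwb)
        refine this.mono (le_trans (le_of_eq ?_) hA)
        ring
      · rw [map_add, map_add, hf2, hH2 w hwb, map_mul, MvPolynomial.eval_C]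
        exact ⟨MvPolynomial.eval x (G s), by ring⟩
      · rw [map_add, map_add, hf2, hH2 w hwb, map_mul, MvPolynomial.eval_C, hG2 s hs]
        have h1 := hs
        rw [mem_ivl, ← abs_le] at h1
        have h2 : ((u + (K : ℤ) * s + 0 - u : ℤ) : ℝ) = K * (s : ℝ) := by push_cast; ring
        rw [h2, abs_mul, abs_of_pos hKr0]
        have h3 := mul_le_mul_of_nonneg_left h1 hKr0.le
        rwa [mul_div_cancel₀ _ hKr0.ne'] at h3
      · rw [map_add, map_add, hf3, hH3 w hwb, map_mul, MvPolynomial.eval_C]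
        exact ⟨MvPolynomial.eval y (G s) + D * w, by ring⟩
      · rw [map_add, map_add, hf3, hH3 w hwb, map_mul, MvPolynomial.eval_C]
        have h2 : v + (K : ℤ) * MvPolynomial.eval y (G s) + (K * D : ℤ) * w - v =
          (K : ℤ) * MvPolynomial.eval y (G s) + K * D * w := by ring
        rw [h2]
        exact hWmem s w hw)
  have key' := (Nat.cast_le (α := ℝ)).mpr key
  rw [Nat.cast_mul, Nat.cast_sum] at key'
  refine le_trans ?_ key'
  apply mul_le_mul_of_nonneg_left _ (Nat.cast_nonneg _)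
  have h1 : ∀ s ∈ ivl (-(Δ / K)) (Δ / K), 2 * Δ / (K * D) - 1 ≤ ((W s).card : ℝ) := by
    intro s _
    have := card_ivl_ge ((-Δ - (MvPolynomial.eval y (G s) : ℤ) * K) / (K * D))
      ((Δ - (MvPolynomial.eval y (G s) : ℤ) * K) / (K * D))
    refine le_trans (le_of_eq ?_) this
    field_simp
    ring
  refine le_trans ?_ (Finset.sum_le_sum h1)
  rw [Finset.sum_const, nsmul_eq_mul]
  apply mul_le_mul_of_nonneg_right
  · have := card_ivl_ge (-(Δ / K)) (Δ / K)
    refine le_trans (le_of_eq ?_) this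
    ring
  · rw [sub_nonneg, le_div_iff₀ (by positivity)]
    linarith

end

end Pool.Agent.Y716.Q
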