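import Mathlib

/-!
# Integer combinations with few generators
-/

namespace Pool.Agent.Y716.Q

/-- Bezout with few generators -/
theorem exists_chain (𝒮 : Set ℤ) (hgcd : ∀ D : ℤ, (∀ s ∈ 𝒮, D ∣ s) → IsUnit D) (N : ℕ) :
    ∀ g : ℤ, g ≠ 0 → g.natAbs < 2 ^ (N + 1) → ∃ (n : ℕ) (t c : Fin n → ℤ) (c₀ : ℤ), n ≤ N ∧
      (∀ j, t j ∈ 𝒮) ∧ 1 = c₀ * g + ∑ j, c j * t j := by
  induction N with
  | zero =>
    intro g hg hgN
    have h1 : g.natAbs = 1 := by omega
    have hu : IsUnit g := Int.isUnit_iff_natAbs_eq.mpr h1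
    obtain ⟨c, hc⟩ := hu.exists_left_inv
    exact ⟨0, Fin.elim0, Fin.elim0, c, le_rfl, fun j => j.elim0, by simp [hc]⟩
  | succ N ih =>
    intro g hg hgN
    by_cases hu : IsUnit g
    · obtain ⟨c, hc⟩ := hu.exists_left_inv
      exact ⟨0, Fin.elim0, Fin.elim0, c, Nat.zero_le _, fun j => j.elim0, by simp [hc]⟩
    · have hex : ∃ s ∈ 𝒮, ¬ g ∣ s := by
        by_contra hcon
        push Not at hcon
        exact hu (hgcd g hcon)
      obtain ⟨s, hs, hgs⟩ := hex
      set g' : ℤ := (Int.gcd g s : ℤ) with hg'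
      have hg'0 : g' ≠ 0 := by
        rw [hg']
        intro h
        have : Int.gcd g s = 0 := by exact_mod_cast h
        exact hg (Int.gcd_eq_zero_iff.mp this).1
      have hg'd : g' ∣ g := Int.gcd_dvd_left _ _
      have hlt : g'.natAbs < 2 ^ (N + 1) := by
        obtain ⟨q, hq⟩ := hg'd
        have hq0 : q ≠ 0 := by rintro rfl; apply hg; rw [hq, mul_zero]
        have hq1 : q.natAbs ≠ 1 := by
          intro h1
          have hqu : IsUnit q := Int.isUnit_iff_natAbs_eq.mpr h1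
          apply hgs
          have h2 : g ∣ g' := by
            obtain ⟨c, hc⟩ := hqu.exists_right_inv
            exact ⟨c, by rw [hq, mul_assoc, hc, mul_one]⟩
          exact h2.trans (Int.gcd_dvd_right _ _)
        have hq2 : 2 ≤ q.natAbs := by
          have : q.natAbs ≠ 0 := Int.natAbs_ne_zero.mpr hq0
          omega
        have h3 : g.natAbs = g'.natAbs * q.natAbs := by
          conv_lhs => rw [hq]
          rw [Int.natAbs_mul]
        have h4 : g'.natAbs * 2 ≤ g.natAbs := by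
          rw [h3]; exact Nat.mul_le_mul_left _ hq2
        have h5 : (2:ℕ) ^ (N + 1 + 1) = 2 ^ (N + 1) * 2 := pow_succ _ _
        omega
      obtain ⟨n, t, c, c₀, hn, ht, h1⟩ := ih g' hg'0 hlt
      refine ⟨n + 1, Fin.cons s t, Fin.cons (c₀ * Int.gcdB g s) c, c₀ * Int.gcdA g s,
        by omega, ?_, ?_⟩
      · intro j
        refine Fin.cases ?_ ?_ j
        · simpa using hs
        · intro i; simpa using ht i
      · rw [Fin.sum_univ_succ]
        simp only [Fin.cons_zero, Fin.cons_succ]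
        have h2 : g' = g * Int.gcdA g s + s * Int.gcdB g s := Int.gcd_eq_gcd_ab g s
        rw [h2] at h1
        linear_combination h1

theorem exists_int_combo (𝒮 : Set ℤ) (s₀ : ℤ) (hs₀ : s₀ ∈ 𝒮) (h0 : s₀ ≠ 0)
    (hmax : ∀ s ∈ 𝒮, |s| ≤ |s₀|) (hgcd : ∀ D : ℤ, (∀ s ∈ 𝒮, D ∣ s) → IsUnit D) (v : ℤ) :
    ∃ (n : ℕ) (t c : Fin n → ℤ) (c₀ : ℤ), n ≤ Nat.log 2 s₀.natAbs ∧ (∀ j, t j ∈ 𝒮) ∧
      (∀ j, |c j| ≤ |s₀|) ∧ v = c₀ * s₀ + ∑ j, c j * t j ∧ |c₀| * |s₀| ≤ |v| + n * |s₀| ^ 2 := by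
  obtain ⟨n, t, c, c₀, hn, ht, h1⟩ := exists_chain 𝒮 hgcd (Nat.log 2 s₀.natAbs) s₀ h0
    (Nat.lt_pow_succ_log_self (by norm_num) _)
  refine ⟨n, t, fun j => (v * c j) % s₀, v * c₀ + ∑ j, (v * c j) / s₀ * t j, hn, ht, ?_, ?_, ?_⟩
  · intro j
    have h2 := Int.emod_nonneg (v * c j) h0
    have h3 := Int.emod_lt_abs (v * c j) h0
    simp only
    rw [abs_of_nonneg h2]
    exact h3.le
  · have h2 : ∀ j, v * c j * t j = (v * c j) / s₀ * t j * s₀ + (v * c j) % s₀ * t j := by
      intro j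
      have := Int.mul_ediv_add_emod (v * c j) s₀
      conv_lhs => rw [← this]
      ring
    have h3 : v = v * c₀ * s₀ + ∑ j, v * c j * t j := by
      have h4 : ∑ j, v * c j * t j = v * ∑ j, c j * t j := by
        rw [Finset.mul_sum]
        exact Finset.sum_congr rfl (fun j _ => by ring)
      rw [h4]
      linear_combination v * h1
    rw [add_mul, Finset.sum_mul, add_assoc, ← Finset.sum_add_distrib]
    conv_lhs => rw [h3]
    simp only [h2]
  · have hv : (v * c₀ + ∑ j, (v * c j) / s₀ * t j) * s₀ = v - ∑ j, (v * c j) % s₀ * t j := by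
      have h2 : ∀ j, v * c j * t j = (v * c j) / s₀ * t j * s₀ + (v * c j) % s₀ * t j := by
        intro j
        have := Int.mul_ediv_add_emod (v * c j) s₀
        conv_lhs => rw [← this]
        ring
      have h3 : v = v * c₀ * s₀ + ∑ j, v * c j * t j := by
        have h4 : ∑ j, v * c j * t j = v * ∑ j, c j * t j := by
          rw [Finset.mul_sum]
          exact Finset.sum_congr rfl (fun j _ => by ring)
        rw [h4]
        linear_combination v * h1
      simp only [h2] at h3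
      rw [Finset.sum_add_distrib, ← Finset.sum_mul] at h3
      linear_combination -h3
    rw [← abs_mul, hv]
    refine (abs_sub _ _).trans ?_
    apply add_le_add_right
    refine (Finset.abs_sum_le_sum_abs _ _).trans ?_
    have : ∑ j : Fin n, |(v * c j) % s₀ * t j| ≤ ∑ _j : Fin n, |s₀| ^ 2 := by
      refine Finset.sum_le_sum (fun j _ => ?_)
      rw [abs_mul, sq]
      have h2 := Int.emod_nonneg (v * c j) h0
      have h3 := Int.emod_lt_abs (v * c j) h0
      apply mul_le_mul _ (hmax _ (ht j)) (abs_nonneg _) (abs_nonneg _)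
      rw [abs_of_nonneg h2]
      exact h3.le
    rwa [Finset.sum_const, Finset.card_univ, Fintype.card_fin, nsmul_eq_mul] at this

end Pool.Agent.Y716.Q
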