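import Pool.Agent.Y716.Q.Basic
import Pool.Agent.Y716.Q.Combo

/-!
# The two-point lemma over the integers
-/

namespace Pool.Agent.Y716.Q

variable {ι : Type*} [Fintype ι]

/-- The `2 × 2` minors of the pair `(x, y)`. -/
def mn (x y : ι → ℤ) (i j : ι) : ℤ := x i * y j - x j * y i

theorem Prim.bezout {x : ι → ℤ} (hx : Prim x) : ∃ w : ι → ℤ, ∑ i, w i * x i = 1 := by
  have h : (1 : ℤ) ∈ Ideal.span (Set.range x) := by
    obtain ⟨g, hg⟩ := (IsPrincipalIdealRing.principal (Ideal.span (Set.range x))).principal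
    have hu : IsUnit g := by
      apply hx
      intro i
      have : x i ∈ Ideal.span (Set.range x) := Ideal.subset_span ⟨i, rfl⟩
      rw [hg] at this
      exact Ideal.mem_span_singleton.mp this
    have : Ideal.span (Set.range x) = ⊤ := by
      rw [hg]
      exact Ideal.span_singleton_eq_top.mpr hu
    rw [this]; trivial
  exact Ideal.mem_span_range_iff_exists_fun.mp h

theorem dvd_dot_of_orth {x y : ι → ℤ} (hpx : Prim x) {g : ℤ} (hg : ∀ i j, g ∣ mn x y i j)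
    {l : ι → ℤ} (hl : ∑ i, l i * x i = 0) : g ∣ ∑ i, l i * y i := by
  obtain ⟨w, hw⟩ := hpx.bezout
  have hy : ∀ j, y j = ∑ i, w i * mn x y i j + (∑ i, w i * y i) * x j := by
    intro j
    rw [Finset.sum_mul, ← Finset.sum_add_distrib]
    calc y j = (∑ i, w i * x i) * y j := by rw [hw, one_mul]
      _ = ∑ i, (w i * mn x y i j + w i * y i * x j) := by
        rw [Finset.sum_mul]
        refine Finset.sum_congr rfl (fun i _ => ?_)
        unfold mn; ring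
  have h2 : ∑ j, l j * y j = ∑ j, l j * (∑ i, w i * mn x y i j) := by
    have : ∀ j, l j * y j = l j * (∑ i, w i * mn x y i j) + (∑ i, w i * y i) * (l j * x j) := by
      intro j
      conv_lhs => rw [hy j]
      ring
    simp only [this]
    rw [Finset.sum_add_distrib, ← Finset.mul_sum, hl, mul_zero, add_zero]
  rw [h2]
  refine Finset.dvd_sum (fun j _ => Dvd.dvd.mul_left ?_ _)
  exact Finset.dvd_sum (fun i _ => Dvd.dvd.mul_left (hg i j) _)

/-- the constant in the two-point lemma -/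
noncomputable def cker (k e : ℕ) : ℝ := 465 * k ^ 4 * c1pt k e

theorem cker_nonneg (k e : ℕ) : 0 ≤ cker k e := by
  unfold cker
  have := c1pt_nonneg k e
  positivity

theorem abs_dot_le {k : ℝ} (hk : (Fintype.card ι : ℝ) = k) {l y : ι → ℤ} {a B : ℝ}
    (hl : ∀ i, |(l i : ℝ)| ≤ a) (hy : ∀ i, |(y i : ℝ)| ≤ B) (ha : 0 ≤ a) :
    |((∑ i, l i * y i : ℤ) : ℝ)| ≤ k * (a * B) := by
  push_cast
  refine (Finset.abs_sum_le_sum_abs _ _).trans ?_
  have : ∑ i, |(l i : ℝ) * (y i : ℝ)| ≤ ∑ _i : ι, a * B := by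
    refine Finset.sum_le_sum (fun i _ => ?_)
    rw [abs_mul]
    exact mul_le_mul (hl i) (hy i) (abs_nonneg _) ha
  rwa [Finset.sum_const, Finset.card_univ, nsmul_eq_mul, hk] at this

theorem kernel_lemma {B a : ℝ} (e : ℕ) {x y : ι → ℤ} (hbx : Bal B a x) (hx : Sz B x)
    (hpx : Prim x) (hby : Bal B a y) (hy : Sz B y) (ha : 1 ≤ a) (haB : a ≤ B)
    {g : ℤ} (hg0 : g ≠ 0) (hg : ∀ i j, g ∣ mn x y i j)
    (hgmax : ∀ D, (∀ i j, D ∣ mn x y i j) → D ∣ g) {μ : ℝ} (hμ0 : 0 < μ)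
    (hμ : ∃ i j, μ ≤ |(mn x y i j : ℝ)|) {Lg : ℝ}
    (hLg : ∀ s : ℕ, (s : ℝ) ≤ 15 * (Fintype.card ι) ^ 2 * a * B → (Nat.log 2 s : ℝ) ≤ Lg)
    {v : ℤ} (hv : g ∣ v) :
    ∃ f : MvPolynomial ι ℤ,
      IsF (e + 2) (cker (Fintype.card ι) e * (|(v : ℝ)| / (μ * B ^ e) + (1 + Lg) * a ^ 2)) f ∧
      MvPolynomial.eval x f = 0 ∧ MvPolynomial.eval y f = v := by
  classical
  obtain ⟨r₀, hr₀⟩ := hx.2
  have hk1 : (1 : ℝ) ≤ Fintype.card ι := by
    have : 0 < Fintype.card ι := Fintype.card_pos_iff.mpr ⟨r₀⟩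
    exact_mod_cast this
  obtain ⟨k, hk⟩ : ∃ k : ℝ, (Fintype.card ι : ℝ) = k := ⟨_, rfl⟩
  rw [hk] at hk1 hLg
  have hB : 1 ≤ B := ha.trans haB
  have hg1 : 1 ≤ |(g : ℝ)| := by
    have : 1 ≤ |g| := Int.one_le_abs hg0
    exact_mod_cast this
  have hg1' : 0 < |(g : ℝ)| := by linarith
  obtain ⟨a₁, ha₁⟩ : ∃ a₁ : ℝ, 15 * k * a = a₁ := ⟨_, rfl⟩
  have ha₁0 : 0 ≤ a₁ := by rw [← ha₁]; positivity
  set V : Set ℤ := {w | ∃ l : ι → ℤ, (∀ i, |(l i : ℝ)| ≤ a₁) ∧ ∑ i, l i * x i = 0 ∧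
    ∑ i, l i * y i = g * w} with hVdef
  -- upper bound
  have hVb : ∀ w ∈ V, |(w : ℝ)| ≤ k * (a₁ * B) := by
    rintro w ⟨l, hl1, hl2, hl3⟩
    have h1 := abs_dot_le hk hl1 hy.1 ha₁0
    rw [hl3] at h1
    push_cast at h1
    rw [abs_mul] at h1
    have h2 : 0 ≤ |(w : ℝ)| := abs_nonneg _
    nlinarith
  have hVmem : ∀ l : ι → ℤ, (∀ i, |(l i : ℝ)| ≤ a₁) → ∑ i, l i * x i = 0 →
      ∃ w ∈ V, ∑ i, l i * y i = g * w := by
    intro l hl1 hl2
    obtain ⟨w, hw⟩ := dvd_dot_of_orth hpx hg hl2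
    exact ⟨w, ⟨l, hl1, hl2, hw⟩, hw⟩
  -- the number of digits
  obtain ⟨N, hN1, hN2⟩ : ∃ N : ℕ, 2 * B ≤ 2 ^ N * a ∧ 2 ^ N * a ≤ 4 * B := by
    obtain ⟨n, hn1, hn2⟩ := exists_nat_pow_near (x := B / a) (y := (2 : ℝ))
      (by rw [le_div_iff₀ (by linarith)]; linarith) (by norm_num)
    refine ⟨n + 2, ?_, ?_⟩
    · rw [div_lt_iff₀ (by linarith)] at hn2
      rw [pow_succ] at hn2 ⊢
      rw [pow_succ]
      linarith
    · rw [le_div_iff₀ (by linarith)] at hn1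
      rw [pow_succ, pow_succ]
      linarith
  have hkos : ∀ i0 j0, ∃ W : ℕ → ℤ, (∀ j, W j ∈ V) ∧
      mn x y i0 j0 = g * ∑ j ∈ Finset.range (N + 1), 2 ^ j * W j := by
    intro i0 j0
    set l : ι → ℤ := fun i => (if i = j0 then x i0 else 0) - (if i = i0 then x j0 else 0) with hl
    have hdot : ∀ z : ι → ℤ, ∑ i, l i * z i = x i0 * z j0 - x j0 * z i0 := by
      intro z
      have : ∀ i, l i * z i = (if i = j0 then x i0 * z i else 0) -
          (if i = i0 then x j0 * z i else 0) := by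
        intro i
        rw [hl]
        simp only [sub_mul, ite_mul, zero_mul]
      simp only [this, Finset.sum_sub_distrib, Finset.sum_ite_eq', Finset.mem_univ, if_true]
    have hlx : ∑ i, l i * x i = 0 := by rw [hdot]; ring
    have hlb : ∀ i, |(l i : ℝ)| ≤ 2 * B := by
      intro i
      rw [hl]
      push_cast
      refine (abs_sub _ _).trans ?_
      have h1 : |(if i = j0 then (x i0 : ℝ) else 0)| ≤ B := by
        split_ifs
        · exact hx.1 _
        · simpa using (by linarith : (0:ℝ) ≤ B)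
      have h2 : |(if i = i0 then (x j0 : ℝ) else 0)| ≤ B := by
        split_ifs
        · exact hx.1 _
        · simpa using (by linarith : (0:ℝ) ≤ B)
      linarith
    obtain ⟨L, hL1, hL2, hL3⟩ := hbx.generation hx hB ha N l (fun i => by
      refine (hlb i).trans (hN1.trans ?_)
      have : 0 ≤ 14 * (Fintype.card ι : ℝ) * a := by positivity
      linarith) hlx
    choose W hW1 hW2 using fun j => hVmem (L j) (fun i => by
      have := hL1 j i
      rwa [hk, ha₁] at this) (hL2 j)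
    refine ⟨W, hW1, ?_⟩
    have h1 : mn x y i0 j0 = ∑ i, l i * y i := by rw [hdot]; rfl
    rw [h1, Finset.mul_sum]
    have h2 : ∀ i, l i * y i = ∑ j ∈ Finset.range (N + 1), 2 ^ j * (L j i * y i) := by
      intro i
      rw [hL3 i, Finset.sum_mul]
      exact Finset.sum_congr rfl (fun j _ => by ring)
    simp only [h2]
    rw [Finset.sum_comm]
    refine Finset.sum_congr rfl (fun j _ => ?_)
    rw [← Finset.mul_sum, hW2 j]
    ring
  have hgcd : ∀ D : ℤ, (∀ w ∈ V, D ∣ w) → IsUnit D := by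
    intro D hD
    have h1 : ∀ i j, g * D ∣ mn x y i j := by
      intro i j
      obtain ⟨W, hW1, hW2⟩ := hkos i j
      rw [hW2]
      exact mul_dvd_mul_left g (Finset.dvd_sum (fun k _ => Dvd.dvd.mul_left (hD _ (hW1 k)) _))
    obtain ⟨c, hc⟩ := hgmax _ h1
    rw [isUnit_iff_exists_inv]
    refine ⟨c, ?_⟩
    have : g * (D * c) = g * 1 := by rw [mul_one, ← mul_assoc]; exact hc.symm
    exact mul_left_cancel₀ hg0 this
  -- maximal element
  have hfin : V.Finite := by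
    have hsub : V ⊆ Set.Icc (-⌈k * (a₁ * B)⌉) ⌈k * (a₁ * B)⌉ := by
      intro w hw
      have h1 := abs_le.mp (hVb w hw)
      have h2 := Int.le_ceil (k * (a₁ * B))
      rw [Set.mem_Icc]
      constructor
      · have : -(⌈k * (a₁ * B)⌉ : ℝ) ≤ (w : ℝ) := by linarith [h1.1]
        exact_mod_cast this
      · have : (w : ℝ) ≤ (⌈k * (a₁ * B)⌉ : ℝ) := by linarith [h1.2]
        exact_mod_cast this
    exact (Set.finite_Icc _ _).subset hsub
  have hne : hfin.toFinset.Nonempty :=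
    ⟨0, by rw [Set.Finite.mem_toFinset]; exact ⟨fun _ => 0, fun _ => by simpa using ha₁0, by simp, by simp⟩⟩
  obtain ⟨s₀, hs₀, hmax⟩ := Finset.exists_max_image hfin.toFinset (fun s => |s|) hne
  rw [Set.Finite.mem_toFinset] at hs₀
  have hmax' : ∀ s ∈ V, |s| ≤ |s₀| := fun s hs => hmax s (by rwa [Set.Finite.mem_toFinset])
  -- lower bound for s₀
  have hs₀low : μ * a ≤ 8 * B * (|(g : ℝ)| * |(s₀ : ℝ)|) := by
    obtain ⟨i0, j0, hij⟩ := hμ
    obtain ⟨W, hW1, hW2⟩ := hkos i0 j0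
    have h1 : |(mn x y i0 j0 : ℝ)| ≤ |(g : ℝ)| * (2 ^ (N + 1) * |(s₀ : ℝ)|) := by
      rw [hW2]
      push_cast
      rw [abs_mul]
      apply mul_le_mul_of_nonneg_left _ (abs_nonneg _)
      refine (Finset.abs_sum_le_sum_abs _ _).trans ?_
      have h2 : ∀ j ∈ Finset.range (N + 1), |(2 : ℝ) ^ j * (W j : ℝ)| ≤ 2 ^ j * |(s₀ : ℝ)| := by
        intro j _
        rw [abs_mul, abs_of_pos (by positivity : (0:ℝ) < 2 ^ j)]
        apply mul_le_mul_of_nonneg_left _ (by positivity)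
        exact_mod_cast hmax' _ (hW1 j)
      refine (Finset.sum_le_sum h2).trans ?_
      rw [← Finset.sum_mul]
      apply mul_le_mul_of_nonneg_right _ (abs_nonneg _)
      have h3 : ∑ j ∈ Finset.range (N + 1), (2 : ℝ) ^ j = 2 ^ (N + 1) - 1 := by
        rw [geom_sum_eq (by norm_num)]; norm_num
      rw [h3]; linarith
    have h4 : μ * a ≤ |(g : ℝ)| * (2 ^ (N + 1) * |(s₀ : ℝ)|) * a :=
      mul_le_mul_of_nonneg_right (hij.trans h1) (by linarith)
    have h5 : |(g : ℝ)| * (2 ^ (N + 1) * |(s₀ : ℝ)|) * a =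
        2 * (2 ^ N * a) * (|(g : ℝ)| * |(s₀ : ℝ)|) := by
      rw [pow_succ]; ring
    rw [h5] at h4
    have h6 : 0 ≤ |(g : ℝ)| * |(s₀ : ℝ)| := by positivity
    nlinarith
  have hs₀pos : 0 < |(s₀ : ℝ)| := by
    by_contra hcon
    have h0 : |(s₀ : ℝ)| = 0 := le_antisymm (not_lt.mp hcon) (abs_nonneg _)
    rw [h0, mul_zero, mul_zero] at hs₀low
    have : 0 < μ * a := by positivity
    linarith
  have hs₀0 : s₀ ≠ 0 := by
    intro h; rw [h] at hs₀pos; simp at hs₀pos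
  have hs₀up := hVb s₀ hs₀
  obtain ⟨v', hv'⟩ := hv
  obtain ⟨n, t, c, c₀, hn, ht, hc, hvc, hc₀⟩ := exists_int_combo V s₀ hs₀ hs₀0 hmax' hgcd v'
  have hnLg : (n : ℝ) ≤ Lg := by
    have h1 : (Nat.log 2 s₀.natAbs : ℝ) ≤ Lg := by
      apply hLg
      have : ((s₀.natAbs : ℕ) : ℝ) = |(s₀ : ℝ)| := by rw [Nat.cast_natAbs, Int.cast_abs]
      rw [this]
      refine hs₀up.trans (le_of_eq ?_)
      rw [← ha₁]; ring
    refine le_trans ?_ h1
    exact_mod_cast hn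
  obtain ⟨L₀, hL₀1, hL₀2, hL₀3⟩ := hs₀
  choose L hL1 hL2 hL3 using ht
  have hBe : 1 ≤ B ^ e := one_le_pow₀ hB
  have hBe1 : B ^ (e + 1) = B ^ e * B := pow_succ B e
  have hBe1' : B ≤ B ^ (e + 1) := by rw [hBe1]; nlinarith
  have hBpos : 0 < B ^ (e + 1) := by positivity
  obtain ⟨C, hC⟩ : ∃ C : ℝ, c1pt (Fintype.card ι) e = C := ⟨_, rfl⟩
  have hC0 : 0 ≤ C := by rw [← hC]; exact c1pt_nonneg _ _
  -- forms with values c_j
  have hone : ∀ c : ℤ, ∃ h : MvPolynomial ι ℤ, IsF (e + 1) (C * (|(c : ℝ)| / B ^ (e + 1) + a)) h ∧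
      MvPolynomial.eval y h = c := by
    intro c
    have hq : 0 ≤ |(c : ℝ)| / B ^ (e + 1) := by positivity
    have := hby.onepoint hy hB e (|(c : ℝ)| / B ^ (e + 1) + a) (by linarith) (by linarith) c (by
      rw [add_mul, div_mul_cancel₀ _ hBpos.ne']
      have : 0 ≤ a * B ^ (e + 1) := by positivity
      linarith)
    rwa [hC] at this
  choose h hh1 hh2 using hone
  have hc₀' : |(c₀ : ℝ)| / B ^ (e + 1) ≤ 8 * |(v : ℝ)| / (μ * B ^ e) / a + n * (k * a₁) := by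
    have h1 : |(c₀ : ℝ)| * |(s₀ : ℝ)| ≤ |(v' : ℝ)| + n * |(s₀ : ℝ)| ^ 2 := by
      exact_mod_cast hc₀
    have h2 : |(v : ℝ)| = |(g : ℝ)| * |(v' : ℝ)| := by
      rw [hv']; push_cast; rw [abs_mul]
    rw [div_le_iff₀ hBpos]
    have h3 : |(v' : ℝ)| ≤ (8 * |(v : ℝ)| / (μ * B ^ e) / a * B ^ (e + 1)) * |(s₀ : ℝ)| := by
      have h4 : 8 * |(v : ℝ)| / (μ * B ^ e) / a * B ^ (e + 1) = 8 * |(v : ℝ)| * B / (μ * a) := by
        rw [hBe1]
        have : B ^ e ≠ 0 := by positivity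
        field_simp
      rw [h4, div_mul_eq_mul_div, le_div_iff₀ (by positivity), h2]
      have h5 := mul_le_mul_of_nonneg_left hs₀low (abs_nonneg (v' : ℝ))
      nlinarith
    have h4 : (n : ℝ) * |(s₀ : ℝ)| ^ 2 ≤ (n * (k * a₁) * B ^ (e + 1)) * |(s₀ : ℝ)| := by
      have h5 : |(s₀ : ℝ)| ≤ k * a₁ * B ^ (e + 1) := by
        refine hs₀up.trans ?_
        have : 0 ≤ k * a₁ := by positivity
        nlinarith
      have h6 : (0:ℝ) ≤ n := Nat.cast_nonneg n
      have h7 := mul_le_mul_of_nonneg_left h5 (by positivity : 0 ≤ (n:ℝ) * |(s₀ : ℝ)|)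
      nlinarith
    have h5 : |(c₀ : ℝ)| * |(s₀ : ℝ)| ≤ ((8 * |(v : ℝ)| / (μ * B ^ e) / a + n * (k * a₁)) *
        B ^ (e + 1)) * |(s₀ : ℝ)| := by
      rw [add_mul, add_mul]
      linarith
    exact le_of_mul_le_mul_right h5 hs₀pos
  have hcj : ∀ j, |(c j : ℝ)| / B ^ (e + 1) ≤ k * a₁ := by
    intro j
    rw [div_le_iff₀ hBpos]
    have h1 : |(c j : ℝ)| ≤ |(s₀ : ℝ)| := by exact_mod_cast hc j
    refine h1.trans (hs₀up.trans ?_)
    have : 0 ≤ k * a₁ := by positivity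
    nlinarith
  have hf0 := lin_mul_isF hL₀1 ha₁0 (hh1 c₀)
  have hfj := fun j => lin_mul_isF (hL1 j) ha₁0 (hh1 (c j))
  have hfs := IsF.sum Finset.univ (fun j : Fin n => lin (L j) * h (c j)) _ (fun j _ => hfj j)
  refine ⟨lin L₀ * h c₀ + ∑ j, lin (L j) * h (c j), ?_, ?_, ?_⟩
  · refine (hf0.add hfs).mono ?_
    rw [hk]
    have hv0 : 0 ≤ |(v : ℝ)| / (μ * B ^ e) := by positivity
    obtain ⟨ν, hν⟩ : ∃ ν, |(v : ℝ)| / (μ * B ^ e) = ν := ⟨_, rfl⟩
    have h8 : 8 * |(v : ℝ)| / (μ * B ^ e) / a = 8 * ν / a := by rw [← hν]; ring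
    rw [h8] at hc₀'
    rw [hν] at hv0 ⊢
    have e1 : k * (a₁ * (C * (|(c₀ : ℝ)| / B ^ (e + 1) + a))) ≤
        k * (a₁ * (C * (8 * ν / a + n * (k * a₁) + a))) := by
      apply mul_le_mul_of_nonneg_left _ (by linarith)
      apply mul_le_mul_of_nonneg_left _ ha₁0
      apply mul_le_mul_of_nonneg_left _ hC0
      linarith
    have e2 : ∑ j : Fin n, k * (a₁ * (C * (|(c j : ℝ)| / B ^ (e + 1) + a))) ≤
        n * (k * (a₁ * (C * (k * a₁ + a)))) := by
      have : ∑ j : Fin n, k * (a₁ * (C * (|(c j : ℝ)| / B ^ (e + 1) + a))) ≤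
          ∑ _j : Fin n, k * (a₁ * (C * (k * a₁ + a))) := by
        refine Finset.sum_le_sum (fun j _ => ?_)
        apply mul_le_mul_of_nonneg_left _ (by linarith)
        apply mul_le_mul_of_nonneg_left _ ha₁0
        apply mul_le_mul_of_nonneg_left _ hC0
        linarith [hcj j]
      rwa [Finset.sum_const, Finset.card_univ, Fintype.card_fin, nsmul_eq_mul] at this
    refine (add_le_add e1 e2).trans ?_
    unfold cker
    rw [hC, hk, ← ha₁]
    have hn0 : (0:ℝ) ≤ n := Nat.cast_nonneg n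
    have e3 : k * (15 * k * a * (C * (8 * ν / a + n * (k * (15 * k * a)) + a))) +
        n * (k * (15 * k * a * (C * (k * (15 * k * a) + a)))) =
        120 * k ^ 2 * C * ν + 15 * k ^ 2 * C * a ^ 2 * (n * (30 * k ^ 2 + 1) + 1) := by
      field_simp
      ring
    rw [e3]
    have hk2 : 1 ≤ k ^ 2 := one_le_pow₀ hk1
    have e4 : 120 * k ^ 2 * C * ν ≤ 465 * k ^ 4 * C * ν := by
      apply mul_le_mul_of_nonneg_right _ hv0
      apply mul_le_mul_of_nonneg_right _ hC0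
      nlinarith
    have e5 : n * (30 * k ^ 2 + 1) + 1 ≤ 31 * k ^ 2 * (1 + Lg) := by
      nlinarith
    have e6 : 15 * k ^ 2 * C * a ^ 2 * (n * (30 * k ^ 2 + 1) + 1) ≤
        15 * k ^ 2 * C * a ^ 2 * (31 * k ^ 2 * (1 + Lg)) :=
      mul_le_mul_of_nonneg_left e5 (by positivity)
    have e7 : 465 * k ^ 4 * C * (ν + (1 + Lg) * a ^ 2) =
        465 * k ^ 4 * C * ν + 15 * k ^ 2 * C * a ^ 2 * (31 * k ^ 2 * (1 + Lg)) := by ring
    rw [e7]
    linarith
  · rw [map_add, map_mul, eval_lin, hL₀2, zero_mul, zero_add, map_sum]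
    apply Finset.sum_eq_zero
    intro j _
    rw [map_mul, eval_lin, hL2 j, zero_mul]
  · rw [map_add, map_mul, eval_lin, hL₀3, hh2, map_sum, hv', hvc, mul_add, Finset.mul_sum]
    have : ∀ j, MvPolynomial.eval y (lin (L j) * h (c j)) = g * (c j * t j) := by
      intro j
      rw [map_mul, eval_lin, hL3 j, hh2]; ring
    simp only [this]
    ring

end Pool.Agent.Y716.Q
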