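import Pool.Agent.Y716.Q.Good

/-!
# The second moment over the integers
-/

namespace Pool.Agent.Y716.Q

variable {ι : Type*} [Fintype ι]

theorem one_or_gt {w D : ℕ} (hD : 0 < D) (h : ∀ q : ℕ, q.Prime → q ≤ w → ¬ q ∣ D) :
    D = 1 ∨ w < D := by
  by_cases h1 : D = 1
  · exact Or.inl h1
  · right
    obtain ⟨q, hq, hqD⟩ := Nat.exists_prime_and_dvd h1
    have h2 : w < q := by
      by_contra hle
      exact h q hq (not_lt.mp hle) hqD
    exact lt_of_lt_of_le h2 (Nat.le_of_dvd hD hqD)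

theorem sum_D_bound {w N : ℕ} (hw : 1 ≤ w) (𝒟 : Finset ℕ)
    (h𝒟 : ∀ D ∈ 𝒟, D ≤ N ∧ (D = 1 ∨ w < D)) :
    ∑ D ∈ 𝒟, (1 : ℝ) / (D : ℝ) ^ 2 ≤ 1 + 1 / w := by
  classical
  have hsub : 𝒟 ⊆ insert 1 (Finset.Ioc w N) := by
    intro D hD
    obtain ⟨h1, h2⟩ := h𝒟 D hD
    rw [Finset.mem_insert, Finset.mem_Ioc]
    rcases h2 with h | h
    · exact Or.inl h
    · exact Or.inr ⟨h, h1⟩
  refine (Finset.sum_le_sum_of_subset_of_nonneg hsub (fun _ _ _ => by positivity)).trans ?_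
  rw [Finset.sum_insert (by
    rw [Finset.mem_Ioc]; omega)]
  have := sum_inv_sq w N hw
  simp only [Nat.cast_one, one_pow, div_one]
  linarith

open scoped Classical in
theorem good_sum (e : ℕ) {w : ℕ} (hw : 1 ≤ w) {fc : MvPolynomial ι ℤ} {S J : ℕ} {xc : ι → ℤ}
    {P : ℝ} {ξ : ι → ℝ} {i₀ : ι} {ρ ρ' B a A A₂ Δ κ : ℝ} (ha : 1 ≤ a) (haB : a ≤ B) (hκ : 0 < κ)
    {Lg : ℝ}
    (hLg : ∀ s : ℕ, (s : ℝ) ≤ 15 * (Fintype.card ι) ^ 2 * a * B → (Nat.log 2 s : ℝ) ≤ Lg)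
    (u : (ι → ℤ) → ℤ)
    (hu : ∀ x ∈ box P ξ i₀ ρ ρ' S xc, MvPolynomial.eval x fc = -(((S * J : ℕ) : ℤ) * u x))
    {K N : ℕ} (hK : 0 < K) (hΔ : 0 ≤ Δ) (hΔK : K * N ≤ Δ)
    (hA : A + (c1pt (Fintype.card ι) (e + 1) + cker (Fintype.card ι) e *
      (1 + (mons ι (e + 2)).card * c1pt (Fintype.card ι) (e + 1)) / κ) *
      (Δ / B ^ (e + 2) + K * a) + cker (Fintype.card ι) e * ((1 + Lg) * a ^ 2) ≤ A₂)
    {R₁ E : ℝ} {R₂ : ℕ → ℝ} (hR₂ : ∀ D, 0 ≤ R₂ D) (hE : 0 ≤ E)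
    (hL1 : ∀ g ∈ formsZ ι (e + 2) A₂,
      ((locSet P ξ i₀ ρ ρ' S J xc (mem' fc S J g) K 1 0 ((S * J : ℕ) * Δ)).card : ℝ) ≤ R₁)
    (hL2 : ∀ D : ℕ, 0 < D → D ≤ N → (∀ q : ℕ, q.Prime → q ≤ w → ¬ q ∣ D) →
      ∀ g ∈ formsZ ι (e + 2) A₂, ∀ ζ,
      ((locSet P ξ i₀ ρ ρ' S J xc (mem' fc S J g) K D ζ ((S * J : ℕ) * Δ)).card : ℝ) ≤ R₂ D)
    (hED : ∀ D : ℕ, 0 < D → D ≤ N → (formsZ ι (e + 2) A₂).card * (R₁ * (D * R₂ D)) ≤
      (formsZ ι (e + 2) A).card * (E * (1 / (D : ℝ) ^ 2)) *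
        ((2 * Δ / K - 1) * (2 * Δ / (K * D) - 1)))
    (Gd : Finset ((ι → ℤ) × (ι → ℤ)))
    (hGd : ∀ p ∈ Gd, p.1 ∈ testSet B a P ξ i₀ ρ ρ' S xc ∧ p.2 ∈ testSet B a P ξ i₀ ρ ρ' S xc ∧
      ∃ D, GoodPair w K N B κ p D) :
    ∑ p ∈ Gd, (c2 e A u p : ℝ) ≤ (formsZ ι (e + 2) A).card * E * (1 + 1 / w) := by
  choose! Df hDf using fun p hp => (hGd p hp).2.2
  set 𝒟 := Gd.image Df with h𝒟
  have hKr : (1:ℝ) ≤ K := by exact_mod_cast hK
  have h𝒟p : ∀ D ∈ 𝒟, 0 < D ∧ D ≤ N ∧ (∀ q : ℕ, q.Prime → q ≤ w → ¬ q ∣ D) := by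
    intro D hD
    obtain ⟨p, hp, rfl⟩ := Finset.mem_image.mp hD
    obtain ⟨g, hg0, hg1, hg2, hg3, hg4, hg5, hg6, hg7, hg8⟩ := hDf p hp
    exact ⟨hg4, hg5, hg8⟩
  rw [← Finset.sum_fiberwise_of_maps_to (fun p hp => Finset.mem_image_of_mem Df hp :
    ∀ p ∈ Gd, Df p ∈ 𝒟)]
  have hterm : ∀ D ∈ 𝒟, ∑ p ∈ Gd.filter (fun p => Df p = D), (c2 e A u p : ℝ) ≤
      (formsZ ι (e + 2) A).card * E * (1 / (D : ℝ) ^ 2) := by
    intro D hD
    obtain ⟨hD1, hD2, hD3⟩ := h𝒟p D hD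
    have hD1r : (1:ℝ) ≤ D := by exact_mod_cast hD1
    have hKD : (K:ℝ) * D ≤ Δ := by
      have h0 : (D:ℝ) ≤ N := by exact_mod_cast hD2
      have h1 := mul_le_mul_of_nonneg_left h0 (by linarith : (0:ℝ) ≤ K)
      linarith
    have key := good_sum_D e ha haB hκ hLg u hu hK hD1 hΔ hKD hA (hR₂ D) hL1
      (hL2 D hD1 hD2 hD3) (Gd.filter (fun p => Df p = D)) (by
        intro p hp
        rw [Finset.mem_filter] at hp
        have h1 := hGd p hp.1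
        refine ⟨h1.1, h1.2.1, ?_⟩
        rw [← hp.2]
        exact hDf p hp.1)
    have key2 := key.trans (hED D hD1 hD2)
    have hpos1 : 0 < 2 * Δ / K - 1 := by
      rw [sub_pos, lt_div_iff₀ (by linarith)]
      have h0 : (K:ℝ) ≤ K * D := le_mul_of_one_le_right (by linarith) hD1r
      linarith
    have hpos2 : 0 < 2 * Δ / (K * D) - 1 := by
      rw [sub_pos, lt_div_iff₀ (by positivity)]
      have : 0 < (K:ℝ) * D := by positivity
      linarith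
    have := le_of_mul_le_mul_right key2 (mul_pos hpos1 hpos2)
    refine this.trans (le_of_eq ?_)
    ring
  refine (Finset.sum_le_sum hterm).trans ?_
  rw [← Finset.mul_sum]
  apply mul_le_mul_of_nonneg_left _ (by positivity)
  exact sum_D_bound hw 𝒟 (fun D hD => ⟨(h𝒟p D hD).2.1, one_or_gt (h𝒟p D hD).1 (h𝒟p D hD).2.2⟩)

open scoped Classical in
theorem prop_card {x : ι → ℤ} (hpx : Prim x) {B : ℝ} (hB : 0 < B) (hx : Sz B x)
    (Y : Finset (ι → ℤ)) (hY : ∀ y ∈ Y, Prim y ∧ ∀ i j, mn x y i j = 0) :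
    Y.card ≤ 2 := by
  obtain ⟨w, hw⟩ := hpx.bezout
  have h1 : Y.card ≤ ({1, -1} : Finset ℤ).card := by
    apply Finset.card_le_card_of_injOn (fun y => ∑ i, w i * y i)
    · intro y hy
      obtain ⟨hy1, hy2⟩ := hY y hy
      have h2 := eq_smul_of_minors hw hy2
      have h3 : IsUnit (∑ i, w i * y i) := by
        apply hy1
        intro i
        rw [h2 i]
        exact dvd_mul_right _ _
      simp only [Finset.coe_insert, Finset.coe_singleton, Set.mem_insert_iff,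
        Set.mem_singleton_iff]
      exact Int.isUnit_iff.mp h3
    · intro y hy y' hy' heq
      simp only at heq
      funext i
      rw [eq_smul_of_minors hw (hY y hy).2 i, eq_smul_of_minors hw (hY y' hy').2 i, heq]
  refine h1.trans ?_
  decide

/-- The second moment. -/
theorem second_moment (ι : Type*) [Fintype ι] (hk4 : 4 ≤ Fintype.card ι) (e : ℕ) :
    ∃ Ct : ℝ, 0 < Ct ∧ ∀ (w : ℕ) (_ : 1 ≤ w) (fc : MvPolynomial ι ℤ) (S J : ℕ) (xc : ι → ℤ)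
    (P : ℝ) (ξ : ι → ℝ) (i₀ : ι) (ρ ρ' B a A A₂ Δ T : ℝ) (_ : 1 ≤ a) (_ : a ≤ B) (_ : 1 ≤ T)
    (Lg : ℝ)
    (_ : ∀ s : ℕ, (s : ℝ) ≤ 15 * (Fintype.card ι) ^ 2 * a * B → (Nat.log 2 s : ℝ) ≤ Lg)
    (u : (ι → ℤ) → ℤ)
    (_ : ∀ x ∈ box P ξ i₀ ρ ρ' S xc, MvPolynomial.eval x fc = -(((S * J : ℕ) : ℤ) * u x))
    (N : ℕ) (_ : 2 * T ≤ N) (K : ℕ)
    (_ : K = (∏ p ∈ (Finset.range (w + 1)).filter Nat.Prime, p) ^ N)
    (_ : 0 ≤ Δ) (_ : K * N ≤ Δ)
    (_ : A + (c1pt (Fintype.card ι) (e + 1) + cker (Fintype.card ι) e *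
      (1 + (mons ι (e + 2)).card * c1pt (Fintype.card ι) (e + 1)) / (1 / T)) *
      (Δ / B ^ (e + 2) + K * a) + cker (Fintype.card ι) e * ((1 + Lg) * a ^ 2) ≤ A₂)
    (_ : 2 * c1pt (Fintype.card ι) (e + 1) * a ≤ A)
    (_ : 2 * cker (Fintype.card ι) e * ((1 + Lg) * a ^ 2) ≤ A)
    (R₁ E : ℝ) (R₂ : ℕ → ℝ) (_ : ∀ D, 0 ≤ R₂ D) (_ : 0 ≤ E)
    (_ : ∀ g ∈ formsZ ι (e + 2) A₂,
      ((locSet P ξ i₀ ρ ρ' S J xc (mem' fc S J g) K 1 0 ((S * J : ℕ) * Δ)).card : ℝ) ≤ R₁)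
    (_ : ∀ D : ℕ, 0 < D → D ≤ N → (∀ q : ℕ, q.Prime → q ≤ w → ¬ q ∣ D) →
      ∀ g ∈ formsZ ι (e + 2) A₂, ∀ ζ,
      ((locSet P ξ i₀ ρ ρ' S J xc (mem' fc S J g) K D ζ ((S * J : ℕ) * Δ)).card : ℝ) ≤ R₂ D)
    (_ : ∀ D : ℕ, 0 < D → D ≤ N → (formsZ ι (e + 2) A₂).card * (R₁ * (D * R₂ D)) ≤
      (formsZ ι (e + 2) A).card * (E * (1 / (D : ℝ) ^ 2)) *
        ((2 * Δ / K - 1) * (2 * Δ / (K * D) - 1))),
    ∑ p ∈ (testSet B a P ξ i₀ ρ ρ' S xc) ×ˢ (testSet B a P ξ i₀ ρ ρ' S xc), (c2 e A u p : ℝ) ≤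
      (formsZ ι (e + 2) A).card * E * (1 + 1 / w) +
      Ct * (formsZ ι (e + 2) (3 * A)).card * B ^ (2 * Fintype.card ι) /
        (A ^ 2 * B ^ (2 * e + 4) * Real.sqrt T) +
      Ct * (formsZ ι (e + 2) (2 * A)).card * (testSet B a P ξ i₀ ρ ρ' S xc).card /
        (A * B ^ (e + 2)) := by
  classical
  obtain ⟨C₀, hC₀, htail⟩ := tail_sum_int (ι := ι) hk4
  obtain ⟨k, hk⟩ : ∃ k, Fintype.card ι = k := ⟨_, rfl⟩
  have hk0 : 0 < k := by omega
  obtain ⟨c, hc⟩ : ∃ c, c1pt k (e + 1) = c := ⟨_, rfl⟩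
  have hc0 : 0 < c := by rw [← hc]; unfold c1pt; positivity
  obtain ⟨c', hc'⟩ : ∃ c', cker k e = c' := ⟨_, rfl⟩
  have hc'0 : 0 < c' := by rw [← hc']; unfold cker c1pt; positivity
  refine ⟨4 * c * c' * C₀ + 4 * c, by positivity, ?_⟩
  intro w hw fc S J xc P ξ i₀ ρ ρ' B a A A₂ Δ T ha haB hT Lg hLg u hu N hTN K hKdef hΔ hΔK hA
    haA haA2 R₁ E R₂ hR₂ hE hL1 hL2 hED
  rw [hk, hc] at haA
  rw [hk, hc'] at haA2
  rw [hk]
  have hB : 1 ≤ B := ha.trans haB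
  have hB0 : 0 < B := by linarith
  have hT0 : 0 < T := by linarith
  have hAp : 0 < A := lt_of_lt_of_le (by positivity : 0 < 2 * c * a) haA
  have hK0 : 0 < K := by
    rw [hKdef]
    apply pow_pos
    apply Finset.prod_pos
    intro p hp
    exact (Finset.mem_filter.mp hp).2.pos
  set X' := testSet B a P ξ i₀ ρ ρ' S xc with hX'
  set G := formsZ ι (e + 2) A with hG
  have hdata : ∀ p : (ι → ℤ) × (ι → ℤ), (∃ i j, mn p.1 p.2 i j ≠ 0) →
      ∃ (g : ℤ) (μ : ℝ), g ≠ 0 ∧ (∀ i j, g ∣ mn p.1 p.2 i j) ∧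
      (∀ D, (∀ i j, D ∣ mn p.1 p.2 i j) → D ∣ g) ∧ 0 < μ ∧
      (∃ i j, μ ≤ |(mn p.1 p.2 i j : ℝ)|) ∧
      (∀ i j, |(mn p.1 p.2 i j : ℝ)| ≤ μ) ∧ |(g : ℝ)| ≤ μ := fun p hp => exists_gcd_data hp
  choose! gf μf hg0 hg1 hg2 hg3 hg4 hg5 hg6 using hdata
  set Pr := (X' ×ˢ X').filter (fun p => ∀ i j, mn p.1 p.2 i j = 0) with hPr
  set Np := (X' ×ˢ X').filter (fun p => ¬ ∀ i j, mn p.1 p.2 i j = 0) with hNp
  set Gd := Np.filter (fun p => B ^ 2 * |(gf p : ℝ)| ≤ T * μf p) with hGd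
  set Tl := Np.filter (fun p => ¬ B ^ 2 * |(gf p : ℝ)| ≤ T * μf p) with hTl
  have hNp' : ∀ p ∈ Np, p.1 ∈ X' ∧ p.2 ∈ X' ∧ ∃ i j, mn p.1 p.2 i j ≠ 0 := by
    intro p hp
    rw [hNp, Finset.mem_filter, Finset.mem_product] at hp
    push Not at hp
    exact ⟨hp.1.1, hp.1.2, hp.2⟩
  have hμB : ∀ p ∈ Np, μf p ≤ 2 * B ^ 2 := by
    intro p hp
    obtain ⟨h1, h2, h3⟩ := hNp' p hp
    obtain ⟨i, j, hij⟩ := hg4 p h3
    refine hij.trans ?_
    obtain ⟨_, hx, _⟩ := mem_testSet.mp h1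
    obtain ⟨_, hy, _⟩ := mem_testSet.mp h2
    unfold mn
    push_cast
    refine (abs_sub _ _).trans ?_
    rw [abs_mul, abs_mul]
    have e1 : |(p.1 i : ℝ)| * |(p.2 j : ℝ)| ≤ B * B :=
      mul_le_mul (hx.1 i) (hy.1 j) (abs_nonneg _) hB0.le
    have e2 : |(p.1 j : ℝ)| * |(p.2 i : ℝ)| ≤ B * B :=
      mul_le_mul (hx.1 j) (hy.1 i) (abs_nonneg _) hB0.le
    linarith [sq B]
  have hsum : ∑ p ∈ X' ×ˢ X', (c2 e A u p : ℝ) = ∑ p ∈ Pr, (c2 e A u p : ℝ) +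
      (∑ p ∈ Gd, (c2 e A u p : ℝ) + ∑ p ∈ Tl, (c2 e A u p : ℝ)) := by
    rw [← Finset.sum_filter_add_sum_filter_not (X' ×ˢ X') (fun p => ∀ i j, mn p.1 p.2 i j = 0)]
    congr 1
    rw [← Finset.sum_filter_add_sum_filter_not _ (fun p => B ^ 2 * |(gf p : ℝ)| ≤ T * μf p)]
  -- proportional pairs
  have hPrb : ∑ p ∈ Pr, (c2 e A u p : ℝ) ≤
      4 * c * (formsZ ι (e + 2) (2 * A)).card * X'.card / (A * B ^ (e + 2)) := by
    have h1 : ∀ p ∈ Pr, (c2 e A u p : ℝ) ≤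
        2 * c * (formsZ ι (e + 2) (2 * A)).card / (A * B ^ (e + 2)) := by
      intro p hp
      rw [hPr, Finset.mem_filter, Finset.mem_product] at hp
      obtain ⟨hx1, hx2, hx3, hx4⟩ := mem_testSet.mp hp.1.1
      have key := cnt1_le (A := A) (e + 1) hx4 hx2 hB ha (by rw [hk, hc]; exact haA) (u p.1)
      rw [hk, hc] at key
      have h2 : c2 e A u p ≤ ((formsZ ι (e + 1 + 1) A).filter
          (fun f => MvPolynomial.eval p.1 f = u p.1)).card := by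
        unfold c2
        apply Finset.card_le_card
        intro f hf
        rw [Finset.mem_filter] at hf ⊢
        exact ⟨hf.1, hf.2.1⟩
      rw [le_div_iff₀ (by positivity)]
      have h3 : (c2 e A u p : ℝ) ≤ (((formsZ ι (e + 1 + 1) A).filter
          (fun f => MvPolynomial.eval p.1 f = u p.1)).card : ℝ) := by exact_mod_cast h2
      exact (mul_le_mul_of_nonneg_right h3 (by positivity)).trans key
    have h4 : (Pr.card : ℝ) ≤ 2 * X'.card := by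
      have hmaps : ∀ p ∈ Pr, p.1 ∈ X' := by
        intro p hp
        rw [hPr, Finset.mem_filter, Finset.mem_product] at hp
        exact hp.1.1
      have h5 : Pr.card ≤ 2 * X'.card := by
        apply Finset.card_le_mul_card_image_of_maps_to hmaps 2
        intro x hx
        obtain ⟨hx1, hx2, hx3, hx4⟩ := mem_testSet.mp hx
        have := prop_card hx3 hB0 hx2 ((Pr.filter (fun p => p.1 = x)).image (fun p => p.2)) ?_
        · rw [Finset.card_image_of_injOn] at this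
          · exact this
          · intro p hp p' hp' heq
            have e1 := (Finset.mem_filter.mp (Finset.mem_coe.mp hp)).2
            have e2 := (Finset.mem_filter.mp (Finset.mem_coe.mp hp')).2
            exact Prod.ext (e1.trans e2.symm) heq
        · intro y hy
          rw [Finset.mem_image] at hy
          obtain ⟨p, hp, rfl⟩ := hy
          rw [Finset.mem_filter, hPr, Finset.mem_filter, Finset.mem_product] at hp
          refine ⟨(mem_testSet.mp hp.1.1.2).2.2.1, ?_⟩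
          rw [← hp.2]
          exact hp.1.2
      exact_mod_cast h5
    refine (Finset.sum_le_sum h1).trans ?_
    rw [Finset.sum_const, nsmul_eq_mul]
    have h6 := mul_le_mul_of_nonneg_right h4
      (by positivity : 0 ≤ 2 * c * (formsZ ι (e + 2) (2 * A)).card / (A * B ^ (e + 2)))
    refine h6.trans (le_of_eq ?_)
    ring
  -- good pairs
  have hGdb : ∑ p ∈ Gd, (c2 e A u p : ℝ) ≤ G.card * E * (1 + 1 / w) := by
    apply good_sum e hw ha haB (by positivity : 0 < 1 / T) hLg u hu hK0 hΔ hΔK hA hR₂ hE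
      hL1 hL2 hED
    intro p hp
    rw [hGd, Finset.mem_filter] at hp
    obtain ⟨h1, h2, h3⟩ := hNp' p hp.1
    refine ⟨h1, h2, ?_⟩
    have hgne := hg0 p h3
    have hg1' : 1 ≤ |(gf p : ℝ)| := by
      have := Int.one_le_abs hgne
      exact_mod_cast this
    have hgN : (gf p).natAbs ≤ N := by
      have h4 : |(gf p : ℝ)| ≤ 2 * T := by
        have h5 := hp.2.trans (mul_le_mul_of_nonneg_left (hμB p hp.1) hT0.le)
        have h6 : B ^ 2 * |(gf p : ℝ)| ≤ B ^ 2 * (2 * T) := by linarith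
        exact le_of_mul_le_mul_left h6 (by positivity)
      have h5 : (((gf p).natAbs : ℕ) : ℝ) ≤ (N : ℝ) := by
        rw [Nat.cast_natAbs, Int.cast_abs]
        exact h4.trans hTN
      exact_mod_cast h5
    have hgN2 : (gf p).natAbs ≤ 2 ^ N := hgN.trans (Nat.lt_two_pow_self).le
    obtain ⟨D, hD1, hD2, hD3, hD4⟩ := exists_coprime_part w N (Int.natAbs_ne_zero.mpr hgne) hgN2
    refine ⟨D, gf p, hgne, hg1 p h3, hg2 p h3, ?_, hD1, ?_, ?_, ?_, hD4⟩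
    · obtain ⟨i, j, hij⟩ := hg4 p h3
      refine ⟨i, j, le_trans ?_ hij⟩
      rw [one_div, inv_mul_le_iff₀ hT0]
      refine le_trans ?_ hp.2
      exact le_mul_of_one_le_right (by positivity) hg1'
    · exact (Nat.le_of_dvd (Int.natAbs_pos.mpr hgne) hD2).trans hgN
    · exact Int.natCast_dvd.mpr hD2
    · rw [← hKdef] at hD3
      have := Int.natAbs_dvd_natAbs (a := gf p) (b := ((K * D : ℕ) : ℤ))
      rw [Int.natAbs_natCast] at this
      have h7 := this.mp hD3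
      push_cast at h7
      exact h7
  -- tail pairs
  have hTlb : ∑ p ∈ Tl, (c2 e A u p : ℝ) ≤
      4 * c * c' * C₀ * (formsZ ι (e + 2) (3 * A)).card * B ^ (2 * k) /
        (A ^ 2 * B ^ (2 * e + 4) * Real.sqrt T) := by
    have h1 : ∀ p ∈ Tl, (c2 e A u p : ℝ) ≤
        4 * c * c' * (formsZ ι (e + 2) (3 * A)).card / (A ^ 2 * B ^ (2 * e + 4)) *
          (B ^ 2 * |(gf p : ℝ)| / μf p) := by
      intro p hp
      rw [hTl, Finset.mem_filter] at hp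
      obtain ⟨h1, h2, h3⟩ := hNp' p hp.1
      obtain ⟨hx1, hx2, hx3, hx4⟩ := mem_testSet.mp h1
      obtain ⟨hy1, hy2, hy3, hy4⟩ := mem_testSet.mp h2
      have hμ0 := hg3 p h3
      have key := cnt2_le (A := A) e hx4 hx2 hx3 hy4 hy2 ha haB (hg0 p h3) (hg1 p h3) (hg2 p h3) hμ0
        (hg4 p h3) hLg (by rw [hk, hc]; exact haA) (by rw [hk, hc']; exact haA2) (u p.1) (u p.2)
      rw [hk, hc, hc'] at key
      rw [← le_div_iff₀ (by positivity)] at key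
      refine key.trans (le_of_eq ?_)
      have : B ^ (2 * e + 4) = B ^ (e + 2) * B ^ e * B ^ 2 := by
        rw [← pow_add, ← pow_add]; congr 1; ring
      rw [this]
      field_simp
    refine (Finset.sum_le_sum h1).trans ?_
    rw [← Finset.mul_sum]
    have h2 := htail B T hB hT Tl (fun p => B ^ 2 * |(gf p : ℝ)| / μf p) (by
      intro p hp
      rw [hTl, Finset.mem_filter] at hp
      obtain ⟨h1, h2, h3⟩ := hNp' p hp.1
      obtain ⟨hx1, hx2, hx3, hx4⟩ := mem_testSet.mp h1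
      obtain ⟨hy1, hy2, hy3, hy4⟩ := mem_testSet.mp h2
      have hμ0 := hg3 p h3
      refine ⟨hx2.1, hy2.1, h3, ?_, gf p, μf p, hg1 p h3, hg5 p h3, ?_⟩
      · rw [lt_div_iff₀ hμ0]
        exact not_le.mp hp.2
      · rw [div_mul_cancel₀ _ hμ0.ne'])
    rw [hk] at h2
    have h3 := mul_le_mul_of_nonneg_left h2
      (by positivity : 0 ≤ 4 * c * c' * ((formsZ ι (e + 2) (3 * A)).card : ℝ) /
        (A ^ 2 * B ^ (2 * e + 4)))
    refine h3.trans (le_of_eq ?_)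
    have hsT : 0 < Real.sqrt T := Real.sqrt_pos.mpr hT0
    field_simp
  rw [hsum]
  have hs1 : 4 * c * c' * C₀ * (formsZ ι (e + 2) (3 * A)).card * B ^ (2 * k) /
        (A ^ 2 * B ^ (2 * e + 4) * Real.sqrt T) ≤
        (4 * c * c' * C₀ + 4 * c) * (formsZ ι (e + 2) (3 * A)).card * B ^ (2 * k) /
        (A ^ 2 * B ^ (2 * e + 4) * Real.sqrt T) := by
    apply div_le_div_of_nonneg_right _ (by positivity)
    apply mul_le_mul_of_nonneg_right _ (by positivity)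
    apply mul_le_mul_of_nonneg_right _ (by positivity)
    linarith
  have hs2 : 4 * c * (formsZ ι (e + 2) (2 * A)).card * X'.card / (A * B ^ (e + 2)) ≤
      (4 * c * c' * C₀ + 4 * c) * (formsZ ι (e + 2) (2 * A)).card * X'.card /
        (A * B ^ (e + 2)) := by
    apply div_le_div_of_nonneg_right _ (by positivity)
    apply mul_le_mul_of_nonneg_right _ (by positivity)
    apply mul_le_mul_of_nonneg_right _ (by positivity)
    have : 0 < 4 * c * c' * C₀ := by positivity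
    linarith
  linarith

end Pool.Agent.Y716.Q
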