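import Pool.Agent.Y716.Q.Num

/-!
# Numerical lemmas for the core of the class theorem, second part
-/

namespace Pool.Agent.Y716.Q

theorem core_ED {k : ℕ} (hk4 : 4 ≤ k) {τ R Δ G G₂ : ℝ} {K D : ℕ} (hK : 0 < K) (hD : 0 < D)
    (hτ0 : 0 < τ) (hτ1 : τ ≤ 1 / 2) (hR : 0 < R) (hΔ : 0 < Δ) (hG : 0 < G)
    (hG₂ : G₂ ≤ (1 + τ) * G) (h1 : ((K * D : ℕ) : ℝ) ≤ τ * Δ) :
    G₂ * (((1 + τ) ^ k / (1 - τ) * R / (K * ((1 : ℕ) : ℝ) ^ k)) *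
      (D * ((1 + τ) ^ k / (1 - τ) * R / (K * (D : ℝ) ^ k)))) ≤
    G * (((1 + τ) ^ (2 * k + 1) / (1 - τ) ^ 4 * (R / (2 * Δ)) ^ 2) * (1 / (D : ℝ) ^ 2)) *
        ((2 * Δ / K - 1) * (2 * Δ / (K * D) - 1)) := by
  have hKr : (0:ℝ) < K := by exact_mod_cast hK
  have hDr : (0:ℝ) < D := by exact_mod_cast hD
  have hD1 : (1:ℝ) ≤ D := by exact_mod_cast hD
  have h1τ : 0 < 1 - τ := by linarith
  push_cast at h1
  have hKD : (K : ℝ) ≤ K * D := le_mul_of_one_le_right hKr.le hD1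
  have e1 : (1 - τ) * (2 * Δ / K) ≤ 2 * Δ / K - 1 := by
    have : 1 ≤ τ * (2 * Δ / K) := by
      rw [← mul_div_assoc, le_div_iff₀ hKr]
      have : 0 < τ * Δ := by positivity
      linarith
    linarith
  have e2 : (1 - τ) * (2 * Δ / (K * D)) ≤ 2 * Δ / (K * D) - 1 := by
    have : 1 ≤ τ * (2 * Δ / (K * D)) := by
      rw [← mul_div_assoc, le_div_iff₀ (by positivity)]
      have : 0 < τ * Δ := by positivity
      linarith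
    linarith
  have e3 := mul_le_mul e1 e2 (by positivity) (le_trans (by positivity) e1)
  have e4 := mul_le_mul_of_nonneg_left e3 (by positivity :
    0 ≤ G * (((1 + τ) ^ (2 * k + 1) / (1 - τ) ^ 4 * (R / (2 * Δ)) ^ 2) * (1 / (D : ℝ) ^ 2)))
  refine le_trans ?_ e4
  have e5 := mul_le_mul_of_nonneg_right hG₂ (by positivity :
    0 ≤ (((1 + τ) ^ k / (1 - τ) * R / (K * ((1 : ℕ) : ℝ) ^ k)) *
      (D * ((1 + τ) ^ k / (1 - τ) * R / (K * (D : ℝ) ^ k)))))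
  refine e5.trans ?_
  obtain ⟨n, rfl⟩ : ∃ n, k = n + 4 := ⟨k - 4, by omega⟩
  have e6 : (1 + τ) * G * (((1 + τ) ^ (n + 4) / (1 - τ) * R / (K * ((1 : ℕ) : ℝ) ^ (n + 4))) *
      (D * ((1 + τ) ^ (n + 4) / (1 - τ) * R / (K * (D : ℝ) ^ (n + 4))))) =
      (G * (1 + τ) ^ (2 * (n + 4) + 1) / (1 - τ) ^ 2 * R ^ 2 / (K ^ 2 * (D:ℝ) ^ 3)) *
        (1 / (D:ℝ) ^ n) := by
    rw [show 2 * (n + 4) + 1 = (n + 4) + (n + 4) + 1 by ring, pow_succ (1 + τ) ((n + 4) + (n + 4)),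
      pow_add (1 + τ) (n + 4) (n + 4), pow_add (D:ℝ) n 4]
    simp only [Nat.cast_one, one_pow, mul_one]
    field_simp
  have e7 : G * ((1 + τ) ^ (2 * (n + 4) + 1) / (1 - τ) ^ 4 * (R / (2 * Δ)) ^ 2 *
      (1 / (D:ℝ) ^ 2)) * ((1 - τ) * (2 * Δ / K) * ((1 - τ) * (2 * Δ / (K * D)))) =
      (G * (1 + τ) ^ (2 * (n + 4) + 1) / (1 - τ) ^ 2 * R ^ 2 / (K ^ 2 * (D:ℝ) ^ 3)) * 1 := by
    field_simp
  rw [e6, e7]
  apply mul_le_mul_of_nonneg_left _ (by positivity)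
  rw [div_le_one (by positivity)]
  exact one_le_pow₀ hD1

theorem core_cheb {τ b R Δ G G' : ℝ} (hτ0 : 0 < τ) (hb : 0 < b) (hR : 0 < R)
    (hΔ : 0 < Δ) (hG : 0 < G) (hG' : (1 - τ) * G ≤ G') (hτ1 : τ ≤ 1 / 2) (h1 : 1 ≤ τ * Δ) :
    ((1 - τ) / (1 + τ) * b * (R / (2 * Δ))) * G * (2 * Δ + 1) ≤ G' * (b * R) := by
  have h1τ : 0 < 1 - τ := by linarith
  have e1 : 2 * Δ + 1 ≤ (1 + τ) * (2 * Δ) := by linarith
  have e2 := mul_le_mul_of_nonneg_left e1 (by positivity :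
    0 ≤ ((1 - τ) / (1 + τ) * b * (R / (2 * Δ))) * G)
  refine e2.trans ?_
  have e3 : (1 - τ) / (1 + τ) * b * (R / (2 * Δ)) * G * ((1 + τ) * (2 * Δ)) =
      (1 - τ) * G * (b * R) := by field_simp
  rw [e3]
  exact mul_le_mul_of_nonneg_right hG' (by positivity)

theorem core_main {F β r G w' ε τ : ℝ} (hF : 0 ≤ F) (hG : 0 ≤ G) (hw' : w' ≤ 1 + τ)
    (h : F * (1 + τ) ≤ (1 + ε / 2) * β ^ 2) :
    G * (F * r ^ 2) * w' ≤ (1 + ε / 2) * (β * r) ^ 2 * G := by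
  have h1 : F * w' ≤ (1 + ε / 2) * β ^ 2 := (mul_le_mul_of_nonneg_left hw' hF).trans h
  have h2 := mul_le_mul_of_nonneg_right h1 (by positivity : 0 ≤ r ^ 2 * G)
  linarith

/-- lower bound of the square of the main term -/
theorem core_E1 {k : ℕ} (hk : 1 ≤ k) {β r c₀ P A : ℝ} (e : ℕ) (hb1 : 1 / 2 ≤ β) (hc₀ : 0 < c₀)
    (hP : 0 < P) (hA : 0 < A) (hr : c₀ * P ^ (k - 1) / (A * P ^ (e + 1)) ≤ r) :
    c₀ ^ 2 / 4 * (P ^ (2 * k) / (A ^ 2 * P ^ (2 * e + 4))) ≤ (β * r) ^ 2 := by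
  have h0 : 0 ≤ c₀ * P ^ (k - 1) / (A * P ^ (e + 1)) := by positivity
  have h1 : 1 / 2 * (c₀ * P ^ (k - 1) / (A * P ^ (e + 1))) ≤ β * r :=
    mul_le_mul hb1 hr h0 (by linarith)
  have h2 := pow_le_pow_left₀ (by positivity) h1 2
  refine le_trans (le_of_eq ?_) h2
  obtain ⟨n, rfl⟩ : ∃ n, k = n + 1 := ⟨k - 1, by omega⟩
  rw [Nat.add_sub_cancel, show 2 * (n + 1) = n * 2 + 2 by ring,
    show 2 * e + 4 = (e + 1) * 2 + 2 by ring, pow_add P (n * 2), pow_add P ((e + 1) * 2), pow_mul,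
    pow_mul]
  field_simp
  norm_num

theorem core_t1 {k M : ℕ} {e : ℕ} {Ct G G₃ P A T ε c₀ E2 : ℝ} (hCt : 0 < Ct) (hG : 0 < G)
    (hG₃ : G₃ ≤ 4 ^ M * G) (hP : 0 < P) (hA : 0 < A) (hε : 0 < ε) (hc₀ : 0 < c₀) (hT : 0 < T)
    (hTs : 16 * Ct * 4 ^ M * 4 ^ k / (ε * c₀ ^ 2) ≤ T)
    (hE : c₀ ^ 2 / 4 * (P ^ (2 * k) / (A ^ 2 * P ^ (2 * e + 4))) ≤ E2) :
    Ct * G₃ * (2 * P) ^ (2 * k) / (A ^ 2 * (2 * P) ^ (2 * e + 4) * T) ≤ ε / 4 * (E2 * G) := by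
  have h1 := mul_le_mul_of_nonneg_right hE (by positivity : 0 ≤ ε / 4 * G)
  have h2 : ε / 4 * (E2 * G) = E2 * (ε / 4 * G) := by ring
  rw [h2]
  refine le_trans ?_ h1
  have h3 : Ct * G₃ * (2 * P) ^ (2 * k) / (A ^ 2 * (2 * P) ^ (2 * e + 4) * T) ≤
      Ct * (4 ^ M * G) * (2 * P) ^ (2 * k) / (A ^ 2 * P ^ (2 * e + 4) * T) := by
    apply div_le_div₀ (by positivity) _ (by positivity) _
    · apply mul_le_mul_of_nonneg_right _ (by positivity)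
      exact mul_le_mul_of_nonneg_left hG₃ hCt.le
    · apply mul_le_mul_of_nonneg_right _ hT.le
      apply mul_le_mul_of_nonneg_left _ (by positivity)
      exact pow_le_pow_left₀ hP.le (by linarith) _
  refine h3.trans ?_
  rw [div_le_iff₀ (by positivity)] at hTs
  rw [mul_pow, pow_mul 2, show (2:ℝ) ^ 2 = 4 by norm_num]
  rw [div_le_iff₀ (by positivity)]
  have h4 : c₀ ^ 2 / 4 * (P ^ (2 * k) / (A ^ 2 * P ^ (2 * e + 4))) * (ε / 4 * G) *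
      (A ^ 2 * P ^ (2 * e + 4) * T) = (T * (ε * c₀ ^ 2)) * (G * P ^ (2 * k) / 16) := by
    field_simp
    ring
  rw [h4]
  have h5 := mul_le_mul_of_nonneg_right hTs (by positivity : 0 ≤ G * P ^ (2 * k) / 16)
  refine le_trans (le_of_eq ?_) h5
  ring

theorem core_t2 {k M : ℕ} {e : ℕ} {Ct G G₃ P A Y ε c₀ E2 X : ℝ} (hCt : 0 < Ct) (hG : 0 < G)
    (hG₃ : G₃ ≤ 3 ^ M * G) (hG₃0 : 0 ≤ G₃) (hP : 1 ≤ P) (hA : 0 < A) (hε : 0 < ε) (hc₀ : 0 < c₀)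
    (hY : 0 < Y)
    (hTs : 16 * Ct * 3 ^ M * 6 ^ k / (ε * c₀ ^ 2) ≤ Y) (hX : X ≤ (6 * P) ^ k) (hX0 : 0 ≤ X)
    (hAP : A * Y ≤ P) (hek : e + 3 ≤ k)
    (hE : c₀ ^ 2 / 4 * (P ^ (2 * k) / (A ^ 2 * P ^ (2 * e + 4))) ≤ E2) :
    Ct * G₃ * X / (A * (2 * P) ^ (e + 2)) ≤ ε / 4 * (E2 * G) := by
  have hP0 : 0 < P := by linarith
  have h1 := mul_le_mul_of_nonneg_right hE (by positivity : 0 ≤ ε / 4 * G)
  have h2 : ε / 4 * (E2 * G) = E2 * (ε / 4 * G) := by ring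
  rw [h2]
  refine le_trans ?_ h1
  have h3 : Ct * G₃ * X / (A * (2 * P) ^ (e + 2)) ≤
      Ct * (3 ^ M * G) * (6 * P) ^ k / (A * P ^ (e + 2)) := by
    apply div_le_div₀ (by positivity) _ (by positivity) _
    · exact mul_le_mul (mul_le_mul_of_nonneg_left hG₃ hCt.le) hX hX0 (by positivity)
    · apply mul_le_mul_of_nonneg_left _ hA.le
      exact pow_le_pow_left₀ hP0.le (by linarith) _
  refine h3.trans ?_
  rw [div_le_iff₀ (by positivity)] at hTs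
  rw [mul_pow, div_le_iff₀ (by positivity)]
  obtain ⟨n, rfl⟩ : ∃ n, k = n + (e + 3) := ⟨k - (e + 3), by omega⟩
  have h4 : c₀ ^ 2 / 4 * (P ^ (2 * (n + (e + 3))) / (A ^ 2 * P ^ (2 * e + 4))) * (ε / 4 * G) *
      (A * P ^ (e + 2)) = (ε * c₀ ^ 2 * G / 16) * (P ^ (n + (e + 3)) * P ^ n) * (P / A) := by
    rw [show 2 * (n + (e + 3)) = (n + (e + 3)) + n + (e + 3) by ring,
      show 2 * e + 4 = (e + 2) + (e + 2) by ring, pow_add P ((n + (e + 3)) + n),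
      pow_add P (n + (e + 3)) n, pow_add P (e + 2) (e + 2), pow_succ P (e + 2)]
    field_simp
    ring
  rw [h4]
  have h5 : Y ≤ P / A := by rw [le_div_iff₀ hA]; linarith
  have h6 := mul_le_mul_of_nonneg_left h5 (by positivity :
    0 ≤ (ε * c₀ ^ 2 * G / 16) * (P ^ (n + (e + 3)) * P ^ n))
  refine le_trans ?_ h6
  have h7 := mul_le_mul_of_nonneg_right hTs (by positivity : 0 ≤ G * P ^ (n + (e + 3)) * P ^ n / 16)
  have h8 : 1 ≤ P ^ n := one_le_pow₀ hP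
  have h9 : Ct * (3 ^ M * G) * (6 ^ (n + (e + 3)) * P ^ (n + (e + 3))) ≤
      Ct * (3 ^ M * G) * (6 ^ (n + (e + 3)) * P ^ (n + (e + 3))) * P ^ n :=
    le_mul_of_one_le_right (by positivity) h8
  refine h9.trans (le_trans (le_of_eq ?_) (h7.trans (le_of_eq ?_)))
  · ring
  · ring

/-- bounds for the auxiliary parameter `m` -/
theorem m_bounds {Y : ℝ} (hY : 2 ≤ Y) : ((⌊Y ^ 15⌋₊ : ℕ) : ℝ) ≤ Y ^ 15 ∧
    Y ^ 15 / 2 ≤ ((⌊Y ^ 15⌋₊ : ℕ) : ℝ) ∧ 1 ≤ ⌊Y ^ 15⌋₊ := by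
  have h0 : (0:ℝ) ≤ Y ^ 15 := by positivity
  have h1 := Nat.floor_le h0
  have h2 := Nat.sub_one_lt_floor (Y ^ 15)
  have h3 : (2:ℝ) ≤ Y ^ 15 := by
    calc (2:ℝ) ≤ Y := hY
      _ = Y ^ 1 := by ring
      _ ≤ Y ^ 15 := pow_le_pow_right₀ (by linarith) (by norm_num)
  refine ⟨h1, by linarith, ?_⟩
  apply Nat.le_floor
  push_cast
  linarith

theorem small_cond {k : ℕ} {Y : ℝ} (hY : 2 ≤ Y) (hk : 64 * (k:ℝ) + 3 ≤ Y) {m : ℕ}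
    (hm1 : (m : ℝ) ≤ Y ^ 15) (hm2 : Y ^ 15 / 2 ≤ (m : ℝ)) :
    (((k : ℝ) * (32 : ℕ) * m + 1) * (2 * Y ^ 36) + 1) * (1 / (2 * m * (1 / Y ^ 14))) ^ (2 * 32) < 1 := by
  have hY0 : 0 < Y := by linarith
  have hY1 : 1 ≤ Y := by linarith
  have h1 : Y ≤ 2 * m * (1 / Y ^ 14) := by
    rw [mul_one_div, le_div_iff₀ (by positivity)]
    calc Y * Y ^ 14 = Y ^ 15 := by ring
      _ ≤ 2 * (m : ℝ) := by linarith
  have h2 : (1 / (2 * m * (1 / Y ^ 14))) ^ (2 * 32) ≤ 1 / Y ^ 64 := by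
    calc (1 / (2 * m * (1 / Y ^ 14))) ^ (2 * 32) ≤ (1 / Y) ^ (2 * 32) :=
          pow_le_pow_left₀ (by positivity) (one_div_le_one_div_of_le hY0 h1) _
      _ = 1 / Y ^ 64 := by rw [one_div_pow]
  have h3 : ((k : ℝ) * (32 : ℕ) * m + 1) * (2 * Y ^ 36) + 1 ≤ (64 * k + 3) * Y ^ 51 := by
    have h4 : (k : ℝ) * (32 : ℕ) * m ≤ 32 * k * Y ^ 15 := by
      push_cast
      have := mul_le_mul_of_nonneg_left hm1 (by positivity : (0:ℝ) ≤ 32 * k)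
      linarith
    have h5 : ((k : ℝ) * (32 : ℕ) * m + 1) * (2 * Y ^ 36) ≤ (32 * k * Y ^ 15 + 1) * (2 * Y ^ 36) :=
      mul_le_mul_of_nonneg_right (by linarith) (by positivity)
    have h6 : (32 * k * Y ^ 15 + 1) * (2 * Y ^ 36) = 64 * k * Y ^ 51 + 2 * Y ^ 36 := by ring
    have h7 : Y ^ 36 ≤ Y ^ 51 := pow_le_pow_right₀ hY1 (by norm_num)
    have h8 : 1 ≤ Y ^ 51 := one_le_pow₀ hY1
    linarith
  have h4 : (((k : ℝ) * (32 : ℕ) * m + 1) * (2 * Y ^ 36) + 1) *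
      (1 / (2 * m * (1 / Y ^ 14))) ^ (2 * 32) ≤ ((64 * k + 3) * Y ^ 51) * (1 / Y ^ 64) :=
    mul_le_mul h3 h2 (by positivity) (by positivity)
  refine lt_of_le_of_lt h4 ?_
  rw [mul_one_div, div_lt_one (by positivity)]
  calc (64 * k + 3) * Y ^ 51 ≤ Y * Y ^ 51 := mul_le_mul_of_nonneg_right hk (by positivity)
    _ = Y ^ 52 := by ring
    _ < Y ^ 64 := pow_lt_pow_right₀ (by linarith) (by norm_num)

theorem unbal_num {k : ℕ} (hk : 4 ≤ k) {Y Cu τ cR : ℝ} (hY : 2 ≤ Y) (hCu : 0 < Cu) (hτ : 0 < τ)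
    (hcR : 0 < cR) (h : 100 * Cu * 4 ^ (k - 1) / (τ * cR) ≤ Y) :
    Cu * (2 * Y ^ 36) ^ 2 * (2 * (2 * Y ^ 36) * (1 / Y ^ 14)) ^ (k - 1) *
      (1 + Real.log (2 * (2 * Y ^ 36) * (1 / Y ^ 14))) ≤ τ * (cR * (Y ^ 36) ^ k) := by
  have hY0 : 0 < Y := by linarith
  have hY1 : 1 ≤ Y := by linarith
  have e1 : 2 * (2 * Y ^ 36) * (1 / Y ^ 14) = 4 * Y ^ 22 := by
    field_simp; ring
  rw [e1]
  have h1 := log_le_lin hY1
  have h2 : Cu * (2 * Y ^ 36) ^ 2 * (4 * Y ^ 22) ^ (k - 1) * (1 + Real.log (4 * Y ^ 22)) ≤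
      Cu * (2 * Y ^ 36) ^ 2 * (4 * Y ^ 22) ^ (k - 1) * (25 * Y) :=
    mul_le_mul_of_nonneg_left h1 (by positivity)
  refine h2.trans ?_
  obtain ⟨n, rfl⟩ : ∃ n, k = n + 4 := ⟨k - 4, by omega⟩
  rw [show n + 4 - 1 = n + 3 by omega] at h ⊢
  rw [div_le_iff₀ (by positivity)] at h
  have e2 : Cu * (2 * Y ^ 36) ^ 2 * (4 * Y ^ 22) ^ (n + 3) * (25 * Y) =
      (100 * Cu * 4 ^ (n + 3)) * (Y ^ (139 + 22 * n)) := by
    rw [mul_pow, mul_pow, ← pow_mul, ← pow_mul]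
    have : Y ^ (139 + 22 * n) = Y ^ (36 * 2) * Y ^ (22 * (n + 3)) * Y := by
      rw [← pow_add, ← pow_succ]; congr 1; ring
    rw [this]; ring
  rw [e2]
  have h3 : (100 * Cu * 4 ^ (n + 3)) * (Y ^ (139 + 22 * n)) ≤
      (Y * (τ * cR)) * (Y ^ (139 + 22 * n)) := mul_le_mul_of_nonneg_right h (by positivity)
  refine h3.trans ?_
  have e3 : (Y * (τ * cR)) * (Y ^ (139 + 22 * n)) = (τ * cR) * Y ^ (140 + 22 * n) := by
    rw [show 140 + 22 * n = (139 + 22 * n) + 1 by ring, pow_succ]; ring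
  have e4 : τ * (cR * (Y ^ 36) ^ (n + 4)) = (τ * cR) * Y ^ (144 + 36 * n) := by
    rw [← pow_mul, show 36 * (n + 4) = 144 + 36 * n by ring]; ring
  rw [e3, e4]
  apply mul_le_mul_of_nonneg_left _ (by positivity)
  exact pow_le_pow_right₀ hY1 (by omega)

/-- final bookkeeping -/
theorem final_ineq {ε E₁ G Z M₂ t₁ t₂ E w' : ℝ} (hE₁ : 0 < E₁)
    (h1 : Z * E₁ ^ 2 ≤ M₂ - E₁ ^ 2 * G) (h2 : M₂ ≤ G * E * w' + t₁ + t₂)
    (h3 : G * E * w' ≤ (1 + ε / 2) * E₁ ^ 2 * G) (h4 : t₁ ≤ ε / 4 * (E₁ ^ 2 * G))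
    (h5 : t₂ ≤ ε / 4 * (E₁ ^ 2 * G)) : Z ≤ ε * G := by
  have h6 : Z * E₁ ^ 2 ≤ (ε * G) * E₁ ^ 2 := by nlinarith
  exact le_of_mul_le_mul_right h6 (by positivity)

end Pool.Agent.Y716.Q
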