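import Pool.Agent.Y716.Q.RealClass
import Pool.Agent.Y716.Q.Count

/-!
# Counting test vectors at which a form of the class is small at all places
-/

namespace Pool.Agent.Y716.Q

variable {ι : Type*} [Fintype ι]

/-- the `p`-adic data of a class -/
structure PData (w : ℕ) (fc : MvPolynomial ι ℤ) (S J : ℕ) (xc v : ι → ℤ) : Prop where
  hS : 0 < S
  hJ : 0 < J
  hJS : J ∣ S
  hval : ((S * J : ℕ) : ℤ) ∣ MvPolynomial.eval xc fc
  hgrad : ∀ i, MvPolynomial.eval xc (MvPolynomial.pderiv i fc) = J * v i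
  hPJ : ∀ p : ℕ, p.Prime → p ≤ w → p * J ∣ S
  hv : ∀ p : ℕ, p.Prime → p ≤ w → ∃ i, ¬ (p : ℤ) ∣ v i
  hprim : ∀ p : ℕ, p.Prime → p ≤ w → ∃ i, ¬ (p : ℤ) ∣ xc i
  hSW : ∀ p : ℕ, p.Prime → p ∣ S → p ≤ w

/-- members of the class -/
noncomputable def mem' (fc : MvPolynomial ι ℤ) (S J : ℕ) (g : MvPolynomial ι ℤ) :
    MvPolynomial ι ℤ := fc + MvPolynomial.C ((S * J : ℕ) : ℤ) * g

/-- the test box -/
noncomputable def box (P : ℝ) (ξ : ι → ℝ) (i₀ : ι) (ρ ρ' : ℝ) (S : ℕ) (xc : ι → ℤ) :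
    Finset (ι → ℤ) := by
  classical exact (Fintype.piFinset (fun i => ivl (P * (ξ i - wd i₀ ρ ρ' i))
    (P * (ξ i + wd i₀ ρ ρ' i)))).filter (fun x => ∀ i, (S : ℤ) ∣ x i - xc i)

theorem mem_box {P : ℝ} {ξ : ι → ℝ} {i₀ : ι} {ρ ρ' : ℝ} {S : ℕ} {xc x : ι → ℤ} :
    x ∈ box P ξ i₀ ρ ρ' S xc ↔ InBox P ξ i₀ ρ ρ' (fun i => (x i : ℝ)) ∧
      ∀ i, (S : ℤ) ∣ x i - xc i := by
  classical
  unfold box InBox
  rw [Finset.mem_filter, Fintype.mem_piFinset]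
  simp only [mem_ivl]

theorem aeval_int_cast (f : MvPolynomial ι ℤ) (x : ι → ℤ) :
    MvPolynomial.aeval (fun i => (x i : ℝ)) f = ((MvPolynomial.eval x f : ℤ) : ℝ) := by
  rw [MvPolynomial.aeval_def, MvPolynomial.eval₂_eq', MvPolynomial.eval_eq']
  push_cast
  rfl

open scoped Classical in
/-- test vectors at which `f` is small at all places -/
noncomputable def locSet (P : ℝ) (ξ : ι → ℝ) (i₀ : ι) (ρ ρ' : ℝ) (S J : ℕ) (xc : ι → ℤ)
    (f : MvPolynomial ι ℤ) (K D : ℕ) (ζ : ι → ℤ) (Δ : ℝ) : Finset (ι → ℤ) :=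
  (box P ξ i₀ ρ ρ' S xc).filter (fun x => (∀ i, (D : ℤ) ∣ x i - ζ i) ∧
    ((S * J * K : ℕ) : ℤ) ∣ MvPolynomial.eval x f ∧ |((MvPolynomial.eval x f : ℤ) : ℝ)| ≤ Δ)

theorem PData.mem {w : ℕ} {fc : MvPolynomial ι ℤ} {S J : ℕ} {xc v : ι → ℤ}
    (h : PData w fc S J xc v) (g : MvPolynomial ι ℤ) :
    ((S : ℤ) * (J : ℤ)) ∣ MvPolynomial.eval xc (mem' fc S J g) ∧
    (∀ i, MvPolynomial.eval xc (MvPolynomial.pderiv i (mem' fc S J g)) =
      J * (v i + S * MvPolynomial.eval xc (MvPolynomial.pderiv i g))) := by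
  constructor
  · unfold mem'
    rw [map_add, map_mul, MvPolynomial.eval_C]
    have h1 := h.hval
    push_cast at h1 ⊢
    exact dvd_add h1 (dvd_mul_right _ _)
  · intro i
    unfold mem'
    rw [map_add, map_add, MvPolynomial.pderiv_C_mul, map_mul, MvPolynomial.eval_C, h.hgrad i]
    push_cast
    ring

theorem PData.class_dvd {w : ℕ} {fc : MvPolynomial ι ℤ} {S J : ℕ} {xc v : ι → ℤ}
    (h : PData w fc S J xc v) {x : ι → ℤ} (hx : ∀ i, (S : ℤ) ∣ x i - xc i) :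
    ((S * J : ℕ) : ℤ) ∣ MvPolynomial.eval x fc := by
  have h1 : ∀ i, ∃ z : ℤ, x i - xc i = S * z := fun i => hx i
  choose z hz using h1
  obtain ⟨q, hq⟩ := Pool.Agent.Y67.HP.taylor' fc xc z (S : ℤ)
  have h3 : (fun i => xc i + (S : ℤ) * z i) = x := by
    funext i
    linarith [hz i]
  rw [h3] at hq
  rw [hq]
  obtain ⟨c, hc⟩ := h.hJS
  have h5 : ∑ i, z i * MvPolynomial.eval xc (MvPolynomial.pderiv i fc) = J * ∑ i, z i * v i := by
    rw [Finset.mul_sum]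
    refine Finset.sum_congr rfl (fun i _ => ?_)
    rw [h.hgrad i]; ring
  rw [h5]
  refine dvd_add (dvd_add h.hval ?_) ?_
  · refine ⟨∑ i, z i * v i, ?_⟩
    push_cast; ring
  · refine ⟨c * q, ?_⟩
    have h6 : (S : ℤ) = J * c := by exact_mod_cast hc
    push_cast
    calc (S : ℤ) ^ 2 * q = S * S * q := by ring
      _ = S * (J * c) * q := by rw [← h6]
      _ = _ := by ring

theorem prod_wd (P : ℝ) (ξ : ι → ℝ) (i₀ : ι) (ρ ρ' M c : ℝ) [DecidableEq ι] :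
    (∏ i ∈ Finset.univ.erase i₀, ((P * (ξ i + wd i₀ ρ ρ' i) - P * (ξ i - wd i₀ ρ ρ' i)) / M + c)) =
      (2 * ρ * P / M + c) ^ (Fintype.card ι - 1) := by
  rw [Finset.prod_congr rfl (g := fun _ => 2 * ρ * P / M + c), Finset.prod_const,
    Finset.card_erase_of_mem (Finset.mem_univ _), Finset.card_univ]
  intro i hi
  have hne : i ≠ i₀ := Finset.ne_of_mem_erase hi
  have h1 : wd i₀ ρ ρ' i = ρ := by
    unfold wd
    rw [if_neg hne]
  rw [h1]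
  congr 2
  ring

open scoped Classical in
/-- count in one residue class, upper bound -/
theorem slab_class_le {P : ℝ} {ξ : ι → ℝ} {i₀ : ι} {ρ ρ' σ c₁ c₂ Δ Δ₀ : ℝ} (hρ : 0 ≤ ρ)
    (hρ' : 0 ≤ ρ') (hP : 0 ≤ P)
    (hσ : |σ| = 1) (hc₁ : 0 < c₁) (hΔ : 0 ≤ Δ) (hΔ₀ : Δ ≤ Δ₀) {f : MvPolynomial ι ℤ}
    (hf : SlopeCond σ c₁ c₂ Δ₀ P ξ i₀ ρ ρ' f) {M : ℕ} (hM : 1 ≤ M) (c : ι → ℤ)
    (X : Finset (ι → ℤ)) (hX : ∀ x ∈ X, (∀ i, (M : ℤ) ∣ x i - c i) ∧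
      InBox P ξ i₀ ρ ρ' (fun i => (x i : ℝ)) ∧ |((MvPolynomial.eval x f : ℤ) : ℝ)| ≤ Δ) :
    (X.card : ℝ) ≤ (2 * ρ * P / M + 1) ^ (Fintype.card ι - 1) * (2 * Δ / (c₁ * M) + 1) ∧ True := by
  refine ⟨?_, trivial⟩
  have hwd0 : ∀ i, 0 ≤ wd i₀ ρ ρ' i := by
    intro i; unfold wd; split_ifs <;> assumption
  have hwi : wd i₀ ρ ρ' i₀ = ρ' := by unfold wd; rw [if_pos rfl]
  set Y := (Fintype.piFinset (fun i => ivl (P * (ξ i - wd i₀ ρ ρ' i))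
    (P * (ξ i + wd i₀ ρ ρ' i)))).filter (fun x => (∀ i, (M : ℤ) ∣ x i - c i) ∧
      |σ * MvPolynomial.aeval (fun i => ((x i : ℤ) : ℝ)) f| ≤ Δ) with hY
  have hYmem : ∀ x, x ∈ Y ↔ (∀ i, (M : ℤ) ∣ x i - c i) ∧
      (∀ i, P * (ξ i - wd i₀ ρ ρ' i) ≤ x i ∧ (x i : ℝ) ≤ P * (ξ i + wd i₀ ρ ρ' i)) ∧
      |σ * MvPolynomial.aeval (fun i => ((x i : ℤ) : ℝ)) f| ≤ Δ := by
    intro x
    rw [hY, Finset.mem_filter, Fintype.mem_piFinset]
    simp only [mem_ivl]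
    tauto
  have key := box_count_real i₀ (fun x => σ * MvPolynomial.aeval x f)
    (fun i => P * (ξ i - wd i₀ ρ ρ' i)) (fun i => P * (ξ i + wd i₀ ρ ρ' i)) M hM
    (fun i => by have := hwd0 i; apply mul_le_mul_of_nonneg_left _ hP; linarith) c Δ c₁ c₂ hΔ hc₁
    (fun x hx s t hs hst ht => by
      rw [hwi] at hs ht
      exact (hf x hx).1 s t hs hst ht)
    (fun x hx => by
      rw [hwi]
      have := (hf x hx).2
      exact ⟨this.1.trans (by linarith), hΔ₀.trans this.2⟩) Y hYmem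
  have h1 := key.1
  rw [prod_wd] at h1
  refine le_trans ?_ h1
  have hsub : X ⊆ Y := by
    intro x hx
    rw [hYmem]
    obtain ⟨h1, h2, h3⟩ := hX x hx
    refine ⟨h1, h2, ?_⟩
    rw [aeval_int_cast, abs_mul, hσ, one_mul]
    exact h3
  exact_mod_cast Finset.card_le_card hsub

open scoped Classical in
/-- count in one residue class, lower bound -/
theorem slab_class_ge {P : ℝ} {ξ : ι → ℝ} {i₀ : ι} {ρ ρ' σ c₁ c₂ Δ Δ₀ : ℝ} (hρ : 0 ≤ ρ)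
    (hρρ' : ρ ≤ ρ') (hP : 0 ≤ P)
    (hσ : |σ| = 1) (hc₁ : 0 < c₁) (hΔ : 0 ≤ Δ) (hΔ₀ : Δ ≤ Δ₀) {f : MvPolynomial ι ℤ}
    (hf : SlopeCond σ c₁ c₂ Δ₀ P ξ i₀ ρ ρ' f) {M : ℕ} (hM : 1 ≤ M) (hMρ : (M : ℝ) ≤ 2 * ρ * P)
    (c : ι → ℤ) (X : Finset (ι → ℤ)) (hX : ∀ x : ι → ℤ, (∀ i, (M : ℤ) ∣ x i - c i) →
      InBox P ξ i₀ ρ ρ' (fun i => (x i : ℝ)) → |((MvPolynomial.eval x f : ℤ) : ℝ)| ≤ Δ → x ∈ X) :
    (2 * ρ * P / M - 1) ^ (Fintype.card ι - 1) * (2 * Δ / (c₂ * M) - 1) ≤ (X.card : ℝ) := by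
  have hρ' : 0 ≤ ρ' := hρ.trans hρρ'
  have hwd0 : ∀ i, 0 ≤ wd i₀ ρ ρ' i := by
    intro i; unfold wd; split_ifs <;> assumption
  have hwdρ : ∀ i, ρ ≤ wd i₀ ρ ρ' i := by
    intro i; unfold wd; split_ifs
    · exact hρρ'
    · exact le_rfl
  have hwi : wd i₀ ρ ρ' i₀ = ρ' := by unfold wd; rw [if_pos rfl]
  set Y := (Fintype.piFinset (fun i => ivl (P * (ξ i - wd i₀ ρ ρ' i))
    (P * (ξ i + wd i₀ ρ ρ' i)))).filter (fun x => (∀ i, (M : ℤ) ∣ x i - c i) ∧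
      |σ * MvPolynomial.aeval (fun i => ((x i : ℤ) : ℝ)) f| ≤ Δ) with hY
  have hYmem : ∀ x, x ∈ Y ↔ (∀ i, (M : ℤ) ∣ x i - c i) ∧
      (∀ i, P * (ξ i - wd i₀ ρ ρ' i) ≤ x i ∧ (x i : ℝ) ≤ P * (ξ i + wd i₀ ρ ρ' i)) ∧
      |σ * MvPolynomial.aeval (fun i => ((x i : ℤ) : ℝ)) f| ≤ Δ := by
    intro x
    rw [hY, Finset.mem_filter, Fintype.mem_piFinset]
    simp only [mem_ivl]
    tauto
  have key := box_count_real i₀ (fun x => σ * MvPolynomial.aeval x f)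
    (fun i => P * (ξ i - wd i₀ ρ ρ' i)) (fun i => P * (ξ i + wd i₀ ρ ρ' i)) M hM
    (fun i => by have := hwd0 i; apply mul_le_mul_of_nonneg_left _ hP; linarith) c Δ c₁ c₂ hΔ hc₁
    (fun x hx s t hs hst ht => by
      rw [hwi] at hs ht
      exact (hf x hx).1 s t hs hst ht)
    (fun x hx => by
      rw [hwi]
      have := (hf x hx).2
      exact ⟨this.1.trans (by linarith), hΔ₀.trans this.2⟩) Y hYmem
  have h1 := key.2 (fun i => by
    have := mul_le_mul_of_nonneg_left (hwdρ i) hP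
    linarith)
  have h2 := prod_wd P ξ i₀ ρ ρ' M (-1)
  simp only [← sub_eq_add_neg] at h2
  rw [h2] at h1
  refine h1.trans ?_
  have hsub : Y ⊆ X := by
    intro x hx
    rw [hYmem] at hx
    obtain ⟨h1, h2, h3⟩ := hx
    rw [aeval_int_cast, abs_mul, hσ, one_mul] at h3
    exact hX x h1 h2 h3
  exact_mod_cast Finset.card_le_card hsub

open scoped Classical in
/-- The upper bound for the number of locally small test vectors. -/
theorem locSet_card_le {w : ℕ} {fc : MvPolynomial ι ℤ} {S J : ℕ} {xc v : ι → ℤ}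
    (h : PData w fc S J xc v) {P : ℝ} {ξ : ι → ℝ} {i₀ : ι} {ρ ρ' σ c₁ c₂ Δ Δ₀ : ℝ} (hρ : 0 ≤ ρ)
    (hρ' : 0 ≤ ρ') (hP : 0 ≤ P)
    (hσ : |σ| = 1) (hc₁ : 0 < c₁) (hΔ : 0 ≤ Δ) (hΔ₀ : Δ ≤ Δ₀) {g : MvPolynomial ι ℤ}
    (hf : SlopeCond σ c₁ c₂ Δ₀ P ξ i₀ ρ ρ' (mem' fc S J g)) (L : List ℕ)
    (hL : ∀ p ∈ L, p.Prime ∧ p ≤ w) {D : ℕ} (hD : 0 < D) (hcop : Nat.Coprime (S * L.prod) D)
    (ζ : ι → ℤ) :
    ((locSet P ξ i₀ ρ ρ' S J xc (mem' fc S J g) L.prod D ζ Δ).card : ℝ) ≤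
      (L.prod : ℝ) ^ (Fintype.card ι - 1) *
      ((2 * ρ * P / (S * L.prod * D : ℕ) + 1) ^ (Fintype.card ι - 1) *
        (2 * Δ / (c₁ * (S * L.prod * D : ℕ)) + 1)) := by
  set f := mem' fc S J g with hfdef
  set K := L.prod with hK
  have hK0 : 0 < K := by
    rw [hK]
    apply List.prod_pos
    intro p hp
    exact (hL p hp).1.pos
  have hSK : (0 : ℤ) < ((S * K : ℕ) : ℤ) := by
    have := Nat.mul_pos h.hS hK0
    exact_mod_cast this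
  set T := locSet P ξ i₀ ρ ρ' S J xc f K D ζ Δ with hT
  have hTmem : ∀ x ∈ T, InBox P ξ i₀ ρ ρ' (fun i => (x i : ℝ)) ∧ (∀ i, (S : ℤ) ∣ x i - xc i) ∧
      (∀ i, (D : ℤ) ∣ x i - ζ i) ∧ ((S * J * K : ℕ) : ℤ) ∣ MvPolynomial.eval x f ∧
      |((MvPolynomial.eval x f : ℤ) : ℝ)| ≤ Δ := by
    intro x hx
    rw [hT] at hx
    unfold locSet at hx
    rw [Finset.mem_filter, mem_box] at hx
    exact ⟨hx.1.1, hx.1.2, hx.2.1, hx.2.2.1, hx.2.2.2⟩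
  -- residue map
  set φ : (ι → ℤ) → (ι → ℤ) := fun x i => x i % ((S * K : ℕ) : ℤ) with hφ
  have hφeq : ∀ x y : ι → ℤ, φ x = φ y ↔ ∀ i, ((S * K : ℕ) : ℤ) ∣ x i - y i := by
    intro x y
    constructor
    · intro h1 i
      have h2 : x i ≡ y i [ZMOD ((S * K : ℕ) : ℤ)] := congrFun h1 i
      exact (Int.ModEq.symm h2).dvd
    · intro h1
      funext i
      exact (Int.ModEq.symm ((Int.modEq_iff_dvd).mpr (h1 i)))
  -- number of classes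
  have hcls : (T.image φ).card ≤ K ^ (Fintype.card ι - 1) := by
    have hsec : ∀ c ∈ T.image φ, ∃ x ∈ T, φ x = c := by
      intro c hc
      exact Finset.mem_image.mp hc
    choose! s hs1 hs2 using hsec
    have hcard : ((T.image φ).image s).card = (T.image φ).card := by
      apply Finset.card_image_of_injOn
      intro c hc c' hc' heq
      have e1 := hs2 c hc
      have e2 := hs2 c' hc'
      rw [← e1, ← e2, heq]
    rw [← hcard]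
    obtain ⟨hd1, hd2⟩ := h.mem g
    have hdv : ∀ p : ℕ, p.Prime → p ≤ w → ∃ i, ¬ (p : ℤ) ∣
        (v i + S * MvPolynomial.eval xc (MvPolynomial.pderiv i g)) := by
      intro p hp hpw
      obtain ⟨i, hi⟩ := h.hv p hp hpw
      refine ⟨i, fun hd => hi ?_⟩
      have h1 : (p : ℤ) ∣ S := by
        have := (dvd_mul_right p J).trans (h.hPJ p hp hpw)
        exact_mod_cast this
      have := dvd_sub hd (Dvd.dvd.mul_right h1 (MvPolynomial.eval xc (MvPolynomial.pderiv i g)))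
      simpa using this
    apply Pool.Agent.Y67.HP.residue_count f (S : ℤ) (J : ℤ) (by exact_mod_cast h.hS.ne')
      (by exact_mod_cast h.hJ.ne') xc _ (by exact_mod_cast h.hJS) hd1 hd2 L (fun p hp => by
        obtain ⟨h1, h2⟩ := hL p hp
        exact ⟨h1, by exact_mod_cast h.hPJ p h1 h2, hdv p h1 h2⟩) ((T.image φ).image s)
    · intro x hx
      obtain ⟨c, hc, rfl⟩ := Finset.mem_image.mp hx
      obtain ⟨h1, h2, h3, h4, h5⟩ := hTmem _ (hs1 c hc)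
      refine ⟨h2, ?_⟩
      rw [← hK]
      rw [Nat.cast_mul, Nat.cast_mul] at h4
      exact h4
    · intro x hx y hy hxy
      obtain ⟨c, hc, rfl⟩ := Finset.mem_image.mp hx
      obtain ⟨c', hc', rfl⟩ := Finset.mem_image.mp hy
      have : φ (s c) = φ (s c') := by
        rw [hφeq]
        intro i
        rw [Nat.cast_mul]
        exact hxy i
      rw [hs2 c hc, hs2 c' hc'] at this
      rw [this]
  -- each class
  set N : ℝ := (2 * ρ * P / (S * K * D : ℕ) + 1) ^ (Fintype.card ι - 1) *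
        (2 * Δ / (c₁ * (S * K * D : ℕ)) + 1) with hN
  have hN0 : 0 ≤ N := by rw [hN]; positivity
  have hfib : ∀ c ∈ T.image φ, ((T.filter (fun x => φ x = c)).card : ℝ) ≤ N := by
    intro c hc
    obtain ⟨x₀, hx₀, hx₀c⟩ := Finset.mem_image.mp hc
    refine (slab_class_le hρ hρ' hP hσ hc₁ hΔ hΔ₀ hf (M := S * K * D)
      (Nat.mul_pos (Nat.mul_pos h.hS hK0) hD) x₀ _ ?_).1
    intro x hx
    rw [Finset.mem_filter] at hx
    obtain ⟨h1, h2, h3, h4, h5⟩ := hTmem x hx.1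
    obtain ⟨g1, g2, g3, g4, g5⟩ := hTmem x₀ hx₀
    refine ⟨fun i => ?_, h1, h5⟩
    have e1 : ((S * K : ℕ) : ℤ) ∣ x i - x₀ i := by
      have : φ x = φ x₀ := by rw [hx.2, hx₀c]
      exact (hφeq _ _).mp this i
    have e2 : (D : ℤ) ∣ x i - x₀ i := by
      have := dvd_sub (h3 i) (g3 i)
      simpa using this
    have e3 : IsCoprime ((S * K : ℕ) : ℤ) (D : ℤ) := Nat.isCoprime_iff_coprime.mpr hcop
    have := e3.mul_dvd e1 e2
    exact_mod_cast this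
  have hsum : (T.card : ℝ) = ∑ c ∈ T.image φ, ((T.filter (fun x => φ x = c)).card : ℝ) := by
    rw [Finset.card_eq_sum_card_image φ T]
    push_cast
    rfl
  rw [hsum]
  refine (Finset.sum_le_sum hfib).trans ?_
  rw [Finset.sum_const, nsmul_eq_mul]
  apply mul_le_mul_of_nonneg_right _ hN0
  exact_mod_cast hcls

end Pool.Agent.Y716.Q
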