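import Pool.Agent.Y716.Q.Defs
import Pool.Agent.Y61.PV.Z4
import Pool.Agent.Y61.PV.Z5
import Pool.Agent.Y61.PV.Z6
import Pool.Agent.Y278.Z8.Real
import Pool.Agent.Y67.HP.Final
import Pool.Agent.Y67.HP.Residue
import Pool.Agent.Y350.Z2.Repr

/-!
# Results of the job takers, restated in one place
-/

namespace Pool.Agent.Y716.Q

theorem exists_approx_of_padic {ι : Type*} [Fintype ι] {p : ℕ} [Fact p.Prime] {d : ℕ}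
    (f : MvPolynomial ι ℤ) (hf : f.IsHomogeneous d)
    (h : ∃ x : ι → ℚ_[p], x ≠ 0 ∧ MvPolynomial.aeval x f = 0) (E : ℕ) :
    ∃ (r : ι) (z : ι → ℤ), z r = 1 ∧ (p : ℤ) ^ E ∣ MvPolynomial.eval z f :=
  Pool.Agent.Y61.PV.exists_approx_of_padic f hf h E

theorem box_count_real {ι : Type*} [Fintype ι] [DecidableEq ι] (i₀ : ι) (F : (ι → ℝ) → ℝ)
    (lo hi : ι → ℝ) (M : ℕ) (hM : 1 ≤ M) (hlohi : ∀ i, lo i ≤ hi i) (c : ι → ℤ) (Δ c₁ c₂ : ℝ) (hΔ : 0 ≤ Δ)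
    (hc₁ : 0 < c₁)
    (hslope : ∀ x : ι → ℝ, (∀ i, lo i ≤ x i ∧ x i ≤ hi i) →
      ∀ s t : ℝ, lo i₀ ≤ s → s ≤ t → t ≤ hi i₀ →
      c₁ * (t - s) ≤ F (Function.update x i₀ t) - F (Function.update x i₀ s) ∧
      F (Function.update x i₀ t) - F (Function.update x i₀ s) ≤ c₂ * (t - s))
    (hend : ∀ x : ι → ℝ, (∀ i, lo i ≤ x i ∧ x i ≤ hi i) →
      F (Function.update x i₀ (lo i₀)) ≤ -Δ ∧ Δ ≤ F (Function.update x i₀ (hi i₀)))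
    (X : Finset (ι → ℤ))
    (hX : ∀ x, x ∈ X ↔ (∀ i, (M : ℤ) ∣ x i - c i) ∧ (∀ i, lo i ≤ x i ∧ (x i : ℝ) ≤ hi i) ∧
      |F (fun i => (x i : ℝ))| ≤ Δ) :
    (X.card : ℝ) ≤ (∏ i ∈ Finset.univ.erase i₀, ((hi i - lo i) / M + 1)) * (2 * Δ / (c₁ * M) + 1) ∧
    ((∀ i, (M : ℝ) ≤ hi i - lo i) →
      (∏ i ∈ Finset.univ.erase i₀, ((hi i - lo i) / M - 1)) * (2 * Δ / (c₂ * M) - 1) ≤ X.card) :=
  Pool.Agent.Y61.PV.box_count_real i₀ F lo hi M hM hlohi c Δ c₁ c₂ hΔ hc₁ hslope hend X hX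

theorem form_bounds {ι : Type*} [Fintype ι] (d : ℕ) : ∃ C : ℝ, 1 ≤ C ∧ ∀ (f : MvPolynomial ι ℤ) (R : ℝ),
    f.IsHomogeneous d → (∀ m, |((f.coeff m : ℤ) : ℝ)| ≤ R) → ∀ (B : ℝ), 0 ≤ B →
    (∀ x : ι → ℝ, (∀ i, |x i| ≤ B) → |MvPolynomial.aeval x f| ≤ C * R * B ^ d) ∧
    (∀ (x y : ι → ℝ) (δ : ℝ), 0 ≤ δ → (∀ i, |x i| ≤ B) → (∀ i, |y i| ≤ B) → (∀ i, |x i - y i| ≤ δ) →
      |MvPolynomial.aeval x f - MvPolynomial.aeval y f| ≤ C * R * B ^ (d - 1) * δ) :=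
  Pool.Agent.Y61.PV.form_bounds d

theorem slope_of_pderiv {ι : Type*} [Fintype ι] [DecidableEq ι] (f : MvPolynomial ι ℤ) (i₀ : ι)
    (x : ι → ℝ) (s t c₁ c₂ : ℝ) (hst : s ≤ t)
    (h : ∀ τ, s ≤ τ → τ ≤ t →
      c₁ ≤ MvPolynomial.aeval (Function.update x i₀ τ) (MvPolynomial.pderiv i₀ f) ∧
      MvPolynomial.aeval (Function.update x i₀ τ) (MvPolynomial.pderiv i₀ f) ≤ c₂) :
    c₁ * (t - s) ≤ MvPolynomial.aeval (Function.update x i₀ t) f -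
        MvPolynomial.aeval (Function.update x i₀ s) f ∧
      MvPolynomial.aeval (Function.update x i₀ t) f -
        MvPolynomial.aeval (Function.update x i₀ s) f ≤ c₂ * (t - s) :=
  Pool.Agent.Y61.PV.slope_of_pderiv f i₀ x s t c₁ c₂ hst h

theorem tail_sum_int {ι : Type*} [Fintype ι] (hk : 4 ≤ Fintype.card ι) :
    ∃ C : ℝ, 0 < C ∧ ∀ (B T : ℝ), 1 ≤ B → 1 ≤ T →
      ∀ (Tl : Finset ((ι → ℤ) × (ι → ℤ))) (τ : (ι → ℤ) × (ι → ℤ) → ℝ),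
      (∀ p ∈ Tl, (∀ i, |(p.1 i : ℝ)| ≤ B) ∧ (∀ i, |(p.2 i : ℝ)| ≤ B) ∧
        (∃ i j, p.1 i * p.2 j - p.1 j * p.2 i ≠ 0) ∧ T < τ p ∧
        ∃ (g : ℤ) (μ : ℝ), (∀ i j, g ∣ p.1 i * p.2 j - p.1 j * p.2 i) ∧
          (∀ i j, |((p.1 i * p.2 j - p.1 j * p.2 i : ℤ) : ℝ)| ≤ μ) ∧
          τ p * μ ≤ B ^ 2 * |(g : ℝ)|) →
      ∑ p ∈ Tl, τ p ≤ C * B ^ (2 * Fintype.card ι) / Real.sqrt T :=
  Pool.Agent.Y67.HP.tail_sum_int hk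

theorem unbal_count_int {ι : Type*} [Fintype ι] (hk : 2 ≤ Fintype.card ι) :
    ∃ C : ℝ, 0 < C ∧ ∀ (B Δ : ℝ), 1 ≤ Δ → Δ ≤ B → ∀ U : Finset (ι → ℤ),
      (∀ x ∈ U, (∀ i, |(x i : ℝ)| ≤ B) ∧ ∃ z : ι → ℤ, (∀ i, |(z i : ℝ)| ≤ B) ∧
        (∃ i j, x i * z j - x j * z i ≠ 0) ∧
        ∀ i j, |((x i * z j - x j * z i : ℤ) : ℝ)| ≤ Δ) →
      (U.card : ℝ) ≤ C * B ^ 2 * Δ ^ (Fintype.card ι - 1) * (1 + Real.log Δ) :=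
  Pool.Agent.Y67.HP.unbal_count_int hk

section
variable {ι : Type*} [Fintype ι]

open scoped Classical in
theorem bad_count_int (e Q : ℕ) (hQ : 1 ≤ Q) (R : ℝ) (hR : 0 ≤ R) :
    ((formsZ ι (e + 2) R).filter (fun f => ∃ (r : ι) (x : ι → ℤ), x r = 1 ∧
      (Q : ℤ) ∣ MvPolynomial.eval x f ∧
      ∀ i, (Q : ℤ) ∣ MvPolynomial.eval x (MvPolynomial.pderiv i f))).card * Q ≤
    Fintype.card ι * (formsZ ι (e + 2) (R + Q)).card :=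
  Pool.Agent.Y278.Z8.bad_count_int e Q hQ R hR

open scoped Classical in
theorem bad_count_real (e : ℕ) : ∃ C : ℝ, 0 < C ∧ ∀ (γ R : ℝ), 0 < γ → γ ≤ 1 → 1 ≤ γ ^ 2 * R →
    (((formsZ ι (e + 2) R).filter (fun f => ∃ (r : ι) (ξ : ι → ℝ), ξ r = 1 ∧ (∀ i, |ξ i| ≤ 1) ∧
      |MvPolynomial.aeval ξ f| ≤ γ ^ 2 * R ∧
      ∀ i, |MvPolynomial.aeval ξ (MvPolynomial.pderiv i f)| ≤ γ * R)).card : ℝ) ≤
    C * γ ^ 2 * (formsZ ι (e + 2) (2 * R)).card :=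
  Pool.Agent.Y278.Z8.bad_count_real e


end

end Pool.Agent.Y716.Q
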