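import Pool.Agent.Y716.Q.Basic
import Pool.Agent.Y716.Q.Ext

/-!
# Real analysis for the forms of a class
-/

namespace Pool.Agent.Y716.Q

variable {ι : Type*} [Fintype ι]

theorem IsF.pderiv {d : ℕ} {R : ℝ} {f : MvPolynomial ι ℤ} (hf : IsF (d + 1) R f) (i : ι) :
    IsF d ((d + 1) * R) (MvPolynomial.pderiv i f) := by
  classical
  have hR := hf.nonneg
  refine ⟨?_, fun m => ?_⟩
  · have := hf.1.pderiv (i := i)
    simpa using this
  · rw [MvPolynomial.coeff_pderiv]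
    by_cases h0 : f.coeff (m + Finsupp.single i 1) = 0
    · rw [h0, zero_mul]
      simp only [Int.cast_zero, abs_zero]
      positivity
    · have h1 := homog_sum_eq hf.1 h0
      have h2 : m i + 1 ≤ d + 1 := by
        rw [← h1]
        obtain ⟨n, hn⟩ : ∃ n : ι →₀ ℕ, m + Finsupp.single i 1 = n := ⟨_, rfl⟩
        have h4 : n i = m i + 1 := by rw [← hn]; simp
        rw [hn, ← h4]
        exact Finset.single_le_sum (f := fun j => n j) (fun _ _ => Nat.zero_le _)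
          (Finset.mem_univ i)
      push_cast
      rw [abs_mul]
      have h3 : |((m i : ℝ) + 1)| = (m i : ℝ) + 1 := abs_of_nonneg (by positivity)
      rw [h3, mul_comm]
      have h4 : (m i : ℝ) + 1 ≤ d + 1 := by exact_mod_cast h2
      exact mul_le_mul h4 (hf.2 _) (abs_nonneg _) (by positivity)

/-- the real data of a class -/
structure RData (e : ℕ) (H γ η : ℝ) (fc : MvPolynomial ι ℤ) (ξ : ι → ℝ) (i₀ : ι) : Prop where
  hform : IsF (e + 2) (2 * H) fc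
  hξ : ∀ i, |ξ i| ≤ 1
  hξr : ∃ r, ξ r = 1
  hfξ : |MvPolynomial.aeval ξ fc| ≤ (mons ι (e + 2)).card * (η * H)
  hgξ : γ * H ≤ |MvPolynomial.aeval ξ (MvPolynomial.pderiv i₀ fc)|

open scoped Classical in
/-- half-widths of the box -/
noncomputable def wd (i₀ : ι) (ρ ρ' : ℝ) (i : ι) : ℝ := if i = i₀ then ρ' else ρ

/-- the real box -/
def InBox (P : ℝ) (ξ : ι → ℝ) (i₀ : ι) (ρ ρ' : ℝ) (x : ι → ℝ) : Prop :=
  ∀ i, P * (ξ i - wd i₀ ρ ρ' i) ≤ x i ∧ x i ≤ P * (ξ i + wd i₀ ρ ρ' i)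

theorem aeval_smul_form {d : ℕ} {f : MvPolynomial ι ℤ} (hf : f.IsHomogeneous d) (c : ℝ)
    (x : ι → ℝ) : MvPolynomial.aeval (fun i => c * x i) f = c ^ d * MvPolynomial.aeval x f := by
  rw [MvPolynomial.aeval_def, MvPolynomial.aeval_def, MvPolynomial.eval₂_eq',
    MvPolynomial.eval₂_eq', Finset.mul_sum]
  refine Finset.sum_congr rfl (fun m hm => ?_)
  have h1 : ∑ i, m i = d := homog_sum_eq hf (MvPolynomial.mem_support_iff.mp hm)
  have h2 : ∏ i, (c * x i) ^ m i = c ^ d * ∏ i, x i ^ m i := by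
    simp only [mul_pow]
    rw [Finset.prod_mul_distrib, Finset.prod_pow_eq_pow_sum, h1]
  rw [h2]; ring

open scoped Classical in
/-- slope and end conditions for a form on the real box -/
def SlopeCond (σ c₁ c₂ Δ P : ℝ) (ξ : ι → ℝ) (i₀ : ι) (ρ ρ' : ℝ) (f : MvPolynomial ι ℤ) : Prop :=
  ∀ x : ι → ℝ, InBox P ξ i₀ ρ ρ' x →
    (∀ s t : ℝ, P * (ξ i₀ - ρ') ≤ s → s ≤ t → t ≤ P * (ξ i₀ + ρ') →
      c₁ * (t - s) ≤ σ * MvPolynomial.aeval (Function.update x i₀ t) f -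
          σ * MvPolynomial.aeval (Function.update x i₀ s) f ∧
      σ * MvPolynomial.aeval (Function.update x i₀ t) f -
          σ * MvPolynomial.aeval (Function.update x i₀ s) f ≤ c₂ * (t - s)) ∧
    (σ * MvPolynomial.aeval (Function.update x i₀ (P * (ξ i₀ - ρ'))) f ≤ -Δ ∧
      Δ ≤ σ * MvPolynomial.aeval (Function.update x i₀ (P * (ξ i₀ + ρ'))) f)

theorem rc_box2 {P ξ d x : ℝ} (hP : 0 < P) (hξ : |ξ| ≤ 1) (hd1 : d ≤ 1)
    (h1 : P * (ξ - d) ≤ x) (h2 : x ≤ P * (ξ + d)) : |x| ≤ 2 * P := by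
  have h3 := abs_le.mp hξ
  have h4 := mul_le_mul_of_nonneg_left hd1 hP.le
  have h5 := mul_le_mul_of_nonneg_left h3.1 hP.le
  have h6 := mul_le_mul_of_nonneg_left h3.2 hP.le
  rw [mul_sub] at h1
  rw [mul_add] at h2
  rw [abs_le]
  constructor <;> linarith

theorem rc_abs {P ξ : ℝ} (hP : 0 < P) (hξ : |ξ| ≤ 1) : |P * ξ| ≤ 2 * P := by
  rw [abs_mul, abs_of_pos hP]
  have := mul_le_mul_of_nonneg_left hξ hP.le
  linarith

theorem rc_center {P ξ d : ℝ} (hP : 0 < P) (hd : 0 ≤ d) :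
    P * (ξ - d) ≤ P * ξ ∧ P * ξ ≤ P * (ξ + d) := by
  have h4 := mul_nonneg hP.le hd
  rw [mul_sub, mul_add]
  constructor <;> linarith

theorem rc_cl {P ξ d x ρ : ℝ} (hP : 0 < P) (hd1 : d ≤ ρ)
    (h1 : P * (ξ - d) ≤ x) (h2 : x ≤ P * (ξ + d)) : |x - P * ξ| ≤ ρ * P := by
  have h4 := mul_le_mul_of_nonneg_left hd1 hP.le
  rw [mul_sub] at h1
  rw [mul_add] at h2
  rw [abs_le]
  constructor <;> linarith

theorem rc_half {θ γ H P D ρ' Q : ℝ} (hθ1 : θ ≤ 1 / 2) (hD : 0 ≤ D)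
    (hDlow : γ * H * Q ≤ D) (hPρ : 0 ≤ P * ρ') :
    (1 / 2) * (γ * H * Q) * (P * ρ') ≤ ((1 - θ) * D) * (P * ρ') := by
  apply mul_le_mul_of_nonneg_right _ hPρ
  have h1 : (1 / 2) * D ≤ (1 - θ) * D := mul_le_mul_of_nonneg_right (by linarith) hD
  linarith

theorem rc_coef {a M C₂ ρ η X : ℝ} (ha : 0 ≤ a) (hM : 0 ≤ M) (hC : 0 ≤ C₂) (hρ : 0 ≤ ρ)
    (hη : 0 ≤ η) (hX : 0 ≤ X) :
    (a * ρ + (M + C₂ + 1) * η) * X ≤ (a + M + C₂ + 1) * (ρ + η) * X := by
  apply mul_le_mul_of_nonneg_right _ hX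
  have h1 := mul_nonneg ha hη
  have h2 : 0 ≤ (M + C₂ + 1) * ρ := by positivity
  linarith

/-- Slopes and end values for all the forms of a class. -/
theorem real_class (ι : Type*) [Fintype ι] (e : ℕ) : ∃ C : ℝ, 1 ≤ C ∧
    ∀ (H γ η θ ρ ρ' P : ℝ) (fc : MvPolynomial ι ℤ)
    (ξ : ι → ℝ) (i₀ : ι), RData e H γ η fc ξ i₀ → 0 < H → 0 < γ → 0 < η → η ≤ 1 → 0 < θ →
    θ ≤ 1 / 2 → 0 < ρ → ρ ≤ ρ' → ρ' ≤ 1 → 0 < P → C * (ρ' + η) ≤ θ * γ → C * (ρ + η) ≤ γ * ρ' →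
    ∃ σ : ℝ, |σ| = 1 ∧ ∀ h : MvPolynomial ι ℤ, IsF (e + 2) (η * H) h →
      SlopeCond σ ((1 - θ) * (|MvPolynomial.aeval ξ (MvPolynomial.pderiv i₀ fc)| * P ^ (e + 1)))
        ((1 + θ) * (|MvPolynomial.aeval ξ (MvPolynomial.pderiv i₀ fc)| * P ^ (e + 1)))
        (η * H * P ^ (e + 2)) P ξ i₀ ρ ρ' (fc + h) := by
  classical
  obtain ⟨C₁, hC₁1, hC₁⟩ := form_bounds (ι := ι) (e + 1)
  obtain ⟨C₂, hC₂1, hC₂⟩ := form_bounds (ι := ι) (e + 2)
  obtain ⟨M, hM⟩ : ∃ M : ℝ, ((mons ι (e + 2)).card : ℝ) = M := ⟨_, rfl⟩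
  have hM0 : 0 ≤ M := by rw [← hM]; positivity
  refine ⟨C₁ * (e + 2) * 2 ^ (e + 1) + 2 * (3 * C₂ * 2 ^ (e + 1) + M + C₂ + 1), ?_, ?_⟩
  · have : 0 ≤ C₁ * (e + 2) * 2 ^ (e + 1) := by positivity
    have : 0 ≤ 3 * C₂ * 2 ^ (e + 1) := by positivity
    linarith
  intro H γ η θ ρ ρ' P fc ξ i₀ hR hH hγ hη hη1 hθ hθ1 hρ hρρ' hρ'1 hP hc1 hc2
  obtain ⟨hform, hξ, hξr, hfξ, hgξ⟩ := hR
  rw [hM] at hfξ
  have hρ'0 : 0 < ρ' := lt_of_lt_of_le hρ hρρ'
  obtain ⟨g₀, hg₀⟩ : ∃ g₀ : ℝ, MvPolynomial.aeval ξ (MvPolynomial.pderiv i₀ fc) = g₀ := ⟨_, rfl⟩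
  rw [hg₀] at hgξ ⊢
  have hg₀pos : 0 < |g₀| := lt_of_lt_of_le (by positivity) hgξ
  obtain ⟨D, hD⟩ : ∃ D : ℝ, |g₀| * P ^ (e + 1) = D := ⟨_, rfl⟩
  rw [hD]
  have hDpos : 0 < D := by rw [← hD]; positivity
  have hDlow : γ * H * P ^ (e + 1) ≤ D := by
    rw [← hD]; exact mul_le_mul_of_nonneg_right hgξ (by positivity)
  -- sign
  obtain ⟨σ, hσ, hσg⟩ : ∃ σ : ℝ, (σ = 1 ∨ σ = -1) ∧ σ * g₀ = |g₀| := by
    by_cases h : 0 ≤ g₀
    · exact ⟨1, Or.inl rfl, by rw [one_mul, abs_of_nonneg h]⟩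
    · exact ⟨-1, Or.inr rfl, by rw [abs_of_neg (not_le.mp h)]; ring⟩
  have hσ1 : |σ| = 1 := by
    rcases hσ with h | h <;> rw [h] <;> norm_num
  refine ⟨σ, hσ1, ?_⟩
  intro h hh
  set f := fc + h with hf
  have hwd : ∀ i, 0 ≤ wd i₀ ρ ρ' i ∧ wd i₀ ρ ρ' i ≤ ρ' := by
    intro i
    unfold wd
    split_ifs
    · exact ⟨hρ'0.le, le_rfl⟩
    · exact ⟨hρ.le, hρρ'⟩
  have hbox2 : ∀ x, InBox P ξ i₀ ρ ρ' x → ∀ i, |x i| ≤ 2 * P := by
    intro x hx i
    exact rc_box2 hP (hξ i) ((hwd i).2.trans hρ'1) (hx i).1 (hx i).2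
  have hPξ2 : ∀ i, |P * ξ i| ≤ 2 * P := fun i => rc_abs hP (hξ i)
  have hcenter : InBox P ξ i₀ ρ ρ' (fun i => P * ξ i) := fun i => rc_center hP (hwd i).1
  have hcl : ∀ x, InBox P ξ i₀ ρ ρ' x → ∀ i, |x i - P * ξ i| ≤ ρ' * P := by
    intro x hx i
    exact rc_cl hP (hwd i).2 (hx i).1 (hx i).2
  -- derivative
  have hder : ∀ x, InBox P ξ i₀ ρ ρ' x →
      (1 - θ) * D ≤ σ * MvPolynomial.aeval x (MvPolynomial.pderiv i₀ f) ∧
      σ * MvPolynomial.aeval x (MvPolynomial.pderiv i₀ f) ≤ (1 + θ) * D := by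
    intro x hx
    have h1 := (hC₁ _ _ (hform.pderiv i₀).1 (hform.pderiv i₀).2 (2 * P) (by positivity)).2 x
      (fun i => P * ξ i) (ρ' * P) (by positivity) (hbox2 x hx) hPξ2 (hcl x hx)
    have h2 := (hC₁ _ _ (hh.pderiv i₀).1 (hh.pderiv i₀).2 (2 * P) (by positivity)).1 x (hbox2 x hx)
    rw [aeval_smul_form (hform.pderiv i₀).1, hg₀] at h1
    have h3 : MvPolynomial.aeval x (MvPolynomial.pderiv i₀ f) =
        MvPolynomial.aeval x (MvPolynomial.pderiv i₀ fc) +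
        MvPolynomial.aeval x (MvPolynomial.pderiv i₀ h) := by
      rw [hf, map_add, map_add]
    have h4 : |σ * MvPolynomial.aeval x (MvPolynomial.pderiv i₀ f) - D| ≤ θ * D := by
      have h5 : σ * MvPolynomial.aeval x (MvPolynomial.pderiv i₀ f) - D =
          σ * ((MvPolynomial.aeval x (MvPolynomial.pderiv i₀ fc) - P ^ (e + 1) * g₀) +
          MvPolynomial.aeval x (MvPolynomial.pderiv i₀ h)) := by
        rw [h3, ← hD, ← hσg]; ring
      rw [h5, abs_mul, hσ1, one_mul]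
      refine (abs_add_le _ _).trans ((add_le_add h1 h2).trans ?_)
      have h6 : C₁ * (e + 2) * 2 ^ (e + 1) * (ρ' + η) ≤ θ * γ := by
        refine le_trans ?_ hc1
        apply mul_le_mul_of_nonneg_right _ (by positivity)
        have : 0 ≤ 3 * C₂ * 2 ^ (e + 1) := by positivity
        linarith
      have h7 := mul_le_mul_of_nonneg_right h6 (by positivity : 0 ≤ H * P ^ (e + 1))
      have h8 : θ * γ * (H * P ^ (e + 1)) ≤ θ * D := by
        have := mul_le_mul_of_nonneg_left hDlow hθ.le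
        linarith
      refine le_trans (le_of_eq ?_) (h7.trans h8)
      rw [Nat.add_sub_cancel]
      push_cast
      rw [mul_pow, mul_pow, pow_succ, pow_succ]
      ring
    have h5 := abs_le.mp h4
    constructor
    · linarith [h5.1]
    · linarith [h5.2]
  have hupd : ∀ x, InBox P ξ i₀ ρ ρ' x → ∀ τ, P * (ξ i₀ - ρ') ≤ τ → τ ≤ P * (ξ i₀ + ρ') →
      InBox P ξ i₀ ρ ρ' (Function.update x i₀ τ) := by
    intro x hx τ h1 h2 i
    by_cases hi : i = i₀
    · subst hi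
      rw [Function.update_self]
      unfold wd
      rw [if_pos rfl]
      exact ⟨h1, h2⟩
    · rw [Function.update_of_ne hi]
      exact hx i
  have hslope : ∀ x, InBox P ξ i₀ ρ ρ' x → ∀ s t : ℝ, P * (ξ i₀ - ρ') ≤ s → s ≤ t →
      t ≤ P * (ξ i₀ + ρ') → ((1 - θ) * D) * (t - s) ≤
          σ * MvPolynomial.aeval (Function.update x i₀ t) f -
          σ * MvPolynomial.aeval (Function.update x i₀ s) f ∧
        σ * MvPolynomial.aeval (Function.update x i₀ t) f -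
          σ * MvPolynomial.aeval (Function.update x i₀ s) f ≤ ((1 + θ) * D) * (t - s) := by
    intro x hx s t hs hst ht
    rcases hσ with h1 | h1
    · have := slope_of_pderiv f i₀ x s t ((1 - θ) * D) ((1 + θ) * D) hst (by
        intro τ h2 h3
        have := hder _ (hupd x hx τ (hs.trans h2) (h3.trans ht))
        rw [h1, one_mul] at this
        exact this)
      rw [h1, one_mul, one_mul]
      exact this
    · have := slope_of_pderiv f i₀ x s t (-((1 + θ) * D)) (-((1 - θ) * D)) hst (by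
        intro τ h2 h3
        have := hder _ (hupd x hx τ (hs.trans h2) (h3.trans ht))
        rw [h1] at this
        constructor <;> linarith [this.1, this.2])
      rw [h1]
      constructor <;> linarith [this.1, this.2]
  intro x hx
  refine ⟨hslope x hx, ?_⟩
  -- end values
  have hηH : η * H ≤ H := mul_le_of_le_one_left hH.le hη1
  have hff : IsF (e + 2) (3 * H) f := (hform.add hh).mono (by linarith)
  have hξPf : |MvPolynomial.aeval (fun i => P * ξ i) f| ≤ (M + C₂) * (η * H) * P ^ (e + 2) := by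
    rw [aeval_smul_form hff.1, abs_mul, abs_of_pos (by positivity), hf, map_add]
    have h1 := (hC₂ _ _ hh.1 hh.2 1 (by norm_num)).1 ξ hξ
    rw [one_pow, mul_one] at h1
    have h2 := (abs_add_le (MvPolynomial.aeval ξ fc) (MvPolynomial.aeval ξ h)).trans
      (add_le_add hfξ h1)
    have h3 := mul_le_mul_of_nonneg_left h2 (by positivity : 0 ≤ P ^ (e + 2))
    refine h3.trans (le_of_eq ?_)
    ring
  have hlip : ∀ τ, P * (ξ i₀ - ρ') ≤ τ → τ ≤ P * (ξ i₀ + ρ') →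
      |MvPolynomial.aeval (Function.update x i₀ τ) f -
        MvPolynomial.aeval (Function.update (fun i => P * ξ i) i₀ τ) f| ≤
      C₂ * (3 * H) * (2 * P) ^ (e + 1) * (ρ * P) := by
    intro τ h1 h2
    have := (hC₂ _ _ hff.1 hff.2 (2 * P) (by positivity)).2 (Function.update x i₀ τ)
      (Function.update (fun i => P * ξ i) i₀ τ) (ρ * P) (by positivity)
      (hbox2 _ (hupd x hx τ h1 h2)) (hbox2 _ (hupd _ hcenter τ h1 h2)) (by
        intro i
        by_cases hi : i = i₀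
        · subst hi
          rw [Function.update_self, Function.update_self, sub_self, abs_zero]
          positivity
        · rw [Function.update_of_ne hi, Function.update_of_ne hi]
          have h3 := hx i
          unfold wd at h3
          rw [if_neg hi] at h3
          exact rc_cl hP le_rfl h3.1 h3.2)
    simpa using this
  have hself : Function.update (fun i => P * ξ i) i₀ (P * ξ i₀) = fun i => P * ξ i :=
    Function.update_eq_self i₀ _
  have hc2' : 2 * (3 * C₂ * 2 ^ (e + 1) + M + C₂ + 1) * (ρ + η) ≤ γ * ρ' := by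
    refine le_trans ?_ hc2
    apply mul_le_mul_of_nonneg_right _ (by positivity)
    have : 0 ≤ C₁ * (e + 2) * 2 ^ (e + 1) := by positivity
    linarith
  have hPe : 0 < P ^ (e + 1) := by positivity
  -- main inequality
  have hmain : C₂ * (3 * H) * (2 * P) ^ (e + 1) * (ρ * P) + (M + C₂) * (η * H) * P ^ (e + 2) +
      η * H * P ^ (e + 2) ≤ ((1 - θ) * D) * (P * ρ') := by
    have h1 : (1 / 2) * (γ * H * P ^ (e + 1)) * (P * ρ') ≤ ((1 - θ) * D) * (P * ρ') :=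
      rc_half hθ1 hDpos.le hDlow (by positivity)
    refine le_trans ?_ h1
    have h2 : (3 * C₂ * 2 ^ (e + 1) + M + C₂ + 1) * (ρ + η) ≤ (1 / 2) * (γ * ρ') := by linarith
    have h3 := mul_le_mul_of_nonneg_right h2 (by positivity : 0 ≤ H * P ^ (e + 2))
    have h4 : C₂ * (3 * H) * (2 * P) ^ (e + 1) * (ρ * P) =
        3 * C₂ * 2 ^ (e + 1) * ρ * (H * P ^ (e + 2)) := by
      rw [mul_pow, pow_succ P (e + 1)]; ring
    have h5 : (3 * C₂ * 2 ^ (e + 1) * ρ + (M + C₂ + 1) * η) * (H * P ^ (e + 2)) ≤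
        (3 * C₂ * 2 ^ (e + 1) + M + C₂ + 1) * (ρ + η) * (H * P ^ (e + 2)) :=
      rc_coef (by positivity) hM0 (by linarith) hρ.le hη.le (by positivity)
    have h6 : (1 / 2) * (γ * H * P ^ (e + 1)) * (P * ρ') = 1 / 2 * (γ * ρ') * (H * P ^ (e + 2)) := by
      rw [pow_succ P (e + 1)]; ring
    rw [h4, h6]
    refine le_trans (le_of_eq ?_) (h5.trans h3)
    ring
  have hc0 := rc_center (ξ := ξ i₀) hP hρ'0.le
  constructor
  · have h1 := hlip (P * (ξ i₀ - ρ')) le_rfl (hc0.1.trans hc0.2)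
    have h2 := (hslope _ hcenter (P * (ξ i₀ - ρ')) (P * ξ i₀) le_rfl hc0.1 hc0.2).1
    rw [hself] at h2
    have h3 : P * ξ i₀ - P * (ξ i₀ - ρ') = P * ρ' := by ring
    rw [h3] at h2
    have h4 : |σ * MvPolynomial.aeval (fun i => P * ξ i) f| ≤
        (M + C₂) * (η * H) * P ^ (e + 2) := by rw [abs_mul, hσ1, one_mul]; exact hξPf
    have h5 : |σ * MvPolynomial.aeval (Function.update x i₀ (P * (ξ i₀ - ρ'))) f -
        σ * MvPolynomial.aeval (Function.update (fun i => P * ξ i) i₀ (P * (ξ i₀ - ρ'))) f| ≤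
        C₂ * (3 * H) * (2 * P) ^ (e + 1) * (ρ * P) := by
      rw [← mul_sub, abs_mul, hσ1, one_mul]; exact h1
    have h6 := (abs_le.mp h4).2
    have h7 := (abs_le.mp h5).2
    linarith
  · have h1 := hlip (P * (ξ i₀ + ρ')) (hc0.1.trans hc0.2) le_rfl
    have h2 := (hslope _ hcenter (P * ξ i₀) (P * (ξ i₀ + ρ')) hc0.1 hc0.2 le_rfl).1
    rw [hself] at h2
    have h3 : P * (ξ i₀ + ρ') - P * ξ i₀ = P * ρ' := by ring
    rw [h3] at h2
    have h4 : |σ * MvPolynomial.aeval (fun i => P * ξ i) f| ≤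
        (M + C₂) * (η * H) * P ^ (e + 2) := by rw [abs_mul, hσ1, one_mul]; exact hξPf
    have h5 : |σ * MvPolynomial.aeval (Function.update x i₀ (P * (ξ i₀ + ρ'))) f -
        σ * MvPolynomial.aeval (Function.update (fun i => P * ξ i) i₀ (P * (ξ i₀ + ρ'))) f| ≤
        C₂ * (3 * H) * (2 * P) ^ (e + 1) * (ρ * P) := by
      rw [← mul_sub, abs_mul, hσ1, one_mul]; exact h1
    have h6 := (abs_le.mp h4).1
    have h7 := (abs_le.mp h5).1
    linarith

end Pool.Agent.Y716.Q
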