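import Pool.Agent.Y716.Q.Defs

/-!
# Balanced integer vectors, the one-point lemma, generation of the orthogonal lattice
-/

namespace Pool.Agent.Y716.Q

variable {ι : Type*}

namespace IsF

theorem zero {d : ℕ} {R : ℝ} (hR : 0 ≤ R) : IsF d R (0 : MvPolynomial ι ℤ) := by
  refine ⟨MvPolynomial.isHomogeneous_zero _ _ _, fun m => ?_⟩
  simpa using hR

theorem add {d : ℕ} {R R' : ℝ} {f g : MvPolynomial ι ℤ} (hf : IsF d R f) (hg : IsF d R' g) :
    IsF d (R + R') (f + g) := by
  refine ⟨hf.1.add hg.1, fun m => ?_⟩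
  rw [MvPolynomial.coeff_add]
  push_cast
  exact (abs_add_le _ _).trans (add_le_add (hf.2 m) (hg.2 m))

theorem neg {d : ℕ} {R : ℝ} {f : MvPolynomial ι ℤ} (hf : IsF d R f) : IsF d R (-f) := by
  refine ⟨hf.1.neg, fun m => ?_⟩
  rw [MvPolynomial.coeff_neg]
  push_cast
  rw [abs_neg]
  exact hf.2 m

theorem sub {d : ℕ} {R R' : ℝ} {f g : MvPolynomial ι ℤ} (hf : IsF d R f) (hg : IsF d R' g) :
    IsF d (R + R') (f - g) := by
  rw [sub_eq_add_neg]
  exact hf.add hg.neg

theorem mono {d : ℕ} {R R' : ℝ} {f : MvPolynomial ι ℤ} (hf : IsF d R f) (h : R ≤ R') :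
    IsF d R' f := ⟨hf.1, fun m => (hf.2 m).trans h⟩

theorem nonneg {d : ℕ} {R : ℝ} {f : MvPolynomial ι ℤ} (hf : IsF d R f) : 0 ≤ R :=
  (abs_nonneg _).trans (hf.2 0)

theorem sum {κ : Type*} {d : ℕ} (s : Finset κ) (f : κ → MvPolynomial ι ℤ) (R : κ → ℝ)
    (hf : ∀ i ∈ s, IsF d (R i) (f i)) : IsF d (∑ i ∈ s, R i) (∑ i ∈ s, f i) := by
  classical
  induction s using Finset.induction_on with
  | empty => simpa using zero le_rfl
  | insert a s ha ih =>
    rw [Finset.sum_insert ha, Finset.sum_insert ha]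
    exact (hf a (Finset.mem_insert_self a s)).add
      (ih (fun i hi => hf i (Finset.mem_insert_of_mem hi)))

theorem C_mul {d : ℕ} {R : ℝ} {f : MvPolynomial ι ℤ} (c : ℤ) (hf : IsF d R f) :
    IsF d (|(c : ℝ)| * R) (MvPolynomial.C c * f) := by
  refine ⟨?_, fun m => ?_⟩
  · have := (MvPolynomial.isHomogeneous_C ι c).mul hf.1
    rwa [zero_add] at this
  · rw [MvPolynomial.coeff_C_mul]
    push_cast
    rw [abs_mul]
    exact mul_le_mul_of_nonneg_left (hf.2 m) (abs_nonneg _)

theorem mul_X {d : ℕ} {R : ℝ} {f : MvPolynomial ι ℤ} (hf : IsF d R f) (i : ι) :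
    IsF (d + 1) R (f * MvPolynomial.X i) := by
  classical
  refine ⟨hf.1.mul (MvPolynomial.isHomogeneous_X _ _), fun m => ?_⟩
  rw [MvPolynomial.coeff_mul_X']
  split_ifs
  · exact hf.2 _
  · simpa using hf.nonneg

end IsF

section lin
variable [Fintype ι]

/-- The linear form with coefficient vector `l`. -/
noncomputable def lin (l : ι → ℤ) : MvPolynomial ι ℤ :=
  ∑ i, MvPolynomial.C (l i) * MvPolynomial.X i

theorem eval_lin (l x : ι → ℤ) : MvPolynomial.eval x (lin l) = ∑ i, l i * x i := by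
  simp [lin, map_sum]

theorem lin_isF (l : ι → ℤ) {R : ℝ} (hR : 0 ≤ R) (h : ∀ i, |(l i : ℝ)| ≤ R) :
    IsF 1 R (lin l) := by
  classical
  refine ⟨?_, fun m => ?_⟩
  · unfold lin
    apply MvPolynomial.IsHomogeneous.sum
    intro i _
    have := (MvPolynomial.isHomogeneous_C ι (l i)).mul (MvPolynomial.isHomogeneous_X ℤ i)
    simpa using this
  · unfold lin
    rw [MvPolynomial.coeff_sum]
    simp only [MvPolynomial.coeff_C_mul, MvPolynomial.coeff_X', mul_ite, mul_one, mul_zero]
    by_cases hm : ∃ i, Finsupp.single i 1 = m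
    · obtain ⟨i, hi⟩ := hm
      rw [Finset.sum_eq_single i]
      · rw [if_pos hi]; exact h i
      · intro j _ hj
        rw [if_neg]
        intro h'
        apply hj
        rw [← hi] at h'
        exact Finsupp.single_left_injective one_ne_zero h'
      · intro h'; exact absurd (Finset.mem_univ _) h'
    · push Not at hm
      rw [Finset.sum_eq_zero (fun i _ => if_neg (hm i))]
      simpa using hR

theorem lin_mul_isF {d : ℕ} {a R : ℝ} {l : ι → ℤ} (h : ∀ i, |(l i : ℝ)| ≤ a) (ha : 0 ≤ a)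
    {f : MvPolynomial ι ℤ} (hf : IsF d R f) :
    IsF (d + 1) (Fintype.card ι * (a * R)) (lin l * f) := by
  have h1 : lin l * f = ∑ i, MvPolynomial.C (l i) * (f * MvPolynomial.X i) := by
    unfold lin
    rw [Finset.sum_mul]
    refine Finset.sum_congr rfl (fun i _ => ?_)
    ring
  rw [h1]
  have h2 := IsF.sum Finset.univ (fun i => MvPolynomial.C (l i) * (f * MvPolynomial.X i))
    (fun _ => a * R) (fun i _ => ((hf.mul_X i).C_mul (l i)).mono
      (mul_le_mul_of_nonneg_right (h i) hf.nonneg))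
  rwa [Finset.sum_const, Finset.card_univ, nsmul_eq_mul] at h2

/-- Vectors of size comparable to `B`. -/
def Sz (B : ℝ) (x : ι → ℤ) : Prop := (∀ i, |(x i : ℝ)| ≤ B) ∧ ∃ i, B / 4 ≤ |(x i : ℝ)|

/-- A vector is primitive if its coordinates have no common factor. -/
def Prim (x : ι → ℤ) : Prop := ∀ D : ℤ, (∀ i, D ∣ x i) → IsUnit D

/-- Balanced vectors: every integer of size `≤ B` is a combination of the coordinates
with coefficients of size `≤ a`. -/
def Bal (B a : ℝ) (x : ι → ℤ) : Prop :=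
  ∀ u : ℤ, |(u : ℝ)| ≤ B → ∃ l : ι → ℤ, (∀ i, |(l i : ℝ)| ≤ a) ∧ ∑ i, l i * x i = u

theorem abs_div_le {u v : ℤ} (hv : v ≠ 0) : |((u / v : ℤ) : ℝ)| ≤ |(u : ℝ)| / |(v : ℝ)| + 1 := by
  have hv' : 0 < |(v : ℝ)| := by positivity
  have h1 := Int.mul_ediv_add_emod u v
  have h2 := Int.emod_nonneg u hv
  have h3 := Int.emod_lt_abs u hv
  have h4 : |(v : ℝ)| * |((u / v : ℤ) : ℝ)| ≤ |(u : ℝ)| + |(v : ℝ)| := by
    rw [← abs_mul]
    have h5 : (v : ℝ) * ((u / v : ℤ) : ℝ) = (u : ℝ) - ((u % v : ℤ) : ℝ) := by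
      have : ((v * (u / v) + u % v : ℤ) : ℝ) = (u : ℝ) := by exact_mod_cast h1
      push_cast at this ⊢
      linarith
    rw [h5]
    refine (abs_sub _ _).trans ?_
    have h6 : |((u % v : ℤ) : ℝ)| ≤ |(v : ℝ)| := by
      have : |u % v| ≤ |v| := by rw [abs_of_nonneg h2]; exact h3.le
      exact_mod_cast this
    linarith
  rw [← sub_le_iff_le_add, le_div_iff₀ hv']
  nlinarith

theorem Bal.lin_onto {B a U : ℝ} {x : ι → ℤ} (hb : Bal B a x) (hx : Sz B x) (hB : 1 ≤ B)
    (haU : a ≤ U) (hU : 1 ≤ U) (u : ℤ) (hu : |(u : ℝ)| ≤ U * B) :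
    ∃ l : ι → ℤ, (∀ i, |(l i : ℝ)| ≤ 6 * U) ∧ ∑ i, l i * x i = u := by
  classical
  obtain ⟨r, hr⟩ := hx.2
  have hr' : 0 < |(x r : ℝ)| := lt_of_lt_of_le (by linarith) hr
  have hr0 : x r ≠ 0 := by
    intro h; rw [h] at hr'; simp at hr'
  obtain ⟨l, hl, hl2⟩ := hb (u % x r) (by
    have h2 := Int.emod_nonneg u hr0
    have h3 := Int.emod_lt_abs u hr0
    have h6 : |((u % x r : ℤ) : ℝ)| ≤ |(x r : ℝ)| := by
      have : |u % x r| ≤ |x r| := by rw [abs_of_nonneg h2]; exact h3.le
      exact_mod_cast this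
    exact h6.trans (hx.1 r))
  refine ⟨fun i => l i + if i = r then u / x r else 0, fun i => ?_, ?_⟩
  · simp only
    split_ifs
    · push_cast
      have h1 := abs_div_le (u := u) hr0
      have h2 : |(u : ℝ)| / |(x r : ℝ)| ≤ 4 * U := by
        rw [div_le_iff₀ hr']
        have : U * B ≤ 4 * U * |(x r : ℝ)| := by nlinarith
        linarith
      have h3 := abs_add_le (l i : ℝ) ((u / x r : ℤ) : ℝ)
      have h4 := hl i
      linarith
    · rw [add_zero]
      exact (hl i).trans (by linarith)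
  · have : ∀ i, (l i + if i = r then u / x r else 0) * x i
        = l i * x i + if i = r then (u / x r) * x r else 0 := by
      intro i
      split_ifs with h
      · subst h; ring
      · ring
    simp only [this]
    rw [Finset.sum_add_distrib, hl2, Finset.sum_ite_eq' Finset.univ r]
    simp only [Finset.mem_univ, if_true]
    rw [mul_comm, add_comm]
    exact Int.mul_ediv_add_emod u (x r)

/-- the constant in the one-point lemma -/
noncomputable def c1pt (k d : ℕ) : ℝ := 6 * (6 * k) ^ d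

theorem c1pt_nonneg (k d : ℕ) : 0 ≤ c1pt k d := by unfold c1pt; positivity

/-- One-point lemma: values of forms of degree `d + 1` at a balanced vector. -/
theorem Bal.onepoint {B a : ℝ} {x : ι → ℤ} (hb : Bal B a x) (hx : Sz B x) (hB : 1 ≤ B) (d : ℕ) :
    ∀ (U : ℝ), a ≤ U → 1 ≤ U → ∀ (u : ℤ), |(u : ℝ)| ≤ U * B ^ (d + 1) →
    ∃ f : MvPolynomial ι ℤ, IsF (d + 1) (c1pt (Fintype.card ι) d * U) f ∧
      MvPolynomial.eval x f = u := by
  induction d with
  | zero =>
    intro U haU hU u hu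
    obtain ⟨l, hl, hl2⟩ := hb.lin_onto hx hB haU hU u (by simpa using hu)
    refine ⟨lin l, lin_isF l ?_ (fun i => ?_), by rw [eval_lin, hl2]⟩
    · unfold c1pt; positivity
    · simpa [c1pt] using hl i
  | succ d ih =>
    intro U haU hU u hu
    have hBd : 1 ≤ B ^ (d + 1) := one_le_pow₀ hB
    obtain ⟨l, hl, hl2⟩ := hb.lin_onto hx hB (U := U * B ^ (d + 1))
      (haU.trans (by nlinarith)) (by nlinarith) u (by
        rw [mul_assoc, ← pow_succ]; exact hu)
    have hl' : ∀ i, ∃ f : MvPolynomial ι ℤ,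
        IsF (d + 1) (c1pt (Fintype.card ι) d * (6 * U)) f ∧ MvPolynomial.eval x f = l i := by
      intro i
      exact ih (6 * U) (by linarith) (by linarith) (l i) (by
        have := hl i
        linarith)
    choose f hf hf2 using hl'
    refine ⟨∑ i, f i * MvPolynomial.X i, ?_, ?_⟩
    · have h2 := IsF.sum Finset.univ (fun i => f i * MvPolynomial.X i)
        (fun _ => c1pt (Fintype.card ι) d * (6 * U)) (fun i _ => (hf i).mul_X i)
      rw [Finset.sum_const, Finset.card_univ, nsmul_eq_mul] at h2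
      refine h2.mono (le_of_eq ?_)
      unfold c1pt; ring
    · rw [map_sum, ← hl2]
      refine Finset.sum_congr rfl (fun i _ => ?_)
      rw [map_mul, hf2, MvPolynomial.eval_X]

/-- Generation of the orthogonal lattice of a balanced vector by short elements. -/
theorem Bal.generation {B a : ℝ} {x : ι → ℤ} (hb : Bal B a x) (hx : Sz B x) (hB : 1 ≤ B)
    (ha : 1 ≤ a) (N : ℕ) (l : ι → ℤ)
    (hl : ∀ i, |(l i : ℝ)| ≤ 2 ^ N * a + 14 * Fintype.card ι * a) (hlx : ∑ i, l i * x i = 0) :
    ∃ L : ℕ → ι → ℤ, (∀ j i, |(L j i : ℝ)| ≤ 15 * Fintype.card ι * a) ∧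
      (∀ j, ∑ i, L j i * x i = 0) ∧
      ∀ i, l i = ∑ j ∈ Finset.range (N + 1), 2 ^ j * L j i := by
  classical
  obtain ⟨r₀, hr₀⟩ := hx.2
  have hk1 : (1 : ℝ) ≤ Fintype.card ι := by
    have : 0 < Fintype.card ι := Fintype.card_pos_iff.mpr ⟨r₀⟩
    exact_mod_cast this
  set k : ℝ := (Fintype.card ι : ℝ) with hk
  have hka : 1 ≤ k * a := by nlinarith
  induction N generalizing l with
  | zero =>
    refine ⟨fun _ => l, fun _ i => ?_, fun _ => hlx, fun i => by simp⟩
    refine (hl i).trans ?_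
    rw [pow_zero, one_mul]
    nlinarith
  | succ N ih =>
    set p : ι → ℤ := fun i => l i / 2 with hp
    set r : ι → ℤ := fun i => l i % 2 with hr
    have hpr : ∀ i, l i = 2 * p i + r i := by
      intro i
      rw [hp, hr]
      simp only
      exact (Int.mul_ediv_add_emod (l i) 2).symm
    have hr1 : ∀ i, |(r i : ℝ)| ≤ 1 := by
      intro i
      have h1 : 0 ≤ r i := Int.emod_nonneg _ (by norm_num)
      have h2 : r i ≤ 1 := by
        have : r i < 2 := Int.emod_lt_of_pos _ (by norm_num)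
        omega
      have : |r i| ≤ 1 := by rw [abs_of_nonneg h1]; exact h2
      exact_mod_cast this
    have hpd : ∀ i, |(p i : ℝ)| ≤ |(l i : ℝ)| / 2 + 1 / 2 := by
      intro i
      have h1 : (l i : ℝ) = 2 * (p i : ℝ) + (r i : ℝ) := by exact_mod_cast hpr i
      have h2 : 2 * |(p i : ℝ)| ≤ |(l i : ℝ)| + |(r i : ℝ)| := by
        have : 2 * (p i : ℝ) = (l i : ℝ) - (r i : ℝ) := by linarith
        calc 2 * |(p i : ℝ)| = |2 * (p i : ℝ)| := by rw [abs_mul]; norm_num
          _ = |(l i : ℝ) - (r i : ℝ)| := by rw [this]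
          _ ≤ _ := abs_sub _ _
      have := hr1 i
      linarith
    set u : ℤ := ∑ i, p i * x i with hu
    have h2u : 2 * u = -∑ i, r i * x i := by
      have : ∑ i, l i * x i = 2 * u + ∑ i, r i * x i := by
        rw [hu, Finset.mul_sum, ← Finset.sum_add_distrib]
        refine Finset.sum_congr rfl (fun i _ => ?_)
        rw [hpr i]; ring
      rw [hlx] at this
      linarith
    have hud : |(u : ℝ)| ≤ (k * a) * B := by
      have h1 : |∑ i, (r i : ℝ) * (x i : ℝ)| ≤ k * B := by
        refine (Finset.abs_sum_le_sum_abs _ _).trans ?_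
        have : ∑ i, |(r i : ℝ) * (x i : ℝ)| ≤ ∑ _i : ι, B := by
          refine Finset.sum_le_sum (fun i _ => ?_)
          rw [abs_mul]
          have h2 := hr1 i
          have h3 := hx.1 i
          have h4 := abs_nonneg (x i : ℝ)
          nlinarith
        rw [Finset.sum_const, Finset.card_univ, nsmul_eq_mul] at this
        exact this
      have h2 : 2 * (u : ℝ) = -∑ i, (r i : ℝ) * (x i : ℝ) := by exact_mod_cast h2u
      have h3 : 2 * |(u : ℝ)| = |∑ i, (r i : ℝ) * (x i : ℝ)| := by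
        rw [← abs_neg (∑ i, (r i : ℝ) * (x i : ℝ)), ← h2, abs_mul]; norm_num
      have h4 : 0 ≤ |(u : ℝ)| := abs_nonneg _
      nlinarith
    obtain ⟨l'', hl'', hl''2⟩ := hb.lin_onto hx hB (U := k * a) (by nlinarith) hka u hud
    obtain ⟨L, hL1, hL2, hL3⟩ := ih (fun i => p i - l'' i) (by
        simp only [sub_mul, Finset.sum_sub_distrib]
        rw [hl''2, ← hu, sub_self]) (fun i => by
        push_cast
        refine (abs_sub _ _).trans ?_
        have h1 := hpd i
        have h2 := hl'' i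
        have h3 := hl i
        rw [pow_succ] at h3
        nlinarith)
    refine ⟨fun j => if j = 0 then fun i => r i + 2 * l'' i else L (j - 1), ?_, ?_, ?_⟩
    · intro j i
      simp only
      split_ifs
      · push_cast
        refine (abs_add_le _ _).trans ?_
        rw [abs_mul]
        have h1 := hr1 i
        have h2 := hl'' i
        have : |(2 : ℝ)| = 2 := by norm_num
        rw [this]
        nlinarith
      · exact hL1 _ i
    · intro j
      simp only
      split_ifs
      · have : ∀ i, (r i + 2 * l'' i) * x i = r i * x i + 2 * (l'' i * x i) := by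
          intro i; ring
        simp only [this]
        rw [Finset.sum_add_distrib, ← Finset.mul_sum, hl''2, h2u]
        ring
      · exact hL2 _
    · intro i
      rw [Finset.sum_range_succ']
      have h1 : ∑ j ∈ Finset.range (N + 1), 2 ^ (j + 1) *
          (if j + 1 = 0 then fun i => r i + 2 * l'' i else L (j + 1 - 1)) i
          = 2 * ∑ j ∈ Finset.range (N + 1), 2 ^ j * L j i := by
        rw [Finset.mul_sum]
        refine Finset.sum_congr rfl (fun j _ => ?_)
        rw [if_neg (Nat.succ_ne_zero j), Nat.add_sub_cancel, pow_succ]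
        ring
      rw [h1, ← hL3 i]
      simp only [if_true, pow_zero, one_mul]
      rw [hpr i]
      ring

end lin

end Pool.Agent.Y716.Q
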