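import Pool.Agent.Y716.Q.Moment
import Pool.Agent.Y716.Q.Stmt

/-!
# Chebyshev's inequality for a class
-/

namespace Pool.Agent.Y716.Q

variable {ι : Type*} [Fintype ι]

open scoped Classical in
theorem chebyshev_class (e : ℕ) {fc : MvPolynomial ι ℤ} {S J : ℕ} (hS : 0 < S) (hJ : 0 < J)
    {xc : ι → ℤ} {P : ℝ} {ξ : ι → ℝ} {i₀ : ι} {ρ ρ' B a A A' Δ : ℝ} (ha : 1 ≤ a) (hB : 1 ≤ B)
    (u : (ι → ℤ) → ℤ)
    (hu : ∀ x ∈ box P ξ i₀ ρ ρ' S xc, MvPolynomial.eval x fc = -(((S * J : ℕ) : ℤ) * u x))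
    (hΔ : 0 ≤ Δ) (hA : A' + c1pt (Fintype.card ι) (e + 1) * (Δ / B ^ (e + 2) + a) ≤ A)
    {R E₁ : ℝ} (hE₁ : 0 ≤ E₁)
    (hR : ∀ g ∈ formsZ ι (e + 2) A', R ≤
      (((testSet B a P ξ i₀ ρ ρ' S xc).filter (fun x =>
        |((MvPolynomial.eval x (mem' fc S J g) : ℤ) : ℝ)| ≤ (S * J : ℕ) * Δ)).card : ℝ))
    (hE : E₁ * (formsZ ι (e + 2) A).card * (2 * Δ + 1) ≤ (formsZ ι (e + 2) A').card * R) :
    (((formsZ ι (e + 2) A).filter (fun g =>
      ¬ ZeroIn (testSet B a P ξ i₀ ρ ρ' S xc) (mem' fc S J g))).card : ℝ) * E₁ ^ 2 ≤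
      ∑ p ∈ (testSet B a P ξ i₀ ρ ρ' S xc) ×ˢ (testSet B a P ξ i₀ ρ ρ' S xc), (c2 e A u p : ℝ) -
      E₁ ^ 2 * (formsZ ι (e + 2) A).card := by
  set X' := testSet B a P ξ i₀ ρ ρ' S xc with hX'
  set G := formsZ ι (e + 2) A with hG
  set G' := formsZ ι (e + 2) A' with hG'
  have hSJ : (0:ℝ) < ((S * J : ℕ) : ℝ) := by exact_mod_cast Nat.mul_pos hS hJ
  have hSJZ : ((S * J : ℕ) : ℤ) ≠ 0 := by exact_mod_cast (Nat.mul_pos hS hJ).ne'
  have hev : ∀ g, ∀ x ∈ X', MvPolynomial.eval x (mem' fc S J g) =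
      ((S * J : ℕ) : ℤ) * (MvPolynomial.eval x g - u x) := by
    intro g x hx
    unfold mem'
    rw [map_add, map_mul, MvPolynomial.eval_C, hu x (mem_testSet.mp hx).1]; ring
  set Nf : MvPolynomial ι ℤ → ℝ := fun g =>
    ((X'.filter (fun x => MvPolynomial.eval x g = u x)).card : ℝ) with hNf
  -- second moment
  have hM2 : ∑ g ∈ G, (Nf g) ^ 2 = ∑ p ∈ X' ×ˢ X', (c2 e A u p : ℝ) := by
    have h1 : ∀ g, (Nf g) ^ 2 = ∑ p ∈ X' ×ˢ X',
        (if MvPolynomial.eval p.1 g = u p.1 ∧ MvPolynomial.eval p.2 g = u p.2 then (1:ℝ) else 0) := by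
      intro g
      rw [hNf, sq]
      simp only
      rw [Finset.card_filter]
      push_cast
      rw [Finset.sum_mul_sum, Finset.sum_product]
      refine Finset.sum_congr rfl (fun x _ => ?_)
      refine Finset.sum_congr rfl (fun y _ => ?_)
      by_cases h1 : MvPolynomial.eval x g = u x
      · by_cases h2 : MvPolynomial.eval y g = u y
        · simp [h1, h2]
        · simp [h1, h2]
      · simp [h1]
    simp only [h1]
    rw [Finset.sum_comm]
    refine Finset.sum_congr rfl (fun p _ => ?_)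
    unfold c2
    rw [Finset.card_filter]
    push_cast
    rfl
  -- first moment
  have hM1 : E₁ * G.card ≤ ∑ g ∈ G, Nf g := by
    have h1 : (G'.card : ℝ) * R ≤ (∑ g ∈ G, Nf g) * (2 * Δ + 1) := by
      calc (G'.card : ℝ) * R = ∑ _g ∈ G', R := by rw [Finset.sum_const, nsmul_eq_mul]
        _ ≤ ∑ g ∈ G', ((X'.filter (fun x =>
            |((MvPolynomial.eval x (mem' fc S J g) : ℤ) : ℝ)| ≤ (S * J : ℕ) * Δ)).card : ℝ) :=
            Finset.sum_le_sum (fun g hg => hR g hg)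
        _ = ∑ g ∈ G', ∑ x ∈ X', (if |((MvPolynomial.eval x g - u x : ℤ) : ℝ)| ≤ Δ then (1:ℝ)
            else 0) := by
            refine Finset.sum_congr rfl (fun g _ => ?_)
            rw [Finset.card_filter]
            push_cast
            refine Finset.sum_congr rfl (fun x hx => ?_)
            have h2 : |((MvPolynomial.eval x (mem' fc S J g) : ℤ) : ℝ)| ≤ ((S * J : ℕ) : ℝ) * Δ ↔
                |((MvPolynomial.eval x g - u x : ℤ) : ℝ)| ≤ Δ := by
              rw [hev g x hx, Int.cast_mul, abs_mul]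
              have h3 : |(((S * J : ℕ) : ℤ) : ℝ)| = ((S * J : ℕ) : ℝ) := by
                rw [Int.cast_natCast, abs_of_pos hSJ]
              rw [h3]
              exact mul_le_mul_iff_right₀ hSJ
            push_cast at h2
            by_cases h3 : |((MvPolynomial.eval x g : ℤ) : ℝ) - ((u x : ℤ) : ℝ)| ≤ Δ
            · rw [if_pos h3, if_pos (h2.mpr h3)]
            · rw [if_neg h3, if_neg (fun h4 => h3 (h2.mp h4))]
        _ = ∑ x ∈ X', ((G'.filter (fun g => |((MvPolynomial.eval x g - u x : ℤ) : ℝ)| ≤ Δ)).card : ℝ)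
            := by
            rw [Finset.sum_comm]
            refine Finset.sum_congr rfl (fun x _ => ?_)
            rw [Finset.card_filter]
            push_cast
            rfl
        _ ≤ ∑ x ∈ X', ((G.filter (fun g => MvPolynomial.eval x g = u x)).card : ℝ) * (2 * Δ + 1) := by
            refine Finset.sum_le_sum (fun x hx => ?_)
            obtain ⟨hx1, hx2, hx3, hx4⟩ := mem_testSet.mp hx
            exact cnt1_ge (e + 1) hx4 hx2 hB ha hΔ hA (u x)
        _ = (∑ x ∈ X', ((G.filter (fun g => MvPolynomial.eval x g = u x)).card : ℝ)) * (2 * Δ + 1)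
            := by rw [Finset.sum_mul]
        _ = (∑ g ∈ G, Nf g) * (2 * Δ + 1) := by
            congr 1
            rw [hNf]
            simp only [Finset.card_filter, Nat.cast_sum]
            exact Finset.sum_comm
    have h2 : E₁ * G.card * (2 * Δ + 1) ≤ (∑ g ∈ G, Nf g) * (2 * Δ + 1) := hE.trans h1
    exact le_of_mul_le_mul_right h2 (by linarith)
  set Z := G.filter (fun g => ¬ ZeroIn X' (mem' fc S J g))
    with hZ
  have hZ0 : ∀ g ∈ Z, Nf g = 0 := by
    intro g hg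
    rw [hZ, Finset.mem_filter] at hg
    rw [hNf]
    simp only [Nat.cast_eq_zero, Finset.card_eq_zero]
    apply Finset.filter_false_of_mem
    intro x hx heq
    apply hg.2
    refine ⟨x, hx, (mem_testSet.mp hx).2.2.1, ?_⟩
    rw [hev g x hx, heq, sub_self, mul_zero]
  have hvar : (Z.card : ℝ) * E₁ ^ 2 ≤ ∑ g ∈ G, (Nf g - E₁) ^ 2 := by
    calc (Z.card : ℝ) * E₁ ^ 2 = ∑ g ∈ Z, (Nf g - E₁) ^ 2 := by
          rw [Finset.sum_congr rfl (g := fun _ => E₁ ^ 2) (fun g hg => by rw [hZ0 g hg]; ring),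
            Finset.sum_const, nsmul_eq_mul]
      _ ≤ ∑ g ∈ G, (Nf g - E₁) ^ 2 :=
          Finset.sum_le_sum_of_subset_of_nonneg (Finset.filter_subset _ _)
            (fun _ _ _ => sq_nonneg _)
  have hexp : ∑ g ∈ G, (Nf g - E₁) ^ 2 = ∑ g ∈ G, (Nf g) ^ 2 - 2 * E₁ * ∑ g ∈ G, Nf g +
      E₁ ^ 2 * G.card := by
    have : ∀ g, (Nf g - E₁) ^ 2 = (Nf g) ^ 2 - 2 * E₁ * Nf g + E₁ ^ 2 := by intro g; ring
    simp only [this]
    rw [Finset.sum_add_distrib, Finset.sum_sub_distrib, ← Finset.mul_sum, Finset.sum_const,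
      nsmul_eq_mul]
    ring
  rw [hexp, hM2] at hvar
  nlinarith [mul_le_mul_of_nonneg_left hM1 hE₁]

end Pool.Agent.Y716.Q
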