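import Pool.Agent.Y716.Q.CoreNum
import Pool.Agent.Y716.Q.Stmt

/-!
# The core of the class theorem
-/

namespace Pool.Agent.Y716.Q

open Filter

open scoped Classical in
/-- The core of the class theorem. -/
theorem class_core {ι : Type*} [Fintype ι] (hcore2 : CoreStmt2 ι) {k : ℕ} (hk : Fintype.card ι = k) (hk4 : 4 ≤ k) {e : ℕ}
    (he : e + 3 ≤ k) {M : ℕ} (hM : (mons ι (e + 2)).card = M) {c c' Ct Cu : ℝ}
    (hc : c1pt k (e + 1) = c) (hc' : cker k e = c') (hc0 : 0 < c) (hc'0 : 0 < c')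
    (hCt0 : 0 < Ct) (hCu0 : 0 < Cu)
    (hCt : SM ι e Ct) (hCu : UB ι Cu) {ε τ τ₂ T c₅ δ cR c₀ : ℝ} (hε : 0 < ε)
    (hτ0 : 0 < τ) (hτ1 : τ ≤ 1 / 2) (hb1 : 1 / 2 ≤ (1 - τ) / (1 + τ) * bfun k τ)
    (hb0 : 0 < bfun k τ) (hτF : (1 + τ) ^ (2 * k + 1) / (1 - τ) ^ 4 * (1 + τ) ≤
      (1 + ε / 2) * ((1 - τ) / (1 + τ) * bfun k τ) ^ 2)
    {w : ℕ} (hw1 : 1 ≤ w) (hwτ : 1 / (w : ℝ) ≤ τ)
    (hT1 : 1 ≤ T) (hc₀0 : 0 < c₀) (hTs : 16 * Ct * 4 ^ M * 4 ^ k / (ε * c₀ ^ 2) ≤ Real.sqrt T)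
    {N : ℕ} (hNT : 2 * T ≤ N) {K : ℕ}
    (hK : K = (∏ p ∈ (Finset.range (w + 1)).filter Nat.Prime, p) ^ N) (hK0 : 0 < K)
    (hτ₂0 : 0 < τ₂) (hτ₂1 : τ₂ ≤ 1 / 4) (hτ₂2 : (1 + 2 * τ₂) ^ M ≤ 1 + τ)
    (hτ₂3 : 1 - τ ≤ (1 - 2 * τ₂) ^ M)
    (hc₅ : c₅ = c + c' * (1 + M * c) / (1 / T)) (hc₅c : c ≤ c₅) (hδ0 : 0 < δ) (hδ1 : δ ≤ 1)
    (hδc : c₅ * δ = τ₂ / 4) (hcR0 : 0 < cR)
    {N' : ℕ} (hN'1 : 1 ≤ N') (hN'r : 6 ^ k / (τ * cR) ≤ N') {Y A P : ℝ}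
    (y1 : 2 ≤ Y) (y2 : 64 * (k:ℝ) + 3 ≤ Y) (y3 : 960 * (k:ℝ) ^ 2 * Y ^ 51 < Real.exp Y)
    (y4 : 2 * (32 * c₅ * K + 3072 * c') / τ₂ ≤ Y) (y5 : (K * N : ℝ) / (τ * δ) ≤ Y)
    (y8 : 100 * Cu * 4 ^ (k - 1) / (τ * cR) ≤ Y)
    (y9 : 16 * Ct * 3 ^ M * 6 ^ k / (ε * c₀ ^ 2) ≤ Y) (y10 : 1 + 1 / τ₂ ≤ Y)
    (y11 : 1 / (τ * δ) ≤ Y) (hYA : Y ^ 32 = A) (hPdef : P = Y ^ 36)
    {fc : MvPolynomial ι ℤ} {S J : ℕ} {xc v : ι → ℤ} {ξ : ι → ℝ} {i₀ : ι} {ρ ρ' σ D₀ Δ₀ : ℝ}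
    (hP : PData w fc S J xc v) (hρ0 : 0 < ρ) (hρρ' : ρ ≤ ρ') (hρ'2 : ρ' ≤ 1 / 2)
    (hξ : ∀ i, |ξ i| ≤ 1) (hξr : ∃ r, ξ r = 1) (hσ : |σ| = 1) (hD₀0 : 0 < D₀)
    (hmemS : ∀ A₃ : ℝ, A₃ ≤ 2 * A → ∀ g ∈ formsZ ι (e + 2) A₃,
      SlopeCond σ ((1 - τ) * D₀) ((1 + τ) * D₀) Δ₀ P ξ i₀ ρ ρ' (mem' fc S J g))
    {Δ Δ₁ X₁ X₂ R : ℝ} (hΔ : Δ = δ * A * P ^ (e + 2)) (hΔ₁ : ((S * J : ℕ) : ℝ) * Δ = Δ₁)
    (hΔ₁ρ : Δ₁ ≤ Δ₀) (hX₁ : X₁ = 2 * ρ * P / S) (hX₂ : X₂ = 2 * Δ₁ / (D₀ * S))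
    (hX₁K : (K * N + N' : ℝ) ≤ τ * X₁) (hX₂K : 2 * (K * N + N' : ℝ) ≤ τ * X₂)
    (hRdef : X₁ ^ (k - 1) * X₂ = R) (hRlow : cR * P ^ k ≤ R)
    (hϱlow : c₀ * P ^ (k - 1) / (A * P ^ (e + 1)) ≤ R / (2 * Δ)) :
    (((formsZ ι (e + 2) A).filter (fun g =>
      ¬ ZeroIn (box P ξ i₀ ρ ρ' S xc) (mem' fc S J g))).card : ℝ) ≤
      ε * (formsZ ι (e + 2) A).card := by
  have hk0 : 0 < k := by omega
  have hT0 : 0 < T := by linarith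
  have hc₅0 : 0 < c₅ := by linarith
  have hKr : (1:ℝ) ≤ K := by exact_mod_cast hK0
  have hY0 : 0 < Y := by linarith
  have hY1 : 1 ≤ Y := by linarith
  have hA0 : 0 < A := by rw [← hYA]; positivity
  have hPY : Y ≤ P := by
    rw [hPdef]
    calc Y = Y ^ 1 := by ring
      _ ≤ Y ^ 36 := pow_le_pow_right₀ hY1 (by norm_num)
  have hP0 : 0 < P := by linarith
  have hP1 : 1 ≤ P := by linarith
  have hAP : A * Y ≤ P := by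
    rw [← hYA, hPdef]
    calc Y ^ 32 * Y = Y ^ 33 := by ring
      _ ≤ Y ^ 36 := pow_le_pow_right₀ hY1 (by norm_num)
  have hAY : Y ≤ A := by
    rw [← hYA]
    calc Y = Y ^ 1 := by ring
      _ ≤ Y ^ 32 := pow_le_pow_right₀ hY1 (by norm_num)
  obtain ⟨m, hm⟩ : ∃ m : ℕ, m = ⌊Y ^ 15⌋₊ := ⟨_, rfl⟩
  obtain ⟨hm1, hm2, hm3⟩ := m_bounds y1
  rw [← hm] at hm1 hm2 hm3
  obtain ⟨a, ha⟩ : ∃ a : ℝ, ((32 : ℕ) : ℝ) * (m : ℝ) = a := ⟨_, rfl⟩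
  have ha1 : 1 ≤ a := by
    rw [← ha]
    have : (1:ℝ) ≤ m := by exact_mod_cast hm3
    push_cast; linarith
  have haY : a ≤ 32 * Y ^ 15 := by rw [← ha]; push_cast; linarith
  have haB : a ≤ 2 * P := by
    refine haY.trans ?_
    rw [hPdef]
    have h1 : (32:ℝ) ≤ Y ^ 5 := by
      calc (32:ℝ) = 2 ^ 5 := by norm_num
        _ ≤ Y ^ 5 := pow_le_pow_left₀ (by norm_num) y1 5
    have h2 : Y ^ 5 * Y ^ 15 ≤ Y ^ 36 := by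
      rw [← pow_add]; exact pow_le_pow_right₀ hY1 (by norm_num)
    have h3 : 32 * Y ^ 15 ≤ Y ^ 5 * Y ^ 15 := mul_le_mul_of_nonneg_right h1 (by positivity)
    have h4 : 0 < Y ^ 36 := by positivity
    linarith
  -- the functions u
  have hdiv : ∀ x ∈ box P ξ i₀ ρ ρ' S xc, ∃ u : ℤ,
      MvPolynomial.eval x fc = -(((S * J : ℕ) : ℤ) * u) := by
    intro x hx
    obtain ⟨u, hu⟩ := hP.class_dvd (mem_box.mp hx).2
    exact ⟨-u, by rw [hu]; ring⟩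
  choose! u hu using hdiv
  have hS1 : (1:ℝ) ≤ S := by exact_mod_cast hP.hS
  have hΔ0 : 0 < Δ := by rw [hΔ]; positivity
  have hΔ₁0 : 0 < Δ₁ := by
    rw [← hΔ₁]
    apply mul_pos _ hΔ0
    exact_mod_cast Nat.mul_pos hP.hS hP.hJ
  have hX₁0 : 0 < X₁ := by rw [hX₁]; positivity
  have hX₂0 : 0 < X₂ := by rw [hX₂]; positivity
  have hKN0 : (0:ℝ) ≤ K * N := by positivity
  have hN'0 : (0:ℝ) ≤ N' := Nat.cast_nonneg _
  have hR0 : 0 < R := by rw [← hRdef]; positivity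
  -- facts about Δ
  have hΔY : δ * Y ≤ Δ := by
    rw [hΔ]
    have h1 : (1:ℝ) ≤ P ^ (e + 2) := one_le_pow₀ hP1
    have h2 : δ * Y ≤ δ * A := mul_le_mul_of_nonneg_left hAY hδ0.le
    have h3 : δ * A ≤ δ * A * P ^ (e + 2) := le_mul_of_one_le_right (mul_pos hδ0 hA0).le h1
    linarith
  have hKNΔτ : (K * N : ℝ) ≤ τ * Δ := by
    rw [div_le_iff₀ (by positivity)] at y5
    have := mul_le_mul_of_nonneg_left hΔY hτ0.le
    linarith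
  have hKNΔ : (K * N : ℝ) ≤ Δ := hKNΔτ.trans (mul_le_of_le_one_left hΔ0.le (by linarith))
  have h1Δτ : 1 ≤ τ * Δ := by
    rw [div_le_iff₀ (by positivity)] at y11
    have := mul_le_mul_of_nonneg_left hΔY hτ0.le
    linarith
  -- size conditions
  have hY31 : 0 < Y ^ 31 := by positivity
  have hA31 : A = Y * Y ^ 31 := by rw [← hYA]; ring
  have hy4 : (32 * c₅ * K + 3072 * c') * Y ^ 31 ≤ τ₂ / 2 * A := by
    rw [div_le_iff₀ hτ₂0] at y4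
    have := mul_le_mul_of_nonneg_right y4 hY31.le
    rw [hA31]; linarith
  have hY15 : Y ^ 15 ≤ Y ^ 31 := pow_le_pow_right₀ hY1 (by norm_num)
  have ha2 : (1 + 2 * Y) * a ^ 2 ≤ 3072 * Y ^ 31 := by
    have h1 : a ^ 2 ≤ (32 * Y ^ 15) ^ 2 := pow_le_pow_left₀ (by linarith) haY 2
    have h2 : (1 + 2 * Y) ≤ 3 * Y := by linarith
    calc (1 + 2 * Y) * a ^ 2 ≤ (3 * Y) * (32 * Y ^ 15) ^ 2 :=
          mul_le_mul h2 h1 (by positivity) (by positivity)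
      _ = 3072 * Y ^ 31 := by ring
  have hBP : P ^ (e + 2) ≤ (2 * P) ^ (e + 2) := pow_le_pow_left₀ hP0.le (by linarith) _
  have hΔB : Δ / (2 * P) ^ (e + 2) ≤ δ * A := by
    rw [div_le_iff₀ (by positivity), hΔ]
    exact mul_le_mul_of_nonneg_left hBP (by positivity)
  have hA₂ : A + (c + c' * (1 + M * c) / (1 / T)) * (Δ / (2 * P) ^ (e + 2) + K * a) +
      c' * ((1 + 2 * Y) * a ^ 2) ≤ (1 + τ₂) * A := by
    rw [← hc₅]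
    have h1 : c₅ * (Δ / (2 * P) ^ (e + 2)) ≤ τ₂ / 4 * A := by
      have := mul_le_mul_of_nonneg_left hΔB hc₅0.le
      have h2 : c₅ * (δ * A) = τ₂ / 4 * A := by rw [← hδc]; ring
      linarith
    have h2 : c₅ * (K * a) ≤ 32 * c₅ * K * Y ^ 31 := by
      have h3 : a ≤ 32 * Y ^ 31 := by linarith
      have := mul_le_mul_of_nonneg_left h3 (by positivity : (0:ℝ) ≤ c₅ * K)
      linarith
    have h3 : c' * ((1 + 2 * Y) * a ^ 2) ≤ 3072 * c' * Y ^ 31 := by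
      have := mul_le_mul_of_nonneg_left ha2 hc'0.le
      linarith
    have h4 : 0 < τ₂ * A := by positivity
    rw [mul_add c₅]
    linarith
  have hc5K : 32 * c * Y ^ 31 ≤ τ₂ / 2 * A := by
    have h1 : 32 * c ≤ 32 * c₅ * K + 3072 * c' := by
      have : c ≤ c₅ * K := hc₅c.trans (le_mul_of_one_le_right hc₅0.le hKr)
      linarith
    exact (mul_le_mul_of_nonneg_right h1 hY31.le).trans hy4
  have hc'K : 3072 * c' * Y ^ 31 ≤ τ₂ / 2 * A := by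
    have h1 : 3072 * c' ≤ 32 * c₅ * K + 3072 * c' := by
      have : 0 < 32 * c₅ * K := by positivity
      linarith
    exact (mul_le_mul_of_nonneg_right h1 hY31.le).trans hy4
  have hca : c * a ≤ 32 * c * Y ^ 31 := by
    have h3 : a ≤ 32 * Y ^ 31 := by linarith
    have := mul_le_mul_of_nonneg_left h3 hc0.le
    linarith
  have hA' : (1 - τ₂) * A + c * (Δ / (2 * P) ^ (e + 2) + a) ≤ A := by
    have h1 : c * (Δ / (2 * P) ^ (e + 2)) ≤ τ₂ / 4 * A := by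
      have h5 : c * (Δ / (2 * P) ^ (e + 2)) ≤ c₅ * (δ * A) :=
        mul_le_mul hc₅c hΔB (by positivity) hc₅0.le
      have h2 : c₅ * (δ * A) = τ₂ / 4 * A := by rw [← hδc]; ring
      linarith
    have h4 : 0 < τ₂ * A := by positivity
    rw [mul_add c]
    linarith
  have haA : 2 * c * a ≤ A := by
    have h4 : τ₂ * A ≤ 1 * A := mul_le_mul_of_nonneg_right (by linarith) hA0.le
    linarith
  have haA2 : 2 * c' * ((1 + 2 * Y) * a ^ 2) ≤ A := by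
    have h3 : c' * ((1 + 2 * Y) * a ^ 2) ≤ 3072 * c' * Y ^ 31 := by
      have := mul_le_mul_of_nonneg_left ha2 hc'0.le
      linarith
    have h4 : τ₂ * A ≤ 1 * A := mul_le_mul_of_nonneg_right (by linarith) hA0.le
    linarith
  have hLg : ∀ s : ℕ, (s : ℝ) ≤ 15 * (k:ℝ) ^ 2 * a * (2 * P) → (Nat.log 2 s : ℝ) ≤ 2 * Y := by
    intro s hs
    apply log_bound hY0.le y3 s
    refine hs.trans ?_
    have h1 : a * (2 * P) ≤ (32 * Y ^ 15) * (2 * P) := mul_le_mul_of_nonneg_right haY (by positivity)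
    have h2 := mul_le_mul_of_nonneg_left h1 (by positivity : (0:ℝ) ≤ 15 * (k:ℝ) ^ 2)
    have h3 : 15 * (k:ℝ) ^ 2 * ((32 * Y ^ 15) * (2 * P)) = 960 * (k:ℝ) ^ 2 * Y ^ 51 := by
      rw [hPdef]; ring
    linarith
  -- card ratios
  obtain ⟨G, hG⟩ : ∃ G : ℝ, ((formsZ ι (e + 2) A).card : ℝ) = G := ⟨_, rfl⟩
  have hG0 : 0 < G := by
    rw [← hG]
    exact_mod_cast card_forms_pos (ι := ι) (e + 2) hA0.le
  have hA10 : 1 + 1 / τ₂ ≤ A := y10.trans hAY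
  have hA1 : 1 ≤ A := by
    have : 0 < 1 / τ₂ := by positivity
    linarith
  have hτA : 1 + τ₂ ≤ τ₂ * A := by
    have := mul_le_mul_of_nonneg_left hA10 hτ₂0.le
    rw [mul_add, mul_one, mul_one_div, div_self hτ₂0.ne'] at this
    linarith
  have hA4 : 4 ≤ A := by
    have h1 : (4:ℝ) ≤ 1 / τ₂ := by
      rw [le_div_iff₀ hτ₂0]; linarith
    linarith
  have hG₂ : ((formsZ ι (e + 2) ((1 + τ₂) * A)).card : ℝ) ≤ (1 + τ) * G := by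
    have := card_forms_upper (ι := ι) (e + 2) (A := A) (R := (1 + τ₂) * A) (c := 1 + 2 * τ₂)
      hA1 (by positivity) (by positivity) (by linarith)
    rw [hM, hG] at this
    exact this.trans (mul_le_mul_of_nonneg_right hτ₂2 hG0.le)
  have hG' : (1 - τ) * G ≤ ((formsZ ι (e + 2) ((1 - τ₂) * A)).card : ℝ) := by
    have := card_forms_lower (ι := ι) (e + 2) (A := A) (R := (1 - τ₂) * A) (c := 1 - 2 * τ₂)
      hA0.le (mul_nonneg (by linarith) hA0.le) (by linarith) (by linarith)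
    rw [hM, hG] at this
    exact (mul_le_mul_of_nonneg_right hτ₂3 hG0.le).trans this
  have hG3A : ((formsZ ι (e + 2) (3 * A)).card : ℝ) ≤ 4 ^ M * G := by
    have := card_forms_upper (ι := ι) (e + 2) (A := A) (R := 3 * A) (c := 4)
      hA1 (by positivity) (by norm_num) (by linarith)
    rwa [hM, hG] at this
  have hG2A : ((formsZ ι (e + 2) (2 * A)).card : ℝ) ≤ 3 ^ M * G := by
    have := card_forms_upper (ι := ι) (e + 2) (A := A) (R := 2 * A) (c := 3)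
      hA1 (by positivity) (by norm_num) (by linarith)
    rwa [hM, hG] at this
  exact hcore2 hk hk4 he hM hc hc' hCt0 hCu0 hCt hCu hε hτ0 hτ1 hb1 hb0 hτF hw1 hwτ hT1 hc₀0
    hTs hNT hK hK0 hcR0 hN'1 hN'r y1 y2 y8 y9 hPdef hP hρ0 hρρ' hρ'2 hξ hξr hσ hD₀0 hmemS hΔ₁ hΔ₁ρ
    hX₁ hX₂ hX₁K hX₂K hRdef hR0 hRlow hϱlow hA0 hP0 hP1 hAP hm1 hm2 hm3 ha ha1 haB hu hΔ0 hΔ₁0
    hKNΔτ hKNΔ h1Δτ hA₂ hA' haA haA2 hLg hτ₂0 hτ₂1 hG hG0 hG₂ hG' hG3A hG2A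

theorem core_holds (ι : Type*) [Fintype ι] (h : CoreStmt2 ι) : CoreStmt ι :=
  @class_core ι _ h

end Pool.Agent.Y716.Q
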