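import Pool.Agent.Y716.Q.CoreNum
import Pool.Agent.Y716.Q.Cheb
import Pool.Agent.Y716.Q.Parts

/-!
# The core of the class theorem, final assembly
-/

namespace Pool.Agent.Y716.Q

open scoped Classical in
theorem class_core2 {ι : Type*} [Fintype ι] {k : ℕ} (hk : Fintype.card ι = k) (hk4 : 4 ≤ k) {e : ℕ}
    (he : e + 3 ≤ k) {M : ℕ} (hM : (mons ι (e + 2)).card = M) {c c' Ct Cu : ℝ}
    (hc : c1pt k (e + 1) = c) (hc' : cker k e = c')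
    (hCt0 : 0 < Ct) (hCu0 : 0 < Cu)
    (hCt : SM ι e Ct) (hCu : UB ι Cu) {ε τ τ₂ T cR c₀ : ℝ} (hε : 0 < ε)
    (hτ0 : 0 < τ) (hτ1 : τ ≤ 1 / 2) (hb1 : 1 / 2 ≤ (1 - τ) / (1 + τ) * bfun k τ)
    (hb0 : 0 < bfun k τ) (hτF : (1 + τ) ^ (2 * k + 1) / (1 - τ) ^ 4 * (1 + τ) ≤
      (1 + ε / 2) * ((1 - τ) / (1 + τ) * bfun k τ) ^ 2)
    {w : ℕ} (hw1 : 1 ≤ w) (hwτ : 1 / (w : ℝ) ≤ τ)
    (hT1 : 1 ≤ T) (hc₀0 : 0 < c₀) (hTs : 16 * Ct * 4 ^ M * 4 ^ k / (ε * c₀ ^ 2) ≤ Real.sqrt T)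
    {N : ℕ} (hNT : 2 * T ≤ N) {K : ℕ}
    (hK : K = (∏ p ∈ (Finset.range (w + 1)).filter Nat.Prime, p) ^ N) (hK0 : 0 < K)
    (hcR0 : 0 < cR)
    {N' : ℕ} (hN'1 : 1 ≤ N') (hN'r : 6 ^ k / (τ * cR) ≤ N') {Y A P : ℝ}
    (y1 : 2 ≤ Y) (y2 : 64 * (k:ℝ) + 3 ≤ Y)
    (y8 : 100 * Cu * 4 ^ (k - 1) / (τ * cR) ≤ Y)
    (y9 : 16 * Ct * 3 ^ M * 6 ^ k / (ε * c₀ ^ 2) ≤ Y) (hPdef : P = Y ^ 36)
    {fc : MvPolynomial ι ℤ} {S J : ℕ} {xc v : ι → ℤ} {ξ : ι → ℝ} {i₀ : ι} {ρ ρ' σ D₀ Δ₀ : ℝ}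
    (hP : PData w fc S J xc v) (hρ0 : 0 < ρ) (hρρ' : ρ ≤ ρ') (hρ'2 : ρ' ≤ 1 / 2)
    (hξ : ∀ i, |ξ i| ≤ 1) (hξr : ∃ r, ξ r = 1) (hσ : |σ| = 1) (hD₀0 : 0 < D₀)
    (hmemS : ∀ A₃ : ℝ, A₃ ≤ 2 * A → ∀ g ∈ formsZ ι (e + 2) A₃,
      SlopeCond σ ((1 - τ) * D₀) ((1 + τ) * D₀) Δ₀ P ξ i₀ ρ ρ' (mem' fc S J g))
    {Δ Δ₁ X₁ X₂ R : ℝ} (hΔ₁ : ((S * J : ℕ) : ℝ) * Δ = Δ₁)
    (hΔ₁ρ : Δ₁ ≤ Δ₀) (hX₁ : X₁ = 2 * ρ * P / S) (hX₂ : X₂ = 2 * Δ₁ / (D₀ * S))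
    (hX₁K : (K * N + N' : ℝ) ≤ τ * X₁) (hX₂K : 2 * (K * N + N' : ℝ) ≤ τ * X₂)
    (hRdef : X₁ ^ (k - 1) * X₂ = R) (hR0 : 0 < R) (hRlow : cR * P ^ k ≤ R)
    (hϱlow : c₀ * P ^ (k - 1) / (A * P ^ (e + 1)) ≤ R / (2 * Δ))
    (hA0 : 0 < A) (hP0 : 0 < P) (hP1 : 1 ≤ P) (hAP : A * Y ≤ P) {m : ℕ} {a : ℝ}
    (hm1 : (m : ℝ) ≤ Y ^ 15) (hm2 : Y ^ 15 / 2 ≤ (m : ℝ)) (hm3 : 1 ≤ m)
    (ha : ((32 : ℕ) : ℝ) * (m : ℝ) = a) (ha1 : 1 ≤ a) (haB : a ≤ 2 * P)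
    {u : (ι → ℤ) → ℤ}
    (hu : ∀ x ∈ box P ξ i₀ ρ ρ' S xc, MvPolynomial.eval x fc = -(((S * J : ℕ) : ℤ) * u x))
    (hΔ0 : 0 < Δ) (hΔ₁0 : 0 < Δ₁) (hKNΔτ : (K * N : ℝ) ≤ τ * Δ) (hKNΔ : (K * N : ℝ) ≤ Δ)
    (h1Δτ : 1 ≤ τ * Δ)
    (hA₂ : A + (c + c' * (1 + M * c) / (1 / T)) * (Δ / (2 * P) ^ (e + 2) + K * a) +
      c' * ((1 + 2 * Y) * a ^ 2) ≤ (1 + τ₂) * A)
    (hA' : (1 - τ₂) * A + c * (Δ / (2 * P) ^ (e + 2) + a) ≤ A)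
    (haA : 2 * c * a ≤ A) (haA2 : 2 * c' * ((1 + 2 * Y) * a ^ 2) ≤ A)
    (hLg : ∀ s : ℕ, (s : ℝ) ≤ 15 * (k:ℝ) ^ 2 * a * (2 * P) → (Nat.log 2 s : ℝ) ≤ 2 * Y)
    (hτ₂0 : 0 < τ₂) (hτ₂1 : τ₂ ≤ 1 / 4)
    {G : ℝ} (hG : ((formsZ ι (e + 2) A).card : ℝ) = G) (hG0 : 0 < G)
    (hG₂ : ((formsZ ι (e + 2) ((1 + τ₂) * A)).card : ℝ) ≤ (1 + τ) * G)
    (hG' : (1 - τ) * G ≤ ((formsZ ι (e + 2) ((1 - τ₂) * A)).card : ℝ))
    (hG3A : ((formsZ ι (e + 2) (3 * A)).card : ℝ) ≤ 4 ^ M * G)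
    (hG2A : ((formsZ ι (e + 2) (2 * A)).card : ℝ) ≤ 3 ^ M * G) :
    (((formsZ ι (e + 2) A).filter (fun g =>
      ¬ ZeroIn (box P ξ i₀ ρ ρ' S xc) (mem' fc S J g))).card : ℝ) ≤
      ε * (formsZ ι (e + 2) A).card := by
  have hkι : 1 ≤ Fintype.card ι := by omega
  have hKr : (1:ℝ) ≤ K := by exact_mod_cast hK0
  have hN'0 : (0:ℝ) ≤ N' := Nat.cast_nonneg _
  have hKN0 : (0:ℝ) ≤ K * N := by positivity
  have hN1 : 1 ≤ N := by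
    have : (1:ℝ) ≤ N := by linarith
    exact_mod_cast this
  have hKDle : ∀ D : ℕ, D ≤ N → ((K * D : ℕ) : ℝ) ≤ K * N := by
    intro D hD
    push_cast
    apply mul_le_mul_of_nonneg_left _ (by linarith)
    exact_mod_cast hD
  have hKD₁ : ∀ D : ℕ, D ≤ N → ((K * D : ℕ) : ℝ) ≤ τ * X₁ := by
    intro D hD
    have := hKDle D hD
    linarith
  have hKD₂ : ∀ D : ℕ, D ≤ N → ((K * D : ℕ) : ℝ) ≤ τ * X₂ := by
    intro D hD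
    have := hKDle D hD
    linarith
  -- local bounds
  have hloc : ∀ D : ℕ, 0 < D → D ≤ N → (∀ q : ℕ, q.Prime → q ≤ w → ¬ q ∣ D) →
      ∀ g ∈ formsZ ι (e + 2) ((1 + τ₂) * A), ∀ ζ,
      ((locSet P ξ i₀ ρ ρ' S J xc (mem' fc S J g) K D ζ (((S * J : ℕ) : ℝ) * Δ)).card : ℝ) ≤
        (1 + τ) ^ k / (1 - τ) * R / (K * (D : ℝ) ^ k) := by
    intro D hD hDN hDw g hg ζ
    rw [hΔ₁, ← hRdef, ← hk]
    exact loc_norm_le hP hρ0.le (hρ0.le.trans hρρ') hP0.le hτ0 hτ1 hD₀0 hσ hΔ₁0.le hΔ₁ρ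
      (hmemS _ (mul_le_mul_of_nonneg_right (by linarith) hA0.le) g hg) hX₁ hX₂ hK hD hDw
      (hKD₁ D hDN) (hKD₂ D hDN) hkι ζ
  have hSM := hCt w hw1 fc S J xc P ξ i₀ ρ ρ' (2 * P) a A ((1 + τ₂) * A) Δ T ha1 haB hT1 (2 * Y)
    (by rw [hk]; exact hLg) u hu N hNT K hK hΔ0.le hKNΔ (by rw [hk, hM, hc, hc']; exact hA₂)
    (by rw [hk, hc]; exact haA) (by rw [hk, hc']; exact haA2)
    ((1 + τ) ^ k / (1 - τ) * R / (K * ((1 : ℕ) : ℝ) ^ k))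
    ((1 + τ) ^ (2 * k + 1) / (1 - τ) ^ 4 * (R / (2 * Δ)) ^ 2)
    (fun D => (1 + τ) ^ k / (1 - τ) * R / (K * (D : ℝ) ^ k))
    (fun D => div_nonneg (mul_nonneg (div_nonneg (by positivity) (by linarith)) hR0.le)
      (by positivity))
    (mul_nonneg (div_nonneg (by positivity) (pow_nonneg (by linarith) _)) (by positivity))
    (fun g hg => hloc 1 one_pos hN1 (fun q hq _ hq1 => hq.one_lt.ne' (Nat.dvd_one.mp hq1)) g hg 0)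
    (fun D hD hDN hDw g hg ζ => hloc D hD hDN hDw g hg ζ)
    (fun D hD hDN => by
      rw [hG]
      exact core_ED hk4 hK0 hD hτ0 hτ1 hR0 hΔ0 hG0 hG₂ ((hKDle D hDN).trans hKNΔτ))
  -- first moment and Chebyshev
  have htest : ∀ g ∈ formsZ ι (e + 2) ((1 - τ₂) * A), bfun k τ * R ≤
      (((testSet (2 * P) a P ξ i₀ ρ ρ' S xc).filter (fun x =>
        |((MvPolynomial.eval x (mem' fc S J g) : ℤ) : ℝ)| ≤ ((S * J : ℕ) : ℝ) * Δ)).card : ℝ) := by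
    intro g hg
    rw [hΔ₁, ← hRdef, ← hk]
    refine test_lower hw1 hP hρ0.le hρρ' hρ'2 hP0 hτ0 hτ1 hD₀0 hwτ hξ hξr hσ hΔ₁0.le hΔ₁ρ
      (hmemS _ (mul_le_mul_of_nonneg_right (by linarith) hA0.le) g hg) hX₁ hX₂ hN'1
      (by linarith) (by linarith) (by omega) ?_ ?_
    · rw [hk, hRdef]
      have h1 : (0:ℝ) < N' := by exact_mod_cast hN'1
      rw [div_le_iff₀ (by positivity)] at hN'r
      rw [div_le_iff₀ h1, mul_pow]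
      have h2 := mul_le_mul_of_nonneg_right hN'r (by positivity : 0 ≤ P ^ k)
      have h3 := mul_le_mul_of_nonneg_left hRlow (by positivity : 0 ≤ τ * (N' : ℝ))
      linarith
    · intro U hU
      rw [hk, hRdef]
      have hPU : (1:ℝ) ≤ 2 * P := by linarith
      have hYY : 2 ^ 14 ≤ Y ^ 14 := pow_le_pow_left₀ (by norm_num) y1 14
      have hYp : 0 < Y ^ 14 := by positivity
      have h1 := hCu (2 * P) m 32 (1 / Y ^ 14) hPU hm3 (by norm_num) (by positivity)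
        (by
          rw [div_le_div_iff₀ hYp (by norm_num)]
          have : (64:ℝ) ≤ 2 ^ 14 := by norm_num
          linarith)
        (by rw [hk, hPdef]; exact small_cond y1 y2 hm1 hm2)
        (by
          rw [mul_one_div, le_div_iff₀ hYp, hPdef]
          have : Y ^ 14 ≤ Y ^ 36 := pow_le_pow_right₀ (by linarith) (by norm_num)
          have : 0 ≤ Y ^ 36 := by positivity
          linarith)
        U (by rw [ha]; exact hU)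
      rw [hk, hPdef] at h1
      refine h1.trans ((unbal_num hk4 y1 hCu0 hτ0 hcR0 y8).trans ?_)
      rw [← hPdef]
      exact mul_le_mul_of_nonneg_left hRlow hτ0.le
  have hr0 : 0 < R / (2 * Δ) := by positivity
  have hβ0 : 0 < (1 - τ) / (1 + τ) * bfun k τ := by linarith
  have hE₁0 : 0 < (1 - τ) / (1 + τ) * bfun k τ * (R / (2 * Δ)) := mul_pos hβ0 hr0
  have hcheb := chebyshev_class (A := A) (A' := (1 - τ₂) * A) e hP.hS hP.hJ ha1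
    (by linarith : (1:ℝ) ≤ 2 * P) u hu hΔ0.le (by rw [hk, hc]; exact hA') hE₁0.le htest
    (by rw [hG]; exact core_cheb hτ0 hb0 hR0 hΔ0 hG0 hG' hτ1 h1Δτ)
  rw [hG] at hcheb hSM ⊢
  have hsub : (((formsZ ι (e + 2) A).filter (fun g =>
      ¬ ZeroIn (box P ξ i₀ ρ ρ' S xc) (mem' fc S J g))).card : ℝ) ≤
      (((formsZ ι (e + 2) A).filter (fun g =>
      ¬ ZeroIn (testSet (2 * P) a P ξ i₀ ρ ρ' S xc) (mem' fc S J g))).card : ℝ) := by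
    have : ((formsZ ι (e + 2) A).filter (fun g =>
      ¬ ZeroIn (box P ξ i₀ ρ ρ' S xc) (mem' fc S J g))) ⊆
      ((formsZ ι (e + 2) A).filter (fun g =>
      ¬ ZeroIn (testSet (2 * P) a P ξ i₀ ρ ρ' S xc) (mem' fc S J g))) := by
      intro g hg
      rw [Finset.mem_filter] at hg ⊢
      refine ⟨hg.1, ?_⟩
      rintro ⟨x, hx, hx0⟩
      exact hg.2 ⟨x, (mem_testSet.mp hx).1, hx0⟩
    exact_mod_cast Finset.card_le_card this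
  refine hsub.trans ?_
  have hE2 := core_E1 (by omega : 1 ≤ k) e hb1 hc₀0 hP0 hA0 hϱlow
  refine final_ineq hE₁0 hcheb hSM ?_ ?_ ?_
  · refine core_main (div_nonneg (by positivity) (pow_nonneg (by linarith) _)) hG0.le ?_ hτF
    linarith
  · rw [hk]
    exact core_t1 hCt0 hG0 hG3A hP0 hA0 hε hc₀0 (Real.sqrt_pos.mpr (by linarith)) hTs hE2
  · refine core_t2 hCt0 hG0 hG2A (Nat.cast_nonneg _) hP1 hA0 hε hc₀0 (by linarith) y9 ?_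
      (Nat.cast_nonneg _) hAP he hE2
    rw [← hk]
    have h1 := div_count (by linarith : (0:ℝ) ≤ 2 * P) 1 one_pos (by push_cast; linarith)
      (testSet (2 * P) a P ξ i₀ ρ ρ' S xc) (fun x hx => ⟨(mem_testSet.mp hx).2.1.1, fun i => by simp⟩)
    refine h1.trans (le_of_eq ?_)
    congr 1
    push_cast; ring

theorem core_holds2 (ι : Type*) [Fintype ι] : CoreStmt2 ι := @class_core2 ι _

end Pool.Agent.Y716.Q
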