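import Pool.Agent.Y716.Q.ClassThm
import Pool.Agent.Y716.Q.Core
import Pool.Agent.Y716.Q.Core2

/-!
# The class theorem
-/

namespace Pool.Agent.Y716.Q

open scoped Classical in
/-- The class theorem: in a class with good local data almost all forms have a zero. -/
theorem class_theorem (ι : Type*) [Fintype ι] (hk4 : 4 ≤ Fintype.card ι) (e : ℕ)
    (he : e + 3 ≤ Fintype.card ι) {ε : ℝ} (hε : 0 < ε) :
    ∃ w₀ : ℕ, 1 ≤ w₀ ∧ ∀ w, w₀ ≤ w → ∀ γ : ℝ, 0 < γ → γ ≤ 1 → ∀ Q₀ : ℕ, 1 ≤ Q₀ →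
    ∀ η₀ : ℝ, 0 < η₀ → ∃ η : ℝ, 0 < η ∧ η ≤ 1 ∧ η ≤ η₀ ∧ ∃ H₀ : ℝ, ∀ H : ℝ, H₀ ≤ H →
    ∀ (fc : MvPolynomial ι ℤ) (S J : ℕ) (xc v : ι → ℤ) (ξ : ι → ℝ) (i₀ : ι),
    PData w fc S J xc v → RData e H γ η fc ξ i₀ → S * J ≤ Q₀ →
    (((formsZ ι (e + 2) (η * H / (S * J : ℕ))).filter (fun g =>
      ¬ ZeroNear η₀ ξ S xc (mem' fc S J g))).card : ℝ) ≤
      ε * (formsZ ι (e + 2) (η * H / (S * J : ℕ))).card :=
  class_theorem_of ι (core_holds ι (core_holds2 ι)) (fun h e => second_moment ι h e) hk4 e he hε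

end Pool.Agent.Y716.Q
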