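import Pool.Agent.Y716.Q.Stmt

/-!
# The class theorem over the integers
-/

namespace Pool.Agent.Y716.Q

open Filter

variable {ι : Type*}

/-- lower bound of the expected number of zeros -/
theorem rho_low {k e : ℕ} {ρ Q₀ P X₁ X₂ Δ Δ₁ D₀ S q g₀ Cg H η A c₀ : ℝ}
    (hc₀ : c₀ = (2 * ρ / Q₀) ^ (k - 1) * (η / (Cg * Q₀))) (hρ0 : 0 < ρ) (hQ : 1 ≤ Q₀)
    (hP : 0 < P) (hX₁ : 2 * ρ / Q₀ * P ≤ X₁) (hX₂ : X₂ = 2 * Δ₁ / (D₀ * S)) (hΔ₁ : q * Δ = Δ₁)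
    (hD₀ : g₀ * P ^ (e + 1) = D₀) (hΔ : 0 < Δ) (hS : 1 ≤ S) (hSQ : S ≤ Q₀) (hq : 1 ≤ q)
    (hg₀0 : 0 < g₀) (hgcd : g₀ ≤ Cg * H) (hCg : 0 < Cg) (hH : 0 < H) (hη : 0 < η) (hA : 0 < A)
    (hAq : q * A = η * H) :
    c₀ * P ^ (k - 1) / (A * P ^ (e + 1)) ≤ X₁ ^ (k - 1) * X₂ / (2 * Δ) := by
  have hX₁0 : 0 < 2 * ρ / Q₀ * P := by positivity
  have h1 : (2 * ρ / Q₀ * P) ^ (k - 1) ≤ X₁ ^ (k - 1) := pow_le_pow_left₀ hX₁0.le hX₁ _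
  have h2 : X₁ ^ (k - 1) * X₂ / (2 * Δ) = X₁ ^ (k - 1) * (q / (g₀ * S) / P ^ (e + 1)) := by
    rw [hX₂, ← hΔ₁, ← hD₀]
    field_simp
  have h3 : η / (Cg * Q₀ * A) ≤ q / (g₀ * S) := by
    rw [div_le_div_iff₀ (by positivity) (by positivity)]
    have h4 : g₀ * S ≤ (Cg * H) * Q₀ := mul_le_mul hgcd hSQ (by linarith) (by positivity)
    have h5 := mul_le_mul_of_nonneg_left h4 hη.le
    have h6 : q * (Cg * Q₀ * A) = η * (Cg * H * Q₀) := by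
      calc q * (Cg * Q₀ * A) = (q * A) * (Cg * Q₀) := by ring
        _ = _ := by rw [hAq]; ring
    linarith
  have h4 : η / (Cg * Q₀ * A) / P ^ (e + 1) ≤ q / (g₀ * S) / P ^ (e + 1) :=
    div_le_div_of_nonneg_right h3 (by positivity)
  have h5 := mul_le_mul h1 h4 (by positivity) (le_trans (by positivity) h1)
  rw [h2]
  refine le_trans (le_of_eq ?_) h5
  rw [hc₀, mul_pow]
  field_simp

/-- `f` has a primitive zero close to `ξ` and to `xc` -/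
def ZeroNear (η₀ : ℝ) (ξ : ι → ℝ) (S : ℕ) (xc : ι → ℤ) (f : MvPolynomial ι ℤ) : Prop :=
  ∃ x : ι → ℤ, Prim x ∧ MvPolynomial.eval x f = 0 ∧ (∀ i, (S : ℤ) ∣ x i - xc i) ∧
    ∃ P : ℝ, 0 < P ∧ ∀ i, |(x i : ℝ) - P * ξ i| ≤ η₀ * P

open scoped Classical in
/-- The class theorem: in a class with good local data almost all forms have a zero. -/
theorem class_theorem_of (ι : Type*) [Fintype ι] (hcore : CoreStmt ι)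
    (hsm : ∀ (_ : 4 ≤ Fintype.card ι) (e : ℕ), ∃ Ct : ℝ, 0 < Ct ∧ SM ι e Ct) (hk4 : 4 ≤ Fintype.card ι) (e : ℕ)
    (he : e + 3 ≤ Fintype.card ι) {ε : ℝ} (hε : 0 < ε) :
    ∃ w₀ : ℕ, 1 ≤ w₀ ∧ ∀ w, w₀ ≤ w → ∀ γ : ℝ, 0 < γ → γ ≤ 1 → ∀ Q₀ : ℕ, 1 ≤ Q₀ →
    ∀ η₀ : ℝ, 0 < η₀ → ∃ η : ℝ, 0 < η ∧ η ≤ 1 ∧ η ≤ η₀ ∧ ∃ H₀ : ℝ, ∀ H : ℝ, H₀ ≤ H →
    ∀ (fc : MvPolynomial ι ℤ) (S J : ℕ) (xc v : ι → ℤ) (ξ : ι → ℝ) (i₀ : ι),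
    PData w fc S J xc v → RData e H γ η fc ξ i₀ → S * J ≤ Q₀ →
    (((formsZ ι (e + 2) (η * H / (S * J : ℕ))).filter (fun g =>
      ¬ ZeroNear η₀ ξ S xc (mem' fc S J g))).card : ℝ) ≤
      ε * (formsZ ι (e + 2) (η * H / (S * J : ℕ))).card := by
  obtain ⟨Ct, hCt0, hCt⟩ : ∃ Ct : ℝ, 0 < Ct ∧ SM ι e Ct := hsm hk4 e
  obtain ⟨Cu, hCu0, hCu⟩ : ∃ Cu : ℝ, 0 < Cu ∧ UB ι Cu :=
    unbal_bound ι (by omega : 2 ≤ Fintype.card ι)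
  obtain ⟨Cr, hCr1, hCr⟩ := real_class ι e
  obtain ⟨Cf, hCf1, hCf⟩ := form_bounds (ι := ι) (e + 1)
  obtain ⟨k, hk⟩ : ∃ k, Fintype.card ι = k := ⟨_, rfl⟩
  rw [hk] at hk4 he
  obtain ⟨M, hM⟩ : ∃ M, (mons ι (e + 2)).card = M := ⟨_, rfl⟩
  obtain ⟨c, hc⟩ : ∃ c, c1pt k (e + 1) = c := ⟨_, rfl⟩
  have hk0 : 0 < k := by omega
  have hc0 : 0 < c := by rw [← hc]; unfold c1pt; positivity
  obtain ⟨c', hc'⟩ : ∃ c', cker k e = c' := ⟨_, rfl⟩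
  have hc'0 : 0 < c' := by rw [← hc']; unfold cker c1pt; positivity
  obtain ⟨τ, hτ0, hτ1, hb1, hb0, hτF⟩ := exists_tau k (ε := ε / 2) (by positivity)
  refine ⟨⌈1 / τ⌉₊ + 1, by omega, ?_⟩
  intro w hw γ hγ hγ1 Q₀ hQ₀ η₀ hη₀
  have hw1 : 1 ≤ w := by omega
  have hwr : (1:ℝ) ≤ w := by exact_mod_cast hw1
  have hwτ : 1 / (w : ℝ) ≤ τ := by
    have h1 : 1 / τ ≤ w := by
      refine (Nat.le_ceil _).trans ?_
      have : ⌈1 / τ⌉₊ ≤ w := by omega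
      exact_mod_cast this
    rw [div_le_iff₀ hτ0] at h1
    rw [div_le_iff₀ (by linarith)]
    linarith
  have hQ₀r : (1:ℝ) ≤ Q₀ := by exact_mod_cast hQ₀
  -- constants
  have hCr0 : 0 < Cr := by linarith
  obtain ⟨ρ', hρ'⟩ : ∃ ρ' : ℝ, ρ' = min (τ * γ / (2 * Cr)) η₀ := ⟨_, rfl⟩
  have hρ'0 : 0 < ρ' := by rw [hρ']; exact lt_min (by positivity) hη₀
  have hρ'η₀ : ρ' ≤ η₀ := by rw [hρ']; exact min_le_right _ _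
  have hCρ' : Cr * ρ' ≤ τ * γ / 2 := by
    have h1 : ρ' ≤ τ * γ / (2 * Cr) := by rw [hρ']; exact min_le_left _ _
    have h2 := mul_le_mul_of_nonneg_left h1 hCr0.le
    refine h2.trans (le_of_eq ?_)
    field_simp
  have hρ'τ : ρ' ≤ τ / 2 := by
    have h1 : ρ' ≤ Cr * ρ' := le_mul_of_one_le_left hρ'0.le hCr1
    have h2 : τ * γ ≤ τ := mul_le_of_le_one_right hτ0.le hγ1
    linarith
  have hρ'2 : ρ' ≤ 1 / 2 := by linarith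
  obtain ⟨ρ, hρ⟩ : ∃ ρ : ℝ, ρ = γ * ρ' / (2 * Cr) := ⟨_, rfl⟩
  have hρ0 : 0 < ρ := by rw [hρ]; positivity
  have hCρ : Cr * ρ = γ * ρ' / 2 := by rw [hρ]; field_simp
  have hρρ' : ρ ≤ ρ' := by
    have h1 : ρ ≤ Cr * ρ := le_mul_of_one_le_left hρ0.le hCr1
    have h2 : γ * ρ' ≤ ρ' := mul_le_of_le_one_left hρ'0.le hγ1
    linarith
  obtain ⟨η, hη⟩ : ∃ η : ℝ, η = ρ / 2 := ⟨_, rfl⟩
  have hη0 : 0 < η := by rw [hη]; positivity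
  have hη1 : η ≤ 1 := by linarith
  have hηη₀ : η ≤ η₀ := by linarith
  obtain ⟨Cg, hCg⟩ : ∃ Cg : ℝ, Cg = Cf * ((e + 2) * 2) := ⟨_, rfl⟩
  have hCg0 : 0 < Cg := by rw [hCg]; positivity
  obtain ⟨c₀, hc₀⟩ : ∃ c₀ : ℝ, c₀ = (2 * ρ / Q₀) ^ (k - 1) * (η / (Cg * Q₀)) := ⟨_, rfl⟩
  have hc₀0 : 0 < c₀ := by rw [hc₀]; positivity
  obtain ⟨T, hT⟩ : ∃ T : ℝ, T = (16 * Ct * 4 ^ M * 4 ^ k / (ε * c₀ ^ 2)) ^ 2 + 1 := ⟨_, rfl⟩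
  have hT1 : 1 ≤ T := by
    rw [hT]
    have := sq_nonneg (16 * Ct * 4 ^ M * 4 ^ k / (ε * c₀ ^ 2))
    linarith
  have hTs : 16 * Ct * 4 ^ M * 4 ^ k / (ε * c₀ ^ 2) ≤ Real.sqrt T := by
    apply Real.le_sqrt_of_sq_le
    rw [hT]; linarith
  obtain ⟨N, hN⟩ : ∃ N : ℕ, N = ⌈2 * T⌉₊ := ⟨_, rfl⟩
  have hNT : 2 * T ≤ N := by rw [hN]; exact Nat.le_ceil _
  obtain ⟨K, hK⟩ : ∃ K : ℕ, K = (∏ p ∈ (Finset.range (w + 1)).filter Nat.Prime, p) ^ N := ⟨_, rfl⟩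
  have hK0 : 0 < K := by
    rw [hK]
    apply pow_pos
    apply Finset.prod_pos
    intro p hp
    exact (Finset.mem_filter.mp hp).2.pos
  have hKr : (1:ℝ) ≤ K := by exact_mod_cast hK0
  obtain ⟨τ₂, hτ₂0, hτ₂1, hτ₂2, hτ₂3⟩ := exists_ratio M hτ0
  obtain ⟨c₅, hc₅⟩ : ∃ c₅ : ℝ, c₅ = c + c' * (1 + M * c) / (1 / T) := ⟨_, rfl⟩
  have hT0 : 0 < T := by linarith
  have hc₅c : c ≤ c₅ := by
    rw [hc₅]
    have : 0 ≤ c' * (1 + M * c) / (1 / T) := by positivity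
    linarith
  have hc₅0 : 0 < c₅ := by linarith
  have hc6 : 6 ≤ c := by
    rw [← hc]; unfold c1pt
    have h1 : (1:ℝ) ≤ (6 * k) ^ (e + 1) := by
      apply one_le_pow₀
      have : (1:ℝ) ≤ k := by exact_mod_cast hk0
      linarith
    linarith
  obtain ⟨δ, hδ⟩ : ∃ δ : ℝ, δ = τ₂ / (4 * c₅) := ⟨_, rfl⟩
  have hδ0 : 0 < δ := by rw [hδ]; positivity
  have hδc : c₅ * δ = τ₂ / 4 := by rw [hδ]; field_simp
  have hδ1 : δ ≤ 1 := by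
    rw [hδ, div_le_one (by positivity)]; linarith
  obtain ⟨cR, hcR⟩ : ∃ cR : ℝ, cR = (2 * ρ / Q₀) ^ (k - 1) * (2 * δ * η / (Cg * Q₀)) := ⟨_, rfl⟩
  have hcR0 : 0 < cR := by rw [hcR]; positivity
  obtain ⟨N', hN'⟩ : ∃ N' : ℕ, N' = ⌈6 ^ k / (τ * cR)⌉₊ + 1 := ⟨_, rfl⟩
  have hN'1 : 1 ≤ N' := by omega
  have hN'r : 6 ^ k / (τ * cR) ≤ N' := by
    rw [hN']
    push_cast
    have := Nat.le_ceil (6 ^ k / (τ * cR))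
    linarith
  -- the threshold for Y
  have hev : ∀ᶠ Y : ℝ in atTop, 2 ≤ Y ∧ 64 * (k:ℝ) + 3 ≤ Y ∧ 960 * (k:ℝ) ^ 2 * Y ^ 51 < Real.exp Y ∧
      2 * (32 * c₅ * K + 3072 * c') / τ₂ ≤ Y ∧ (K * N : ℝ) / (τ * δ) ≤ Y ∧
      (K * N + N' : ℝ) * Q₀ / (2 * ρ * τ) ≤ Y ∧
      2 * (K * N + N' : ℝ) * (Cg * Q₀) / (2 * δ * η * τ) ≤ Y ∧
      100 * Cu * 4 ^ (k - 1) / (τ * cR) ≤ Y ∧ 16 * Ct * 3 ^ M * 6 ^ k / (ε * c₀ ^ 2) ≤ Y ∧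
      1 + 1 / τ₂ ≤ Y ∧ 1 / (τ * δ) ≤ Y := by
    filter_upwards [eventually_ge_atTop (2:ℝ), eventually_ge_atTop (64 * (k:ℝ) + 3),
      eventually_exp (960 * (k:ℝ) ^ 2) 51,
      eventually_ge_atTop (2 * (32 * c₅ * K + 3072 * c') / τ₂),
      eventually_ge_atTop ((K * N : ℝ) / (τ * δ)),
      eventually_ge_atTop ((K * N + N' : ℝ) * Q₀ / (2 * ρ * τ)),
      eventually_ge_atTop (2 * (K * N + N' : ℝ) * (Cg * Q₀) / (2 * δ * η * τ)),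
      eventually_ge_atTop (100 * Cu * 4 ^ (k - 1) / (τ * cR)),
      eventually_ge_atTop (16 * Ct * 3 ^ M * 6 ^ k / (ε * c₀ ^ 2)),
      eventually_ge_atTop (1 + 1 / τ₂),
      eventually_ge_atTop (1 / (τ * δ))] with Y h1 h2 h3 h4 h5 h6 h7 h8 h9 h10 h11
    exact ⟨h1, h2, h3, h4, h5, h6, h7, h8, h9, h10, h11⟩
  obtain ⟨Y₁, hY₁⟩ := Filter.eventually_atTop.mp hev
  obtain ⟨Y₀, hY₀⟩ : ∃ Y₀ : ℝ, Y₀ = max Y₁ 1 := ⟨_, rfl⟩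
  have hY₀1 : 1 ≤ Y₀ := by rw [hY₀]; exact le_max_right _ _
  have hY₀Y₁ : Y₁ ≤ Y₀ := by rw [hY₀]; exact le_max_left _ _
  refine ⟨η, hη0, hη1, hηη₀, Q₀ * Y₀ ^ 32 / η, ?_⟩
  intro H hH fc S J xc v ξ i₀ hP hR hq
  obtain ⟨q, hqdef⟩ : ∃ q : ℕ, S * J = q := ⟨_, rfl⟩
  have hq1 : 1 ≤ q := by rw [← hqdef]; exact Nat.mul_pos hP.hS hP.hJ
  have hqr : (1:ℝ) ≤ q := by exact_mod_cast hq1
  have hqQ : (q:ℝ) ≤ Q₀ := by rw [← hqdef]; exact_mod_cast hq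
  have hSq : (S:ℝ) ≤ Q₀ := by
    have : S ≤ S * J := Nat.le_mul_of_pos_right S hP.hJ
    exact_mod_cast this.trans hq
  have hS1 : (1:ℝ) ≤ S := by exact_mod_cast hP.hS
  have hH0 : 0 < H := lt_of_lt_of_le (by positivity) hH
  rw [hqdef]
  obtain ⟨A, hA⟩ : ∃ A : ℝ, η * H / q = A := ⟨_, rfl⟩
  rw [hA]
  have hAq : q * A = η * H := by rw [← hA]; field_simp
  have hA₀ : Y₀ ^ 32 ≤ A := by
    rw [div_le_iff₀ hη0] at hH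
    have h1 : (q:ℝ) * Y₀ ^ 32 ≤ q * A := by
      rw [hAq]
      have : (q:ℝ) * Y₀ ^ 32 ≤ Q₀ * Y₀ ^ 32 := mul_le_mul_of_nonneg_right hqQ (by positivity)
      linarith
    exact le_of_mul_le_mul_left h1 (by linarith)
  have hA0 : 0 < A := lt_of_lt_of_le (by positivity) hA₀
  obtain ⟨Y, hY⟩ : ∃ Y : ℝ, Y = A ^ (((32 : ℕ) : ℝ)⁻¹) := ⟨_, rfl⟩
  have hYA : Y ^ 32 = A := by rw [hY]; exact Real.rpow_inv_natCast_pow hA0.le (by norm_num)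
  have hYnn : 0 ≤ Y := by rw [hY]; positivity
  have hYY₀ : Y₀ ≤ Y := by
    rw [← hYA] at hA₀
    exact le_of_pow_le_pow_left₀ (by norm_num) hYnn hA₀
  obtain ⟨y1, y2, y3, y4, y5, y6, y7, y8, y9, y10, y11⟩ := hY₁ Y (hY₀Y₁.trans hYY₀)
  clear hY₁ hev
  have hY0 : 0 < Y := by linarith
  have hY1 : 1 ≤ Y := by linarith
  obtain ⟨P, hPdef⟩ : ∃ P : ℝ, P = Y ^ 36 := ⟨_, rfl⟩
  have hPY : Y ≤ P := by
    rw [hPdef]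
    calc Y = Y ^ 1 := by ring
      _ ≤ Y ^ 36 := pow_le_pow_right₀ hY1 (by norm_num)
  have hP0 : 0 < P := by linarith
  have hP1 : 1 ≤ P := by linarith
  have hAP : A * Y ≤ P := by
    rw [← hYA, hPdef]
    calc Y ^ 32 * Y = Y ^ 33 := by ring
      _ ≤ Y ^ 36 := pow_le_pow_right₀ hY1 (by norm_num)
  have hAY : Y ≤ A := by
    rw [← hYA]
    calc Y = Y ^ 1 := by ring
      _ ≤ Y ^ 32 := pow_le_pow_right₀ hY1 (by norm_num)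
  -- real data
  have hgcd : |MvPolynomial.aeval ξ (MvPolynomial.pderiv i₀ fc)| ≤ Cg * H := by
    have h1 := (hCf _ _ (hR.hform.pderiv i₀).1 (hR.hform.pderiv i₀).2 1 (by norm_num)).1 ξ hR.hξ
    rw [one_pow, mul_one] at h1
    refine h1.trans (le_of_eq ?_)
    rw [hCg]; push_cast; ring
  have hR' : RData e H γ ρ fc ξ i₀ := by
    refine ⟨hR.hform, hR.hξ, hR.hξr, hR.hfξ.trans ?_, hR.hgξ⟩
    apply mul_le_mul_of_nonneg_left _ (Nat.cast_nonneg _)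
    apply mul_le_mul_of_nonneg_right _ hH0.le
    linarith
  have hCrr : Cr * (ρ' + ρ) ≤ τ * γ := by
    have h1 : γ * ρ' ≤ γ * (τ / 2) := mul_le_mul_of_nonneg_left hρ'τ hγ.le
    rw [mul_add, hCρ]
    have h2 : 0 < τ * γ := mul_pos hτ0 hγ
    linarith
  have hCrr2 : Cr * (ρ + ρ) ≤ γ * ρ' := by
    rw [mul_add, hCρ]; linarith
  obtain ⟨σ, hσ, hslope⟩ := hCr H γ ρ τ ρ ρ' P fc ξ i₀ hR' hH0 hγ hρ0 (by linarith) hτ0 hτ1 hρ0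
    hρρ' (by linarith) hP0 hCrr hCrr2
  have hgξ := hR.hgξ
  obtain ⟨g₀, hg₀⟩ : ∃ g₀ : ℝ, |MvPolynomial.aeval ξ (MvPolynomial.pderiv i₀ fc)| = g₀ := ⟨_, rfl⟩
  rw [hg₀] at hgcd hgξ hslope
  have hg₀0 : 0 < g₀ := lt_of_lt_of_le (by positivity) hgξ
  obtain ⟨D₀, hD₀⟩ : ∃ D₀ : ℝ, g₀ * P ^ (e + 1) = D₀ := ⟨_, rfl⟩
  rw [hD₀] at hslope
  have hD₀0 : 0 < D₀ := by rw [← hD₀]; positivity
  obtain ⟨Δ, hΔ⟩ : ∃ Δ : ℝ, Δ = δ * A * P ^ (e + 2) := ⟨_, rfl⟩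
  have hΔ0 : 0 < Δ := by rw [hΔ]; positivity
  obtain ⟨Δ₁, hΔ₁⟩ : ∃ Δ₁ : ℝ, ((S * J : ℕ) : ℝ) * Δ = Δ₁ := ⟨_, rfl⟩
  have hΔ₁' : Δ₁ = δ * (η * H) * P ^ (e + 2) := by
    rw [← hΔ₁, hqdef, hΔ, ← hAq]; ring
  have hΔ₁0 : 0 < Δ₁ := by rw [hΔ₁']; positivity
  have hΔ₁ρ : Δ₁ ≤ ρ * H * P ^ (e + 2) := by
    rw [hΔ₁']
    apply mul_le_mul_of_nonneg_right _ (by positivity)
    have h1 : δ * (η * H) ≤ 1 * (η * H) := mul_le_mul_of_nonneg_right hδ1 (by positivity)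
    have h2 : η * H ≤ ρ * H := mul_le_mul_of_nonneg_right (by linarith) hH0.le
    linarith
  -- class members
  have hmemS : ∀ A₃ : ℝ, A₃ ≤ 2 * A → ∀ g ∈ formsZ ι (e + 2) A₃,
      SlopeCond σ ((1 - τ) * D₀) ((1 + τ) * D₀) (ρ * H * P ^ (e + 2)) P ξ i₀ ρ ρ'
        (mem' fc S J g) := by
    intro A₃ hA₃ g hg
    unfold mem'
    apply hslope
    refine ((mem_formsZ.mp hg).C_mul _).mono ?_
    rw [hqdef, Int.cast_natCast, abs_of_nonneg (by linarith : (0:ℝ) ≤ q)]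
    have h1 : (q:ℝ) * A₃ ≤ q * (2 * A) := mul_le_mul_of_nonneg_left hA₃ (by linarith)
    have h2 : (q:ℝ) * (2 * A) = ρ * H := by
      have : (q:ℝ) * (2 * A) = 2 * (q * A) := by ring
      rw [this, hAq, hη]; ring
    linarith
  obtain ⟨X₁, hX₁⟩ : ∃ X₁ : ℝ, X₁ = 2 * ρ * P / S := ⟨_, rfl⟩
  obtain ⟨X₂, hX₂⟩ : ∃ X₂ : ℝ, X₂ = 2 * Δ₁ / (D₀ * S) := ⟨_, rfl⟩
  have hX₁0 : 0 < X₁ := by rw [hX₁]; positivity
  have hX₂0 : 0 < X₂ := by rw [hX₂]; positivity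
  have hX₁low : 2 * ρ / Q₀ * P ≤ X₁ := by
    rw [hX₁, div_mul_eq_mul_div]
    exact div_le_div_of_nonneg_left (by positivity) (by linarith) hSq
  have hX₂low : 2 * δ * η / (Cg * Q₀) * P ≤ X₂ := by
    have h1 : X₂ = 2 * δ * η * P * H / (g₀ * S) := by
      rw [hX₂, hΔ₁', ← hD₀, show e + 2 = (e + 1) + 1 by ring, pow_succ]
      field_simp
    rw [h1, div_mul_eq_mul_div, div_le_div_iff₀ (by positivity) (by positivity)]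
    have h2 : g₀ * S ≤ Cg * H * Q₀ := mul_le_mul hgcd hSq (by positivity) (by positivity)
    have h3 := mul_le_mul_of_nonneg_left h2 (by positivity : 0 ≤ 2 * δ * η * P)
    linarith
  have hX₁K : (K * N + N' : ℝ) ≤ τ * X₁ := by
    have h1 : (K * N + N' : ℝ) * Q₀ ≤ Y * (2 * ρ * τ) := by
      rwa [div_le_iff₀ (by positivity)] at y6
    have h2 : (K * N + N' : ℝ) ≤ τ * (2 * ρ / Q₀ * P) := by
      have h3 : τ * (2 * ρ / Q₀ * P) = 2 * ρ * τ * P / Q₀ := by ring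
      rw [h3, le_div_iff₀ (by linarith)]
      have h4 : Y * (2 * ρ * τ) ≤ P * (2 * ρ * τ) := mul_le_mul_of_nonneg_right hPY (by positivity)
      linarith
    exact h2.trans (mul_le_mul_of_nonneg_left hX₁low hτ0.le)
  have hX₂K : 2 * (K * N + N' : ℝ) ≤ τ * X₂ := by
    have h1 : 2 * (K * N + N' : ℝ) * (Cg * Q₀) ≤ Y * (2 * δ * η * τ) := by
      rwa [div_le_iff₀ (by positivity)] at y7
    have h2 : 2 * (K * N + N' : ℝ) ≤ τ * (2 * δ * η / (Cg * Q₀) * P) := by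
      have h3 : τ * (2 * δ * η / (Cg * Q₀) * P) = 2 * δ * η * τ * P / (Cg * Q₀) := by ring
      rw [h3, le_div_iff₀ (by positivity)]
      have h4 : Y * (2 * δ * η * τ) ≤ P * (2 * δ * η * τ) :=
        mul_le_mul_of_nonneg_right hPY (by positivity)
      linarith
    exact h2.trans (mul_le_mul_of_nonneg_left hX₂low hτ0.le)
  have hKN0 : (0:ℝ) ≤ K * N := by positivity
  have hN'0 : (0:ℝ) ≤ N' := Nat.cast_nonneg _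
  obtain ⟨R, hRdef⟩ : ∃ R : ℝ, X₁ ^ (k - 1) * X₂ = R := ⟨_, rfl⟩
  have hR0 : 0 < R := by rw [← hRdef]; positivity
  have hRlow : cR * P ^ k ≤ R := by
    have h1 : (2 * ρ / Q₀ * P) ^ (k - 1) ≤ X₁ ^ (k - 1) := pow_le_pow_left₀ (by positivity) hX₁low _
    have h2 := mul_le_mul h1 hX₂low (by positivity) (by positivity)
    rw [hRdef] at h2
    refine le_trans (le_of_eq ?_) h2
    obtain ⟨n, rfl⟩ : ∃ n, k = n + 1 := ⟨k - 1, by omega⟩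
    rw [hcR, Nat.add_sub_cancel, mul_pow, pow_succ P]; ring
  have hϱlow : c₀ * P ^ (k - 1) / (A * P ^ (e + 1)) ≤ R / (2 * Δ) := by
    rw [← hRdef]
    exact rho_low hc₀ hρ0 hQ₀r hP0 hX₁low hX₂ (by rw [← hΔ₁, hqdef]) hD₀ hΔ0 hS1 hSq hqr hg₀0 hgcd
      hCg0 hH0 hη0 hA0 hAq
  have hsub : (((formsZ ι (e + 2) A).filter (fun g =>
      ¬ ZeroNear η₀ ξ S xc (mem' fc S J g))).card : ℝ) ≤
      (((formsZ ι (e + 2) A).filter (fun g =>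
      ¬ ZeroIn (box P ξ i₀ ρ ρ' S xc) (mem' fc S J g))).card : ℝ) := by
    have : ((formsZ ι (e + 2) A).filter (fun g => ¬ ZeroNear η₀ ξ S xc (mem' fc S J g))) ⊆
      ((formsZ ι (e + 2) A).filter (fun g =>
        ¬ ZeroIn (box P ξ i₀ ρ ρ' S xc) (mem' fc S J g))) := by
      intro g hg
      rw [Finset.mem_filter] at hg ⊢
      refine ⟨hg.1, ?_⟩
      rintro ⟨x, hx, hx1, hx2⟩
      apply hg.2
      have hx' := mem_box.mp hx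
      refine ⟨x, hx1, hx2, hx'.2, P, hP0, fun i => ?_⟩
      have h1 := hx'.1 i
      have h2 : wd i₀ ρ ρ' i ≤ η₀ := by
        unfold wd
        split_ifs
        · exact hρ'η₀
        · exact hρρ'.trans hρ'η₀
      have h3 := mul_le_mul_of_nonneg_left h2 hP0.le
      rw [abs_le]
      constructor
      · linarith [h1.1]
      · linarith [h1.2]
    exact_mod_cast Finset.card_le_card this
  refine hsub.trans ?_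
  exact hcore hk hk4 he hM hc hc' hc0 hc'0 hCt0 hCu0 hCt hCu hε hτ0 hτ1 hb1 hb0 hτF hw1 hwτ
    hT1 hc₀0 hTs hNT hK hK0 hτ₂0 hτ₂1 hτ₂2 hτ₂3 hc₅ hc₅c hδ0 hδ1 hδc hcR0 hN'1 hN'r y1 y2 y3 y4 y5
    y8 y9 y10 y11 hYA hPdef hP hρ0 hρρ' hρ'2 hR.hξ hR.hξr hσ hD₀0 hmemS hΔ hΔ₁ hΔ₁ρ hX₁ hX₂
    hX₁K hX₂K hRdef hRlow hϱlow

end Pool.Agent.Y716.Q
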