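import Mathlib

/-!
# Integral forms with bounded coefficients
-/

namespace Pool.Agent.Y716.Q

variable {ι : Type*}

/-- `f` is a form of degree `d` all of whose coefficients have absolute value `≤ R`. -/
def IsF (d : ℕ) (R : ℝ) (f : MvPolynomial ι ℤ) : Prop :=
  f.IsHomogeneous d ∧ ∀ m, |((f.coeff m : ℤ) : ℝ)| ≤ R

section
variable [Fintype ι]

theorem homog_sum_eq {R : Type*} [CommSemiring R] {d : ℕ} {f : MvPolynomial ι R}
    (hf : f.IsHomogeneous d) {m : ι →₀ ℕ} (hm : f.coeff m ≠ 0) : ∑ i, m i = d := by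
  have := hf hm
  rw [← this, Finsupp.weight_apply, Finsupp.sum_fintype]
  · simp
  · simp

/-- the finite set of exponents -/
noncomputable def mons (ι : Type*) [Fintype ι] (d : ℕ) : Finset (ι →₀ ℕ) := by
  classical exact Finset.finsuppAntidiag Finset.univ d

theorem mem_mons {d : ℕ} {m : ι →₀ ℕ} : m ∈ mons ι d ↔ ∑ i, m i = d := by
  classical
  unfold mons
  rw [Finset.mem_finsuppAntidiag]
  exact ⟨fun h => h.1, fun h => ⟨h, Finset.subset_univ _⟩⟩

theorem finite_formsZ (d : ℕ) (R : ℝ) : {f : MvPolynomial ι ℤ | IsF d R f}.Finite := by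
  classical
  have : Finite {f : MvPolynomial ι ℤ // IsF d R f} := by
    let φ : {f : MvPolynomial ι ℤ // IsF d R f} → (mons ι d → Finset.Icc (-⌈R⌉) ⌈R⌉) :=
      fun f m => ⟨f.1.coeff m.1, by
        have h := f.2.2 m.1
        rw [abs_le] at h
        rw [Finset.mem_Icc]
        constructor
        · have : -(⌈R⌉ : ℝ) ≤ ((f.1.coeff m.1 : ℤ) : ℝ) := by
            have := Int.le_ceil R
            linarith [h.1]
          exact_mod_cast this
        · have : ((f.1.coeff m.1 : ℤ) : ℝ) ≤ (⌈R⌉ : ℝ) := h.2.trans (Int.le_ceil R)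
          exact_mod_cast this⟩
    apply Finite.of_injective φ
    intro f g hfg
    apply Subtype.ext
    apply MvPolynomial.ext
    intro m
    by_cases hm : m ∈ mons ι d
    · have := congrFun hfg ⟨m, hm⟩
      exact congrArg Subtype.val this
    · have h1 : ∀ h : MvPolynomial ι ℤ, IsF d R h → h.coeff m = 0 := by
        intro h hh
        by_contra hne
        exact hm (mem_mons.mpr (homog_sum_eq hh.1 hne))
      rw [h1 _ f.2, h1 _ g.2]
  exact Set.finite_coe_iff.mp this

/-- The finite set of integral forms of degree `d` with coefficients bounded by `R`. -/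
noncomputable def formsZ (ι : Type*) [Fintype ι] (d : ℕ) (R : ℝ) : Finset (MvPolynomial ι ℤ) :=
  (finite_formsZ (ι := ι) d R).toFinset

theorem mem_formsZ {d : ℕ} {R : ℝ} {f : MvPolynomial ι ℤ} : f ∈ formsZ ι d R ↔ IsF d R f := by
  simp [formsZ]

/-- The number of forms. -/
theorem card_formsZ (d : ℕ) {R : ℝ} (hR : 0 ≤ R) :
    (formsZ ι d R).card = (2 * ⌊R⌋₊ + 1) ^ (mons ι d).card := by
  classical
  have hpi : (Fintype.piFinset (fun _ : mons ι d => Finset.Icc (-(⌊R⌋₊ : ℤ)) ⌊R⌋₊)).card =
      (2 * ⌊R⌋₊ + 1) ^ (mons ι d).card := by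
    rw [Fintype.card_piFinset]
    simp only [Int.card_Icc]
    rw [Finset.prod_const, Finset.card_univ, Fintype.card_coe]
    congr 1
    omega
  have hkey : ∀ c : ℤ, |(c : ℝ)| ≤ R ↔ c ∈ Finset.Icc (-(⌊R⌋₊ : ℤ)) ⌊R⌋₊ := by
    intro c
    have habs : |(c : ℝ)| = (c.natAbs : ℝ) := by
      rw [Nat.cast_natAbs, Int.cast_abs]
    rw [Finset.mem_Icc, ← abs_le, habs, Int.abs_eq_natAbs]
    constructor
    · intro h
      have : c.natAbs ≤ ⌊R⌋₊ := Nat.le_floor h
      exact_mod_cast this
    · intro h
      have h1 : c.natAbs ≤ ⌊R⌋₊ := by exact_mod_cast h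
      have h2 := Nat.floor_le hR
      have h3 : ((c.natAbs : ℕ) : ℝ) ≤ (⌊R⌋₊ : ℝ) := by exact_mod_cast h1
      exact h3.trans h2
  rw [← hpi]
  apply Finset.card_bij (fun f _ (m : mons ι d) => f.coeff m.1)
  · intro f hf
    rw [Fintype.mem_piFinset]
    intro m
    rw [← hkey]
    exact (mem_formsZ.mp hf).2 m.1
  · intro f hf g hg hfg
    apply MvPolynomial.ext
    intro m
    by_cases hm : m ∈ mons ι d
    · exact congrFun hfg ⟨m, hm⟩
    · have h1 : ∀ h : MvPolynomial ι ℤ, IsF d R h → h.coeff m = 0 := by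
        intro h hh
        by_contra hne
        exact hm (mem_mons.mpr (homog_sum_eq hh.1 hne))
      rw [h1 _ (mem_formsZ.mp hf), h1 _ (mem_formsZ.mp hg)]
  · intro c hc
    rw [Fintype.mem_piFinset] at hc
    set f : MvPolynomial ι ℤ := ∑ m : mons ι d, MvPolynomial.monomial m.1 (c m) with hf
    have hco : ∀ m : ι →₀ ℕ, f.coeff m = if h : m ∈ mons ι d then c ⟨m, h⟩ else 0 := by
      intro m
      rw [hf, MvPolynomial.coeff_sum]
      simp only [MvPolynomial.coeff_monomial]
      split_ifs with h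
      · rw [Finset.sum_eq_single (⟨m, h⟩ : mons ι d)]
        · simp
        · intro b _ hb
          rw [if_neg]
          intro h'
          exact hb (Subtype.ext h')
        · intro h'; exact absurd (Finset.mem_univ _) h'
      · apply Finset.sum_eq_zero
        intro b _
        rw [if_neg]
        intro h'
        exact h (h' ▸ b.2)
    refine ⟨f, ?_, ?_⟩
    · rw [mem_formsZ]
      refine ⟨?_, ?_⟩
      · rw [hf]
        apply MvPolynomial.IsHomogeneous.sum
        intro m _
        apply MvPolynomial.isHomogeneous_monomial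
        rw [Finsupp.degree_eq_sum]
        exact mem_mons.mp m.2
      · intro m
        rw [hco]
        split_ifs with h
        · exact (hkey _).mpr (hc _)
        · simpa using hR
    · funext m
      rw [hco]
      simp

end

end Pool.Agent.Y716.Q
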