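import Pool.Agent.Y716.Q.Extract
import Pool.Agent.Y716.Q.ClassThm

/-!
# The number of exceptional forms over the integers
-/

namespace Pool.Agent.Y716.Q

variable {ι : Type*} [Fintype ι]

theorem IsF.aeval_le_one {d : ℕ} {R : ℝ} {f : MvPolynomial ι ℤ} (hf : IsF d R f)
    {ξ : ι → ℝ} (hξ : ∀ i, |ξ i| ≤ 1) :
    |MvPolynomial.aeval ξ f| ≤ (mons ι d).card * R := by
  classical
  have h1 : MvPolynomial.aeval ξ f = ∑ m ∈ mons ι d, ((f.coeff m : ℤ) : ℝ) * ∏ i, ξ i ^ m i := by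
    rw [MvPolynomial.aeval_def, MvPolynomial.eval₂_eq']
    apply Finset.sum_subset
    · intro m hm
      rw [mem_mons]
      exact homog_sum_eq hf.1 (MvPolynomial.mem_support_iff.mp hm)
    · intro m _ hm
      rw [MvPolynomial.notMem_support_iff.mp hm, map_zero, zero_mul]
  rw [h1]
  refine (Finset.abs_sum_le_sum_abs _ _).trans ?_
  have h2 : ∀ m ∈ mons ι d, |((f.coeff m : ℤ) : ℝ) * ∏ i, ξ i ^ m i| ≤ R := by
    intro m hm
    rw [abs_mul]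
    have h3 : |∏ i, ξ i ^ m i| ≤ 1 := by
      rw [Finset.abs_prod]
      apply Finset.prod_le_one
      · intro i _; exact abs_nonneg _
      · intro i _
        rw [abs_pow]
        exact pow_le_one₀ (abs_nonneg _) (hξ i)
    calc |((f.coeff m : ℤ) : ℝ)| * |∏ i, ξ i ^ m i| ≤ R * 1 :=
          mul_le_mul (hf.2 m) h3 (abs_nonneg _) hf.nonneg
      _ = R := mul_one R
  refine (Finset.sum_le_sum h2).trans ?_
  rw [Finset.sum_const, nsmul_eq_mul]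

/-- approximate zeros at all places, close to a target -/
def LocSolT (N : ℕ) (c : ι → ℤ) (ζ : ι → ℝ) (δ : ℝ) (f : MvPolynomial ι ℤ) : Prop :=
  (∀ p : ℕ, p.Prime → ∀ E : ℕ, ∃ (r : ι) (x : ι → ℤ), x r = 1 ∧
    (p : ℤ) ^ E ∣ MvPolynomial.eval x f ∧ ∀ a : ℕ, p ^ a ∣ N → ∀ i, (p : ℤ) ^ a ∣ x i - c i) ∧
  ∃ (r : ι) (ξ : ι → ℝ), ξ r = 1 ∧ (∀ i, |ξ i| ≤ 1) ∧ (∀ i, |ξ i - ζ i| ≤ δ) ∧
    MvPolynomial.aeval ξ f = 0

/-- primitive integral zeros close to a target -/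
def SolT (N : ℕ) (c : ι → ℤ) (ζ : ι → ℝ) (δ : ℝ) (f : MvPolynomial ι ℤ) : Prop :=
  ∃ x : ι → ℤ, Prim x ∧ MvPolynomial.eval x f = 0 ∧ (∀ i, (N : ℤ) ∣ x i - c i) ∧
    ∃ P : ℝ, 0 < P ∧ ∀ i, |(x i : ℝ) - P * ζ i| ≤ 2 * δ * P

/-- non-degenerate local data -/
def GoodD (w : ℕ) (γ H : ℝ) (Q N : ℕ) (c : ι → ℤ) (ζ : ι → ℝ) (δ : ℝ)
    (f : MvPolynomial ι ℤ) : Prop :=
  ∃ (S J : ℕ) (xc v : ι → ℤ) (ξ : ι → ℝ) (i₀ : ι), PData w f S J xc v ∧ S * J = Q ∧ (N : ℤ) ∣ S ∧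
    (∀ i, (N : ℤ) ∣ xc i - c i) ∧ (∃ r, ξ r = 1) ∧ (∀ i, |ξ i| ≤ 1) ∧ (∀ i, |ξ i - ζ i| ≤ δ) ∧
    MvPolynomial.aeval ξ f = 0 ∧ 2 * γ * H ≤ |MvPolynomial.aeval ξ (MvPolynomial.pderiv i₀ f)|

/-- the data of a class -/
def ClassD (e w : ℕ) (γ η H : ℝ) (Q N : ℕ) (c : ι → ℤ) (ζ : ι → ℝ) (δ : ℝ)
    (f : MvPolynomial ι ℤ) : Prop :=
  ∃ (S J : ℕ) (xc v : ι → ℤ) (ξ : ι → ℝ) (i₀ : ι), PData w f S J xc v ∧ S * J = Q ∧ (N : ℤ) ∣ S ∧
    (∀ i, (N : ℤ) ∣ xc i - c i) ∧ (∀ i, |ξ i - ζ i| ≤ δ) ∧ RData e H γ η f ξ i₀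

omit [Fintype ι] in
theorem mem'_neg (f g : MvPolynomial ι ℤ) {S J Q : ℕ} (hQ : S * J = Q) :
    mem' f S J (-g) = f - MvPolynomial.C (Q : ℤ) * g := by
  unfold mem'
  rw [hQ]; ring

theorem GoodD.shift {e w : ℕ} {γ η H Cf : ℝ} {Q N : ℕ} {c : ι → ℤ} {ζ : ι → ℝ} {δ : ℝ}
    {f g : MvPolynomial ι ℤ} (hQ : 1 ≤ Q) (h : GoodD w γ H Q N c ζ δ f) (hH : 0 ≤ H) (hη : 0 ≤ η)
    (hη1 : η ≤ 1)
    (hCf : ∀ (f : MvPolynomial ι ℤ) (R : ℝ), IsF (e + 1) R f →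
      ∀ x : ι → ℝ, (∀ i, |x i| ≤ 1) → |MvPolynomial.aeval x f| ≤ Cf * R)
    (hηC : Cf * (e + 2) * η ≤ γ) (hf : IsF (e + 2) H f) (hg : IsF (e + 2) (η * H / Q) g) :
    ClassD e w γ η H Q N c ζ δ (f - MvPolynomial.C (Q : ℤ) * g) := by
  obtain ⟨S, J, xc, v, ξ, i₀, h1, h2, h3, h4, h5, h6, h7, h8, h9⟩ := h
  obtain ⟨v', hv'⟩ := h1.shift (-g)
  rw [mem'_neg f g h2] at hv'
  have hQr : (0:ℝ) < Q := by exact_mod_cast hQ
  have hQA : |((Q : ℤ) : ℝ)| * (η * H / Q) = η * H := by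
    rw [Int.cast_natCast, abs_of_pos hQr]
    field_simp
  have hQg : IsF (e + 2) (η * H) (MvPolynomial.C (Q : ℤ) * g) := by
    have := hg.C_mul (Q : ℤ)
    rwa [hQA] at this
  have hηH : η * H ≤ H := mul_le_of_le_one_left hH hη1
  refine ⟨S, J, xc, v', ξ, i₀, hv', h2, h3, h4, h7, ?_⟩
  refine ⟨(hf.sub hQg).mono (by linarith), h6, h5, ?_, ?_⟩
  · rw [map_sub, h8, zero_sub, abs_neg]
    exact hQg.aeval_le_one h6
  · rw [map_sub, map_sub]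
    have h10 := hCf _ _ (hQg.pderiv i₀) ξ h6
    have h11 := abs_sub_abs_le_abs_sub (MvPolynomial.aeval ξ (MvPolynomial.pderiv i₀ f))
      (MvPolynomial.aeval ξ (MvPolynomial.pderiv i₀ (MvPolynomial.C (Q : ℤ) * g)))
    have h12 : Cf * (((e + 1 : ℕ) : ℝ) + 1) * (η * H) ≤ γ * H := by
      have := mul_le_mul_of_nonneg_right hηC hH
      push_cast
      linarith
    push_cast at h10 h12
    linarith

open scoped Classical in
/-- averaging over the classes -/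
theorem avg_count {e w : ℕ} {γ η H Cf : ℝ} {Q N : ℕ} {c : ι → ℤ} {ζ : ι → ℝ} {δ : ℝ}
    (hQ : 1 ≤ Q) (hH : 0 ≤ H) (hη : 0 ≤ η) (hη1 : η ≤ 1)
    (hCf : ∀ (f : MvPolynomial ι ℤ) (R : ℝ), IsF (e + 1) R f →
      ∀ x : ι → ℝ, (∀ i, |x i| ≤ 1) → |MvPolynomial.aeval x f| ≤ Cf * R)
    (hηC : Cf * (e + 2) * η ≤ γ) (q : MvPolynomial ι ℤ → Prop) {ε : ℝ} (hε : 0 ≤ ε)
    (hcl : ∀ f, ClassD e w γ η H Q N c ζ δ f →
      (((formsZ ι (e + 2) (η * H / Q)).filter (fun g =>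
        q (f + MvPolynomial.C (Q : ℤ) * g))).card : ℝ) ≤
        ε * (formsZ ι (e + 2) (η * H / Q)).card) :
    (((formsZ ι (e + 2) H).filter (fun f => GoodD w γ H Q N c ζ δ f ∧ q f)).card : ℝ) ≤
      ε * (formsZ ι (e + 2) (2 * H)).card := by
  obtain ⟨G', hG'⟩ : ∃ G', G' = formsZ ι (e + 2) (η * H / Q) := ⟨_, rfl⟩
  rw [← hG'] at hcl
  have hQr : (0:ℝ) < Q := by exact_mod_cast hQ
  have hA0 : 0 ≤ η * H / Q := by positivity
  have hG0 : (0:ℝ) < G'.card := by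
    rw [hG']; exact_mod_cast card_forms_pos (ι := ι) (e + 2) hA0
  have h1 : ((formsZ ι (e + 2) H).filter (fun f => GoodD w γ H Q N c ζ δ f ∧ q f)).card *
      G'.card ≤
      ∑ f ∈ (formsZ ι (e + 2) (2 * H)).filter (fun f => ClassD e w γ η H Q N c ζ δ f),
        (G'.filter (fun g => q (f + MvPolynomial.C (Q : ℤ) * g))).card := by
    rw [← Finset.card_product, ← Finset.card_sigma]
    apply Finset.card_le_card_of_injOn
      (fun r => (⟨r.1 - MvPolynomial.C (Q : ℤ) * r.2, r.2⟩ :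
        (_ : MvPolynomial ι ℤ) × MvPolynomial ι ℤ))
    · rintro ⟨f, g⟩ hr
      simp only [Finset.coe_product, Set.mem_prod, Finset.mem_coe, Finset.mem_filter] at hr
      obtain ⟨⟨h1, h2, h3⟩, h4⟩ := hr
      simp only [Finset.mem_coe, Finset.mem_sigma, Finset.mem_filter]
      have hg : IsF (e + 2) (η * H / Q) g := by rw [hG'] at h4; exact mem_formsZ.mp h4
      have hcd := h2.shift hQ hH hη hη1 hCf hηC (mem_formsZ.mp h1) hg
      refine ⟨⟨mem_formsZ.mpr ?_, hcd⟩, h4, ?_⟩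
      · obtain ⟨S, J, xc, v, ξ, i₀, _, _, _, _, _, h⟩ := hcd
        exact h.hform
      · have : f - MvPolynomial.C (Q : ℤ) * g + MvPolynomial.C (Q : ℤ) * g = f := by ring
        rw [this]
        exact h3
    · rintro ⟨f, g⟩ _ ⟨f', g'⟩ _ heq
      simp only [Sigma.mk.injEq] at heq
      obtain ⟨h1, h2⟩ := heq
      have h2' : g = g' := eq_of_heq h2
      subst h2'
      have : f = f' := sub_left_injective h1
      rw [this]
  have h2 : (((formsZ ι (e + 2) H).filter (fun f => GoodD w γ H Q N c ζ δ f ∧ q f)).card : ℝ) *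
      G'.card ≤ (ε * (formsZ ι (e + 2) (2 * H)).card) * G'.card := by
    have h3 := (Nat.cast_le (α := ℝ)).mpr h1
    push_cast at h3
    refine h3.trans ?_
    calc _ ≤ ((formsZ ι (e + 2) (2 * H)).filter
            (fun f => ClassD e w γ η H Q N c ζ δ f)).card • (ε * (G'.card : ℝ)) :=
          Finset.sum_le_card_nsmul _ _ _ (fun f hf => hcl f (Finset.mem_filter.mp hf).2)
      _ = (((formsZ ι (e + 2) (2 * H)).filter
            (fun f => ClassD e w γ η H Q N c ζ δ f)).card : ℝ) * (ε * (G'.card : ℝ)) := by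
          rw [nsmul_eq_mul]
      _ ≤ ((formsZ ι (e + 2) (2 * H)).card : ℝ) * (ε * (G'.card : ℝ)) := by
          apply mul_le_mul_of_nonneg_right _ (by positivity)
          exact_mod_cast Finset.card_filter_le _ _
      _ = _ := by ring
  exact le_of_mul_le_mul_right h2 hG0

end Pool.Agent.Y716.Q
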