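import Pool.Agent.Y716.Q.Exc
import Pool.Agent.Y716.Q.Class

/-!
# The number of exceptional forms over the integers, conclusion
-/

namespace Pool.Agent.Y716.Q

variable {ι : Type*} [Fintype ι]

theorem ZeroNear.solT {η₀ δ : ℝ} {ξ ζ : ι → ℝ} {S N : ℕ} {xc c : ι → ℤ} {f : MvPolynomial ι ℤ}
    (h : ZeroNear η₀ ξ S xc f) (hη : η₀ ≤ δ) (hNS : (N : ℤ) ∣ S) (hNx : ∀ i, (N : ℤ) ∣ xc i - c i)
    (hζ : ∀ i, |ξ i - ζ i| ≤ δ) : SolT N c ζ δ f := by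
  obtain ⟨x, h1, h2, h3, P, hP, h4⟩ := h
  refine ⟨x, h1, h2, fun i => ?_, P, hP, fun i => ?_⟩
  · have := dvd_add (hNS.trans (h3 i)) (hNx i)
    simpa using this
  · have h5 : |(x i : ℝ) - P * ζ i| ≤ |(x i : ℝ) - P * ξ i| + |P * (ξ i - ζ i)| := by
      have : (x i : ℝ) - P * ζ i = ((x i : ℝ) - P * ξ i) + P * (ξ i - ζ i) := by ring
      rw [this]
      exact abs_add_le _ _
    rw [abs_mul, abs_of_pos hP] at h5
    have h6 := mul_le_mul_of_nonneg_left (hζ i) hP.le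
    have h7 := mul_le_mul_of_nonneg_right hη hP.le
    have h8 := h4 i
    linarith

/-- degenerate real zeros -/
def BadR (γ H : ℝ) (f : MvPolynomial ι ℤ) : Prop :=
  ∃ (r : ι) (ξ : ι → ℝ), ξ r = 1 ∧ (∀ i, |ξ i| ≤ 1) ∧
      |MvPolynomial.aeval ξ f| ≤ γ ^ 2 * H ∧
      ∀ i, |MvPolynomial.aeval ξ (MvPolynomial.pderiv i f)| ≤ γ * H

theorem formsZ_mono {d : ℕ} {R R' : ℝ} (h : R ≤ R') : formsZ ι d R ⊆ formsZ ι d R' := by
  intro f hf
  exact mem_formsZ.mpr ((mem_formsZ.mp hf).mono h)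

theorem prime_pow_cond {N w ℓ : ℕ} (hN : 1 ≤ N) (hw : N ≤ w) (hℓ : N ≤ ℓ) :
    ∀ p a : ℕ, p.Prime → p ^ (a + 1) ∣ N → p ≤ w ∧ a + 1 ≤ ℓ := by
  intro p a hp hd
  have h1 := Nat.le_of_dvd hN hd
  have h2 : p ≤ p ^ (a + 1) := Nat.le_self_pow (by omega) p
  have h3 : a + 1 < 2 ^ (a + 1) := Nat.lt_two_pow_self
  have h4 : 2 ^ (a + 1) ≤ p ^ (a + 1) := Nat.pow_le_pow_left hp.two_le _
  omega

theorem card_filter_le' {α : Type*} (s : Finset α) (p q : α → Prop) {_hp : DecidablePred p}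
    {_hq : DecidablePred q} (h : ∀ x ∈ s, p x → q x) :
    ((s.filter p).card : ℝ) ≤ ((s.filter q).card : ℝ) := by
  have : s.filter p ⊆ s.filter q := by
    intro x hx
    rw [Finset.mem_filter] at hx ⊢
    exact ⟨hx.1, h x hx.1 hx.2⟩
  exact_mod_cast Finset.card_le_card this

open scoped Classical in
/-- Almost all forms with approximate zeros at all places near a target have an integral zero
near the target. -/
theorem exc_count (ι : Type*) [Fintype ι] (hk4 : 4 ≤ Fintype.card ι) (e : ℕ)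
    (he : e + 3 ≤ Fintype.card ι) {N : ℕ} (hN : 1 ≤ N) (c : ι → ℤ) (ζ : ι → ℝ) {δ : ℝ} (hδ : 0 < δ)
    {ε : ℝ} (hε : 0 < ε) : ∃ H₀ : ℝ, ∀ H : ℝ, H₀ ≤ H →
    (((formsZ ι (e + 2) H).filter (fun f => LocSolT N c ζ δ f ∧ ¬ SolT N c ζ δ f)).card : ℝ) ≤
        ε * (formsZ ι (e + 2) H).card := by
  obtain ⟨M, hM⟩ : ∃ M, (mons ι (e + 2)).card = M := ⟨_, rfl⟩
  obtain ⟨k, hk⟩ : ∃ k, Fintype.card ι = k := ⟨_, rfl⟩
  have hM0 : (0:ℝ) < 3 ^ M := by positivity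
  obtain ⟨w₀, hw₀1, hcl⟩ := class_theorem ι hk4 e he (ε := ε / (4 * 3 ^ M)) (by positivity)
  obtain ⟨w, hw⟩ : ∃ w, w = w₀ + N := ⟨_, rfl⟩
  obtain ⟨Cb, hCb0, hCb⟩ := bad_count_real (ι := ι) e
  obtain ⟨Cf, hCf1, hCf⟩ := form_bounds (ι := ι) (e + 1)
  have hCf0 : 0 < Cf := by linarith
  have hCf' : ∀ (f : MvPolynomial ι ℤ) (R : ℝ), IsF (e + 1) R f →
      ∀ x : ι → ℝ, (∀ i, |x i| ≤ 1) → |MvPolynomial.aeval x f| ≤ Cf * R := by
    intro f R hf x hx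
    have := (hCf f R hf.1 hf.2 1 (by norm_num)).1 x hx
    rwa [one_pow, mul_one] at this
  obtain ⟨γ₂, hγ₂⟩ : ∃ γ₂ : ℝ, γ₂ = min 1 (ε / (4 * Cb * 3 ^ M)) := ⟨_, rfl⟩
  have hγ₂0 : 0 < γ₂ := by rw [hγ₂]; exact lt_min one_pos (by positivity)
  have hγ₂1 : γ₂ ≤ 1 := by rw [hγ₂]; exact min_le_left _ _
  have hγ₂C : Cb * γ₂ ^ 2 * 3 ^ M ≤ ε / 4 := by
    have h1 : γ₂ ≤ ε / (4 * Cb * 3 ^ M) := by rw [hγ₂]; exact min_le_right _ _
    have h2 : γ₂ ^ 2 ≤ γ₂ := by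
      rw [sq]; exact mul_le_of_le_one_left hγ₂0.le hγ₂1
    rw [le_div_iff₀ (by positivity)] at h1
    have h3 : Cb * 3 ^ M * γ₂ ^ 2 ≤ Cb * 3 ^ M * γ₂ := mul_le_mul_of_nonneg_left h2 (by positivity)
    linarith
  obtain ⟨γ, hγ⟩ : ∃ γ : ℝ, γ = γ₂ / 2 := ⟨_, rfl⟩
  have hγ0 : 0 < γ := by rw [hγ]; positivity
  have hγ1 : γ ≤ 1 := by linarith
  obtain ⟨ℓ₀, hℓ₀⟩ : ∃ ℓ₀ : ℕ, (1 / 2 : ℝ) ^ ℓ₀ < ε / (4 * ((w + 1) * k * 3 ^ M) + 1) :=
    exists_pow_lt_of_lt_one (by positivity) (by norm_num)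
  obtain ⟨ℓ, hℓ⟩ : ∃ ℓ : ℕ, ℓ = ℓ₀ + N := ⟨_, rfl⟩
  have hℓ1 : 1 ≤ ℓ := by omega
  have hℓε : (1 / 2 : ℝ) ^ ℓ * ((w + 1) * k * 3 ^ M) ≤ ε / 4 := by
    have h1 : (1 / 2 : ℝ) ^ ℓ ≤ (1 / 2) ^ ℓ₀ :=
      pow_le_pow_of_le_one (by norm_num) (by norm_num) (by omega)
    have h2 : (0:ℝ) ≤ (w + 1) * k * 3 ^ M := by positivity
    have h3 := h1.trans hℓ₀.le
    rw [le_div_iff₀ (by positivity)] at h3
    have h4 : (0:ℝ) ≤ (1 / 2) ^ ℓ := by positivity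
    linarith
  obtain ⟨Q, hQ⟩ : ∃ Q : ℕ, Q = (∏ p ∈ primesUpTo w, p) ^ (2 * ℓ) := ⟨_, rfl⟩
  have hQ1 : 1 ≤ Q := by
    rw [hQ]
    exact pow_pos (Finset.prod_pos (fun p hp => (mem_primesUpTo.mp hp).2.pos)) _
  obtain ⟨η₀, hη₀⟩ : ∃ η₀ : ℝ, η₀ = min δ (γ / (Cf * (e + 2))) := ⟨_, rfl⟩
  have hη₀0 : 0 < η₀ := by rw [hη₀]; exact lt_min hδ (by positivity)
  have hη₀δ : η₀ ≤ δ := by rw [hη₀]; exact min_le_left _ _
  have hη₀γ : η₀ ≤ γ / (Cf * (e + 2)) := by rw [hη₀]; exact min_le_right _ _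
  obtain ⟨η, hη0, hη1, hηη₀, H₁, hH₁⟩ := hcl w (by omega) γ hγ0 hγ1 Q hQ1 η₀ hη₀0
  have hηC : Cf * (e + 2) * η ≤ γ := by
    have h1 := hηη₀.trans hη₀γ
    rw [le_div_iff₀ (by positivity)] at h1
    linarith
  refine ⟨max (max H₁ 2) (max (1 / γ₂ ^ 2) ((w : ℝ) ^ ℓ)), fun H hH => ?_⟩
  have hH1 : H₁ ≤ H := (le_max_left _ _).trans ((le_max_left _ _).trans hH)
  have hH2 : 2 ≤ H := (le_max_right _ _).trans ((le_max_left _ _).trans hH)
  have hH3 : 1 / γ₂ ^ 2 ≤ H := (le_max_left _ _).trans ((le_max_right _ _).trans hH)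
  have hH4 : (w : ℝ) ^ ℓ ≤ H := (le_max_right _ _).trans ((le_max_right _ _).trans hH)
  have hH0 : 0 < H := by linarith
  obtain ⟨G, hG⟩ : ∃ G : ℝ, ((formsZ ι (e + 2) H).card : ℝ) = G := ⟨_, rfl⟩
  have hG0 : 0 < G := by
    rw [← hG]
    exact_mod_cast card_forms_pos (ι := ι) (e + 2) hH0.le
  have h2H : ((formsZ ι (e + 2) (2 * H)).card : ℝ) ≤ 3 ^ M * G := by
    have := card_forms_upper (ι := ι) (e + 2) (A := H) (R := 2 * H) (c := 3)
      (by linarith) (by linarith) (by norm_num) (by linarith)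
    rwa [hM, hG] at this
  -- good forms
  have hgood : (((formsZ ι (e + 2) H).filter (fun f => GoodD w γ H Q N c ζ δ f ∧
      ¬ SolT N c ζ δ f)).card : ℝ) ≤ ε / 4 * G := by
    have h1 := avg_count (e := e) (w := w) (γ := γ) (η := η) (H := H) (Cf := Cf) (Q := Q) (N := N)
      (c := c) (ζ := ζ) (δ := δ) hQ1 hH0.le hη0.le hη1 hCf' hηC (fun f => ¬ SolT N c ζ δ f)
      (ε := ε / (4 * 3 ^ M)) (by positivity) (by
        rintro f ⟨S, J, xc, v, ξ, i₀, h1, h2, h3, h4, h5, h6⟩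
        have h7 := hH₁ H hH1 f S J xc v ξ i₀ h1 h6 h2.le
        rw [h2] at h7
        refine (card_filter_le' _ _ _ (fun g _ hg hz => hg ?_)).trans h7
        have h9 := hz.solT hη₀δ h3 h4 h5
        unfold mem' at h9
        rwa [h2] at h9)
    refine (card_filter_le' _ _ _ (fun _ _ h => h)).trans (h1.trans ?_)
    have h2 := mul_le_mul_of_nonneg_left h2H (by positivity : 0 ≤ ε / (4 * 3 ^ M))
    refine h2.trans (le_of_eq ?_)
    field_simp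
  -- degenerate real zeros
  have hbadR : (((formsZ ι (e + 2) H).filter (fun f => BadR γ₂ H f)).card : ℝ) ≤ ε / 4 * G := by
    have h1 := hCb γ₂ H hγ₂0 hγ₂1 (by
      rw [div_le_iff₀ (by positivity)] at hH3
      linarith)
    have h2 : (((formsZ ι (e + 2) H).filter (fun f => BadR γ₂ H f)).card : ℝ) ≤
        Cb * γ₂ ^ 2 * (formsZ ι (e + 2) (2 * H)).card :=
      (card_filter_le' _ _ _ (fun _ _ h => h)).trans h1
    have h3 := mul_le_mul_of_nonneg_left h2H (by positivity : 0 ≤ Cb * γ₂ ^ 2)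
    have h4 := mul_le_mul_of_nonneg_right hγ₂C hG0.le
    linarith
  -- degenerate zeros modulo prime powers
  have hbadP : ∀ p ∈ primesUpTo w, (((formsZ ι (e + 2) H).filter
      (fun f => BadAt (p ^ ℓ) f)).card : ℝ) ≤ (1 / 2 : ℝ) ^ ℓ * (k * (3 ^ M * G)) := by
    intro p hp
    obtain ⟨hp1, hp2⟩ := mem_primesUpTo.mp hp
    have h1 := bad_count_int (ι := ι) e (p ^ ℓ) (Nat.pos_of_ne_zero (pow_ne_zero _ hp2.ne_zero)) H
      hH0.le
    have h2 : (((formsZ ι (e + 2) H).filter (fun f => BadAt (p ^ ℓ) f)).card : ℝ) *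
        ((p ^ ℓ : ℕ) : ℝ) ≤ k * ((formsZ ι (e + 2) (H + (p ^ ℓ : ℕ))).card : ℝ) := by
      rw [← hk]
      have h1' := (Nat.cast_le (α := ℝ)).mpr h1
      rw [Nat.cast_mul, Nat.cast_mul] at h1'
      exact (mul_le_mul_of_nonneg_right (card_filter_le' _ _ _ (fun _ _ h => h))
        (Nat.cast_nonneg _)).trans h1'
    have h3 : ((p ^ ℓ : ℕ) : ℝ) ≤ H := by
      refine le_trans ?_ hH4
      push_cast
      apply pow_le_pow_left₀ (Nat.cast_nonneg _)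
      exact_mod_cast hp1
    have h4 : ((formsZ ι (e + 2) (H + (p ^ ℓ : ℕ))).card : ℝ) ≤ 3 ^ M * G := by
      refine le_trans ?_ h2H
      exact_mod_cast Finset.card_le_card (formsZ_mono (by linarith))
    have h5 : (2:ℝ) ^ ℓ ≤ ((p ^ ℓ : ℕ) : ℝ) := by
      push_cast
      apply pow_le_pow_left₀ (by norm_num)
      exact_mod_cast hp2.two_le
    have h6 : (((formsZ ι (e + 2) H).filter (fun f => BadAt (p ^ ℓ) f)).card : ℝ) * 2 ^ ℓ ≤
        k * (3 ^ M * G) :=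
      (mul_le_mul_of_nonneg_left h5 (Nat.cast_nonneg _)).trans
        (h2.trans (mul_le_mul_of_nonneg_left h4 (Nat.cast_nonneg _)))
    rw [one_div, inv_pow, inv_mul_eq_div, le_div_iff₀ (by positivity)]
    exact h6
  -- covering
  have hcov : (formsZ ι (e + 2) H).filter (fun f => LocSolT N c ζ δ f ∧ ¬ SolT N c ζ δ f) ⊆
      ((formsZ ι (e + 2) H).filter (fun f => GoodD w γ H Q N c ζ δ f ∧ ¬ SolT N c ζ δ f)) ∪
      ((primesUpTo w).biUnion (fun p => (formsZ ι (e + 2) H).filter (fun f => BadAt (p ^ ℓ) f)) ∪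
      (formsZ ι (e + 2) H).filter (fun f => BadR γ₂ H f)) := by
    intro f hf
    obtain ⟨hf1, hf2, hf3⟩ := Finset.mem_filter.mp hf
    rw [Finset.mem_union, Finset.mem_union, Finset.mem_biUnion, Finset.mem_filter,
      Finset.mem_filter]
    by_cases hbf : ∃ p ∈ primesUpTo w, BadAt (p ^ ℓ) f
    · obtain ⟨p, hp, hb⟩ := hbf
      right; left
      exact ⟨p, hp, Finset.mem_filter.mpr ⟨hf1, hb⟩⟩
    by_cases hbr : BadR γ₂ H f
    · right; right; exact ⟨hf1, hbr⟩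
    left
    refine ⟨hf1, ?_, hf3⟩
    push Not at hbf
    obtain ⟨S, J, xc, v, h1, h2, h3, h4⟩ := exists_stable (w := w) (ℓ := ℓ) (f := f) (N := N)
      (c := c) hℓ1 (prime_pow_cond hN (by omega) (by omega))
      (fun p hp => ⟨hf2.1 p (mem_primesUpTo.mp hp).2 _, hbf p hp⟩)
    obtain ⟨r, ξ, hξr, hξ1, hξζ, hξ0⟩ := hf2.2
    have h5 : ∃ i₀, γ₂ * H ≤ |MvPolynomial.aeval ξ (MvPolynomial.pderiv i₀ f)| := by
      by_contra hcon
      push Not at hcon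
      apply hbr
      refine ⟨r, ξ, hξr, hξ1, ?_, fun i => (hcon i).le⟩
      rw [hξ0, abs_zero]; positivity
    obtain ⟨i₀, hi₀⟩ := h5
    refine ⟨S, J, xc, v, ξ, i₀, h1, by rw [h2, hQ], h3, h4, ⟨r, hξr⟩, hξ1, hξζ, hξ0, ?_⟩
    have : 2 * γ * H = γ₂ * H := by rw [hγ]; ring
    rw [this]; exact hi₀
  have h1 : (((formsZ ι (e + 2) H).filter
      (fun f => LocSolT N c ζ δ f ∧ ¬ SolT N c ζ δ f)).card : ℝ) ≤
      (((formsZ ι (e + 2) H).filter (fun f => GoodD w γ H Q N c ζ δ f ∧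
        ¬ SolT N c ζ δ f)).card : ℝ) +
      ((∑ p ∈ primesUpTo w, (((formsZ ι (e + 2) H).filter (fun f => BadAt (p ^ ℓ) f)).card : ℝ)) +
      (((formsZ ι (e + 2) H).filter (fun f => BadR γ₂ H f)).card : ℝ)) := by
    have h2 := (Finset.card_le_card hcov).trans ((Finset.card_union_le _ _).trans
      (Nat.add_le_add_left ((Finset.card_union_le _ _).trans
        (Nat.add_le_add_right Finset.card_biUnion_le _)) _))
    exact_mod_cast h2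
  have h2 : (∑ p ∈ primesUpTo w, (((formsZ ι (e + 2) H).filter
      (fun f => BadAt (p ^ ℓ) f)).card : ℝ)) ≤ ε / 4 * G := by
    calc _ ≤ (primesUpTo w).card • ((1 / 2 : ℝ) ^ ℓ * (k * (3 ^ M * G))) :=
          Finset.sum_le_card_nsmul _ _ _ hbadP
      _ = ((primesUpTo w).card : ℝ) * ((1 / 2 : ℝ) ^ ℓ * (k * (3 ^ M * G))) := by
          rw [nsmul_eq_mul]
      _ ≤ (w + 1) * ((1 / 2 : ℝ) ^ ℓ * (k * (3 ^ M * G))) := by
          apply mul_le_mul_of_nonneg_right _ (by positivity)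
          have : (primesUpTo w).card ≤ w + 1 := by
            unfold primesUpTo
            refine (Finset.card_filter_le _ _).trans ?_
            rw [Finset.card_range]
          exact_mod_cast this
      _ = ((1 / 2 : ℝ) ^ ℓ * ((w + 1) * k * 3 ^ M)) * G := by ring
      _ ≤ ε / 4 * G := mul_le_mul_of_nonneg_right hℓε hG0.le
  rw [hG]
  have h3 : 0 < ε * G := by positivity
  linarith

end Pool.Agent.Y716.Q
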