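import Pool.Agent.Y716.Q.Loc

/-!
# The `p`-adic data of a form without degenerate approximate zeros
-/

namespace Pool.Agent.Y716.Q

variable {ι : Type*} [Fintype ι]

/-- the primes up to `w` -/
def primesUpTo (w : ℕ) : Finset ℕ := (Finset.range (w + 1)).filter Nat.Prime

theorem mem_primesUpTo {w p : ℕ} : p ∈ primesUpTo w ↔ p ≤ w ∧ p.Prime := by
  unfold primesUpTo
  rw [Finset.mem_filter, Finset.mem_range]
  constructor
  · rintro ⟨h1, h2⟩; exact ⟨by omega, h2⟩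
  · rintro ⟨h1, h2⟩; exact ⟨by omega, h2⟩

/-- `f` has an approximate zero modulo `Q` at which the gradient vanishes -/
def BadAt (Q : ℕ) (f : MvPolynomial ι ℤ) : Prop :=
  ∃ (r : ι) (x : ι → ℤ), x r = 1 ∧ (Q : ℤ) ∣ MvPolynomial.eval x f ∧
    ∀ i, (Q : ℤ) ∣ MvPolynomial.eval x (MvPolynomial.pderiv i f)

omit [Fintype ι] in
theorem grad_level {P : ℤ} {ℓ : ℕ} (g : ι → ℤ) (h : ¬ ∀ i, P ^ ℓ ∣ g i) :
    ∃ j < ℓ, (∀ i, P ^ j ∣ g i) ∧ ∃ i, ¬ P ^ (j + 1) ∣ g i := by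
  classical
  have hex : ∃ n, ¬ ∀ i, P ^ n ∣ g i := ⟨ℓ, h⟩
  have h1 := Nat.find_spec hex
  have h2 : Nat.find hex ≤ ℓ := Nat.find_min' hex h
  have h3 : Nat.find hex ≠ 0 := by
    intro h0
    rw [h0] at h1
    exact h1 (fun i => by rw [pow_zero]; exact one_dvd _)
  refine ⟨Nat.find hex - 1, by omega, ?_, ?_⟩
  · have := Nat.find_min hex (m := Nat.find hex - 1) (by omega)
    exact not_not.mp this
  · rw [Nat.sub_add_cancel (by omega)]
    exact not_forall.mp h1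

theorem primes_coprime {w : ℕ} {p q : ℕ} (hp : p ∈ primesUpTo w) (hq : q ∈ primesUpTo w)
    (hne : p ≠ q) : Nat.Coprime p q :=
  (Nat.coprime_primes (mem_primesUpTo.mp hp).2 (mem_primesUpTo.mp hq).2).mpr hne

/-- divisibility by `N` can be checked on prime powers -/
theorem dvd_of_prime_pow {N : ℕ} {z : ℤ} (h : ∀ p a : ℕ, p.Prime → p ^ a ∣ N → (p : ℤ) ^ a ∣ z) :
    (N : ℤ) ∣ z := by
  rw [Int.natCast_dvd, Nat.dvd_iff_prime_pow_dvd_dvd]
  intro p a hp ha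
  have := h p a hp ha
  rw [← Int.natCast_dvd]
  push_cast
  exact this

theorem exists_stable {w ℓ : ℕ} (hℓ : 1 ≤ ℓ) {f : MvPolynomial ι ℤ} {N : ℕ} {c : ι → ℤ}
    (hN : ∀ p a : ℕ, p.Prime → p ^ (a + 1) ∣ N → p ≤ w ∧ a + 1 ≤ ℓ)
    (hfin : ∀ p ∈ primesUpTo w, (∃ (r : ι) (x : ι → ℤ), x r = 1 ∧
      (p : ℤ) ^ (2 * ℓ) ∣ MvPolynomial.eval x f ∧ ∀ a : ℕ, p ^ a ∣ N → ∀ i, (p : ℤ) ^ a ∣ x i - c i)
      ∧ ¬ BadAt (p ^ ℓ) f) :
    ∃ (S J : ℕ) (xc v : ι → ℤ),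
      PData w f S J xc v ∧ S * J = (∏ p ∈ primesUpTo w, p) ^ (2 * ℓ) ∧ (N : ℤ) ∣ S ∧
      ∀ i, (N : ℤ) ∣ xc i - c i := by
  classical
  -- data at the primes
  have hdat : ∀ p ∈ primesUpTo w, ∃ (r : ι) (x : ι → ℤ) (j : ℕ), x r = 1 ∧
      (p : ℤ) ^ (2 * ℓ) ∣ MvPolynomial.eval x f ∧ j < ℓ ∧
      (∀ i, (p : ℤ) ^ j ∣ MvPolynomial.eval x (MvPolynomial.pderiv i f)) ∧
      (∃ i, ¬ (p : ℤ) ^ (j + 1) ∣ MvPolynomial.eval x (MvPolynomial.pderiv i f)) ∧
      ∀ a : ℕ, p ^ a ∣ N → ∀ i, (p : ℤ) ^ a ∣ x i - c i := by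
    intro p hp
    obtain ⟨⟨r, x, hx, hd, hxN⟩, hb⟩ := hfin p hp
    have : ¬ ∀ i, (p : ℤ) ^ ℓ ∣ MvPolynomial.eval x (MvPolynomial.pderiv i f) := by
      intro h
      refine hb ⟨r, x, hx, ?_, ?_⟩
      · push_cast
        exact (pow_dvd_pow (p : ℤ) (by omega)).trans hd
      · intro i
        push_cast
        exact h i
    obtain ⟨j, hj, h1, h2⟩ := grad_level _ this
    exact ⟨r, x, j, hx, hd, hj, h1, h2, hxN⟩
  choose! rP xP jP hr hval hjlt hgr hgr' hxPN using hdat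
  have hcopZ : ∀ p ∈ primesUpTo w, ∀ q ∈ primesUpTo w, p ≠ q → ∀ a b : ℕ,
      IsCoprime ((p : ℤ) ^ a) ((q : ℤ) ^ b) := by
    intro p hp q hq hne a b
    exact (Nat.isCoprime_iff_coprime.mpr (primes_coprime hp hq hne)).pow
  -- Chinese remainder theorem
  have hcrt : ∀ i, ∃ y : ℤ, ∀ p ∈ primesUpTo w, (p : ℤ) ^ (2 * ℓ) ∣ y - xP p i := by
    intro i
    have := Ideal.exists_forall_sub_mem_ideal (R := ℤ)
      (I := fun p : primesUpTo w => Ideal.span {((p : ℕ) : ℤ) ^ (2 * ℓ)}) (by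
        intro p q hpq
        simp only [Function.onFun]
        rw [Ideal.isCoprime_span_singleton_iff]
        exact hcopZ _ p.2 _ q.2 (fun h => hpq (Subtype.ext h)) _ _) (fun p => xP p i)
    obtain ⟨y, hy⟩ := this
    exact ⟨y, fun p hp => Ideal.mem_span_singleton.mp (hy ⟨p, hp⟩)⟩
  choose xc hxc using hcrt
  have hxc' : ∀ p ∈ primesUpTo w, ∀ i, (p : ℤ) ^ (2 * ℓ) ∣ xc i - xP p i := fun p hp i => hxc i p hp
  obtain ⟨S, hS⟩ : ∃ S : ℕ, S = ∏ p ∈ primesUpTo w, p ^ (2 * ℓ - jP p) := ⟨_, rfl⟩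
  obtain ⟨J, hJ⟩ : ∃ J : ℕ, J = ∏ p ∈ primesUpTo w, p ^ jP p := ⟨_, rfl⟩
  have hSJ : S * J = (∏ p ∈ primesUpTo w, p) ^ (2 * ℓ) := by
    rw [hS, hJ, ← Finset.prod_mul_distrib, ← Finset.prod_pow]
    refine Finset.prod_congr rfl (fun p hp => ?_)
    rw [← pow_add]
    congr 1
    have := hjlt p hp
    omega
  have hS0 : 0 < S := by
    rw [hS]
    exact Finset.prod_pos (fun p hp => pow_pos (mem_primesUpTo.mp hp).2.pos _)
  have hJ0 : 0 < J := by
    rw [hJ]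
    exact Finset.prod_pos (fun p hp => pow_pos (mem_primesUpTo.mp hp).2.pos _)
  -- gradient at xc
  have hgc : ∀ p ∈ primesUpTo w, ∀ i, (p : ℤ) ^ (2 * ℓ) ∣
      MvPolynomial.eval xc (MvPolynomial.pderiv i f)
      - MvPolynomial.eval (xP p) (MvPolynomial.pderiv i f) := fun p hp i =>
    Pool.Agent.Y67.HP.eval_congr_dvd' _ (hxc' p hp)
  have hJg : ∀ i, (J : ℤ) ∣ MvPolynomial.eval xc (MvPolynomial.pderiv i f) := by
    intro i
    rw [hJ]
    push_cast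
    apply Finset.prod_dvd_of_coprime
    · intro p hp q hq hne
      exact hcopZ p hp q hq hne _ _
    intro p hp
    have h1 := (pow_dvd_pow (p : ℤ) (by have := hjlt p hp; omega : jP p ≤ 2 * ℓ)).trans (hgc p hp i)
    have := dvd_add h1 (hgr p hp i)
    simpa using this
  choose v hv using hJg
  have hNS : (N : ℤ) ∣ S := by
    apply dvd_of_prime_pow
    intro p a hp ha
    obtain _ | a := a
    · rw [pow_zero]; exact one_dvd _
    obtain ⟨h1, h2⟩ := hN p a hp ha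
    have hpw : p ∈ primesUpTo w := mem_primesUpTo.mpr ⟨h1, hp⟩
    have h3 := hjlt p hpw
    have h4 : p ^ (a + 1) ∣ S := by
      rw [hS]
      refine (pow_dvd_pow p (by omega : a + 1 ≤ 2 * ℓ - jP p)).trans ?_
      exact Finset.dvd_prod_of_mem (fun p => p ^ (2 * ℓ - jP p)) hpw
    exact_mod_cast h4
  have hNx : ∀ i, (N : ℤ) ∣ xc i - c i := by
    intro i
    apply dvd_of_prime_pow
    intro p a hp ha
    obtain _ | a := a
    · rw [pow_zero]; exact one_dvd _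
    obtain ⟨h1, h2⟩ := hN p a hp ha
    have hpw : p ∈ primesUpTo w := mem_primesUpTo.mpr ⟨h1, hp⟩
    have h3 := (pow_dvd_pow (p : ℤ) (by omega : a + 1 ≤ 2 * ℓ)).trans (hxc' p hpw i)
    have h4 := hxPN p hpw (a + 1) ha i
    have := dvd_add h3 h4
    simpa using this
  refine ⟨S, J, xc, v, ?_, hSJ, hNS, hNx⟩
  refine { hS := hS0, hJ := hJ0, hJS := ?_, hval := ?_, hgrad := hv, hPJ := ?_, hv := ?_,
           hprim := ?_, hSW := ?_ }
  · rw [hS, hJ]
    apply Finset.prod_dvd_prod_of_dvd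
    intro p hp
    have := hjlt p hp
    exact pow_dvd_pow p (by omega)
  · rw [hSJ, ← Finset.prod_pow]
    push_cast
    apply Finset.prod_dvd_of_coprime
    · intro p hp q hq hne
      exact hcopZ p hp q hq hne _ _
    intro p hp
    have := dvd_add (Pool.Agent.Y67.HP.eval_congr_dvd' f (hxc' p hp)) (hval p hp)
    simpa using this
  · intro p hp1 hp2
    have hp : p ∈ primesUpTo w := mem_primesUpTo.mpr ⟨hp2, hp1⟩
    rw [hS, hJ, ← Finset.mul_prod_erase _ _ hp, ← Finset.mul_prod_erase _ _ hp, ← mul_assoc,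
      ← pow_succ']
    have hjP := hjlt p hp
    apply mul_dvd_mul
    · exact pow_dvd_pow p (by omega)
    · apply Finset.prod_dvd_prod_of_dvd
      intro q hq
      have := hjlt q (Finset.mem_of_mem_erase hq)
      exact pow_dvd_pow q (by omega)
  · intro p hp1 hp2
    have hp : p ∈ primesUpTo w := mem_primesUpTo.mpr ⟨hp2, hp1⟩
    obtain ⟨i, hi⟩ := hgr' p hp
    refine ⟨i, fun hd => hi ?_⟩
    have hjP := hjlt p hp
    have h1 : (p : ℤ) ^ (jP p + 1) ∣ MvPolynomial.eval xc (MvPolynomial.pderiv i f) := by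
      rw [hv i, pow_succ]
      apply mul_dvd_mul _ hd
      rw [hJ]
      push_cast
      exact Finset.dvd_prod_of_mem (fun p : ℕ => (p : ℤ) ^ jP p) hp
    have h2 := (pow_dvd_pow (p : ℤ) (by omega : jP p + 1 ≤ 2 * ℓ)).trans (hgc p hp i)
    have := dvd_sub h1 h2
    simpa using this
  · intro p hp1 hp2
    have hp : p ∈ primesUpTo w := mem_primesUpTo.mpr ⟨hp2, hp1⟩
    refine ⟨rP p hp, fun hd => ?_⟩
    have h1 := (dvd_pow_self (p : ℤ) (by omega : 2 * ℓ ≠ 0)).trans (hxc' p hp (rP p hp))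
    rw [hr p hp] at h1
    have := dvd_sub hd h1
    rw [sub_sub_cancel] at this
    have h3 : (p : ℕ) ∣ 1 := by exact_mod_cast this
    exact hp1.one_lt.ne' (Nat.dvd_one.mp h3)
  · intro p hp1 hpS
    rw [hS] at hpS
    obtain ⟨q, hq, hpq⟩ := (Prime.dvd_finset_prod_iff hp1.prime _).mp hpS
    have h1 := hp1.dvd_of_dvd_pow hpq
    have h2 := (mem_primesUpTo.mp hq)
    have h3 := (Nat.prime_dvd_prime_iff_eq hp1 h2.2).mp h1
    rw [h3]; exact h2.1

/-- the data are preserved when the form is changed by a multiple of the modulus -/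
theorem PData.shift {w : ℕ} {fc : MvPolynomial ι ℤ} {S J : ℕ} {xc v : ι → ℤ}
    (h : PData w fc S J xc v) (g : MvPolynomial ι ℤ) :
    ∃ v', PData w (mem' fc S J g) S J xc v' := by
  refine ⟨fun i => v i + S * MvPolynomial.eval xc (MvPolynomial.pderiv i g), ?_⟩
  have hm := h.mem g
  refine { hS := h.hS, hJ := h.hJ, hJS := h.hJS, hval := ?_, hgrad := hm.2, hPJ := h.hPJ,
           hv := ?_, hprim := h.hprim, hSW := h.hSW }
  · push_cast
    exact hm.1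
  · intro p hp1 hp2
    obtain ⟨i, hi⟩ := h.hv p hp1 hp2
    refine ⟨i, fun hd => hi ?_⟩
    have h1 : p ∣ S := (Dvd.intro _ rfl).trans (h.hPJ p hp1 hp2)
    have h2 : (p : ℤ) ∣ S * MvPolynomial.eval xc (MvPolynomial.pderiv i g) :=
      Dvd.dvd.mul_right (by exact_mod_cast h1) _
    have := dvd_sub hd h2
    simpa using this

end Pool.Agent.Y716.Q
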