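import Pool.Agent.Y716.Q.Exc2

/-!
# A positive proportion of the forms has a zero
-/

namespace Pool.Agent.Y716.Q

/-- nontrivial integral zero -/
def Sol {ι : Type*} (f : MvPolynomial ι ℤ) : Prop :=
  ∃ x : ι → ℤ, x ≠ 0 ∧ MvPolynomial.eval x f = 0

theorem Prim.ne_zero' {ι : Type*} {x : ι → ℤ} (h : Prim x) : x ≠ 0 := by
  rintro rfl
  have := h 2 (fun i => by simp)
  exact absurd (Int.isUnit_iff.mp this) (by decide)

section
variable {ι : Type*} [Fintype ι]

open scoped Classical in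
/-- A positive proportion of the forms has a nontrivial zero. -/
theorem sol_positive (ι : Type*) [Fintype ι] (hk4 : 4 ≤ Fintype.card ι) (e : ℕ)
    (he : e + 3 ≤ Fintype.card ι) :
    ∃ c : ℝ, 0 < c ∧ ∃ H₀ : ℝ, ∀ H : ℝ, H₀ ≤ H →
      c * ((formsZ ι (e + 2) H).card : ℝ) ≤
        (((formsZ ι (e + 2) H).filter (fun f => Sol f)).card : ℝ) := by
  obtain ⟨w, hw1, hcl⟩ := class_theorem ι hk4 e he (ε := 1 / 2) (by positivity)
  obtain ⟨W, hW⟩ : ∃ W : ℕ, W = ∏ p ∈ primesUpTo w, p := ⟨_, rfl⟩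
  have hW1 : 1 ≤ W := by
    rw [hW]
    exact Finset.prod_pos (fun p hp => (mem_primesUpTo.mp hp).2.pos)
  have hWr : (1:ℝ) ≤ W := by exact_mod_cast hW1
  obtain ⟨η, hη0, hη1, hηη₀, H₁, hH₁⟩ := hcl w le_rfl (1 / 4) (by norm_num) (by norm_num) W hW1
    (1 / 4) (by norm_num)
  obtain ⟨M, hM⟩ : ∃ M, (mons ι (e + 2)).card = M := ⟨_, rfl⟩
  obtain ⟨r, r', hrr'⟩ : ∃ r r' : ι, r ≠ r' := by
    have : 1 < Fintype.card ι := by omega
    exact Fintype.one_lt_card_iff.mp this
  refine ⟨1 / 2 * (η / (2 * W)) ^ M, by positivity, max H₁ (max (4 * W) (2 * W / η)),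
    fun H hH => ?_⟩
  have hH1 : H₁ ≤ H := (le_max_left _ _).trans hH
  have hH2 : 4 * (W : ℝ) ≤ H := (le_max_left _ _).trans ((le_max_right _ _).trans hH)
  have hH3 : 2 * W / η ≤ H := (le_max_right _ _).trans ((le_max_right _ _).trans hH)
  have hH0 : 0 < H := by linarith
  -- the special class
  obtain ⟨n, hn⟩ : ∃ n : ℕ, n = ⌊H / (2 * W)⌋₊ := ⟨_, rfl⟩
  have hn1 : (W : ℝ) * n ≤ H / 2 := by
    have : (n : ℝ) ≤ H / (2 * W) := by rw [hn]; exact Nat.floor_le (by positivity)
    rw [le_div_iff₀ (by positivity)] at this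
    linarith
  have hn2 : H / 2 - W ≤ (W : ℝ) * n := by
    have : H / (2 * W) < n + 1 := by rw [hn]; exact Nat.lt_floor_add_one _
    rw [div_lt_iff₀ (by positivity)] at this
    linarith
  obtain ⟨c₀, hc₀⟩ : ∃ c₀ : ℤ, c₀ = (W : ℤ) * n + 1 := ⟨_, rfl⟩
  have hc₀r : (c₀ : ℝ) = W * n + 1 := by rw [hc₀]; push_cast; rfl
  have hc₀1 : |(c₀ : ℝ)| ≤ 3 / 4 * H := by
    rw [hc₀r, abs_of_nonneg (by positivity)]
    linarith
  have hc₀2 : 1 / 4 * H ≤ |(c₀ : ℝ)| := by
    rw [hc₀r, abs_of_nonneg (by positivity)]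
    linarith
  obtain ⟨mm, hmm⟩ : ∃ mm : ι →₀ ℕ, mm = Finsupp.single r (e + 1) + Finsupp.single r' 1 := ⟨_, rfl⟩
  obtain ⟨fc, hfc⟩ : ∃ fc : MvPolynomial ι ℤ, fc = MvPolynomial.monomial mm c₀ := ⟨_, rfl⟩
  have hmono : fc = MvPolynomial.C c₀ * (MvPolynomial.X r ^ (e + 1) * MvPolynomial.X r') := by
    rw [hfc, hmm, MvPolynomial.X_pow_eq_monomial, MvPolynomial.X, MvPolynomial.monomial_mul, mul_one,
      MvPolynomial.C_mul_monomial, mul_one]
  have hpd : ∀ i, MvPolynomial.pderiv i fc = MvPolynomial.C c₀ *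
      (MvPolynomial.X r' * MvPolynomial.pderiv i (MvPolynomial.X r ^ (e + 1)) +
      MvPolynomial.X r ^ (e + 1) * MvPolynomial.C (if i = r' then 1 else 0)) := by
    intro i
    rw [hmono, MvPolynomial.pderiv_C_mul, MvPolynomial.pderiv_mul]
    by_cases hi : i = r'
    · subst hi
      rw [MvPolynomial.pderiv_X_self, if_pos rfl, map_one]
      ring
    · rw [MvPolynomial.pderiv_X_of_ne (fun h => hi h.symm), if_neg hi, map_zero]
      ring
  obtain ⟨xc, hxc⟩ : ∃ xc : ι → ℤ, xc = Pi.single r 1 := ⟨_, rfl⟩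
  have hxr : xc r = 1 := by rw [hxc]; simp
  have hxr' : xc r' = 0 := by rw [hxc]; simp [Ne.symm hrr']
  obtain ⟨ξ, hξ⟩ : ∃ ξ : ι → ℝ, ξ = Pi.single r 1 := ⟨_, rfl⟩
  have hξr : ξ r = 1 := by rw [hξ]; simp
  have hξr' : ξ r' = 0 := by rw [hξ]; simp [Ne.symm hrr']
  have hform : IsF (e + 2) |(c₀ : ℝ)| fc := by
    constructor
    · rw [hfc]
      apply MvPolynomial.isHomogeneous_monomial
      rw [hmm]
      simp [Finsupp.degree_single]
    · intro m
      rw [hfc, MvPolynomial.coeff_monomial]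
      split_ifs
      · exact le_rfl
      · simp
  have hPD : PData w fc W 1 xc (fun i => if i = r' then c₀ else 0) := by
    refine { hS := hW1, hJ := one_pos, hJS := one_dvd _, hval := ?_, hgrad := ?_, hPJ := ?_,
             hv := ?_, hprim := ?_, hSW := ?_ }
    · rw [hmono]; simp [hxr, hxr']
    · intro i
      rw [hpd]
      simp only [map_mul, map_add, MvPolynomial.eval_C, MvPolynomial.eval_X, map_pow, hxr, hxr']
      by_cases hi : i = r'
      · simp [hi]
      · simp [hi]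
    · intro p hp1 hp2
      rw [mul_one, hW]
      exact Finset.dvd_prod_of_mem _ (mem_primesUpTo.mpr ⟨hp2, hp1⟩)
    · intro p hp1 hp2
      refine ⟨r', ?_⟩
      simp only [if_true]
      intro hd
      have h1 : (p : ℤ) ∣ (W : ℤ) * n := by
        apply Dvd.dvd.mul_right
        rw [hW]
        exact_mod_cast Finset.dvd_prod_of_mem _ (mem_primesUpTo.mpr ⟨hp2, hp1⟩)
      have h2 := dvd_sub hd h1
      rw [hc₀, add_sub_cancel_left] at h2
      have h3 : (p : ℕ) ∣ 1 := by exact_mod_cast h2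
      exact hp1.one_lt.ne' (Nat.dvd_one.mp h3)
    · intro p hp1 hp2
      refine ⟨r, fun hd => ?_⟩
      rw [hxr] at hd
      have h3 : (p : ℕ) ∣ 1 := by exact_mod_cast hd
      exact hp1.one_lt.ne' (Nat.dvd_one.mp h3)
    · intro p hp1 hpS
      rw [hW] at hpS
      obtain ⟨q, hq, hpq⟩ := (Prime.dvd_finset_prod_iff hp1.prime _).mp hpS
      have h2 := (mem_primesUpTo.mp hq)
      have h3 := (Nat.prime_dvd_prime_iff_eq hp1 h2.2).mp hpq
      rw [h3]; exact h2.1
  have hRD : RData e H (1 / 4) η fc ξ r' := by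
    refine ⟨hform.mono (by linarith), ?_, ⟨r, hξr⟩, ?_, ?_⟩
    · intro i
      rw [hξ]
      by_cases hi : i = r
      · rw [hi, Pi.single_eq_same, abs_one]
      · rw [Pi.single_eq_of_ne hi, abs_zero]; norm_num
    · have : MvPolynomial.aeval ξ fc = 0 := by rw [hmono]; simp [hξr, hξr']
      rw [this, abs_zero]; positivity
    · have : MvPolynomial.aeval ξ (MvPolynomial.pderiv r' fc) = c₀ := by
        rw [hpd]
        simp only [map_mul, map_add, MvPolynomial.aeval_C, MvPolynomial.aeval_X, map_pow, hξr, hξr']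
        simp
      rw [this]
      exact hc₀2
  have key := hH₁ H hH1 fc W 1 xc _ ξ r' hPD hRD (by rw [mul_one])
  rw [mul_one] at key
  obtain ⟨G', hG'⟩ : ∃ G', G' = formsZ ι (e + 2) (η * H / W) := ⟨_, rfl⟩
  rw [← hG'] at key
  have hsplit : ((G'.filter (fun g => Sol (mem' fc W 1 g))).card : ℝ) +
      ((G'.filter (fun g => ¬ Sol (mem' fc W 1 g))).card : ℝ) = G'.card := by
    exact_mod_cast Finset.card_filter_add_card_filter_not (s := G') (fun g => Sol (mem' fc W 1 g))
  have h1 : 1 / 2 * (G'.card : ℝ) ≤ ((G'.filter (fun g => Sol (mem' fc W 1 g))).card : ℝ) := by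
    have h2 : ((G'.filter (fun g => ¬ Sol (mem' fc W 1 g))).card : ℝ) ≤ 1 / 2 * (G'.card : ℝ) := by
      refine (card_filter_le' _ _ _ (fun g _ hg hz => hg ?_)).trans key
      obtain ⟨x, hx1, hx2, _⟩ := hz
      exact ⟨x, hx1.ne_zero', hx2⟩
    linarith
  have hW0 : (0:ℝ) < W := by linarith
  have h3 : ((G'.filter (fun g => Sol (mem' fc W 1 g))).card : ℝ) ≤
      (((formsZ ι (e + 2) H).filter (fun f => Sol f)).card : ℝ) := by
    have : (G'.filter (fun g => Sol (mem' fc W 1 g))).card ≤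
        ((formsZ ι (e + 2) H).filter (fun f => Sol f)).card := by
      apply Finset.card_le_card_of_injOn (fun g => mem' fc W 1 g)
      · intro g hg
        have hg' := Finset.mem_filter.mp (Finset.mem_coe.mp hg)
        simp only [Finset.mem_coe, Finset.mem_filter]
        refine ⟨mem_formsZ.mpr ?_, hg'.2⟩
        rw [hG'] at hg'
        have h4 := hform.add ((mem_formsZ.mp hg'.1).C_mul ((W * 1 : ℕ) : ℤ))
        refine h4.mono ?_
        rw [mul_one, Int.cast_natCast, abs_of_pos hW0]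
        have h5 : (W : ℝ) * (η * H / W) = η * H := by field_simp
        rw [h5]
        have h6 : η * H ≤ 1 / 4 * H := mul_le_mul_of_nonneg_right hηη₀ hH0.le
        linarith
      · intro g _ g' _ h
        unfold mem' at h
        have h4 := add_left_cancel h
        rw [mul_one] at h4
        have h5 : (MvPolynomial.C (W : ℤ) : MvPolynomial ι ℤ) ≠ 0 := by
          rw [Ne, MvPolynomial.C_eq_zero]
          exact_mod_cast (by omega : W ≠ 0)
        exact mul_left_cancel₀ h5 h4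
    exact_mod_cast this
  refine le_trans ?_ (h1.trans h3)
  rw [mul_assoc]
  apply mul_le_mul_of_nonneg_left _ (by norm_num)
  have h7 := card_forms_lower (ι := ι) (e + 2) (A := H) (R := η * H / W) (c := η / (2 * W))
    hH0.le (by positivity) (by positivity) (by
      rw [div_le_iff₀ hη0] at hH3
      have h8 : η / (2 * W) * (2 * H + 1) = η * H / W + η / (2 * W) := by field_simp
      have h9 : 2 ≤ η * H / W := by
        rw [le_div_iff₀ hW0]; linarith
      have h10 : η / (2 * W) ≤ 1 := by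
        rw [div_le_one (by positivity)]; linarith
      have h11 : 2 * (η * H / W) = η * H / W + η * H / W := by ring
      linarith)
  rw [hM] at h7
  rw [hG']
  exact h7

end

end Pool.Agent.Y716.Q
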