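import Pool.Agent.Y716.Q.Final

/-!
# Weak approximation for almost all forms
-/

namespace Pool.Agent.Y716.Q

section
variable {ι : Type*} [Fintype ι]

/-- normalised `p`-adic zeros -/
theorem padic_norm_data {p : ℕ} [Fact p.Prime] {d : ℕ}
    (f : MvPolynomial ι ℤ) (hf : f.IsHomogeneous d) (x : ι → ℚ_[p]) (hx0 : x ≠ 0)
    (hxf : MvPolynomial.aeval x f = 0) :
    ∃ (r : ι) (y : ι → ℤ_[p]), x r ≠ 0 ∧ ‖x r‖ ≤ ‖x‖ ∧ (∀ i, x i = x r * y i) ∧ y r = 1 ∧
      MvPolynomial.aeval y f = 0 := by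
  classical
  have hne : Nonempty ι := by
    by_contra hcon
    rw [not_nonempty_iff] at hcon
    exact hx0 (Subsingleton.elim _ _)
  obtain ⟨r, -, hr⟩ := Finset.exists_max_image Finset.univ (fun i => ‖x i‖)
    ⟨Classical.arbitrary ι, Finset.mem_univ _⟩
  have hxr : x r ≠ 0 := by
    intro h0
    apply hx0
    funext i
    have := hr i (Finset.mem_univ i)
    rw [h0, norm_zero] at this
    simpa using norm_le_zero_iff.mp this
  have hle : ∀ i, ‖(x r)⁻¹ * x i‖ ≤ 1 := by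
    intro i
    rw [norm_mul, norm_inv, inv_mul_le_iff₀ (norm_pos_iff.mpr hxr), mul_one]
    exact hr i (Finset.mem_univ i)
  set y : ι → ℤ_[p] := fun i => ⟨(x r)⁻¹ * x i, hle i⟩ with hy
  refine ⟨r, y, hxr, norm_le_pi_norm x r, fun i => ?_, ?_, ?_⟩
  · change x i = x r * ((x r)⁻¹ * x i)
    rw [mul_inv_cancel_left₀ hxr]
  · apply Subtype.ext
    simp [hy, hxr]
  · have h1 : (algebraMap ℤ_[p] ℚ_[p]) (MvPolynomial.aeval y f) = 0 := by
      have h2 : (algebraMap ℤ_[p] ℚ_[p]) (MvPolynomial.aeval y f)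
          = MvPolynomial.aeval (fun i => (x r)⁻¹ * x i) f := by
        rw [MvPolynomial.aeval_def, MvPolynomial.aeval_def, MvPolynomial.hom_eval₂]
        congr 1
      rw [h2, aeval_smul' hf, hxf, mul_zero]
    have hinj : Function.Injective (algebraMap ℤ_[p] ℚ_[p]) := FaithfulSMul.algebraMap_injective _ _
    exact (map_eq_zero_iff _ hinj).mp h1

omit [Fintype ι] in
/-- integral approximations of `p`-adic integral zeros -/
theorem approx_of_int {p : ℕ} [Fact p.Prime] (f : MvPolynomial ι ℤ) (y : ι → ℤ_[p]) {r : ι}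
    (hyr : y r = 1) (hyf : MvPolynomial.aeval y f = 0) (E : ℕ) :
    ∃ z : ι → ℤ, z r = 1 ∧ (p : ℤ) ^ E ∣ MvPolynomial.eval z f ∧
      ∀ i, (p : ℤ_[p]) ^ E ∣ y i - (z i : ℤ_[p]) := by
  classical
  set z : ι → ℤ := fun i => if i = r then 1 else (PadicInt.appr (y i) E : ℤ) with hz
  have hker : ∀ i, PadicInt.toZModPow E (y i) = ((z i : ℤ) : ZMod (p ^ E)) := by
    intro i
    by_cases hi : i = r
    · subst hi
      rw [hyr, hz]; simp
    · have : PadicInt.toZModPow E (y i) = ((PadicInt.appr (y i) E : ℕ) : ZMod (p ^ E)) := rfl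
      rw [this, hz]
      simp [hi]
  refine ⟨z, by simp [hz], ?_, ?_⟩
  · have h3 : ((MvPolynomial.eval z f : ℤ) : ZMod (p ^ E)) = 0 := by
      have h4 : PadicInt.toZModPow E (MvPolynomial.aeval y f) =
          ((MvPolynomial.eval z f : ℤ) : ZMod (p ^ E)) := by
        rw [MvPolynomial.aeval_def, MvPolynomial.hom_eval₂]
        have h5 : ((MvPolynomial.eval z f : ℤ) : ZMod (p ^ E))
            = (Int.castRingHom (ZMod (p ^ E))) (MvPolynomial.eval₂ (RingHom.id ℤ) z f) := rfl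
        rw [h5, MvPolynomial.hom_eval₂]
        have h6 : ((PadicInt.toZModPow E).comp (algebraMap ℤ ℤ_[p]))
            = (Int.castRingHom (ZMod (p ^ E))).comp (RingHom.id ℤ) := RingHom.ext_int _ _
        rw [h6]
        congr 1
        funext i
        exact hker i
      rw [← h4, hyf, map_zero]
    rw [ZMod.intCast_zmod_eq_zero_iff_dvd] at h3
    exact_mod_cast h3
  · intro i
    have h1 : PadicInt.toZModPow E (y i - (z i : ℤ_[p])) = 0 := by
      rw [map_sub, hker i, map_intCast, sub_self]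
    have h2 : y i - (z i : ℤ_[p]) ∈ RingHom.ker (PadicInt.toZModPow (p := p) E) :=
      (RingHom.mem_ker).mpr h1
    rw [PadicInt.ker_toZModPow, Ideal.mem_span_singleton] at h2
    exact h2

/-- divisibility in the `p`-adic integers and in the integers -/
theorem padic_dvd_iff {p : ℕ} [Fact p.Prime] (a : ℕ) (z : ℤ) :
    (p : ℤ_[p]) ^ a ∣ (z : ℤ_[p]) ↔ (p : ℤ) ^ a ∣ z := by
  rw [← Ideal.mem_span_singleton, ← PadicInt.norm_le_pow_iff_mem_span_pow,
    PadicInt.norm_int_le_pow_iff_dvd]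

/-- Weak approximation with precision `1 / m` at the real place and at the primes up to `m`. -/
def WeakApprox (m : ℕ) (f : MvPolynomial ι ℤ) : Prop :=
  ∀ (z : ∀ (p : ℕ) [Fact p.Prime], ι → ℚ_[p]) (y : ι → ℝ),
    (∀ (p : ℕ) [Fact p.Prime], z p ≠ 0 ∧ MvPolynomial.aeval (z p) f = 0) → y ≠ 0 →
    MvPolynomial.aeval y f = 0 →
    ∃ x : ι → ℚ, x ≠ 0 ∧ MvPolynomial.aeval x f = 0 ∧
      (∀ (p : ℕ) [Fact p.Prime], p ≤ m → ∃ c : ℚ_[p], c ≠ 0 ∧
        ∀ i, ‖z p i - c * (x i : ℚ_[p])‖ ≤ ‖z p‖ / m) ∧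
      ∃ c : ℝ, c ≠ 0 ∧ ∀ i, |y i - c * (x i : ℝ)| ≤ ‖y‖ / m

/-- local data at a prime -/
theorem local_p {p : ℕ} [hp : Fact p.Prime] {d m : ℕ} (hm : 1 ≤ m) (f : MvPolynomial ι ℤ)
    (hf : f.IsHomogeneous d) (z : ι → ℚ_[p]) (hz0 : z ≠ 0) (hzf : MvPolynomial.aeval z f = 0) :
    ∃ c : ι → ℤ, (∀ E : ℕ, ∃ (r : ι) (x : ι → ℤ), x r = 1 ∧ (p : ℤ) ^ E ∣ MvPolynomial.eval x f ∧
      ∀ i, (p : ℤ) ^ m ∣ x i - c i) ∧
      ∀ x : ι → ℤ, (∀ i, (p : ℤ) ^ m ∣ x i - c i) → ∃ c' : ℚ_[p], c' ≠ 0 ∧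
        ∀ i, ‖z i - c' * (x i : ℚ_[p])‖ ≤ ‖z‖ / m := by
  obtain ⟨r, Y, hr0, hrn, hY, hYr, hYf⟩ := padic_norm_data f hf z hz0 hzf
  obtain ⟨c, hc1, hc2, hc3⟩ := approx_of_int f Y hYr hYf m
  refine ⟨c, fun E => ?_, fun x hx => ?_⟩
  · obtain ⟨x, hx1, hx2, hx3⟩ := approx_of_int f Y hYr hYf (max E m)
    refine ⟨r, x, hx1, (pow_dvd_pow _ (le_max_left _ _)).trans hx2, fun i => ?_⟩
    rw [← padic_dvd_iff]
    push_cast
    have h1 := (pow_dvd_pow (p : ℤ_[p]) (le_max_right E m)).trans (hx3 i)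
    have := dvd_sub (hc3 i) h1
    simpa using this
  · refine ⟨z r, hr0, fun i => ?_⟩
    have h1 : (p : ℤ_[p]) ^ m ∣ Y i - (x i : ℤ_[p]) := by
      have h2 := (padic_dvd_iff (p := p) m (x i - c i)).mpr (hx i)
      push_cast at h2
      have := dvd_sub (hc3 i) h2
      simpa using this
    have h2 : ‖Y i - (x i : ℤ_[p])‖ ≤ (p : ℝ) ^ (-(m : ℤ)) := by
      rw [PadicInt.norm_le_pow_iff_mem_span_pow, Ideal.mem_span_singleton]
      exact h1
    have h3 : z i - z r * (x i : ℚ_[p]) = z r * ((Y i - (x i : ℤ_[p]) : ℤ_[p]) : ℚ_[p]) := by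
      rw [hY i]
      push_cast
      ring
    rw [h3, norm_mul]
    have h4 : ‖((Y i - (x i : ℤ_[p]) : ℤ_[p]) : ℚ_[p])‖ = ‖Y i - (x i : ℤ_[p])‖ := rfl
    rw [h4, div_eq_mul_one_div]
    apply mul_le_mul hrn (h2.trans _) (norm_nonneg _) (norm_nonneg _)
    rw [zpow_neg, zpow_natCast, ← one_div]
    apply one_div_le_one_div_of_le (by exact_mod_cast hm)
    have h5 : m < 2 ^ m := Nat.lt_two_pow_self
    have h6 : 2 ^ m ≤ p ^ m := Nat.pow_le_pow_left hp.out.two_le _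
    have h7 : m ≤ p ^ m := by omega
    exact_mod_cast h7

/-- normalisation of a real vector -/
theorem real_norm_data (y : ι → ℝ) (hy : y ≠ 0) :
    ∃ r : ι, y r ≠ 0 ∧ |y r| ≤ ‖y‖ ∧ ∀ i, |(y r)⁻¹ * y i| ≤ 1 := by
  have hne : Nonempty ι := by
    by_contra hcon
    rw [not_nonempty_iff] at hcon
    exact hy (Subsingleton.elim _ _)
  obtain ⟨r, _, hr⟩ := Finset.exists_max_image Finset.univ (fun i => |y i|) Finset.univ_nonempty
  have hr0 : y r ≠ 0 := by
    intro h0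
    apply hy
    funext i
    have := hr i (Finset.mem_univ i)
    rw [h0, abs_zero] at this
    exact abs_eq_zero.mp (le_antisymm this (abs_nonneg _))
  refine ⟨r, hr0, norm_le_pi_norm y r, fun i => ?_⟩
  rw [abs_mul, abs_inv, inv_mul_le_iff₀ (abs_pos.mpr hr0), mul_one]
  exact hr i (Finset.mem_univ i)

/-- the modulus of level `m` -/
def modN (m : ℕ) : ℕ := ∏ p ∈ primesUpTo m, p ^ m

theorem modN_pos (m : ℕ) : 0 < modN m :=
  Finset.prod_pos (fun _ hp => pow_pos (mem_primesUpTo.mp hp).2.pos _)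

theorem dvd_modN {m p : ℕ} (hp : p.Prime) (hpm : p ≤ m) : p ^ m ∣ modN m :=
  Finset.dvd_prod_of_mem (fun p => p ^ m) (mem_primesUpTo.mpr ⟨hpm, hp⟩)

theorem pow_dvd_modN {m p a : ℕ} (hp : p.Prime) (h : p ^ a ∣ modN m) :
    (p ≤ m ∧ p ^ a ∣ p ^ m) ∨ p ^ a = 1 := by
  by_cases hpm : p ≤ m
  · left
    refine ⟨hpm, ?_⟩
    unfold modN at h
    rw [← Finset.mul_prod_erase _ _ (mem_primesUpTo.mpr ⟨hpm, hp⟩)] at h
    refine Nat.Coprime.dvd_of_dvd_mul_right ?_ h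
    apply Nat.Coprime.pow_left
    apply Nat.Coprime.prod_right
    intro q hq
    rw [Finset.mem_erase] at hq
    apply Nat.Coprime.pow_right
    exact (Nat.coprime_primes hp (mem_primesUpTo.mp hq.2).2).mpr (Ne.symm hq.1)
  · right
    obtain _ | a := a
    · rw [pow_zero]
    exfalso
    have h1 : p ∣ modN m := (dvd_pow_self p (by omega)).trans h
    obtain ⟨q, hq, hpq⟩ := (Prime.dvd_finset_prod_iff hp.prime _).mp h1
    have h2 := (mem_primesUpTo.mp hq)
    have h3 := (Nat.prime_dvd_prime_iff_eq hp h2.2).mp (hp.dvd_of_dvd_pow hpq)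
    omega

/-- the finite set of targets -/
noncomputable def targets (ι : Type*) [Fintype ι] (m : ℕ) : Finset ((ι → ℤ) × (ι → ℤ)) := by
  classical exact (Fintype.piFinset (fun _ : ι => Finset.Ico (0 : ℤ) (modN m))) ×ˢ
    (Fintype.piFinset (fun _ : ι => Finset.Icc (-(3 * m : ℤ)) (3 * m)))

theorem wa_of_targets {d m : ℕ} (hm : 1 ≤ m) {f : MvPolynomial ι ℤ} (hf : f.IsHomogeneous d)
    (h : ∀ t ∈ targets ι m, LocSolT (modN m) t.1 (fun i => (t.2 i : ℝ) / (3 * m)) (1 / (3 * m)) f →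
      SolT (modN m) t.1 (fun i => (t.2 i : ℝ) / (3 * m)) (1 / (3 * m)) f) : WeakApprox m f := by
  classical
  intro z y hz hy0 hyf
  have hmr : (1:ℝ) ≤ m := by exact_mod_cast hm
  -- data at the primes
  have hloc : ∀ p : ℕ, p.Prime → ∃ c : ι → ℤ, (∀ E : ℕ, ∃ (r : ι) (x : ι → ℤ), x r = 1 ∧
      (p : ℤ) ^ E ∣ MvPolynomial.eval x f ∧ ∀ i, (p : ℤ) ^ m ∣ x i - c i) ∧
      ∀ x : ι → ℤ, (∀ i, (p : ℤ) ^ m ∣ x i - c i) → ∀ [Fact p.Prime], ∃ c' : ℚ_[p], c' ≠ 0 ∧
        ∀ i, ‖z p i - c' * (x i : ℚ_[p])‖ ≤ ‖z p‖ / m := by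
    intro p hp
    haveI : Fact p.Prime := ⟨hp⟩
    obtain ⟨c, h1, h2⟩ := local_p hm f hf (z p) (hz p).1 (hz p).2
    exact ⟨c, h1, fun x hx _ => h2 x hx⟩
  choose! cP hcP1 hcP2 using hloc
  -- Chinese remainder theorem
  have hcrt : ∀ i, ∃ c : ℤ, c ∈ Finset.Ico (0 : ℤ) (modN m) ∧
      ∀ p ∈ primesUpTo m, (p : ℤ) ^ m ∣ c - cP p i := by
    intro i
    have := Ideal.exists_forall_sub_mem_ideal (R := ℤ)
      (I := fun p : primesUpTo m => Ideal.span {((p : ℕ) : ℤ) ^ m}) (by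
        intro p q hpq
        simp only [Function.onFun]
        rw [Ideal.isCoprime_span_singleton_iff]
        exact (Nat.isCoprime_iff_coprime.mpr
          (primes_coprime p.2 q.2 (fun h => hpq (Subtype.ext h)))).pow) (fun p => cP p i)
    obtain ⟨c, hc⟩ := this
    have hN0 : (0 : ℤ) < modN m := by exact_mod_cast modN_pos m
    refine ⟨c % (modN m : ℤ), ?_, fun p hp => ?_⟩
    · rw [Finset.mem_Ico]
      exact ⟨Int.emod_nonneg _ hN0.ne', Int.emod_lt_of_pos _ hN0⟩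
    · have h1 : (p : ℤ) ^ m ∣ c - cP p i := Ideal.mem_span_singleton.mp (hc ⟨p, hp⟩)
      have h2 : (p : ℤ) ^ m ∣ (modN m : ℤ) := by
        exact_mod_cast dvd_modN (mem_primesUpTo.mp hp).2 (mem_primesUpTo.mp hp).1
      have h3 : (modN m : ℤ) ∣ c % (modN m : ℤ) - c := by
        have := Int.emod_add_mul_ediv c (modN m : ℤ)
        exact ⟨-(c / (modN m : ℤ)), by linarith⟩
      have := dvd_add (h2.trans h3) h1
      simpa using this
  choose c hc1 hc2 using hcrt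
  -- real data
  obtain ⟨r, hr0, hrn, hr1⟩ := real_norm_data y hy0
  have hgrid : ∀ i, ∃ t ∈ Finset.Icc (-(3 * m : ℤ)) (3 * m),
      |(y r)⁻¹ * y i - (t : ℝ) / (3 * m)| ≤ 1 / (3 * m) := by
    intro i
    have h1 := abs_le.mp (hr1 i)
    have h3 : (0:ℝ) < 3 * m := by linarith
    refine ⟨⌊(y r)⁻¹ * y i * (3 * m)⌋, ?_, ?_⟩
    · rw [Finset.mem_Icc]
      constructor
      · rw [Int.le_floor]
        push_cast
        have := mul_le_mul_of_nonneg_right h1.1 h3.le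
        linarith
      · have h4 : (⌊(y r)⁻¹ * y i * (3 * m)⌋ : ℝ) ≤ 3 * m := by
          refine (Int.floor_le _).trans ?_
          have := mul_le_mul_of_nonneg_right h1.2 h3.le
          linarith
        exact_mod_cast h4
    · have h4 := Int.floor_le ((y r)⁻¹ * y i * (3 * m))
      have h5 := Int.lt_floor_add_one ((y r)⁻¹ * y i * (3 * m))
      have h6 : (y r)⁻¹ * y i - (⌊(y r)⁻¹ * y i * (3 * m)⌋ : ℝ) / (3 * m) =
          ((y r)⁻¹ * y i * (3 * m) - ⌊(y r)⁻¹ * y i * (3 * m)⌋) / (3 * m) := by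
        field_simp
      rw [h6, abs_div, abs_of_pos h3]
      apply div_le_div_of_nonneg_right _ h3.le
      rw [abs_le]
      constructor <;> linarith
  choose t ht1 ht2 using hgrid
  have hmem : (c, t) ∈ targets ι m := by
    unfold targets
    rw [Finset.mem_product, Fintype.mem_piFinset, Fintype.mem_piFinset]
    exact ⟨hc1, ht1⟩
  have hL : LocSolT (modN m) c (fun i => (t i : ℝ) / (3 * m)) (1 / (3 * m)) f := by
    constructor
    · intro p hp E
      obtain ⟨r', x, hx1, hx2, hx3⟩ := hcP1 p hp E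
      refine ⟨r', x, hx1, hx2, fun a ha i => ?_⟩
      rcases pow_dvd_modN hp ha with ⟨h1, h2⟩ | h1
      · have h3 : (p : ℤ) ^ a ∣ (p : ℤ) ^ m := by exact_mod_cast h2
        refine h3.trans ?_
        have := dvd_sub (hx3 i) (hc2 i p (mem_primesUpTo.mpr ⟨h1, hp⟩))
        simpa using this
      · have h3 : (p : ℤ) ^ a = 1 := by exact_mod_cast h1
        rw [h3]; exact one_dvd _
    · refine ⟨r, fun i => (y r)⁻¹ * y i, inv_mul_cancel₀ hr0, hr1, ht2, ?_⟩
      rw [aeval_smul' hf, hyf, mul_zero]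
  obtain ⟨x, hx1, hx2, hx3, P, hP, hx4⟩ := h (c, t) hmem hL
  simp only at hx3 hx4
  refine ⟨fun i => (x i : ℚ), ?_, by rw [aeval_cast, hx2, Int.cast_zero], ?_, ?_⟩
  · intro h0
    apply hx1.ne_zero'
    funext i
    have := congrFun h0 i
    simp only [Pi.zero_apply] at this
    exact_mod_cast this
  · intro p hp hpm
    have := hcP2 p hp.out x (fun i => by
      have h1 : (p : ℤ) ^ m ∣ (modN m : ℤ) := by exact_mod_cast dvd_modN hp.out hpm
      have := dvd_add (h1.trans (hx3 i)) (hc2 i p (mem_primesUpTo.mpr ⟨hpm, hp.out⟩))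
      simpa using this)
    obtain ⟨c', h1, h2⟩ := this
    refine ⟨c', h1, fun i => ?_⟩
    have := h2 i
    simpa using this
  · refine ⟨y r / P, div_ne_zero hr0 hP.ne', fun i => ?_⟩
    have h1 := ht2 i
    have h2 := hx4 i
    have h3 : y i - y r / P * ((x i : ℚ) : ℝ) =
        y r * (((y r)⁻¹ * y i - (t i : ℝ) / (3 * m)) - ((x i : ℝ) - P * ((t i : ℝ) / (3 * m))) / P) := by
      push_cast
      field_simp
      ring
    have h6 : ‖y‖ / m = ‖y‖ * (1 / m) := div_eq_mul_one_div _ _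
    rw [h3, abs_mul, h6]
    apply mul_le_mul hrn _ (abs_nonneg _) (norm_nonneg _)
    refine (abs_sub _ _).trans ?_
    have h4 : |((x i : ℝ) - P * ((t i : ℝ) / (3 * m))) / P| ≤ 2 * (1 / (3 * m)) := by
      rw [abs_div, abs_of_pos hP, div_le_iff₀ hP]
      exact h2
    have h5 : (1 : ℝ) / m = 3 * (1 / (3 * m)) := by field_simp
    rw [h5]
    linarith

end

end Pool.Agent.Y716.Q
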